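import Pool.Agent.Lib.MP_67663b_nt.MR.MRShort
import Pool.Agent.Lib.MP_67663b_nt.Odd.MeanExists

set_option autoImplicit false
open Filter Topology MeasureTheory
namespace Pool.MP_67663b_nt.MR
open Pool.MP_67663b_nt.Odd

/-- An invariant mean below the upper limit of the logarithmic means. -/
def LogBound (M : IMean) : Prop :=
  ∀ f : ℕ → ℝ, Bdd f → ∀ c : ℝ, (∀ᶠ N in atTop, logMean f N ≤ c) → M.E f ≤ c

/-- It suffices to look at means of this kind. -/
theorem tendsto_of_logbound {f : ℕ → ℝ} (hf : Bdd f) (h : ∀ M : IMean, LogBound M → M.E f = 0) :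
    Tendsto (logMean f) atTop (𝓝 0) := by
  rw [Metric.tendsto_atTop]
  by_contra hcon
  push Not at hcon
  obtain ⟨ε, hε, hfreq⟩ := hcon
  set s : Set ℕ := {N | ε ≤ dist (logMean f N) 0} with hs
  have hne : (atTop ⊓ 𝓟 s : Filter ℕ).NeBot := by
    rw [inf_principal_neBot_iff]
    intro t ht
    obtain ⟨n0, hn0⟩ := mem_atTop_sets.mp ht
    obtain ⟨N, hN, hN2⟩ := hfreq n0
    exact ⟨N, hn0 N hN, hN2⟩
  set U : Ultrafilter ℕ := Ultrafilter.of (atTop ⊓ 𝓟 s) with hU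
  have h1 : (U : Filter ℕ) ≤ atTop ⊓ 𝓟 s := Ultrafilter.of_le _
  have hUt : (U : Filter ℕ) ≤ atTop := h1.trans inf_le_left
  obtain ⟨M, hM⟩ := exists_imean U hUt
  have hMb : LogBound M := fun g hg c hc => le_of_tendsto (hM g hg) (hUt hc)
  have h2 := hM f hf
  rw [h M hMb] at h2
  have h3 : ∀ᶠ N in (U : Filter ℕ), ε ≤ dist (logMean f N) 0 := by
    have : s ∈ (U : Filter ℕ) := h1 (mem_inf_of_right (mem_principal_self s))
    exact this
  have h4 : ∀ᶠ N in (U : Filter ℕ), dist (logMean f N) 0 < ε := h2 (Metric.ball_mem_nhds 0 hε)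
  obtain ⟨N, hN1, hN2⟩ := (h3.and h4).exists
  exact absurd hN1 (not_le.mpr hN2)

theorem BeattyAv_card {a : ℝ} (ha : 0 < a) (N m : ℕ) :
    (((Finset.Icc 1 N).filter (fun n => bt a n = m)).card : ℝ) ≤ 1 / a + 1 := by
  have hsub : (Finset.Icc 1 N).filter (fun n => bt a n = m) ⊆ Finset.Ico ⌈(m : ℝ) / a⌉₊ ⌈((m : ℝ) + 1) / a⌉₊ := by
    intro n hn
    rw [Finset.mem_filter] at hn
    obtain ⟨-, hn⟩ := hn
    unfold bt at hn
    have h0 : 0 ≤ a * (n : ℝ) := by positivity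
    rw [Nat.floor_eq_iff h0] at hn
    rw [Finset.mem_Ico]
    constructor
    · rw [Nat.ceil_le, div_le_iff₀ ha]
      linarith
    · rw [Nat.lt_ceil, lt_div_iff₀ ha]
      linarith
  have h1 := Finset.card_le_card hsub
  rw [Nat.card_Ico] at h1
  have hle : ⌈(m : ℝ) / a⌉₊ ≤ ⌈((m : ℝ) + 1) / a⌉₊ := by
    apply Nat.ceil_le_ceil
    gcongr
    linarith
  have h2 : ((⌈((m : ℝ) + 1) / a⌉₊ - ⌈(m : ℝ) / a⌉₊ : ℕ) : ℝ) ≤ 1 / a + 1 := by
    rw [Nat.cast_sub hle]
    have h3 := Nat.ceil_lt_add_one (show 0 ≤ ((m : ℝ) + 1) / a by positivity)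
    have h4 := Nat.le_ceil ((m : ℝ) / a)
    have h5 : ((m : ℝ) + 1) / a = (m : ℝ) / a + 1 / a := by ring
    linarith
  calc (((Finset.Icc 1 N).filter (fun n => bt a n = m)).card : ℝ)
      ≤ ((⌈((m : ℝ) + 1) / a⌉₊ - ⌈(m : ℝ) / a⌉₊ : ℕ) : ℝ) := by exact_mod_cast h1
    _ ≤ _ := h2

theorem BeattyAv_sum {a : ℝ} (ha : 0 < a) (g : ℕ → ℝ) (hg0 : ∀ m, 0 ≤ g m) (hg1 : ∀ m, g m ≤ 1) (N : ℕ) :
    ∑ n ∈ Finset.Icc 1 N, (1 / (n : ℝ)) * g (bt a n) ≤
      (1 / a + 1) + (1 + a) * ∑ m ∈ Finset.Icc 1 (bt a N), (1 / (m : ℝ)) * g m := by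
  have hmaps : ∀ n ∈ Finset.Icc 1 N, bt a n ∈ Finset.range (bt a N + 1) := by
    intro n hn
    rw [Finset.mem_Icc] at hn
    rw [Finset.mem_range, Nat.lt_succ_iff]
    unfold bt
    apply Nat.floor_le_floor
    have : (n : ℝ) ≤ N := by exact_mod_cast hn.2
    gcongr
  rw [← Finset.sum_fiberwise_of_maps_to hmaps, Finset.sum_range_succ', add_comm]
  refine add_le_add ?_ ?_
  · calc ∑ n ∈ (Finset.Icc 1 N).filter (fun n => bt a n = 0), (1 / (n : ℝ)) * g (bt a n)
        ≤ ∑ n ∈ (Finset.Icc 1 N).filter (fun n => bt a n = 0), (1 : ℝ) := by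
          refine Finset.sum_le_sum fun n hn => ?_
          rw [Finset.mem_filter, Finset.mem_Icc] at hn
          have h1 : (1 : ℝ) ≤ n := by exact_mod_cast hn.1.1
          have h2 : 1 / (n : ℝ) ≤ 1 := by
            rw [div_le_one (by linarith)]
            exact h1
          have h3 : 0 ≤ 1 / (n : ℝ) := by positivity
          have h4 := hg0 (bt a n)
          have h5 := hg1 (bt a n)
          nlinarith
      _ = (((Finset.Icc 1 N).filter (fun n => bt a n = 0)).card : ℝ) := by simp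
      _ ≤ _ := BeattyAv_card ha N 0
  · rw [Finset.mul_sum]
    have e : ∑ m ∈ Finset.Icc 1 (bt a N), (1 + a) * ((1 / (m : ℝ)) * g m) =
        ∑ m ∈ Finset.range (bt a N), (1 + a) * ((1 / ((m + 1 : ℕ) : ℝ)) * g (m + 1)) := by
      rw [Finset.range_eq_Ico, Finset.sum_Ico_add' (fun m : ℕ => (1 + a) * ((1 / (m : ℝ)) * g m)) 0 (bt a N) 1]
      rfl
    rw [e]
    refine Finset.sum_le_sum fun m _ => ?_
    have hm0 : (0 : ℝ) < ((m + 1 : ℕ) : ℝ) := by positivity
    calc ∑ n ∈ (Finset.Icc 1 N).filter (fun n => bt a n = m + 1), (1 / (n : ℝ)) * g (bt a n)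
        ≤ ∑ n ∈ (Finset.Icc 1 N).filter (fun n => bt a n = m + 1), (a / ((m + 1 : ℕ) : ℝ)) * g (m + 1) := by
          refine Finset.sum_le_sum fun n hn => ?_
          rw [Finset.mem_filter, Finset.mem_Icc] at hn
          obtain ⟨⟨hn1, -⟩, hn2⟩ := hn
          rw [hn2]
          have hn0 : (0 : ℝ) < n := by exact_mod_cast hn1
          have h1 : 1 / (n : ℝ) ≤ a / ((m + 1 : ℕ) : ℝ) := by
            rw [div_le_div_iff₀ hn0 hm0, one_mul, ← hn2]
            unfold bt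
            exact Nat.floor_le (by positivity)
          exact mul_le_mul_of_nonneg_right h1 (hg0 _)
      _ = (((Finset.Icc 1 N).filter (fun n => bt a n = m + 1)).card : ℝ) * ((a / ((m + 1 : ℕ) : ℝ)) * g (m + 1)) := by
          rw [Finset.sum_const, nsmul_eq_mul]
      _ ≤ (1 / a + 1) * ((a / ((m + 1 : ℕ) : ℝ)) * g (m + 1)) := by
          have := hg0 (m + 1)
          gcongr
          exact BeattyAv_card ha N (m + 1)
      _ = _ := by
          field_simp

/-- Short averages along a Beatty sequence are small on average. -/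
theorem beatty_av {a : ℝ} (ha : 0 < a) {ε : ℝ} (hε : 0 < ε) : ∃ x0 : ℕ, ∀ x ≥ x0, ∀ M : IMean, LogBound M →
    M.E (fun n => |av x (bt a n)|) ≤ ε := by
  obtain ⟨H0, hH0, hH⟩ := log_av (show 0 < ε / (4 * (1 + a)) by positivity)
  refine ⟨H0, fun x hx M hM => ?_⟩
  refine hM _ ⟨1, fun n => by rw [abs_abs]; exact abs_av_le _ _⟩ ε ?_
  have h1 := hH x hx
  have hbt : Tendsto (fun N : ℕ => bt a N) atTop atTop := by
    unfold bt
    exact tendsto_nat_floor_atTop.comp (tendsto_natCast_atTop_atTop.const_mul_atTop ha)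
  have h2 := hbt.eventually h1
  have hlog : Tendsto (fun N : ℕ => Real.log (N : ℝ)) atTop atTop :=
    Real.tendsto_log_atTop.comp tendsto_natCast_atTop_atTop
  filter_upwards [h2, hbt.eventually_ge_atTop 2, tendsto_natCast_atTop_atTop.eventually_ge_atTop (a : ℝ),
    eventually_ge_atTop 2, hlog.eventually_ge_atTop ((1 / a + 1) * 2 / ε)] with N hN1 hN2 hN3 hN4 hN5
  have hlN : 0 < Real.log (N : ℝ) := Real.log_pos (by exact_mod_cast (by omega : 1 < N))
  have hlb : 0 < Real.log ((bt a N : ℕ) : ℝ) := Real.log_pos (by exact_mod_cast (by omega : 1 < bt a N))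
  have hN0 : (0 : ℝ) < N := by exact_mod_cast (by omega : 0 < N)
  have hlb2 : Real.log ((bt a N : ℕ) : ℝ) ≤ 2 * Real.log N := by
    have h3 : ((bt a N : ℕ) : ℝ) ≤ (N : ℝ) ^ 2 := by
      have : ((bt a N : ℕ) : ℝ) ≤ a * N := by
        unfold bt
        exact Nat.floor_le (by positivity)
      nlinarith
    have h4 := Real.log_le_log (by exact_mod_cast (by omega : 0 < bt a N)) h3
    rw [Real.log_pow] at h4
    exact_mod_cast h4
  have h5 := BeattyAv_sum ha (fun m => |av x m|) (fun m => abs_nonneg _) (fun m => abs_av_le _ _) N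
  have h6 : ∑ m ∈ Finset.Icc 1 (bt a N), (1 / (m : ℝ)) * |av x m| =
      Real.log ((bt a N : ℕ) : ℝ) * logMean (fun n => |av x n|) (bt a N) := by
    unfold logMean
    field_simp
  have h7 : ∑ m ∈ Finset.Icc 1 (bt a N), (1 / (m : ℝ)) * |av x m| ≤ 2 * Real.log N * (ε / (4 * (1 + a))) := by
    rw [h6]
    calc Real.log ((bt a N : ℕ) : ℝ) * logMean (fun n => |av x n|) (bt a N)
        ≤ Real.log ((bt a N : ℕ) : ℝ) * (ε / (4 * (1 + a))) := by gcongr
      _ ≤ _ := by gcongr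
  unfold logMean
  have h8 : (1 / a + 1) ≤ Real.log N * (ε / 2) := by
    rw [div_le_iff₀ hε] at hN5
    linarith
  have h9 : (1 + a) * (2 * Real.log N * (ε / (4 * (1 + a)))) = Real.log N * (ε / 2) := by
    field_simp
    ring
  have h10 : ∑ n ∈ Finset.Icc 1 N, (1 / (n : ℝ)) * |av x (bt a n)| ≤ Real.log N * ε := by
    have h11 : (1 + a) * ∑ m ∈ Finset.Icc 1 (bt a N), (1 / (m : ℝ)) * |av x m| ≤
        (1 + a) * (2 * Real.log N * (ε / (4 * (1 + a)))) := by gcongr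
    linarith
  calc (1 / Real.log (N : ℝ)) * ∑ n ∈ Finset.Icc 1 N, (1 / (n : ℝ)) * |av x (bt a n)|
      ≤ (1 / Real.log (N : ℝ)) * (Real.log N * ε) := by gcongr
    _ = ε := by field_simp

end Pool.MP_67663b_nt.MR
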