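import Pool.Agent.Lib.MP_67663b_nt.MR.MDefs

set_option autoImplicit false
open Filter Topology MeasureTheory
namespace Pool.MP_67663b_nt.MR
open Pool.MP_67663b_nt.Odd

/-- Discretisation of an integral by well spaced points. -/
theorem disc_le (f : ℝ → ℝ) (hf : Continuous f) (hf0 : ∀ t, 0 ≤ f t) (U : Set ℝ) (hU : MeasurableSet U) (X : ℝ)
    (hUX : U ⊆ Set.Icc (-X) X) :
    ∃ S : Finset ℝ, Spaced S ∧ (∀ t ∈ S, t ∈ U) ∧ ∫ t in U, f t ≤ 4 * ∑ t ∈ S, f t := by
  classical
  set C : ℤ → Set ℝ := fun n => U ∩ Set.Ico (n : ℝ) (n + 1) with hC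
  set I : ℤ → ℝ := fun n => ∫ t in C n, f t with hI
  set R : Finset ℤ := Finset.Icc ⌊-X⌋ ⌊X⌋ with hR
  have hCm : ∀ n, MeasurableSet (C n) := fun n => hU.inter measurableSet_Ico
  have hCint : ∀ n : ℤ, IntegrableOn f (C n) := fun n =>
    ((hf.integrableOn_Icc (a := (n : ℝ)) (b := (n : ℝ) + 1)).mono_set Set.Ico_subset_Icc_self).mono_set
      Set.inter_subset_right
  have hI0 : ∀ n, 0 ≤ I n := fun n => integral_nonneg fun t => hf0 t
  have hdis : Set.PairwiseDisjoint (R : Set ℤ) C := by
    have haux : ∀ v w : ℤ, v < w → Disjoint (C v) (C w) := by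
      intro v w hvw
      rw [Set.disjoint_left]
      rintro y ⟨_, hy⟩ ⟨_, hy2⟩
      have h1 : (v : ℝ) + 1 ≤ w := by exact_mod_cast hvw
      linarith [hy.2, hy2.1]
    intro v _ w _ hvw
    rcases lt_or_gt_of_ne hvw with h | h
    · exact haux v w h
    · exact (haux w v h).symm
  have hUeq : U = ⋃ n ∈ R, C n := by
    ext t
    simp only [Set.mem_iUnion, hC]
    constructor
    · intro ht
      have h1 := hUX ht
      refine ⟨⌊t⌋, ?_, ht, ?_⟩
      · rw [hR, Finset.mem_Icc]
        exact ⟨Int.floor_le_floor h1.1, Int.floor_le_floor h1.2⟩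
      · exact ⟨Int.floor_le t, Int.lt_floor_add_one t⟩
    · rintro ⟨n, _, ht⟩
      exact ht.1
  have hsum : ∫ t in U, f t = ∑ n ∈ R, I n := by
    nth_rewrite 1 [hUeq]
    exact integral_biUnion_finset R (fun n _ => hCm n) hdis (fun n _ => hCint n)
  have hchoice : ∀ n : ℤ, ∃ t : ℝ, 0 < I n → t ∈ C n ∧ I n ≤ 2 * f t := by
    intro n
    by_cases hn : 0 < I n
    · by_contra hcon
      push Not at hcon
      have hlt : ∀ t ∈ C n, f t ≤ I n / 2 := by
        intro t ht
        have := (hcon t).2 ht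
        linarith
      have h1 : I n ≤ ∫ _ in C n, I n / 2 := by
        refine setIntegral_mono_on (hCint n) ?_ (hCm n) hlt
        refine integrableOn_const ?_
        refine ne_of_lt (lt_of_le_of_lt (measure_mono Set.inter_subset_right) ?_)
        rw [Real.volume_Ico]
        exact ENNReal.ofReal_lt_top
      rw [setIntegral_const, smul_eq_mul] at h1
      have h2 : volume.real (C n) ≤ 1 := by
        have h3 : volume.real (C n) ≤ volume.real (Set.Ico (n : ℝ) (n + 1)) := by
          refine measureReal_mono Set.inter_subset_right ?_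
          rw [Real.volume_Ico]
          exact ENNReal.ofReal_ne_top
        rw [Real.volume_real_Ico_of_le (by linarith)] at h3
        linarith
      nlinarith
    · exact ⟨0, fun h => absurd h hn⟩
  choose τ hτ using hchoice
  have hsp : ∀ (P : ℤ → Prop) [DecidablePred P], (∀ m n : ℤ, P m → P n → m < n → m + 2 ≤ n) →
      ∃ S : Finset ℝ, Spaced S ∧ (∀ t ∈ S, t ∈ U) ∧
        ∑ n ∈ R.filter P, I n ≤ 2 * ∑ t ∈ S, f t := by
    intro P _ hP
    set T : Finset ℤ := R.filter (fun n => P n ∧ 0 < I n) with hT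
    have hgap : ∀ m ∈ T, ∀ n ∈ T, m < n → 1 ≤ τ n - τ m := by
      intro m hm n hn hmn
      rw [hT, Finset.mem_filter] at hm hn
      have h1 := hP m n hm.2.1 hn.2.1 hmn
      have h2 := (hτ m hm.2.2).1.2
      have h3 := (hτ n hn.2.2).1.2
      have h4 : (m : ℝ) + 2 ≤ n := by exact_mod_cast h1
      linarith [h2.2, h3.1]
    have hinj : Set.InjOn τ (T : Set ℤ) := by
      intro m hm n hn hmn
      by_contra hne
      rcases lt_or_gt_of_ne hne with h | h
      · have := hgap m hm n hn h
        rw [hmn] at this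
        linarith
      · have := hgap n hn m hm h
        rw [hmn] at this
        linarith
    refine ⟨T.image τ, ?_, ?_, ?_⟩
    · intro x hx y hy hxy
      rw [Finset.mem_image] at hx hy
      obtain ⟨m, hm, rfl⟩ := hx
      obtain ⟨n, hn, rfl⟩ := hy
      have hmn : m ≠ n := fun h => hxy (by rw [h])
      rcases lt_or_gt_of_ne hmn with h | h
      · have := hgap m hm n hn h
        rw [abs_sub_comm]
        exact this.trans (le_abs_self _)
      · exact (hgap n hn m hm h).trans (le_abs_self _)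
    · intro t ht
      rw [Finset.mem_image] at ht
      obtain ⟨m, hm, rfl⟩ := ht
      rw [hT, Finset.mem_filter] at hm
      exact (hτ m hm.2.2).1.1
    · rw [Finset.sum_image hinj, Finset.mul_sum]
      have h1 : ∑ n ∈ R.filter P, I n = ∑ n ∈ T, I n := by
        symm
        refine Finset.sum_subset (fun n hn => ?_) (fun n hn hn2 => ?_)
        · rw [hT, Finset.mem_filter] at hn
          rw [Finset.mem_filter]
          exact ⟨hn.1, hn.2.1⟩
        · rw [Finset.mem_filter] at hn
          rw [hT, Finset.mem_filter] at hn2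
          have h2 : ¬ 0 < I n := fun h => hn2 ⟨hn.1, hn.2, h⟩
          exact le_antisymm (not_lt.mp h2) (hI0 n)
      rw [h1]
      refine Finset.sum_le_sum fun n hn => ?_
      rw [hT, Finset.mem_filter] at hn
      exact (hτ n hn.2.2).2
  obtain ⟨S1, hS1, hS1U, hS1s⟩ := hsp (fun n => Even n) (fun m n hm hn hmn => by
    obtain ⟨a, ha⟩ := hm
    obtain ⟨b, hb⟩ := hn
    omega)
  obtain ⟨S2, hS2, hS2U, hS2s⟩ := hsp (fun n => ¬ Even n) (fun m n hm hn hmn => by
    rw [Int.not_even_iff_odd] at hm hn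
    obtain ⟨a, ha⟩ := hm
    obtain ⟨b, hb⟩ := hn
    omega)
  have hsplit := Finset.sum_filter_add_sum_filter_not R (fun n : ℤ => Even n) I
  rw [hsum, ← hsplit]
  rcases le_total (∑ n ∈ R.filter (fun n => Even n), I n)
    (∑ n ∈ R.filter (fun n => ¬ Even n), I n) with h | h
  · exact ⟨S2, hS2, hS2U, by linarith⟩
  · exact ⟨S1, hS1, hS1U, by linarith⟩

end Pool.MP_67663b_nt.MR
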