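import Pool.Agent.Lib.MP_67663b_nt.MR.MDefs

set_option autoImplicit false
open Filter Topology MeasureTheory
namespace Pool.MP_67663b_nt.MR
open Pool.MP_67663b_nt.Odd

/-- iterated differences of the logarithm: `Fl [] x = log x`, `Fl (h :: l) x = Fl l (x + h) - Fl l x` -/
noncomputable def Fl : List ℕ → ℝ → ℝ
  | [], x => Real.log x
  | (h :: l), x => Fl l (x + h) - Fl l x

private noncomputable def expFl_G : ℕ → ℝ → ℝ
  | 0, x => Real.log x
  | (m + 1), x => (-1) ^ m * (m.factorial : ℝ) / x ^ (m + 1)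

private noncomputable def expFl_D (f : ℝ → ℝ) : List ℕ → ℝ → ℝ
  | [], x => f x
  | (h :: l), x => expFl_D f l (x + h) - expFl_D f l x

private lemma expFl_eq (l : List ℕ) (x : ℝ) : Fl l x = expFl_D (expFl_G 0) l x := by
  induction l generalizing x with
  | nil => rfl
  | cons h l ih => simp only [Fl, expFl_D, ih]

private lemma expFl_G_deriv (m : ℕ) (x : ℝ) (hx : 0 < x) :
    HasDerivAt (expFl_G m) (expFl_G (m + 1) x) x := by
  cases m with
  | zero =>
    have h := Real.hasDerivAt_log hx.ne'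
    have e : expFl_G (0 + 1) x = x⁻¹ := by simp [expFl_G]
    rw [e]
    exact h
  | succ m =>
    have h1 : HasDerivAt (fun y : ℝ => y ^ (m + 1)) (((m + 1 : ℕ) : ℝ) * x ^ m) x := by
      simpa using hasDerivAt_pow (m + 1) x
    have hne : x ^ (m + 1) ≠ 0 := pow_ne_zero _ hx.ne'
    have h2 := (h1.inv hne).const_mul ((-1 : ℝ) ^ m * (m.factorial : ℝ))
    have e1 : expFl_G (m + 1) = fun y : ℝ => ((-1 : ℝ) ^ m * (m.factorial : ℝ)) * (y ^ (m + 1))⁻¹ := by
      funext y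
      simp only [expFl_G, div_eq_mul_inv]
    have e2 : expFl_G (m + 1 + 1) x = (-1 : ℝ) ^ m * (m.factorial : ℝ) *
        (-(((m + 1 : ℕ) : ℝ) * x ^ m) / (x ^ (m + 1)) ^ 2) := by
      simp only [expFl_G, Nat.factorial_succ, pow_succ]
      push_cast
      field_simp
    rw [e1, e2]
    exact h2

private lemma expFl_D_deriv (m : ℕ) (l : List ℕ) (x : ℝ) (hx : 0 < x) :
    HasDerivAt (expFl_D (expFl_G m) l) (expFl_D (expFl_G (m + 1)) l x) x := by
  induction l generalizing x with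
  | nil => exact expFl_G_deriv m x hx
  | cons h l ih =>
    have h1 : HasDerivAt (fun y : ℝ => expFl_D (expFl_G m) l (y + h))
        (expFl_D (expFl_G (m + 1)) l (x + h)) x := by
      have := ih (x + h) (by positivity)
      exact this.comp_add_const x (h : ℝ)
    exact h1.sub (ih x hx)

private lemma expFl_mvt (m : ℕ) (l : List ℕ) (x y : ℝ) (hx : 0 < x) (hxy : x < y) :
    ∃ ξ, x < ξ ∧ ξ < y ∧ expFl_D (expFl_G m) l y - expFl_D (expFl_G m) l x =
      (y - x) * expFl_D (expFl_G (m + 1)) l ξ := by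
  obtain ⟨ξ, hξ, h⟩ := exists_hasDerivAt_eq_slope (expFl_D (expFl_G m) l)
    (expFl_D (expFl_G (m + 1)) l) hxy
    (fun z hz => (expFl_D_deriv m l z (lt_of_lt_of_le hx hz.1)).continuousAt.continuousWithinAt)
    (fun z hz => expFl_D_deriv m l z (lt_trans hx hz.1))
  refine ⟨ξ, hξ.1, hξ.2, ?_⟩
  rw [h]
  have : y - x ≠ 0 := by linarith
  field_simp

private lemma expFl_main (l : List ℕ) : ∀ (m : ℕ) (_ : ∀ h ∈ l, 1 ≤ h) (x : ℝ) (_ : 0 < x),
    ∃ ξ, x ≤ ξ ∧ ξ ≤ x + ((l.sum : ℕ) : ℝ) ∧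
      expFl_D (expFl_G m) l x = ((l.prod : ℕ) : ℝ) * expFl_G (m + l.length) ξ := by
  induction l with
  | nil =>
    intro m _ x hx
    exact ⟨x, le_rfl, by simp, by simp [expFl_D]⟩
  | cons h l ih =>
    intro m hpos x hx
    have hh : 1 ≤ h := hpos h (by simp)
    have hh' : (1 : ℝ) ≤ (h : ℝ) := by exact_mod_cast hh
    obtain ⟨ξ₁, h1, h2, h3⟩ := expFl_mvt m l x (x + h) hx (by linarith)
    obtain ⟨ξ, h4, h5, h6⟩ := ih (m + 1) (fun k hk => hpos k (by simp [hk])) ξ₁ (by linarith)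
    refine ⟨ξ, by linarith, ?_, ?_⟩
    · rw [List.sum_cons, Nat.cast_add]
      linarith
    · have e : m + (h :: l).length = m + 1 + l.length := by
        rw [List.length_cons]; ring
      rw [e, List.prod_cons]
      change expFl_D (expFl_G m) l (x + h) - expFl_D (expFl_G m) l x = _
      rw [h3, h6]
      push_cast
      ring

/-- Bounds for the iterated differences (`l` nonempty). Proof: for `x > 0`,
`(-1)^(l.length+1) * Fl l x = ∫_0^∞ e^{-xs} ∏ (1 - e^{-h s}) ds/s`; or by iterated integrals of the derivatives of `log`: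
`Fl l x = ∫_0^{h_1} .. ∫_0^{h_k} log^{(k)}(x + s_1 + .. + s_k)`. -/
theorem Fl_bounds (l : List ℕ) (hl : l ≠ []) (hpos : ∀ h ∈ l, 1 ≤ h) {x : ℝ} (hx : 0 < x) :
    (l.length - 1).factorial * ((l.prod : ℕ) : ℝ) / (x + ((l.sum : ℕ) : ℝ)) ^ l.length ≤
      (-1 : ℝ) ^ (l.length + 1) * Fl l x ∧
    (-1 : ℝ) ^ (l.length + 1) * Fl l x ≤
      (l.length - 1).factorial * ((l.prod : ℕ) : ℝ) / x ^ l.length := by
  obtain ⟨ξ, h1, h2, h3⟩ := expFl_main l 0 hpos x hx
  obtain ⟨k, hk⟩ : ∃ k, l.length = k + 1 :=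
    ⟨l.length - 1, by have := List.length_pos_iff.2 hl; omega⟩
  have hξ : 0 < ξ := lt_of_lt_of_le hx h1
  have e : (-1 : ℝ) ^ (l.length + 1) * Fl l x =
      (l.length - 1).factorial * ((l.prod : ℕ) : ℝ) / ξ ^ l.length := by
    have hz : 0 + (k + 1) = k + 1 := by omega
    rw [expFl_eq, h3, hk, hz]
    simp only [Nat.add_sub_cancel, expFl_G]
    have h4 : (-1 : ℝ) ^ (k + 1 + 1) * (-1) ^ k = 1 := by
      rw [← pow_add]
      exact Even.neg_one_pow ⟨k + 1, by ring⟩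
    calc (-1 : ℝ) ^ (k + 1 + 1) * (((l.prod : ℕ) : ℝ) * ((-1) ^ k * (k.factorial : ℝ) / ξ ^ (k + 1)))
        = ((-1 : ℝ) ^ (k + 1 + 1) * (-1) ^ k) *
          ((k.factorial : ℝ) * ((l.prod : ℕ) : ℝ) / ξ ^ (k + 1)) := by ring
      _ = _ := by rw [h4, one_mul]
  rw [e]
  have hnum : 0 ≤ ((l.length - 1).factorial : ℝ) * ((l.prod : ℕ) : ℝ) := by positivity
  constructor
  · exact div_le_div_of_nonneg_left hnum (by positivity) (pow_le_pow_left₀ hξ.le h2 _)
  · exact div_le_div_of_nonneg_left hnum (by positivity) (pow_le_pow_left₀ hx.le h1 _)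

/-- monotonicity in `x` (`l` nonempty) -/
theorem Fl_anti (l : List ℕ) (hl : l ≠ []) (hpos : ∀ h ∈ l, 1 ≤ h) {x y : ℝ} (hx : 0 < x) (hxy : x ≤ y) :
    (-1 : ℝ) ^ (l.length + 1) * Fl l y ≤ (-1 : ℝ) ^ (l.length + 1) * Fl l x := by
  rcases eq_or_lt_of_le hxy with rfl | hlt
  · exact le_rfl
  obtain ⟨ξ₁, h1, h2, h3⟩ := expFl_mvt 0 l x y hx hlt
  obtain ⟨ξ, h4, h5, h6⟩ := expFl_main l 1 hpos ξ₁ (by linarith)
  have hξ : 0 < ξ := by linarith
  have e : (-1 : ℝ) ^ (l.length + 1) * Fl l y - (-1 : ℝ) ^ (l.length + 1) * Fl l x =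
      -((y - x) * (((l.prod : ℕ) : ℝ) * ((l.length.factorial : ℝ) / ξ ^ (l.length + 1)))) := by
    rw [← mul_sub, expFl_eq, expFl_eq, h3]
    simp only [zero_add]
    rw [h6]
    have e1 : 1 + l.length = l.length + 1 := by ring
    rw [e1]
    simp only [expFl_G]
    have h7 : (-1 : ℝ) ^ (l.length + 1) * (-1) ^ l.length = -1 := by
      rw [← pow_add]
      exact Odd.neg_one_pow ⟨l.length, by ring⟩
    calc (-1 : ℝ) ^ (l.length + 1) * ((y - x) * (((l.prod : ℕ) : ℝ) *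
          ((-1) ^ l.length * (l.length.factorial : ℝ) / ξ ^ (l.length + 1))))
        = ((-1 : ℝ) ^ (l.length + 1) * (-1) ^ l.length) * ((y - x) * (((l.prod : ℕ) : ℝ) *
          ((l.length.factorial : ℝ) / ξ ^ (l.length + 1)))) := by ring
      _ = _ := by rw [h7]; ring
  have hnn : 0 ≤ (y - x) * (((l.prod : ℕ) : ℝ) * ((l.length.factorial : ℝ) / ξ ^ (l.length + 1))) := by
    have : 0 ≤ y - x := by linarith
    positivity
  linarith

/-- the order of two differences does not matter -/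
theorem Fl_swap (h k : ℕ) (l : List ℕ) (x : ℝ) : Fl (h :: k :: l) x = Fl (k :: h :: l) x := by
  simp only [Fl]
  ring_nf

end Pool.MP_67663b_nt.MR
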