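import Pool.Agent.Lib.MP_67663b_nt.MR.MDefs

set_option autoImplicit false
open Filter Topology MeasureTheory
namespace Pool.MP_67663b_nt.MR
open Pool.MP_67663b_nt.Odd

/-- `e(x)` without the `2π` : `exp(i x)` -/
noncomputable def ex (x : ℝ) : ℂ := Complex.exp ((x : ℂ) * Complex.I)

private lemma expKL_norm (x : ℝ) : ‖ex x‖ = 1 := Complex.norm_exp_ofReal_mul_I x

private lemma expKL_add (x y : ℝ) : ex (x + y) = ex x * ex y := by
  unfold ex
  rw [← Complex.exp_add]
  congr 1
  push_cast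
  ring

private noncomputable def expKL_c (d : ℝ) : ℝ := Real.cos (d / 2) / Real.sin (d / 2)

private noncomputable def expKL_w (d : ℝ) : ℂ := -(1 / 2) - ((expKL_c d : ℝ) : ℂ) / 2 * Complex.I

private lemma expKL_w_mul (d : ℝ) (h0 : 0 < d) (hpi : d ≤ Real.pi) :
    expKL_w d * (ex d - 1) = 1 := by
  have hs : 0 < Real.sin (d / 2) := Real.sin_pos_of_pos_of_lt_pi (by linarith) (by
    have := Real.pi_pos; linarith)
  have h1 : Real.cos d = 1 - 2 * Real.sin (d / 2) ^ 2 := by
    have : d = 2 * (d / 2) := by ring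
    conv_lhs => rw [this, Real.cos_two_mul]
    have := Real.sin_sq_add_cos_sq (d / 2)
    linarith
  have h2 : Real.sin d = 2 * Real.sin (d / 2) * Real.cos (d / 2) := by
    have : d = 2 * (d / 2) := by ring
    conv_lhs => rw [this, Real.sin_two_mul]
  have h3 : ex d = ((Real.cos d : ℝ) : ℂ) + ((Real.sin d : ℝ) : ℂ) * Complex.I := by
    unfold ex
    rw [Complex.exp_mul_I, Complex.ofReal_cos, Complex.ofReal_sin]
  have hcs : expKL_c d * Real.sin (d / 2) = Real.cos (d / 2) := div_mul_cancel₀ _ hs.ne'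
  have hsc := Real.sin_sq_add_cos_sq (d / 2)
  have hcs' : ((expKL_c d : ℝ) : ℂ) * ((Real.sin (d / 2) : ℝ) : ℂ) = ((Real.cos (d / 2) : ℝ) : ℂ) := by
    rw [← hcs]; push_cast; ring
  have hsc' : ((Real.sin (d / 2) : ℝ) : ℂ) ^ 2 + ((Real.cos (d / 2) : ℝ) : ℂ) ^ 2 = 1 := by
    rw [← Complex.ofReal_pow, ← Complex.ofReal_pow, ← Complex.ofReal_add, hsc, Complex.ofReal_one]
  unfold expKL_w
  rw [h3, h1, h2]
  generalize ((expKL_c d : ℝ) : ℂ) = c at *
  rw [Complex.ofReal_sub, Complex.ofReal_mul, Complex.ofReal_mul, Complex.ofReal_mul,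
    Complex.ofReal_pow]
  generalize ((Real.sin (d / 2) : ℝ) : ℂ) = s at *
  generalize ((Real.cos (d / 2) : ℝ) : ℂ) = k at *
  push_cast
  have hI : Complex.I ^ 2 = -1 := Complex.I_sq
  linear_combination hsc' + (k + Complex.I * s) * hcs' - c * s * k * hI

private lemma expKL_c_nonneg (d : ℝ) (h0 : 0 < d) (hpi : d ≤ Real.pi) : 0 ≤ expKL_c d := by
  have hs : 0 < Real.sin (d / 2) := Real.sin_pos_of_pos_of_lt_pi (by linarith) (by
    have := Real.pi_pos; linarith)
  have hc : 0 ≤ Real.cos (d / 2) := Real.cos_nonneg_of_neg_pi_div_two_le_of_le (by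
    have := Real.pi_pos; linarith) (by linarith)
  exact div_nonneg hc hs.le

private lemma expKL_c_anti (d e : ℝ) (h0 : 0 < d) (hde : d ≤ e) (hpi : e ≤ Real.pi) :
    expKL_c e ≤ expKL_c d := by
  have hpp := Real.pi_pos
  have hs : 0 < Real.sin (d / 2) := Real.sin_pos_of_pos_of_lt_pi (by linarith) (by linarith)
  have hc : 0 ≤ Real.cos (d / 2) := Real.cos_nonneg_of_neg_pi_div_two_le_of_le (by linarith)
    (by linarith)
  have h1 : Real.sin (d / 2) ≤ Real.sin (e / 2) :=
    Real.sin_le_sin_of_le_of_le_pi_div_two (by linarith) (by linarith) (by linarith)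
  have h2 : Real.cos (e / 2) ≤ Real.cos (d / 2) :=
    Real.cos_le_cos_of_nonneg_of_le_pi (by linarith) (by linarith) (by linarith)
  exact div_le_div₀ hc h2 hs h1

private lemma expKL_c_le (d θ : ℝ) (h0 : 0 < θ) (hd : θ ≤ d) (hpi : d ≤ Real.pi) :
    expKL_c d ≤ Real.pi / θ := by
  have hpp := Real.pi_pos
  have h1 : 2 / Real.pi * (d / 2) ≤ Real.sin (d / 2) :=
    Real.mul_le_sin (by linarith) (by linarith)
  have h2 : θ / Real.pi ≤ Real.sin (d / 2) := by
    refine le_trans ?_ h1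
    rw [div_mul_div_comm, mul_comm Real.pi 2, mul_div_mul_left _ _ (by norm_num : (2 : ℝ) ≠ 0)]
    exact div_le_div_of_nonneg_right hd hpp.le
  have h3 : 0 < θ / Real.pi := div_pos h0 hpp
  calc expKL_c d ≤ 1 / (θ / Real.pi) :=
        div_le_div₀ zero_le_one (Real.cos_le_one _) h3 h2
    _ = Real.pi / θ := by rw [one_div_div]

private lemma expKL_w_norm (d θ : ℝ) (h0 : 0 < θ) (hd : θ ≤ d) (hpi : d ≤ Real.pi) :
    ‖expKL_w d‖ ≤ 1 / 2 + Real.pi / θ / 2 := by
  unfold expKL_w
  refine (norm_sub_le _ _).trans ?_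
  have h1 := expKL_c_le d θ h0 hd hpi
  have h2 := expKL_c_nonneg d (by linarith) hpi
  have e0 : ‖((expKL_c d : ℝ) : ℂ) / 2‖ = expKL_c d / 2 := by
    rw [norm_div, Complex.norm_real, Real.norm_of_nonneg h2, Complex.norm_ofNat]
  have e1 : ‖(1 / 2 : ℂ)‖ = 1 / 2 := by norm_num
  rw [norm_neg, norm_mul, Complex.norm_I, mul_one, e0, e1]
  linarith

private lemma expKL_w_sub (d e : ℝ) : ‖expKL_w d - expKL_w e‖ = |expKL_c d - expKL_c e| / 2 := by
  have : expKL_w d - expKL_w e = (((-(expKL_c d - expKL_c e) / 2 : ℝ)) : ℂ) * Complex.I := by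
    unfold expKL_w
    push_cast
    ring
  rw [this, norm_mul, Complex.norm_I, mul_one, Complex.norm_real, Real.norm_eq_abs, abs_div,
    abs_neg, abs_two]

/-- the telescoping estimate -/
private lemma expKL_tel (g : ℕ → ℝ) (σ : ℝ) (A : ℕ) (k : ℕ)
    (hd : ∀ n, A ≤ n → n < A + k + 1 → 0 < g (n + 1) - g n ∧ g (n + 1) - g n ≤ Real.pi)
    (hσ : ∀ n, A ≤ n → n + 1 < A + k + 1 →
      |expKL_c (g (n + 1) - g n) - expKL_c (g (n + 2) - g (n + 1))| ≤
        σ * (expKL_c (g (n + 1) - g n) - expKL_c (g (n + 2) - g (n + 1)))) :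
    ‖∑ n ∈ Finset.Ico A (A + k + 1), ex (g n) - ex (g (A + k + 1)) * expKL_w (g (A + k + 1) - g (A + k))‖
      ≤ ‖expKL_w (g (A + 1) - g A)‖ +
        σ * (expKL_c (g (A + 1) - g A) - expKL_c (g (A + k + 1) - g (A + k))) / 2 := by
  have key : ∀ n, A ≤ n → n < A + k + 1 →
      ex (g n) = (ex (g (n + 1)) - ex (g n)) * expKL_w (g (n + 1) - g n) := by
    intro n h1 h2
    obtain ⟨h3, h4⟩ := hd n h1 h2
    have h5 := expKL_w_mul _ h3 h4
    have h6 : ex (g (n + 1)) = ex (g n) * ex (g (n + 1) - g n) := by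
      rw [← expKL_add]; congr 1; ring
    rw [h6]
    linear_combination (-ex (g n)) * h5
  induction k with
  | zero =>
    have h := key A le_rfl (by omega)
    simp only [add_zero, Finset.sum_Ico_succ_top (le_refl A), Finset.Ico_self, Finset.sum_empty,
      zero_add, sub_self, mul_zero, zero_div]
    have : ex (g A) - ex (g (A + 1)) * expKL_w (g (A + 1) - g A) =
        - (ex (g A) * expKL_w (g (A + 1) - g A)) := by
      linear_combination h
    rw [this, norm_neg, norm_mul, expKL_norm, one_mul]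
  | succ k ih =>
    have ih' := ih (fun n h1 h2 => hd n h1 (by omega)) (fun n h1 h2 => hσ n h1 (by omega))
      (fun n h1 h2 => key n h1 (by omega))
    have h := key (A + k + 1) (by omega) (by omega)
    have hs := hσ (A + k) (by omega) (by omega)
    have e1 : A + (k + 1) + 1 = (A + k + 1) + 1 := by ring
    have e2 : A + (k + 1) = A + k + 1 := by ring
    rw [e1, e2, Finset.sum_Ico_succ_top (by omega : A ≤ A + k + 1)]
    have h3 : ∑ n ∈ Finset.Ico A (A + k + 1), ex (g n) + ex (g (A + k + 1)) -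
        ex (g (A + k + 1 + 1)) * expKL_w (g (A + k + 1 + 1) - g (A + k + 1)) =
        (∑ n ∈ Finset.Ico A (A + k + 1), ex (g n) -
          ex (g (A + k + 1)) * expKL_w (g (A + k + 1) - g (A + k))) +
        ex (g (A + k + 1)) * (expKL_w (g (A + k + 1) - g (A + k)) -
          expKL_w (g (A + k + 1 + 1) - g (A + k + 1))) := by
      linear_combination h
    rw [h3]
    refine (norm_add_le _ _).trans ?_
    rw [norm_mul, expKL_norm, one_mul, expKL_w_sub]
    have hs' : |expKL_c (g (A + k + 1) - g (A + k)) - expKL_c (g (A + k + 1 + 1) - g (A + k + 1))| ≤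
        σ * (expKL_c (g (A + k + 1) - g (A + k)) -
          expKL_c (g (A + k + 1 + 1) - g (A + k + 1))) := hs
    linarith

/-- Kuzmin-Landau, simple form: differences `g (n+1) - g n` antitone (or monotone) on `[A,B)` and in `[θ, π]`. Proof: with
`d_n = g (n+1) - g n`, `ex (g n) = (ex (g (n+1)) - ex (g n)) / (ex d_n - 1)`, summation by parts, the total variation of
`1/(ex d - 1) = -1/2 - (i/2) cot (d/2)` is monotone in `d`. -/
theorem kuzmin_landau : ∃ C : ℝ, 0 < C ∧ ∀ (g : ℕ → ℝ) (A B : ℕ) (θ : ℝ), 0 < θ → A ≤ B →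
    (∀ n, A ≤ n → n < B → θ ≤ g (n + 1) - g n ∧ g (n + 1) - g n ≤ Real.pi) →
    ((∀ n, A ≤ n → n + 1 < B → g (n + 2) - g (n + 1) ≤ g (n + 1) - g n) ∨
      (∀ n, A ≤ n → n + 1 < B → g (n + 1) - g n ≤ g (n + 2) - g (n + 1))) →
    ‖∑ n ∈ Finset.Ioc A B, ex (g n)‖ ≤ C / θ := by
  refine ⟨20, by norm_num, ?_⟩
  intro g A B θ hθ hAB hd hmono
  rcases Nat.eq_or_lt_of_le hAB with rfl | hlt
  · simp only [Finset.Ioc_self, Finset.sum_empty, norm_zero]
    positivity
  obtain ⟨k, rfl⟩ : ∃ k, B = A + k + 1 := ⟨B - A - 1, by omega⟩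
  have hpp := Real.pi_pos
  have hpi4 := Real.pi_lt_four
  have hA := hd A le_rfl (by omega)
  have hB := hd (A + k) (by omega) (by omega)
  have hθpi : θ ≤ Real.pi := hA.1.trans hA.2
  have htel : ‖∑ n ∈ Finset.Ico A (A + k + 1), ex (g n) -
      ex (g (A + k + 1)) * expKL_w (g (A + k + 1) - g (A + k))‖ ≤
        1 / 2 + Real.pi / θ / 2 + Real.pi / θ / 2 := by
    have hcA := expKL_c_le _ θ hθ hA.1 hA.2
    have hcB := expKL_c_le _ θ hθ hB.1 hB.2
    have hcA0 := expKL_c_nonneg _ (lt_of_lt_of_le hθ hA.1) hA.2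
    have hcB0 := expKL_c_nonneg _ (lt_of_lt_of_le hθ hB.1) hB.2
    have hwA := expKL_w_norm _ θ hθ hA.1 hA.2
    rcases hmono with hm | hm
    · refine (expKL_tel g (-1) A k (fun n h1 h2 => ⟨lt_of_lt_of_le hθ (hd n h1 h2).1, (hd n h1 h2).2⟩)
        (fun n h1 h2 => ?_)).trans ?_
      · have := expKL_c_anti _ _ (lt_of_lt_of_le hθ (hd (n + 1) (by omega) h2).1) (hm n h1 h2)
          (hd n h1 (by omega)).2
        rw [abs_of_nonpos (by linarith)]
        linarith
      · linarith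
    · refine (expKL_tel g 1 A k (fun n h1 h2 => ⟨lt_of_lt_of_le hθ (hd n h1 h2).1, (hd n h1 h2).2⟩)
        (fun n h1 h2 => ?_)).trans ?_
      · have := expKL_c_anti _ _ (lt_of_lt_of_le hθ (hd n h1 (by omega)).1) (hm n h1 h2)
          (hd (n + 1) (by omega) h2).2
        rw [abs_of_nonneg (by linarith)]
        linarith
      · linarith
  have hwB := expKL_w_norm _ θ hθ hB.1 hB.2
  have hshift : ∑ n ∈ Finset.Ioc A (A + k + 1), ex (g n) =
      ∑ n ∈ Finset.Ico A (A + k + 1), ex (g n) + ex (g (A + k + 1)) - ex (g A) := by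
    have h1 : ∑ n ∈ Finset.Icc A (A + k + 1), ex (g n) =
        ∑ n ∈ Finset.Ico A (A + k + 1), ex (g n) + ex (g (A + k + 1)) := by
      rw [← Finset.sum_Ico_succ_top (by omega : A ≤ A + k + 1)]
      rfl
    have h2 : ∑ n ∈ Finset.Icc A (A + k + 1), ex (g n) =
        ex (g A) + ∑ n ∈ Finset.Ioc A (A + k + 1), ex (g n) := by
      rw [Finset.Icc_eq_cons_Ioc (by omega), Finset.sum_cons]
    rw [← h1, h2]; ring
  have hfin : ∑ n ∈ Finset.Ioc A (A + k + 1), ex (g n) =
      (∑ n ∈ Finset.Ico A (A + k + 1), ex (g n) -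
        ex (g (A + k + 1)) * expKL_w (g (A + k + 1) - g (A + k))) +
      ex (g (A + k + 1)) * expKL_w (g (A + k + 1) - g (A + k)) + ex (g (A + k + 1)) - ex (g A) := by
    rw [hshift]; ring
  rw [hfin]
  have hn1 : ‖ex (g (A + k + 1)) * expKL_w (g (A + k + 1) - g (A + k))‖ ≤
      1 / 2 + Real.pi / θ / 2 := by
    rw [norm_mul, expKL_norm, one_mul]; exact hwB
  have hn2 := expKL_norm (g (A + k + 1))
  have hn3 := expKL_norm (g A)
  have hpt : 1 ≤ Real.pi / θ := (one_le_div hθ).2 hθpi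
  have htot : ‖(∑ n ∈ Finset.Ico A (A + k + 1), ex (g n) -
        ex (g (A + k + 1)) * expKL_w (g (A + k + 1) - g (A + k))) +
      ex (g (A + k + 1)) * expKL_w (g (A + k + 1) - g (A + k)) + ex (g (A + k + 1)) - ex (g A)‖ ≤
      5 * (Real.pi / θ) := by
    refine (norm_sub_le _ _).trans ?_
    refine (add_le_add_left (norm_add_le _ _) _).trans ?_
    refine (add_le_add_left (add_le_add_left (norm_add_le _ _) _) _).trans ?_
    linarith
  refine htot.trans ?_
  rw [← mul_div_assoc]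
  apply div_le_div_of_nonneg_right _ hθ.le
  linarith

private lemma expKL_conj (x : ℝ) : (starRingEnd ℂ) (ex x) = ex (-x) := by
  unfold ex
  rw [← Complex.exp_conj]
  congr 1
  simp

/-- The same for decreasing `g` (conjugate). -/
theorem kuzmin_landau_neg : ∃ C : ℝ, 0 < C ∧ ∀ (g : ℕ → ℝ) (A B : ℕ) (θ : ℝ), 0 < θ → A ≤ B →
    (∀ n, A ≤ n → n < B → θ ≤ g n - g (n + 1) ∧ g n - g (n + 1) ≤ Real.pi) →
    ((∀ n, A ≤ n → n + 1 < B → g (n + 2) - g (n + 1) ≤ g (n + 1) - g n) ∨
      (∀ n, A ≤ n → n + 1 < B → g (n + 1) - g n ≤ g (n + 2) - g (n + 1))) →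
    ‖∑ n ∈ Finset.Ioc A B, ex (g n)‖ ≤ C / θ := by
  obtain ⟨C, hC, hmain⟩ := kuzmin_landau
  refine ⟨C, hC, ?_⟩
  intro g A B θ hθ hAB hd hmono
  have h := hmain (fun n => - g n) A B θ hθ hAB
    (fun n h1 h2 => by
      have := hd n h1 h2
      constructor <;> linarith [this.1, this.2])
    (by
      rcases hmono with hm | hm
      · right
        intro n h1 h2
        have := hm n h1 h2
        linarith
      · left
        intro n h1 h2
        have := hm n h1 h2
        linarith)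
  have h2 : ∑ n ∈ Finset.Ioc A B, ex (-g n) =
      (starRingEnd ℂ) (∑ n ∈ Finset.Ioc A B, ex (g n)) := by
    rw [map_sum]
    exact Finset.sum_congr rfl (fun n _ => (expKL_conj (g n)).symm)
  rw [h2, RCLike.norm_conj] at h
  exact h

private noncomputable def expKL_y (z : ℕ → ℂ) (A B m j : ℕ) : ℂ :=
  if A + j < m ∧ m ≤ B + j then z (m - j) else 0

private lemma expKL_sum_y (z : ℕ → ℂ) (A B H j : ℕ) (hj : j < H) :
    ∑ m ∈ Finset.Ioo A (B + H), expKL_y z A B m j = ∑ n ∈ Finset.Ioc A B, z n := by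
  unfold expKL_y
  rw [← Finset.sum_filter]
  refine Finset.sum_nbij' (fun m => m - j) (fun n => n + j) ?_ ?_ ?_ ?_ ?_
  · intro m hm
    simp only [Finset.mem_filter, Finset.mem_Ioo, Finset.mem_Ioc] at hm ⊢
    omega
  · intro n hn
    simp only [Finset.mem_filter, Finset.mem_Ioo, Finset.mem_Ioc] at hn ⊢
    omega
  · intro m hm
    simp only [Finset.mem_filter, Finset.mem_Ioo] at hm
    omega
  · intro n hn
    omega
  · intro m hm
    rfl

private lemma expKL_corr (z : ℕ → ℂ) (A B H j h : ℕ) (hj : j + h < H) :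
    ∑ m ∈ Finset.Ioo A (B + H), expKL_y z A B m j * (starRingEnd ℂ) (expKL_y z A B m (j + h)) =
      ∑ n ∈ Finset.Ioc A (B - h), z (n + h) * (starRingEnd ℂ) (z n) := by
  unfold expKL_y
  have e : ∀ m ∈ Finset.Ioo A (B + H), (if A + j < m ∧ m ≤ B + j then z (m - j) else 0) *
      (starRingEnd ℂ) (if A + (j + h) < m ∧ m ≤ B + (j + h) then z (m - (j + h)) else 0) =
      if A + (j + h) < m ∧ m ≤ B + j then z (m - j) * (starRingEnd ℂ) (z (m - (j + h))) else 0 := by
    intro m _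
    by_cases h1 : A + (j + h) < m ∧ m ≤ B + j
    · rw [if_pos h1, if_pos (by omega), if_pos (by omega)]
    · rw [if_neg h1]
      by_cases h2 : A + j < m ∧ m ≤ B + j
      · rw [if_neg (by omega : ¬ (A + (j + h) < m ∧ m ≤ B + (j + h))), map_zero, mul_zero]
      · rw [if_neg h2, zero_mul]
  rw [Finset.sum_congr rfl e, ← Finset.sum_filter]
  refine Finset.sum_nbij' (fun m => m - (j + h)) (fun n => n + (j + h)) ?_ ?_ ?_ ?_ ?_
  · intro m hm
    simp only [Finset.mem_filter, Finset.mem_Ioo, Finset.mem_Ioc] at hm ⊢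
    omega
  · intro n hn
    simp only [Finset.mem_filter, Finset.mem_Ioo, Finset.mem_Ioc] at hn ⊢
    omega
  · intro m hm
    simp only [Finset.mem_filter, Finset.mem_Ioo] at hm
    omega
  · intro n hn
    omega
  · intro m hm
    simp only [Finset.mem_filter, Finset.mem_Ioo] at hm
    have : m - (j + h) + h = m - j := by omega
    rw [this]

/-- van der Corput inequality for a bounded sequence supported in an interval. -/
theorem vdc_ineq (z : ℕ → ℂ) (A B H : ℕ) (hH : 1 ≤ H) (hAB : A + H ≤ B) (hz : ∀ n, ‖z n‖ ≤ 1) :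
    ‖∑ n ∈ Finset.Ioc A B, z n‖ ^ 2 ≤
      2 * ((B - A : ℕ) : ℝ) ^ 2 / H + 4 * ((B - A : ℕ) : ℝ) / H *
        ∑ h ∈ Finset.Ico 1 H, ‖∑ n ∈ Finset.Ioc A (B - h), z (n + h) * (starRingEnd ℂ) (z n)‖ := by
  set N : ℕ := B - A with hN
  set D : ℕ → ℝ := fun h => ‖∑ n ∈ Finset.Ioc A (B - h), z (n + h) * (starRingEnd ℂ) (z n)‖ with hD
  set S : ℂ := ∑ n ∈ Finset.Ioc A B, z n with hS
  set R := Finset.Ioo A (B + H) with hR
  set Y : ℕ → ℂ := fun m => ∑ j ∈ Finset.range H, expKL_y z A B m j with hY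
  have hD0 : ∀ h, 0 ≤ D h := fun h => norm_nonneg _
  have hHpos : (0 : ℝ) < H := by exact_mod_cast hH
  have hHS : (H : ℂ) * S = ∑ m ∈ R, Y m := by
    rw [hY, Finset.sum_comm, Finset.sum_congr rfl (fun j hj => expKL_sum_y z A B H j
      (Finset.mem_range.1 hj)), Finset.sum_const, Finset.card_range, nsmul_eq_mul]
  have hcard : (R.card : ℝ) ≤ 2 * N := by
    rw [hR, Nat.card_Ioo]
    have : B + H - A - 1 ≤ 2 * N := by omega
    exact_mod_cast this
  have hCS : ((H : ℝ) * ‖S‖) ^ 2 ≤ R.card * ∑ m ∈ R, ‖Y m‖ ^ 2 := by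
    have h1 : (H : ℝ) * ‖S‖ ≤ ∑ m ∈ R, ‖Y m‖ := by
      have : (H : ℝ) * ‖S‖ = ‖(H : ℂ) * S‖ := by
        rw [norm_mul, Complex.norm_natCast]
      rw [this, hHS]
      exact norm_sum_le _ _
    refine le_trans (pow_le_pow_left₀ (by positivity) h1 2) ?_
    exact sq_sum_le_card_mul_sum_sq
  have hexp : ((∑ m ∈ R, ‖Y m‖ ^ 2 : ℝ) : ℂ) = ∑ j ∈ Finset.range H, ∑ k ∈ Finset.range H,
      ∑ m ∈ R, expKL_y z A B m j * (starRingEnd ℂ) (expKL_y z A B m k) := by
    push_cast
    have : ∀ m ∈ R, ((‖Y m‖ : ℝ) : ℂ) ^ 2 = ∑ j ∈ Finset.range H, ∑ k ∈ Finset.range H,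
        expKL_y z A B m j * (starRingEnd ℂ) (expKL_y z A B m k) := by
      intro m _
      rw [← Complex.mul_conj', hY, map_sum, Finset.sum_mul_sum]
    rw [Finset.sum_congr rfl this, Finset.sum_comm]
    refine Finset.sum_congr rfl (fun j _ => ?_)
    rw [Finset.sum_comm]
  have hjk : ∀ j ∈ Finset.range H, ∀ k ∈ Finset.range H,
      ‖∑ m ∈ R, expKL_y z A B m j * (starRingEnd ℂ) (expKL_y z A B m k)‖ ≤
        D (if j ≤ k then k - j else j - k) := by
    intro j hj k hk
    rw [Finset.mem_range] at hj hk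
    by_cases hjk : j ≤ k
    · rw [if_pos hjk]
      obtain ⟨h, rfl⟩ := Nat.exists_eq_add_of_le hjk
      rw [expKL_corr z A B H j h hk, Nat.add_sub_cancel_left]
    · rw [if_neg hjk]
      obtain ⟨h, rfl⟩ := Nat.exists_eq_add_of_le (not_le.1 hjk).le
      rw [Nat.add_sub_cancel_left]
      have h1 := expKL_corr z A B H k h hj
      have h2 : ∑ m ∈ R, expKL_y z A B m (k + h) * (starRingEnd ℂ) (expKL_y z A B m k) =
          (starRingEnd ℂ) (∑ m ∈ R, expKL_y z A B m k *
            (starRingEnd ℂ) (expKL_y z A B m (k + h))) := by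
        rw [map_sum]
        refine Finset.sum_congr rfl (fun m _ => ?_)
        rw [map_mul, Complex.conj_conj, mul_comm]
      rw [h2, RCLike.norm_conj, h1]
  have hrow : ∀ j ∈ Finset.range H, ∑ k ∈ Finset.range H, D (if j ≤ k then k - j else j - k) ≤
      N + 2 * ∑ h ∈ Finset.Ico 1 H, D h := by
    intro j hj
    rw [Finset.mem_range] at hj
    have hDzero : D 0 ≤ N := by
      simp only [hD, Nat.sub_zero, add_zero]
      refine (norm_sum_le _ _).trans ?_
      have : ∀ n ∈ Finset.Ioc A B, ‖z n * (starRingEnd ℂ) (z n)‖ ≤ 1 := by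
        intro n _
        rw [norm_mul, RCLike.norm_conj]
        exact mul_le_one₀ (hz n) (norm_nonneg _) (hz n)
      refine (Finset.sum_le_sum this).trans ?_
      rw [Finset.sum_const, Nat.card_Ioc, nsmul_eq_mul, mul_one]
    have hsplit : Finset.range H = (Finset.range j ∪ {j}) ∪ Finset.Ico (j + 1) H := by
      ext a
      simp only [Finset.mem_range, Finset.mem_union, Finset.mem_singleton, Finset.mem_Ico]
      omega
    have hd1 : Disjoint (Finset.range j) ({j} : Finset ℕ) := by simp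
    have hd2 : Disjoint (Finset.range j ∪ {j}) (Finset.Ico (j + 1) H) := by
      rw [Finset.disjoint_left]
      intro a ha hb
      simp only [Finset.mem_range, Finset.mem_union, Finset.mem_singleton, Finset.mem_Ico] at ha hb
      omega
    rw [hsplit, Finset.sum_union hd2, Finset.sum_union hd1, Finset.sum_singleton]
    have p1 : ∑ k ∈ Finset.range j, D (if j ≤ k then k - j else j - k) ≤
        ∑ h ∈ Finset.Ico 1 H, D h := by
      have e1 : ∑ k ∈ Finset.range j, D (if j ≤ k then k - j else j - k) =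
          ∑ k ∈ Finset.Ico 1 (j + 1), D k := by
        refine Finset.sum_nbij' (fun k => j - k) (fun k => j - k) ?_ ?_ ?_ ?_ ?_
        · intro k hk
          simp only [Finset.mem_range, Finset.mem_Ico] at hk ⊢
          omega
        · intro k hk
          simp only [Finset.mem_range, Finset.mem_Ico] at hk ⊢
          omega
        · intro k hk
          simp only [Finset.mem_range] at hk
          omega
        · intro k hk
          simp only [Finset.mem_Ico] at hk
          omega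
        · intro k hk
          simp only [Finset.mem_range] at hk
          rw [if_neg (by omega)]
      rw [e1]
      exact Finset.sum_le_sum_of_subset_of_nonneg (Finset.Ico_subset_Ico_right (by omega))
        (fun k _ _ => hD0 k)
    have p2 : ∑ k ∈ Finset.Ico (j + 1) H, D (if j ≤ k then k - j else j - k) ≤
        ∑ h ∈ Finset.Ico 1 H, D h := by
      have e1 : ∑ k ∈ Finset.Ico (j + 1) H, D (if j ≤ k then k - j else j - k) =
          ∑ k ∈ Finset.Ico 1 (H - j), D k := by
        refine Finset.sum_nbij' (fun k => k - j) (fun k => k + j) ?_ ?_ ?_ ?_ ?_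
        · intro k hk
          simp only [Finset.mem_Ico] at hk ⊢
          omega
        · intro k hk
          simp only [Finset.mem_Ico] at hk ⊢
          omega
        · intro k hk
          simp only [Finset.mem_Ico] at hk
          omega
        · intro k hk
          omega
        · intro k hk
          simp only [Finset.mem_Ico] at hk
          rw [if_pos (by omega)]
      rw [e1]
      exact Finset.sum_le_sum_of_subset_of_nonneg (Finset.Ico_subset_Ico_right (by omega))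
        (fun k _ _ => hD0 k)
    rw [if_pos le_rfl, Nat.sub_self]
    linarith
  have hsq : ∑ m ∈ R, ‖Y m‖ ^ 2 ≤ H * (N + 2 * ∑ h ∈ Finset.Ico 1 H, D h) := by
    have h0 : 0 ≤ ∑ m ∈ R, ‖Y m‖ ^ 2 := Finset.sum_nonneg (fun _ _ => sq_nonneg _)
    have h1 : ∑ m ∈ R, ‖Y m‖ ^ 2 = ‖((∑ m ∈ R, ‖Y m‖ ^ 2 : ℝ) : ℂ)‖ := by
      rw [Complex.norm_real, Real.norm_of_nonneg h0]
    rw [h1, hexp]
    refine (norm_sum_le _ _).trans ?_
    have h2 : ∀ j ∈ Finset.range H, ‖∑ k ∈ Finset.range H,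
        ∑ m ∈ R, expKL_y z A B m j * (starRingEnd ℂ) (expKL_y z A B m k)‖ ≤
          N + 2 * ∑ h ∈ Finset.Ico 1 H, D h := by
      intro j hj
      refine (norm_sum_le _ _).trans ?_
      exact (Finset.sum_le_sum (fun k hk => hjk j hj k hk)).trans (hrow j hj)
    refine (Finset.sum_le_sum h2).trans ?_
    rw [Finset.sum_const, Finset.card_range, nsmul_eq_mul]
  have hSigma : 0 ≤ ∑ h ∈ Finset.Ico 1 H, D h := Finset.sum_nonneg (fun h _ => hD0 h)
  have hfinal : (H : ℝ) ^ 2 * ‖S‖ ^ 2 ≤ 2 * N * (H * (N + 2 * ∑ h ∈ Finset.Ico 1 H, D h)) := by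
    rw [← mul_pow]
    refine hCS.trans ?_
    exact mul_le_mul hcard hsq (Finset.sum_nonneg (fun _ _ => sq_nonneg _)) (by positivity)
  have hgoal : 2 * (N : ℝ) ^ 2 / H + 4 * (N : ℝ) / H * ∑ h ∈ Finset.Ico 1 H, D h =
      2 * N * (H * (N + 2 * ∑ h ∈ Finset.Ico 1 H, D h)) / (H : ℝ) ^ 2 := by
    field_simp
    ring
  rw [hgoal, le_div_iff₀ (by positivity)]
  linarith

end Pool.MP_67663b_nt.MR
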