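import Pool.Agent.Lib.MP_67663b_nt.MR.ExpKL
import Pool.Agent.Lib.MP_67663b_nt.MR.ExpFl

set_option autoImplicit false
open Filter Topology MeasureTheory
namespace Pool.MP_67663b_nt.MR
open Pool.MP_67663b_nt.Odd

theorem es_norm_ex (x : ℝ) : ‖ex x‖ = 1 := Complex.norm_exp_ofReal_mul_I x

theorem es_ex_neg (x : ℝ) : ex (-x) = (starRingEnd ℂ) (ex x) := by
  unfold ex
  rw [← Complex.exp_conj, map_mul, Complex.conj_ofReal, Complex.conj_I]
  congr 1
  push_cast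
  ring

theorem es_ex_sub (x y : ℝ) : ex (x - y) = ex x * (starRingEnd ℂ) (ex y) := by
  rw [← es_ex_neg]
  unfold ex
  rw [← Complex.exp_add]
  congr 1
  push_cast
  ring

theorem es_sum_neg (s : Finset ℕ) (g : ℕ → ℝ) : ‖∑ n ∈ s, ex (-(g n))‖ = ‖∑ n ∈ s, ex (g n)‖ := by
  have : ∑ n ∈ s, ex (-(g n)) = (starRingEnd ℂ) (∑ n ∈ s, ex (g n)) := by
    rw [map_sum]
    exact Finset.sum_congr rfl fun n _ => es_ex_neg _
  rw [this, RCLike.norm_conj]

theorem es_sum_sign (i : ℕ) (s : Finset ℕ) (g : ℕ → ℝ) :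
    ‖∑ n ∈ s, ex ((-1 : ℝ) ^ i * g n)‖ = ‖∑ n ∈ s, ex (g n)‖ := by
  rcases Nat.even_or_odd i with h | h
  · simp [h.neg_one_pow]
  · simp only [h.neg_one_pow, neg_one_mul]
    exact es_sum_neg s g

theorem es_norm_sum_le (A B : ℕ) (hAB : A ≤ B) (g : ℕ → ℝ) :
    ‖∑ n ∈ Finset.Ioc A B, ex (g n)‖ ≤ (B : ℝ) - A := by
  refine (norm_sum_le _ _).trans ?_
  simp only [es_norm_ex, Finset.sum_const, Nat.card_Ioc, nsmul_eq_mul, mul_one]
  rw [Nat.cast_sub hAB]

theorem es_sum_list_le (l : List ℕ) (M : ℕ) (h : ∀ x ∈ l, x ≤ M) : l.sum ≤ l.length * M := by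
  induction l with
  | nil => simp
  | cons a t ih =>
    have h1 := h a (by simp)
    have h2 := ih fun x hx => h x (by simp [hx])
    simp only [List.sum_cons, List.length_cons]
    rw [add_mul, one_mul]
    omega

theorem es_Fl_one (l : List ℕ) (n : ℕ) : Fl (1 :: l) (n : ℝ) = Fl l ((n + 1 : ℕ) : ℝ) - Fl l (n : ℝ) := by
  simp only [Fl]
  push_cast
  rfl

theorem es_Fl_cons (h : ℕ) (l : List ℕ) (n : ℕ) :
    Fl (h :: l) (n : ℝ) = Fl l ((n + h : ℕ) : ℝ) - Fl l (n : ℝ) := by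
  simp only [Fl]
  push_cast
  rfl

/-- Kuzmin-Landau for the phases. -/
theorem es_KL : ∃ C : ℝ, 0 < C ∧ ∀ (M : ℕ) (l : List ℕ) (τ : ℝ) (A B : ℕ), 1 ≤ M →
    (∀ h ∈ l, 1 ≤ h ∧ h ≤ M) → 0 < τ → M ≤ A → A ≤ B → B ≤ 2 * M →
    (l.length.factorial : ℝ) * (τ * l.prod) ≤ Real.pi * (M : ℝ) ^ (l.length + 1) →
    ‖∑ n ∈ Finset.Ioc A B, ex (τ * Fl l n)‖ ≤
      C * (((l.length : ℝ) + 3) ^ (l.length + 1) * (M : ℝ) ^ (l.length + 1)) / (τ * l.prod) := by
  obtain ⟨C, hC, hKL⟩ := kuzmin_landau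
  refine ⟨C, hC, ?_⟩
  intro M l τ A B hM hl hτ hA hAB hB hsmall
  set i := l.length with hi
  have hM0 : (0 : ℝ) < M := by exact_mod_cast hM
  have hprod : 1 ≤ l.prod := by
    have : 0 < l.prod := List.prod_pos fun h hh => (hl h hh).1
    omega
  have hprod' : (1 : ℝ) ≤ l.prod := by exact_mod_cast hprod
  have hsum : l.sum ≤ i * M := es_sum_list_le l M fun x hx => (hl x hx).2
  have hpos1 : ∀ h ∈ (1 :: l), 1 ≤ h := by
    intro h hh
    rcases List.mem_cons.1 hh with h1 | h1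
    · omega
    · exact (hl h h1).1
  have hne : (1 :: l) ≠ [] := by simp
  set g : ℕ → ℝ := fun n => (-1 : ℝ) ^ i * (τ * Fl l n) with hg
  have hdiff : ∀ n : ℕ, g (n + 1) - g n = τ * ((-1 : ℝ) ^ ((1 :: l).length + 1) * Fl (1 :: l) n) := by
    intro n
    rw [es_Fl_one]
    simp only [hg, List.length_cons]
    rw [← hi, pow_succ, pow_succ]
    ring
  set θ : ℝ := (i.factorial : ℝ) * (τ * l.prod) / (((i : ℝ) + 3) * M) ^ (i + 1) with hθ
  have hfac : (1 : ℝ) ≤ (i.factorial : ℝ) := by exact_mod_cast Nat.one_le_iff_ne_zero.2 (Nat.factorial_ne_zero i)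
  have hτp : 0 < τ * l.prod := by positivity
  have hθ0 : 0 < θ := by positivity
  have key := hKL g A B θ hθ0 hAB ?_ (Or.inl ?_)
  · have e1 : ∑ n ∈ Finset.Ioc A B, ex (g n) = ∑ n ∈ Finset.Ioc A B, ex ((-1 : ℝ) ^ i * (τ * Fl l n)) := rfl
    rw [e1, es_sum_sign i _ (fun n => τ * Fl l n)] at key
    refine key.trans ?_
    rw [hθ, ← mul_pow]
    rw [div_div_eq_mul_div]
    refine div_le_div_of_nonneg_left (by positivity) hτp ?_
    nlinarith only [hfac, hτp]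
  · intro n hn1 hn2
    have hn0 : (0 : ℝ) < n := by
      have : 0 < n := by omega
      exact_mod_cast this
    have hb := Fl_bounds (1 :: l) hne hpos1 hn0
    rw [hdiff]
    have e1 : (((1 :: l).length - 1).factorial : ℝ) = i.factorial := by simp [hi]
    have e2 : (((1 :: l).prod : ℕ) : ℝ) = l.prod := by simp
    have e3 : (1 :: l).length = i + 1 := by simp [hi]
    rw [e1, e2, e3] at hb
    rw [e3]
    have hnM : (M : ℝ) ≤ n := by
      have : M ≤ n := by omega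
      exact_mod_cast this
    have hn2M : (n : ℝ) ≤ 2 * M := by
      have : n ≤ 2 * M := by omega
      exact_mod_cast this
    have hs : (((1 :: l).sum : ℕ) : ℝ) ≤ 1 + i * M := by
      simp only [List.sum_cons]
      exact_mod_cast Nat.add_le_add_left hsum 1
    have hx : (n : ℝ) + (((1 :: l).sum : ℕ) : ℝ) ≤ ((i : ℝ) + 3) * M := by
      have : (1 : ℝ) ≤ M := by exact_mod_cast hM
      nlinarith only [hn2M, hs, this]
    constructor
    · refine le_trans ?_ (mul_le_mul_of_nonneg_left hb.1 hτ.le)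
      rw [hθ]
      rw [← mul_div_assoc]
      have e4 : τ * ((i.factorial : ℝ) * (l.prod : ℝ)) = (i.factorial : ℝ) * (τ * l.prod) := by ring
      rw [e4]
      refine div_le_div_of_nonneg_left (by positivity) (by positivity) ?_
      exact pow_le_pow_left₀ (by positivity) hx _
    · refine (mul_le_mul_of_nonneg_left hb.2 hτ.le).trans ?_
      rw [← mul_div_assoc]
      have e4 : τ * ((i.factorial : ℝ) * (l.prod : ℝ)) = (i.factorial : ℝ) * (τ * l.prod) := by ring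
      rw [e4, div_le_iff₀ (by positivity)]
      refine hsmall.trans ?_
      refine mul_le_mul_of_nonneg_left ?_ Real.pi_pos.le
      exact pow_le_pow_left₀ hM0.le hnM _
  · intro n hn1 hn2
    have hn0 : (0 : ℝ) < n := by
      have : 0 < n := by omega
      exact_mod_cast this
    have h1 := hdiff (n + 1)
    have h2 := hdiff n
    have e5 : n + 2 = n + 1 + 1 := rfl
    rw [e5, h1, h2]
    refine mul_le_mul_of_nonneg_left ?_ hτ.le
    exact Fl_anti (1 :: l) hne hpos1 hn0 (by push_cast; linarith only [])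

theorem es_sum_inv (H : ℕ) : ∑ h ∈ Finset.Ico 1 H, 1 / (h : ℝ) ≤ 4 * Real.sqrt H := by
  induction H with
  | zero => simp
  | succ n ih =>
    by_cases hn : n = 0
    · subst hn; simp
    · have hn1 : 1 ≤ n := Nat.one_le_iff_ne_zero.2 hn
      rw [Finset.sum_Ico_succ_top hn1]
      have hn1' : (1 : ℝ) ≤ n := by exact_mod_cast hn1
      have hs1 : Real.sqrt n * Real.sqrt n = n := Real.mul_self_sqrt (by positivity)
      have hs2 : Real.sqrt ((n + 1 : ℕ) : ℝ) * Real.sqrt ((n + 1 : ℕ) : ℝ) = (n : ℝ) + 1 := by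
        rw [Real.mul_self_sqrt (by positivity)]; push_cast; ring
      have ha : 1 ≤ Real.sqrt n := by
        rw [show (1 : ℝ) = Real.sqrt 1 by simp]
        exact Real.sqrt_le_sqrt hn1'
      have hb0 : 0 ≤ Real.sqrt ((n + 1 : ℕ) : ℝ) := Real.sqrt_nonneg _
      have hab : Real.sqrt n ≤ Real.sqrt ((n + 1 : ℕ) : ℝ) := Real.sqrt_le_sqrt (by push_cast; linarith)
      set a := Real.sqrt n with hadef
      set b := Real.sqrt ((n + 1 : ℕ) : ℝ) with hbdef
      have hb2 : b ≤ 2 * a := by nlinarith only [ha, hab, hb0, hs1, hs2]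
      have h1 : 1 / (n : ℝ) ≤ 4 * (b - a) := by
        rw [div_le_iff₀ (by positivity)]
        have h3 : (b - a) * (b + a) = 1 := by nlinarith only [hs1, hs2]
        have h5 : 0 ≤ b - a := by linarith
        have h7 : 1 ≤ (b - a) * (3 * a) := by nlinarith only [ha, hab, hb0, hs1, hs2]
        have h6 : (n : ℝ) = a * a := hs1.symm
        rw [h6]
        have h8 : 1 / 3 ≤ (b - a) * a := by linarith
        nlinarith only [h7, ha]
      linarith

theorem es_vdc (l : List ℕ) (τ : ℝ) (M A B H : ℕ) (hH : 1 ≤ H) (hA : M ≤ A) (hB : B ≤ 2 * M)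
    (hAB : A + H ≤ B) :
    ‖∑ n ∈ Finset.Ioc A B, ex (τ * Fl l n)‖ ^ 2 ≤ 2 * (M : ℝ) ^ 2 / H + 4 * (M : ℝ) / H *
      ∑ h ∈ Finset.Ico 1 H, ‖∑ n ∈ Finset.Ioc A (B - h), ex (τ * Fl (h :: l) n)‖ := by
  have h1 := vdc_ineq (fun n => ex (τ * Fl l n)) A B H hH hAB (fun n => (es_norm_ex _).le)
  have hBA : ((B - A : ℕ) : ℝ) ≤ M := by
    have : B - A ≤ M := by omega
    exact_mod_cast this
  have hH0 : (0 : ℝ) < H := by exact_mod_cast hH
  have e1 : ∀ h : ℕ, ∑ n ∈ Finset.Ioc A (B - h), ex (τ * Fl l ((n + h : ℕ) : ℝ)) * (starRingEnd ℂ) (ex (τ * Fl l n)) =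
      ∑ n ∈ Finset.Ioc A (B - h), ex (τ * Fl (h :: l) n) := by
    intro h
    refine Finset.sum_congr rfl fun n _ => ?_
    rw [← es_ex_sub, es_Fl_cons, mul_sub]
  simp only [e1] at h1
  refine h1.trans ?_
  have h0 : 0 ≤ ∑ h ∈ Finset.Ico 1 H, ‖∑ n ∈ Finset.Ioc A (B - h), ex (τ * Fl (h :: l) n)‖ :=
    Finset.sum_nonneg fun _ _ => norm_nonneg _
  gcongr

theorem es_sq {E K X : ℝ} (hK : 1 ≤ K) (hX : 0 ≤ X) (h : E ^ 2 ≤ K * X ^ 2) : E ≤ K * X := by
  have h1 : E ^ 2 ≤ (K * X) ^ 2 := by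
    rw [mul_pow]
    have : K * X ^ 2 ≤ K ^ 2 * X ^ 2 := by
      refine mul_le_mul_of_nonneg_right ?_ (by positivity)
      nlinarith
    linarith
  exact le_of_sq_le_sq h1 (by positivity)

theorem es_floor {M : ℕ} {η : ℝ} (hM : 1 ≤ M) (hη : 0 ≤ η) :
    1 ≤ ⌊(M : ℝ) ^ η⌋₊ ∧ ((⌊(M : ℝ) ^ η⌋₊ : ℕ) : ℝ) ≤ (M : ℝ) ^ η ∧
      (M : ℝ) ^ η ≤ 2 * ((⌊(M : ℝ) ^ η⌋₊ : ℕ) : ℝ) := by
  have h1 : (1 : ℝ) ≤ (M : ℝ) ^ η := Real.one_le_rpow (by exact_mod_cast hM) hη
  have h2 : 1 ≤ ⌊(M : ℝ) ^ η⌋₊ := by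
    rw [Nat.one_le_floor_iff]; exact h1
  refine ⟨h2, Nat.floor_le (by positivity), ?_⟩
  have h3 := Nat.lt_floor_add_one ((M : ℝ) ^ η)
  have h4 : (1 : ℝ) ≤ ((⌊(M : ℝ) ^ η⌋₊ : ℕ) : ℝ) := by exact_mod_cast h2
  linarith

theorem es_base (i : ℕ) : ∃ C : ℝ, 0 < C ∧ ∀ (M : ℕ) (l : List ℕ) (τ : ℝ) (A B : ℕ), 1 ≤ M →
    l.length = i → (∀ h ∈ l, 1 ≤ h ∧ h ≤ M) → 0 < τ → M ≤ A → A ≤ B → B ≤ 2 * M →
    (M : ℝ) ^ ((i : ℝ) + 1 / 4) ≤ τ * l.prod → τ * l.prod ≤ (M : ℝ) ^ ((i : ℝ) + 1 + 5 / 8) →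
    ‖∑ n ∈ Finset.Ioc A B, ex (τ * Fl l n)‖ ≤ C * (M : ℝ) ^ (15 / 16 : ℝ) := by
  obtain ⟨CK, hCK, hKL⟩ := es_KL
  set F : ℝ := ((i + 1).factorial : ℝ) with hF
  have hF1 : 1 ≤ F := by
    rw [hF]; exact_mod_cast Nat.one_le_iff_ne_zero.2 (Nat.factorial_ne_zero _)
  have hi1 : (1 : ℝ) ≤ (i.factorial : ℝ) := by exact_mod_cast Nat.one_le_iff_ne_zero.2 (Nat.factorial_ne_zero _)
  set D : ℝ := CK * ((i : ℝ) + 4) ^ (i + 2) * i.factorial with hD
  have hD0 : 0 < D := by positivity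
  refine ⟨F ^ 8 + CK * ((i : ℝ) + 3) ^ (i + 1) + (4 + 32 * D), by positivity, ?_⟩
  intro M l τ A B hM hlen hl hτ hA hAB hB hT1 hT2
  have hM0 : (0 : ℝ) < M := by exact_mod_cast hM
  have hM1 : (1 : ℝ) ≤ M := by exact_mod_cast hM
  have hE0 : 0 ≤ ‖∑ n ∈ Finset.Ioc A B, ex (τ * Fl l n)‖ := norm_nonneg _
  have htriv : ‖∑ n ∈ Finset.Ioc A B, ex (τ * Fl l n)‖ ≤ (B : ℝ) - A := es_norm_sum_le A B hAB _
  have hBA : (B : ℝ) - A ≤ M := by
    have h1 : (B : ℝ) ≤ 2 * M := by exact_mod_cast hB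
    have h2 : (M : ℝ) ≤ A := by exact_mod_cast hA
    linarith only [h1, h2]
  have hp15 : 0 < (M : ℝ) ^ (15 / 16 : ℝ) := by positivity
  have hprod : (1 : ℝ) ≤ l.prod := by
    have : 0 < l.prod := List.prod_pos fun h hh => (hl h hh).1
    exact_mod_cast this
  have hT0 : 0 < τ * l.prod := by positivity
  by_cases hbig : F ^ 8 ≤ M
  swap
  · push Not at hbig
    have h1 : (M : ℝ) = (M : ℝ) ^ (1 / 16 : ℝ) * (M : ℝ) ^ (15 / 16 : ℝ) := by
      rw [← Real.rpow_add hM0]; norm_num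
    have h2 : (M : ℝ) ^ (1 / 16 : ℝ) ≤ M := by
      calc (M : ℝ) ^ (1 / 16 : ℝ) ≤ (M : ℝ) ^ (1 : ℝ) := Real.rpow_le_rpow_of_exponent_le hM1 (by norm_num)
        _ = M := Real.rpow_one _
    have h3 : (M : ℝ) ≤ F ^ 8 * (M : ℝ) ^ (15 / 16 : ℝ) := by
      calc (M : ℝ) = (M : ℝ) ^ (1 / 16 : ℝ) * (M : ℝ) ^ (15 / 16 : ℝ) := h1
        _ ≤ F ^ 8 * (M : ℝ) ^ (15 / 16 : ℝ) := mul_le_mul_of_nonneg_right (by linarith only [h2, hbig]) hp15.le
    have h4 : 0 ≤ CK * ((i : ℝ) + 3) ^ (i + 1) + (4 + 32 * D) := by positivity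
    nlinarith only [h1, h2, h4, hBA, hbig, hp15, htriv]
  have hFr : F ≤ (M : ℝ) ^ (1 / 8 : ℝ) := by
    have : F = (F ^ 8) ^ (1 / 8 : ℝ) := by
      rw [← Real.rpow_natCast F 8, ← Real.rpow_mul (by positivity)]; norm_num
    rw [this]
    exact Real.rpow_le_rpow (by positivity) hbig (by norm_num)
  by_cases hsm : (l.length.factorial : ℝ) * (τ * l.prod) ≤ Real.pi * (M : ℝ) ^ (l.length + 1)
  · have h1 := hKL M l τ A B hM hl hτ hA hAB hB hsm
    rw [hlen] at h1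
    refine h1.trans ?_
    rw [div_le_iff₀ hT0]
    have h2 : (M : ℝ) ^ (i + 1) ≤ (M : ℝ) ^ (15 / 16 : ℝ) * (τ * l.prod) := by
      calc (M : ℝ) ^ (i + 1) = (M : ℝ) ^ ((i : ℝ) + 1) := by
            rw [← Real.rpow_natCast]; push_cast; rfl
        _ ≤ (M : ℝ) ^ (15 / 16 + ((i : ℝ) + 1 / 4)) := Real.rpow_le_rpow_of_exponent_le hM1 (by linarith only [])
        _ = (M : ℝ) ^ (15 / 16 : ℝ) * (M : ℝ) ^ ((i : ℝ) + 1 / 4) := Real.rpow_add hM0 _ _
        _ ≤ _ := mul_le_mul_of_nonneg_left hT1 hp15.le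
    have h3 : CK * (((i : ℝ) + 3) ^ (i + 1) * (M : ℝ) ^ (i + 1)) =
        (CK * ((i : ℝ) + 3) ^ (i + 1)) * (M : ℝ) ^ (i + 1) := by ring
    rw [h3]
    have h4 : (CK * ((i : ℝ) + 3) ^ (i + 1)) * (M : ℝ) ^ (i + 1) ≤
        (CK * ((i : ℝ) + 3) ^ (i + 1)) * ((M : ℝ) ^ (15 / 16 : ℝ) * (τ * l.prod)) :=
      mul_le_mul_of_nonneg_left h2 (by positivity)
    refine h4.trans ?_
    have h5 : 0 ≤ (F ^ 8 + (4 + 32 * D)) * ((M : ℝ) ^ (15 / 16 : ℝ) * (τ * l.prod)) := by positivity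
    nlinarith only [h5]
  · push Not at hsm
    rw [hlen] at hsm
    obtain ⟨hH1, hH2, hH3⟩ := es_floor (η := 1 / 4) hM (by norm_num)
    set H : ℕ := ⌊(M : ℝ) ^ (1 / 4 : ℝ)⌋₊ with hHdef
    have hH0 : (0 : ℝ) < H := by exact_mod_cast hH1
    have hHM : (H : ℝ) ≤ M := by
      refine hH2.trans ?_
      calc (M : ℝ) ^ (1 / 4 : ℝ) ≤ (M : ℝ) ^ (1 : ℝ) := Real.rpow_le_rpow_of_exponent_le hM1 (by norm_num)
        _ = M := Real.rpow_one _
    have hHM' : H ≤ M := by exact_mod_cast hHM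
    have hmain : ‖∑ n ∈ Finset.Ioc A B, ex (τ * Fl l n)‖ ≤ (4 + 32 * D) * (M : ℝ) ^ (15 / 16 : ℝ) := by
      by_cases hlong : A + H ≤ B
      swap
      · push Not at hlong
        have h1 : (B : ℝ) - A ≤ H := by
          have : (B : ℝ) < A + H := by exact_mod_cast hlong
          linarith only [this]
        have h2 : (M : ℝ) ^ (1 / 4 : ℝ) ≤ (M : ℝ) ^ (15 / 16 : ℝ) :=
          Real.rpow_le_rpow_of_exponent_le hM1 (by norm_num)
        have h3 : 0 ≤ (3 + 32 * D) * (M : ℝ) ^ (15 / 16 : ℝ) := by positivity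
        nlinarith only [h1, h2, h3, hH2, htriv]
      have hv := es_vdc l τ M A B H hH1 hA hB hlong
      have hpow : (M : ℝ) ^ (i + 1) ≤ (i.factorial : ℝ) * (τ * l.prod) := by
        have : (1 : ℝ) ≤ Real.pi := by linarith only [Real.pi_gt_three]
        have h1 : 0 ≤ (M : ℝ) ^ (i + 1) := by positivity
        nlinarith only [h1, hsm, this]
      have hterm : ∀ h ∈ Finset.Ico 1 H, ‖∑ n ∈ Finset.Ioc A (B - h), ex (τ * Fl (h :: l) n)‖ ≤
          D * M * (1 / (h : ℝ)) := by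
        intro h hh
        rw [Finset.mem_Ico] at hh
        have hh0 : (0 : ℝ) < h := by exact_mod_cast hh.1
        have hhH : (h : ℝ) ≤ H := by exact_mod_cast hh.2.le
        have h1 := hKL M (h :: l) τ A (B - h) hM (by
          intro x hx
          rcases List.mem_cons.1 hx with h1 | h1
          · subst h1; exact ⟨hh.1, by omega⟩
          · exact hl x h1) hτ hA (by omega) (by omega) (by
          simp only [List.length_cons, List.prod_cons, hlen, Nat.cast_mul]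
          have h2 : τ * ((h : ℝ) * l.prod) ≤ (M : ℝ) ^ ((i : ℝ) + 1 + 5 / 8) * (M : ℝ) ^ (1 / 4 : ℝ) := by
            have : τ * ((h : ℝ) * l.prod) = (τ * l.prod) * h := by ring
            rw [this]
            exact mul_le_mul hT2 (hhH.trans hH2) hh0.le (by positivity)
          have h3 : F * ((M : ℝ) ^ ((i : ℝ) + 1 + 5 / 8) * (M : ℝ) ^ (1 / 4 : ℝ)) ≤ (M : ℝ) ^ (i + 1 + 1) := by
            calc F * ((M : ℝ) ^ ((i : ℝ) + 1 + 5 / 8) * (M : ℝ) ^ (1 / 4 : ℝ))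
                ≤ (M : ℝ) ^ (1 / 8 : ℝ) * ((M : ℝ) ^ ((i : ℝ) + 1 + 5 / 8) * (M : ℝ) ^ (1 / 4 : ℝ)) :=
                  mul_le_mul_of_nonneg_right hFr (by positivity)
              _ = (M : ℝ) ^ ((i : ℝ) + 1 + 1) := by
                  rw [← Real.rpow_add hM0, ← Real.rpow_add hM0]; ring_nf
              _ = _ := by rw [← Real.rpow_natCast]; push_cast; rfl
          have h4 : F * (τ * ((h : ℝ) * l.prod)) ≤ (M : ℝ) ^ (i + 1 + 1) :=
            (mul_le_mul_of_nonneg_left h2 (by positivity)).trans h3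
          refine h4.trans ?_
          have h5 : 0 ≤ (M : ℝ) ^ (i + 1 + 1) := by positivity
          have : (1 : ℝ) ≤ Real.pi := by linarith only [Real.pi_gt_three]
          nlinarith only [h5, this])
        refine h1.trans ?_
        simp only [List.length_cons, List.prod_cons, hlen, Nat.cast_mul, Nat.cast_add, Nat.cast_one]
        have e1 : τ * ((h : ℝ) * l.prod) = (τ * l.prod) * h := by ring
        rw [e1, div_le_iff₀ (by positivity)]
        have e2 : D * M * (1 / (h : ℝ)) * (τ * l.prod * h) = D * M * (τ * l.prod) := by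
          field_simp
        rw [e2, hD]
        have e3 : ((i : ℝ) + 1 + 3) = (i : ℝ) + 4 := by ring
        rw [e3]
        have e4 : CK * (((i : ℝ) + 4) ^ (i + 1 + 1) * (M : ℝ) ^ (i + 1 + 1)) =
          (CK * ((i : ℝ) + 4) ^ (i + 2) * M) * (M : ℝ) ^ (i + 1) := by ring
        rw [e4]
        have e5 : CK * ((i : ℝ) + 4) ^ (i + 2) * i.factorial * M * (τ * l.prod) =
          (CK * ((i : ℝ) + 4) ^ (i + 2) * M) * (i.factorial * (τ * l.prod)) := by ring
        rw [e5]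
        exact mul_le_mul_of_nonneg_left hpow (by positivity)
      have hsum : ∑ h ∈ Finset.Ico 1 H, ‖∑ n ∈ Finset.Ioc A (B - h), ex (τ * Fl (h :: l) n)‖ ≤
          D * M * (4 * Real.sqrt H) := by
        refine (Finset.sum_le_sum hterm).trans ?_
        rw [← Finset.mul_sum]
        exact mul_le_mul_of_nonneg_left (es_sum_inv H) (by positivity)
      have hs0 : 0 < Real.sqrt H := Real.sqrt_pos.2 hH0
      have hss : Real.sqrt H * Real.sqrt H = H := Real.mul_self_sqrt hH0.le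
      have hs1 : 1 ≤ Real.sqrt H := by
        rw [show (1 : ℝ) = Real.sqrt 1 by simp]
        exact Real.sqrt_le_sqrt (by exact_mod_cast hH1)
      have h8 : (M : ℝ) ^ (1 / 8 : ℝ) ≤ 2 * Real.sqrt H := by
        have h9 : ((M : ℝ) ^ (1 / 8 : ℝ)) ^ 2 ≤ (2 * Real.sqrt H) ^ 2 := by
          rw [← Real.rpow_natCast ((M : ℝ) ^ (1 / 8 : ℝ)) 2, ← Real.rpow_mul hM0.le]
          have : (1 / 8 : ℝ) * ((2 : ℕ) : ℝ) = 1 / 4 := by norm_num
          rw [this]
          nlinarith only [hH0, hH3, hss]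
        exact le_of_sq_le_sq h9 (by positivity)
      have hfin : ‖∑ n ∈ Finset.Ioc A B, ex (τ * Fl l n)‖ ^ 2 ≤ (4 + 32 * D) * ((M : ℝ) ^ (15 / 16 : ℝ)) ^ 2 := by
        have h1 : 2 * (M : ℝ) ^ 2 / H ≤ 2 * (M : ℝ) ^ 2 / Real.sqrt H := by
          refine div_le_div_of_nonneg_left (by positivity) hs0 ?_
          nlinarith only [hs0, hs1, hss]
        have h2 : 4 * (M : ℝ) / H * (∑ h ∈ Finset.Ico 1 H, ‖∑ n ∈ Finset.Ioc A (B - h), ex (τ * Fl (h :: l) n)‖) ≤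
            16 * D * (M : ℝ) ^ 2 / Real.sqrt H := by
          refine (mul_le_mul_of_nonneg_left hsum (by positivity)).trans (le_of_eq ?_)
          have e9 : ∀ s : ℝ, 0 < s → 4 * (M : ℝ) / (s * s) * (D * M * (4 * s)) = 16 * D * (M : ℝ) ^ 2 / s := by
            intro s hs
            field_simp
            ring
          have e10 := e9 _ hs0
          rw [hss] at e10
          exact e10
        have h3 : 2 * (M : ℝ) ^ 2 / Real.sqrt H + 16 * D * (M : ℝ) ^ 2 / Real.sqrt H =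
            (2 + 16 * D) * ((M : ℝ) ^ 2 / Real.sqrt H) := by ring
        have h4 : (M : ℝ) ^ 2 / Real.sqrt H ≤ 2 * ((M : ℝ) ^ (15 / 16 : ℝ)) ^ 2 := by
          rw [div_le_iff₀ hs0]
          have h5 : ((M : ℝ) ^ (15 / 16 : ℝ)) ^ 2 * (M : ℝ) ^ (1 / 8 : ℝ) = (M : ℝ) ^ 2 := by
            rw [← Real.rpow_natCast ((M : ℝ) ^ (15 / 16 : ℝ)) 2, ← Real.rpow_mul hM0.le, ← Real.rpow_add hM0,
              ← Real.rpow_natCast (M : ℝ) 2]
            norm_num
          rw [← h5]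
          have h6 : 0 ≤ ((M : ℝ) ^ (15 / 16 : ℝ)) ^ 2 := by positivity
          nlinarith only [h8]
        have h7 : (2 + 16 * D) * ((M : ℝ) ^ 2 / Real.sqrt H) ≤ (2 + 16 * D) * (2 * ((M : ℝ) ^ (15 / 16 : ℝ)) ^ 2) :=
          mul_le_mul_of_nonneg_left h4 (by positivity)
        linarith only [h1, h2, h3, h7, hv]
      exact es_sq (by linarith only [hD0]) hp15.le hfin
    have h9 : 0 ≤ (F ^ 8 + CK * ((i : ℝ) + 3) ^ (i + 1)) * (M : ℝ) ^ (15 / 16 : ℝ) := by positivity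
    nlinarith only [h9, hmain]

theorem es_claim {η : ℝ} (hη : 0 < η) (hη1 : η ≤ 1 / 8) (r : ℕ) : ∀ i : ℕ, ∃ c : ℝ, 0 < c ∧ c ≤ 1 / 16 ∧
    ∃ C : ℝ, 0 < C ∧ ∀ (M : ℕ) (l : List ℕ) (τ : ℝ) (A B : ℕ), 1 ≤ M →
    l.length = i → (∀ h ∈ l, 1 ≤ h ∧ h ≤ M) → 0 < τ → M ≤ A → A ≤ B → B ≤ 2 * M →
    (M : ℝ) ^ ((i : ℝ) + r + 1 / 4) ≤ τ * l.prod → τ * l.prod ≤ (M : ℝ) ^ ((i : ℝ) + r + 1 + 5 / 8 - r * η) →
    ‖∑ n ∈ Finset.Ioc A B, ex (τ * Fl l n)‖ ≤ C * (M : ℝ) ^ (1 - c) := by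
  induction r with
  | zero =>
    intro i
    obtain ⟨C, hC, h⟩ := es_base i
    refine ⟨1 / 16, by norm_num, le_rfl, C, hC, ?_⟩
    intro M l τ A B hM hlen hl hτ hA hAB hB hT1 hT2
    have e : (1 - 1 / 16 : ℝ) = 15 / 16 := by norm_num
    rw [e]
    refine h M l τ A B hM hlen hl hτ hA hAB hB ?_ ?_
    · simpa using hT1
    · simpa using hT2
  | succ r ih =>
    intro i
    obtain ⟨c', hc'0, hc'1, C', hC', h⟩ := ih (i + 1)
    refine ⟨min η c' / 2, by positivity, ?_, 4 + 4 * C', by positivity, ?_⟩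
    · have := min_le_right η c'
      linarith
    intro M l τ A B hM hlen hl hτ hA hAB hB hT1 hT2
    set c := min η c' / 2 with hc
    have hcη : 2 * c ≤ η := by have := min_le_left η c'; rw [hc]; linarith only [this]
    have hcc : 2 * c ≤ c' := by have := min_le_right η c'; rw [hc]; linarith only [this]
    have hM0 : (0 : ℝ) < M := by exact_mod_cast hM
    have hM1 : (1 : ℝ) ≤ M := by exact_mod_cast hM
    have hX0 : 0 < (M : ℝ) ^ (1 - c) := by positivity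
    have hprod : (1 : ℝ) ≤ l.prod := by
      have : 0 < l.prod := List.prod_pos fun h hh => (hl h hh).1
      exact_mod_cast this
    have hT0 : 0 < τ * l.prod := by positivity
    obtain ⟨hH1, hH2, hH3⟩ := es_floor (η := η) hM hη.le
    set H : ℕ := ⌊(M : ℝ) ^ η⌋₊ with hHdef
    have hH0 : (0 : ℝ) < H := by exact_mod_cast hH1
    have hHM : (H : ℝ) ≤ M := by
      refine hH2.trans ?_
      calc (M : ℝ) ^ η ≤ (M : ℝ) ^ (1 : ℝ) := Real.rpow_le_rpow_of_exponent_le hM1 (by linarith only [hc'0, hc'1, hη1])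
        _ = M := Real.rpow_one _
    have hHM' : H ≤ M := by exact_mod_cast hHM
    have htriv : ‖∑ n ∈ Finset.Ioc A B, ex (τ * Fl l n)‖ ≤ (B : ℝ) - A := es_norm_sum_le A B hAB _
    by_cases hlong : A + H ≤ B
    swap
    · push Not at hlong
      have h1 : (B : ℝ) - A ≤ H := by
        have : (B : ℝ) < A + H := by exact_mod_cast hlong
        linarith only [this]
      have h2 : (M : ℝ) ^ η ≤ (M : ℝ) ^ (1 - c) :=
        Real.rpow_le_rpow_of_exponent_le hM1 (by linarith only [hc'0, hc'1, hcc, hη1])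
      have h3 : 0 ≤ (3 + 4 * C') * (M : ℝ) ^ (1 - c) := by positivity
      nlinarith only [h1, h2, h3, hH2, htriv]
    have hv := es_vdc l τ M A B H hH1 hA hB hlong
    have hterm : ∀ x ∈ Finset.Ico 1 H, ‖∑ n ∈ Finset.Ioc A (B - x), ex (τ * Fl (x :: l) n)‖ ≤
        C' * (M : ℝ) ^ (1 - c') := by
      intro x hx
      rw [Finset.mem_Ico] at hx
      have hx0 : (0 : ℝ) < x := by exact_mod_cast hx.1
      have hx1 : (1 : ℝ) ≤ x := by exact_mod_cast hx.1
      have hxH : (x : ℝ) ≤ H := by exact_mod_cast hx.2.le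
      refine h M (x :: l) τ A (B - x) hM (by simp [hlen]) ?_ hτ hA (by omega) (by omega) ?_ ?_
      · intro y hy
        rcases List.mem_cons.1 hy with h1 | h1
        · subst h1; exact ⟨hx.1, by omega⟩
        · exact hl y h1
      · simp only [List.prod_cons, Nat.cast_mul]
        have e1 : (((i + 1 : ℕ) : ℝ) + r + 1 / 4) = (i : ℝ) + ((r + 1 : ℕ) : ℝ) + 1 / 4 := by push_cast; ring
        rw [e1]
        refine hT1.trans ?_
        have : τ * ((x : ℝ) * l.prod) = (τ * l.prod) * x := by ring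
        rw [this]
        nlinarith only [hT0, hc'0, hc'1, hx1]
      · simp only [List.prod_cons, Nat.cast_mul]
        have e1 : (((i + 1 : ℕ) : ℝ) + r + 1 + 5 / 8 - r * η) =
            ((i : ℝ) + ((r + 1 : ℕ) : ℝ) + 1 + 5 / 8 - ((r + 1 : ℕ) : ℝ) * η) + η := by push_cast; ring
        rw [e1, Real.rpow_add hM0]
        have : τ * ((x : ℝ) * l.prod) = (τ * l.prod) * x := by ring
        rw [this]
        exact mul_le_mul hT2 (hxH.trans hH2) hx0.le (by positivity)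
    have hsum : ∑ x ∈ Finset.Ico 1 H, ‖∑ n ∈ Finset.Ioc A (B - x), ex (τ * Fl (x :: l) n)‖ ≤
        H * (C' * (M : ℝ) ^ (1 - c')) := by
      refine (Finset.sum_le_sum hterm).trans ?_
      rw [Finset.sum_const, nsmul_eq_mul, Nat.card_Ico]
      refine mul_le_mul_of_nonneg_right ?_ (by positivity)
      exact_mod_cast Nat.sub_le _ _
    have hfin : ‖∑ n ∈ Finset.Ioc A B, ex (τ * Fl l n)‖ ^ 2 ≤ (4 + 4 * C') * ((M : ℝ) ^ (1 - c)) ^ 2 := by
      have hsq : ((M : ℝ) ^ (1 - c)) ^ 2 = (M : ℝ) ^ (2 - 2 * c) := by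
        rw [← Real.rpow_natCast ((M : ℝ) ^ (1 - c)) 2, ← Real.rpow_mul hM0.le]
        congr 1
        push_cast
        ring
      have h1 : 2 * (M : ℝ) ^ 2 / H ≤ 4 * (M : ℝ) ^ (2 - 2 * c) := by
        rw [div_le_iff₀ hH0]
        have h2 : (M : ℝ) ^ 2 ≤ (M : ℝ) ^ (2 - 2 * c) * (M : ℝ) ^ η := by
          rw [← Real.rpow_add hM0, ← Real.rpow_natCast (M : ℝ) 2]
          refine Real.rpow_le_rpow_of_exponent_le hM1 ?_
          push_cast
          linarith only [hcη]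
        have h3 : 0 ≤ (M : ℝ) ^ (2 - 2 * c) := by positivity
        nlinarith only [h2, hH2, hH3, hc'0, hc'1, hsq]
      have h2 : 4 * (M : ℝ) / H * (∑ x ∈ Finset.Ico 1 H, ‖∑ n ∈ Finset.Ioc A (B - x), ex (τ * Fl (x :: l) n)‖) ≤
          4 * C' * (M : ℝ) ^ (2 - 2 * c) := by
        refine (mul_le_mul_of_nonneg_left hsum (by positivity)).trans ?_
        have e1 : 4 * (M : ℝ) / H * (H * (C' * (M : ℝ) ^ (1 - c'))) = 4 * C' * (M * (M : ℝ) ^ (1 - c')) := by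
          field_simp
        rw [e1]
        refine mul_le_mul_of_nonneg_left ?_ (by positivity)
        calc (M : ℝ) * (M : ℝ) ^ (1 - c') = (M : ℝ) ^ (1 + (1 - c')) := by
              rw [Real.rpow_add hM0, Real.rpow_one]
          _ ≤ _ := Real.rpow_le_rpow_of_exponent_le hM1 (by linarith only [hcc])
      rw [hsq]
      linarith only [h1, h2, hv]
    exact es_sq (by linarith only [hC', hc'0, hc'1]) hX0.le hfin

/-- Exponential sums `∑ n^{-iτ}` over (parts of) dyadic blocks, `M^(1/4) ≤ |τ| ≤ M^k`. -/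
theorem exp_sum (k : ℕ) : ∃ c : ℝ, 0 < c ∧ c ≤ 1 / 4 ∧ ∃ C : ℝ, 0 < C ∧ ∀ (M M' : ℕ) (τ : ℝ), 1 ≤ M → M ≤ M' →
    M' ≤ 2 * M → (M : ℝ) ^ (1 / 4 : ℝ) ≤ |τ| → |τ| ≤ (M : ℝ) ^ k →
    ‖∑ n ∈ Finset.Ioc M M', ep τ n‖ ≤ C * (M : ℝ) ^ (1 - c) := by
  set η : ℝ := 1 / (8 * ((k : ℝ) + 1)) with hη
  have hη0 : 0 < η := by positivity
  have hη1 : η ≤ 1 / 8 := by
    rw [hη]
    refine one_div_le_one_div_of_le (by norm_num) ?_
    have : (0 : ℝ) ≤ k := by positivity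
    linarith
  have hcl := fun r : ℕ => es_claim hη0 hη1 r 0
  choose c hc0 hc1 C hC h using hcl
  -- minimum of the exponents
  obtain ⟨j0, hj0, hmin⟩ := Finset.exists_min_image (Finset.range (k + 1)) c ⟨0, by simp⟩
  refine ⟨c j0, hc0 _, by linarith [hc1 j0], ∑ j ∈ Finset.range (k + 1), C j, ?_, ?_⟩
  · exact Finset.sum_pos (fun j _ => hC j) ⟨0, by simp⟩
  intro M M' τ hM hMM' hM'2 hτ1 hτ2
  have hM0 : (0 : ℝ) < M := by exact_mod_cast hM
  have hM1 : (1 : ℝ) ≤ M := by exact_mod_cast hM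
  have hτ0 : 0 < |τ| := lt_of_lt_of_le (by positivity) hτ1
  -- reduce to positive
  have hred : ‖∑ n ∈ Finset.Ioc M M', ep τ n‖ = ‖∑ n ∈ Finset.Ioc M M', ex (|τ| * Fl [] n)‖ := by
    rcases lt_trichotomy τ 0 with h1 | h1 | h1
    · rw [abs_of_neg h1]
      congr 1
      refine Finset.sum_congr rfl fun n _ => ?_
      simp only [ep, ex, Fl]
      congr 1
      push_cast
      ring
    · rw [h1] at hτ0; simp at hτ0
    · rw [abs_of_pos h1, ← es_sum_neg]
      congr 1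
      refine Finset.sum_congr rfl fun n _ => ?_
      simp only [ep, ex, Fl]
      congr 1
      push_cast
      ring
  rw [hred]
  have hex : ∃ j : ℕ, |τ| ≤ (M : ℝ) ^ ((j : ℝ) + 3 / 2) := by
    refine ⟨k, hτ2.trans ?_⟩
    rw [← Real.rpow_natCast]
    exact Real.rpow_le_rpow_of_exponent_le hM1 (by linarith)
  classical
  set j := Nat.find hex with hj
  have hjs : |τ| ≤ (M : ℝ) ^ ((j : ℝ) + 3 / 2) := Nat.find_spec hex
  have hjk : j ≤ k := by
    refine Nat.find_min' hex (hτ2.trans ?_)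
    rw [← Real.rpow_natCast]
    exact Real.rpow_le_rpow_of_exponent_le hM1 (by linarith only [hη0, hη1])
  have hlow : (M : ℝ) ^ ((j : ℝ) + 1 / 4) ≤ |τ| := by
    by_cases hj0' : j = 0
    · rw [hj0']; simpa using hτ1
    · have h1 := Nat.find_min hex (m := j - 1) (by omega)
      push Not at h1
      refine le_trans ?_ h1.le
      refine Real.rpow_le_rpow_of_exponent_le hM1 ?_
      have : ((j - 1 : ℕ) : ℝ) = (j : ℝ) - 1 := by
        rw [Nat.cast_sub (by omega)]; simp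
      rw [this]
      linarith only [hη0, hη1]
  have key := h j M [] |τ| M M' hM rfl (by simp) hτ0 le_rfl hMM' hM'2 (by
    simpa using hlow) (by
    simp only [List.prod_nil, Nat.cast_one, mul_one, Nat.cast_zero, zero_add]
    refine hjs.trans (Real.rpow_le_rpow_of_exponent_le hM1 ?_)
    have h1 : (j : ℝ) * η ≤ 1 / 8 := by
      rw [hη, mul_one_div, div_le_div_iff₀ (by positivity) (by norm_num)]
      have : (j : ℝ) ≤ k := by exact_mod_cast hjk
      linarith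
    linarith only [h1])
  refine key.trans ?_
  have hjm : j ∈ Finset.range (k + 1) := Finset.mem_range.2 (by omega)
  have h1 : C j ≤ ∑ j ∈ Finset.range (k + 1), C j :=
    Finset.single_le_sum (fun j _ => (hC j).le) hjm
  have h2 : (M : ℝ) ^ (1 - c j) ≤ (M : ℝ) ^ (1 - c j0) :=
    Real.rpow_le_rpow_of_exponent_le hM1 (by linarith only [hjm, hmin, hmin j hjm])
  exact mul_le_mul h1 h2 (by positivity) (Finset.sum_nonneg fun j _ => (hC j).le)

end Pool.MP_67663b_nt.MR
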