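import Pool.Agent.Lib.MP_67663b_nt.MR.SmoothSum

set_option autoImplicit false
open Filter Topology MeasureTheory
namespace Pool.MP_67663b_nt.MR
open Pool.MP_67663b_nt.Odd

theorem hm_spaced_sum : ∃ C : ℝ, 0 < C ∧ ∀ (S : Finset ℝ) (s : ℝ), Spaced S →
    ∑ t ∈ S, 1 / (1 + (s - t) ^ 2) ≤ C := by
  have hsum : Summable (fun n : ℤ => 1 / (n : ℝ) ^ 2) := Real.summable_one_div_int_pow.2 (by norm_num)
  have h0 : 0 ≤ ∑' n : ℤ, 1 / (n : ℝ) ^ 2 := tsum_nonneg fun n => by positivity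
  refine ⟨3 * (1 + ∑' n : ℤ, 1 / (n : ℝ) ^ 2), by positivity, fun S s hS => ?_⟩
  have hinj : Set.InjOn (fun t : ℝ => ⌊t - s⌋) (S : Set ℝ) := by
    intro x hx y hy hxy
    by_contra hne
    have h1 := hS x hx y hy hne
    have hxy' : ⌊x - s⌋ = ⌊y - s⌋ := hxy
    have h2 := Int.abs_sub_lt_one_of_floor_eq_floor hxy'
    have h3 : x - s - (y - s) = x - y := by ring
    rw [h3] at h2
    linarith
  have h1 : ∀ t ∈ S, 1 / (1 + (s - t) ^ 2) ≤ 3 * (1 / (1 + ((⌊t - s⌋ : ℤ) : ℝ) ^ 2)) := by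
    intro t _
    have hf1 := Int.floor_le (t - s)
    have hf2 := Int.lt_floor_add_one (t - s)
    set m : ℝ := ((⌊t - s⌋ : ℤ) : ℝ) with hm
    have h5 : 1 + m ^ 2 ≤ 3 * (1 + (s - t) ^ 2) := by
      set y := t - s with hy
      have : (s - t) ^ 2 = y ^ 2 := by rw [hy]; ring
      rw [this]
      by_cases hy0 : 0 ≤ m
      · have : m ^ 2 ≤ y ^ 2 := by nlinarith
        nlinarith [sq_nonneg y]
      · push Not at hy0
        nlinarith [sq_nonneg (y + 1), sq_nonneg (y - 1), sq_nonneg (2 * y - 1), sq_nonneg (m - y + 1), sq_nonneg (m + y)]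
    rw [← mul_div_assoc, mul_one, div_le_div_iff₀ (by positivity) (by positivity)]
    linarith
  have h2 : ∑ t ∈ S, 1 / (1 + (s - t) ^ 2) ≤ ∑ t ∈ S, 3 * (1 / (1 + ((⌊t - s⌋ : ℤ) : ℝ) ^ 2)) :=
    Finset.sum_le_sum h1
  refine h2.trans ?_
  rw [← Finset.mul_sum]
  refine mul_le_mul_of_nonneg_left ?_ (by norm_num)
  have h3 : ∑ t ∈ S, (1 / (1 + ((⌊t - s⌋ : ℤ) : ℝ) ^ 2)) =
      ∑ n ∈ S.image (fun t : ℝ => ⌊t - s⌋), (1 / (1 + (n : ℝ) ^ 2)) := by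
    rw [Finset.sum_image hinj]
  rw [h3]
  have h4 : ∀ n : ℤ, (1 / (1 + (n : ℝ) ^ 2)) ≤ (if n = 0 then 1 else 0) + 1 / (n : ℝ) ^ 2 := by
    intro n
    split_ifs with hn
    · subst hn; simp
    · rw [zero_add]
      have : (0 : ℝ) < (n : ℝ) ^ 2 := by positivity
      exact one_div_le_one_div_of_le this (by linarith)
  refine (Finset.sum_le_sum fun n _ => h4 n).trans ?_
  rw [Finset.sum_add_distrib]
  refine add_le_add ?_ (hsum.sum_le_tsum _ fun n _ => by positivity)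
  rw [Finset.sum_ite_eq']
  split_ifs <;> norm_num

/-- duality -/
theorem hm_duality (M : ℝ) (hM : 1 ≤ M) (a : ℕ → ℂ) (S : Finset ℝ) (B : ℝ) (hB : 0 ≤ B)
    (ha : ∀ m, ‖a m‖ ≤ 1)
    (h : ∀ s ∈ S, ∑ t ∈ S, ‖∑ n ∈ Finset.Icc 1 ⌊8 * M⌋₊, (trap M n : ℂ) * ep (s - t) n‖ ≤ B) :
    ∑ t ∈ S, ‖dp (seg M (4 * M)) a t‖ ^ 2 ≤ B * (4 * M) := by
  set A : ℝ → ℂ := fun t => dp (seg M (4 * M)) a t with hA
  set b : ℝ → ℂ := fun t => (starRingEnd ℂ) (A t) with hb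
  set Q : ℝ := ∑ t ∈ S, ‖A t‖ ^ 2 with hQ
  have hQ0 : 0 ≤ Q := Finset.sum_nonneg fun t _ => by positivity
  set Ψ : ℕ → ℂ := fun m => ∑ t ∈ S, b t * ep t m with hΨ
  have e1 : (Q : ℂ) = ∑ m ∈ seg M (4 * M), a m * Ψ m := by
    have : (Q : ℂ) = ∑ t ∈ S, b t * A t := by
      rw [hQ]; push_cast
      refine Finset.sum_congr rfl fun t _ => ?_
      rw [hb]
      simp only
      rw [mul_comm, Complex.mul_conj, Complex.normSq_eq_norm_sq]
      push_cast; ring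
    rw [this]
    simp only [hA, dp, hΨ, Finset.mul_sum]
    rw [Finset.sum_comm]
    refine Finset.sum_congr rfl fun m _ => Finset.sum_congr rfl fun t _ => ?_
    ring
  have e2 : Q ≤ ∑ m ∈ seg M (4 * M), ‖Ψ m‖ := by
    have : Q = ‖(Q : ℂ)‖ := by rw [Complex.norm_real, Real.norm_of_nonneg hQ0]
    rw [this, e1]
    refine (norm_sum_le _ _).trans (Finset.sum_le_sum fun m _ => ?_)
    rw [norm_mul]
    calc ‖a m‖ * ‖Ψ m‖ ≤ 1 * ‖Ψ m‖ := mul_le_mul_of_nonneg_right (ha m) (norm_nonneg _)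
      _ = _ := one_mul _
  have e3 : (∑ m ∈ seg M (4 * M), ‖Ψ m‖) ^ 2 ≤ ((seg M (4 * M)).card : ℝ) * ∑ m ∈ seg M (4 * M), ‖Ψ m‖ ^ 2 :=
    sq_sum_le_card_mul_sum_sq
  have hcard : ((seg M (4 * M)).card : ℝ) ≤ 4 * M := by
    have := card_seg_le (x := M) (y := 4 * M) (by linarith) (by linarith)
    linarith
  have htr : ∀ m ∈ seg M (4 * M), trap M m = 1 := by
    intro m hm
    rw [mem_seg (by linarith) (by linarith)] at hm
    unfold trap
    have h1 : 1 ≤ ((m : ℝ) - M / 2) / (M / 2) := by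
      rw [le_div_iff₀ (by linarith)]; linarith
    have h2 : 1 ≤ (8 * M - (m : ℝ)) / (4 * M) := by
      rw [le_div_iff₀ (by linarith)]; linarith
    rw [min_eq_left (le_min h1 h2), max_eq_right zero_le_one]
  have hsub : seg M (4 * M) ⊆ Finset.Icc 1 ⌊8 * M⌋₊ := by
    refine seg_subset.trans ?_
    refine Finset.Icc_subset_Icc le_rfl (Nat.floor_le_floor (by linarith))
  have e4 : ∑ m ∈ seg M (4 * M), ‖Ψ m‖ ^ 2 ≤ ∑ m ∈ Finset.Icc 1 ⌊8 * M⌋₊, trap M m * ‖Ψ m‖ ^ 2 := by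
    calc ∑ m ∈ seg M (4 * M), ‖Ψ m‖ ^ 2 = ∑ m ∈ seg M (4 * M), trap M m * ‖Ψ m‖ ^ 2 :=
          Finset.sum_congr rfl fun m hm => by rw [htr m hm, one_mul]
      _ ≤ _ := Finset.sum_le_sum_of_subset_of_nonneg hsub fun m _ _ =>
          mul_nonneg (trap_nonneg _ _) (by positivity)
  have e5 : ((∑ m ∈ Finset.Icc 1 ⌊8 * M⌋₊, trap M m * ‖Ψ m‖ ^ 2 : ℝ) : ℂ) =
      ∑ s ∈ S, ∑ t ∈ S, b s * (starRingEnd ℂ) (b t) *
        ∑ n ∈ Finset.Icc 1 ⌊8 * M⌋₊, (trap M n : ℂ) * ep (s - t) n := by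
    push_cast
    have : ∀ m : ℕ, (trap M m : ℂ) * (‖Ψ m‖ : ℂ) ^ 2 =
        ∑ s ∈ S, ∑ t ∈ S, b s * (starRingEnd ℂ) (b t) * ((trap M m : ℂ) * ep (s - t) m) := by
      intro m
      have h1 : ((‖Ψ m‖ : ℂ)) ^ 2 = Ψ m * (starRingEnd ℂ) (Ψ m) := by
        rw [Complex.mul_conj, Complex.normSq_eq_norm_sq]; push_cast; ring
      rw [h1, hΨ]
      simp only [map_sum, map_mul]
      rw [Finset.sum_mul_sum, Finset.mul_sum]
      refine Finset.sum_congr rfl fun s _ => ?_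
      rw [Finset.mul_sum]
      refine Finset.sum_congr rfl fun t _ => ?_
      rw [ep_sub]
      ring
    rw [Finset.sum_congr rfl fun m _ => this m]
    rw [Finset.sum_comm]
    refine Finset.sum_congr rfl fun s _ => ?_
    rw [Finset.sum_comm]
    refine Finset.sum_congr rfl fun t _ => ?_
    rw [Finset.mul_sum]
  have hnn : 0 ≤ ∑ m ∈ Finset.Icc 1 ⌊8 * M⌋₊, trap M m * ‖Ψ m‖ ^ 2 :=
    Finset.sum_nonneg fun m _ => mul_nonneg (trap_nonneg _ _) (by positivity)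
  set Dn : ℝ → ℝ := fun τ => ‖∑ n ∈ Finset.Icc 1 ⌊8 * M⌋₊, (trap M n : ℂ) * ep τ n‖ with hDn
  have hsymm : ∀ τ, Dn (-τ) = Dn τ := by
    intro τ
    simp only [hDn]
    have : ∑ n ∈ Finset.Icc 1 ⌊8 * M⌋₊, (trap M n : ℂ) * ep (-τ) n =
        (starRingEnd ℂ) (∑ n ∈ Finset.Icc 1 ⌊8 * M⌋₊, (trap M n : ℂ) * ep τ n) := by
      rw [map_sum]
      refine Finset.sum_congr rfl fun n _ => ?_
      rw [map_mul, Complex.conj_ofReal, ep_neg]
    rw [this, RCLike.norm_conj]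
  have hbn : ∀ t, ‖b t‖ = ‖A t‖ := fun t => by rw [hb]; simp only [RCLike.norm_conj]
  have e6 : ∑ m ∈ Finset.Icc 1 ⌊8 * M⌋₊, trap M m * ‖Ψ m‖ ^ 2 ≤ B * Q := by
    have h1 : ∑ m ∈ Finset.Icc 1 ⌊8 * M⌋₊, trap M m * ‖Ψ m‖ ^ 2 ≤
        ∑ s ∈ S, ∑ t ∈ S, ‖A s‖ * ‖A t‖ * Dn (s - t) := by
      have : ∑ m ∈ Finset.Icc 1 ⌊8 * M⌋₊, trap M m * ‖Ψ m‖ ^ 2 =
          ‖((∑ m ∈ Finset.Icc 1 ⌊8 * M⌋₊, trap M m * ‖Ψ m‖ ^ 2 : ℝ) : ℂ)‖ := by
        rw [Complex.norm_real, Real.norm_of_nonneg hnn]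
      rw [this, e5]
      refine (norm_sum_le _ _).trans (Finset.sum_le_sum fun s _ => ?_)
      refine (norm_sum_le _ _).trans (Finset.sum_le_sum fun t _ => ?_)
      rw [norm_mul, norm_mul, hbn s, RCLike.norm_conj (b t), hbn t]
    have h2 : ∑ s ∈ S, ∑ t ∈ S, ‖A s‖ * ‖A t‖ * Dn (s - t) ≤
        ∑ s ∈ S, ∑ t ∈ S, (‖A s‖ ^ 2 * Dn (s - t) / 2 + ‖A t‖ ^ 2 * Dn (s - t) / 2) := by
      refine Finset.sum_le_sum fun s _ => Finset.sum_le_sum fun t _ => ?_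
      have hd : 0 ≤ Dn (s - t) := norm_nonneg _
      nlinarith [mul_nonneg hd (sq_nonneg (‖A s‖ - ‖A t‖))]
    have h3 : ∑ s ∈ S, ∑ t ∈ S, ‖A s‖ ^ 2 * Dn (s - t) / 2 ≤ B * Q / 2 := by
      calc ∑ s ∈ S, ∑ t ∈ S, ‖A s‖ ^ 2 * Dn (s - t) / 2
          = ∑ s ∈ S, ‖A s‖ ^ 2 / 2 * ∑ t ∈ S, Dn (s - t) := by
            refine Finset.sum_congr rfl fun s _ => ?_
            rw [Finset.mul_sum]
            refine Finset.sum_congr rfl fun t _ => ?_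
            ring
        _ ≤ ∑ s ∈ S, ‖A s‖ ^ 2 / 2 * B := Finset.sum_le_sum fun s hs =>
            mul_le_mul_of_nonneg_left (h s hs) (by positivity)
        _ = B * Q / 2 := by
            rw [← Finset.sum_mul, ← Finset.sum_div, hQ]; ring
    have h4 : ∑ s ∈ S, ∑ t ∈ S, ‖A t‖ ^ 2 * Dn (s - t) / 2 ≤ B * Q / 2 := by
      rw [Finset.sum_comm]
      refine le_trans (le_of_eq ?_) h3
      refine Finset.sum_congr rfl fun s _ => Finset.sum_congr rfl fun t _ => ?_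
      have : Dn (t - s) = Dn (s - t) := by
        rw [← hsymm (s - t), neg_sub]
      rw [this]
    refine h1.trans (h2.trans ?_)
    simp only [Finset.sum_add_distrib]
    linarith
  have e7 : Q ^ 2 ≤ (4 * M) * (B * Q) := by
    have h0 : 0 ≤ ∑ m ∈ seg M (4 * M), ‖Ψ m‖ := Finset.sum_nonneg fun m _ => norm_nonneg _
    have h1 : Q ^ 2 ≤ (∑ m ∈ seg M (4 * M), ‖Ψ m‖) ^ 2 := pow_le_pow_left₀ hQ0 e2 2
    have h2 : 0 ≤ ∑ m ∈ seg M (4 * M), ‖Ψ m‖ ^ 2 := Finset.sum_nonneg fun m _ => by positivity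
    refine h1.trans (e3.trans ?_)
    refine mul_le_mul hcard (e4.trans e6) h2 (by linarith)
  by_cases hq : Q = 0
  · show Q ≤ _
    rw [hq]; positivity
  · have hqp : 0 < Q := lt_of_le_of_ne hQ0 (Ne.symm hq)
    have : Q * Q ≤ (B * (4 * M)) * Q := by nlinarith
    exact le_of_mul_le_mul_right this hqp

/-- Large values: few well spaced points. -/
theorem hal_mont : ∃ c1 : ℝ, 0 < c1 ∧ ∃ C : ℝ, 0 < C ∧ ∀ (X M : ℝ) (a : ℕ → ℂ) (S : Finset ℝ), 1 ≤ X →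
    X ^ (9 / 10 : ℝ) ≤ M → M ≤ X → (∀ m, ‖a m‖ ≤ 1) → Spaced S → (∀ t ∈ S, |t| ≤ X) →
    (S.card : ℝ) ≤ X ^ c1 →
    ∑ t ∈ S, ‖dp (seg M (4 * M)) a t‖ ^ 2 ≤ C * M ^ 2 := by
  obtain ⟨Cw, hCw, hW⟩ := Wi_bound
  obtain ⟨Cs, hCs, hTs⟩ := trap_small
  obtain ⟨c, hc0, hc1, Cl, hCl, hTl⟩ := trap_large 2
  obtain ⟨C0, hC0, hSp⟩ := hm_spaced_sum
  refine ⟨9 / 10 * c, by positivity, 4 * (Cw * C0 + 9 * Cs + 8 * Cl) + 16 * 1024, by positivity, ?_⟩
  intro X M a S hX hM1 hM2 ha hS hSX hcard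
  have hX0 : 0 < X := by linarith
  have hXM : 1 ≤ X ^ (9 / 10 : ℝ) := Real.one_le_rpow hX (by norm_num)
  have hM : 1 ≤ M := hXM.trans hM1
  have hM0 : 0 < M := by linarith
  have hcardM : (S.card : ℝ) ≤ M ^ c := by
    refine hcard.trans ?_
    rw [Real.rpow_mul hX0.le]
    exact Real.rpow_le_rpow (by positivity) hM1 hc0.le
  by_cases hbig : 1024 ≤ M
  · -- main case
    have hXle : 2 * X ≤ (M / 4) ^ 2 := by
      have h1 : X ≤ M ^ (10 / 9 : ℝ) := by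
        have : X = (X ^ (9 / 10 : ℝ)) ^ (10 / 9 : ℝ) := by
          rw [← Real.rpow_mul hX0.le]; norm_num
        rw [this]
        exact Real.rpow_le_rpow (by positivity) hM1 (by norm_num)
      have h2 : M ^ (10 / 9 : ℝ) ≤ M ^ (3 / 2 : ℝ) := Real.rpow_le_rpow_of_exponent_le hM (by norm_num)
      have h3 : M ^ (3 / 2 : ℝ) = M * Real.sqrt M := by
        rw [Real.sqrt_eq_rpow, show (3 / 2 : ℝ) = 1 + 1 / 2 by norm_num, Real.rpow_add hM0, Real.rpow_one]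
      have h4 : (32 : ℝ) ≤ Real.sqrt M := by
        rw [show (32 : ℝ) = Real.sqrt (32 ^ 2) by rw [Real.sqrt_sq (by norm_num)]]
        exact Real.sqrt_le_sqrt (by norm_num; linarith)
      have h5 : Real.sqrt M * Real.sqrt M = M := Real.mul_self_sqrt hM0.le
      have h6 : 2 * (M * Real.sqrt M) ≤ (M / 4) ^ 2 := by
        have : (M / 4) ^ 2 = M * (Real.sqrt M * Real.sqrt M) / 16 := by rw [h5]; ring
        rw [this]
        have h7 : 0 ≤ M * Real.sqrt M := by positivity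
        nlinarith
      linarith [h1.trans h2, h3.le]
    have h8M : (8 * M) ^ (1 / 4 : ℝ) ≤ 8 * M ^ (1 / 4 : ℝ) := by
      rw [Real.mul_rpow (by norm_num) hM0.le]
      refine mul_le_mul_of_nonneg_right ?_ (by positivity)
      calc (8 : ℝ) ^ (1 / 4 : ℝ) ≤ 8 ^ (1 : ℝ) := Real.rpow_le_rpow_of_exponent_le (by norm_num) (by norm_num)
        _ = 8 := Real.rpow_one _
    have h8c : (8 * M) ^ (1 - c) ≤ 8 * M ^ (1 - c) := by
      rw [Real.mul_rpow (by norm_num) hM0.le]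
      refine mul_le_mul_of_nonneg_right ?_ (by positivity)
      calc (8 : ℝ) ^ (1 - c) ≤ 8 ^ (1 : ℝ) := Real.rpow_le_rpow_of_exponent_le (by norm_num) (by linarith)
        _ = 8 := Real.rpow_one _
    have hD : ∀ τ : ℝ, |τ| ≤ 2 * X →
        ‖∑ n ∈ Finset.Icc 1 ⌊8 * M⌋₊, (trap M n : ℂ) * ep τ n‖ ≤
          Cw * M * (1 / (1 + τ ^ 2)) + (9 * Cs * M ^ (1 / 4 : ℝ) + 8 * Cl * M ^ (1 - c)) := by
      intro τ hτ
      have hq : 1 ≤ M ^ (1 / 4 : ℝ) := Real.one_le_rpow hM (by norm_num)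
      have hfil : (Finset.Icc 1 ⌊8 * M⌋₊).filter (fun n => 1 ∣ n) = Finset.Icc 1 ⌊8 * M⌋₊ :=
        Finset.filter_true_of_mem fun n _ => one_dvd n
      by_cases hs : |τ| ≤ (8 * M) ^ (1 / 4 : ℝ)
      · have h1 := hTs M τ 1 hM le_rfl
        rw [hfil] at h1
        have h2 := hW M τ hM0
        have h3 : ‖(1 / ((1 : ℕ) : ℂ)) * Wi M τ‖ ≤ Cw * M / (1 + τ ^ 2) := by
          simpa using h2
        have h4 := norm_sub_norm_le (∑ n ∈ Finset.Icc 1 ⌊8 * M⌋₊, (trap M n : ℂ) * ep τ n)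
          ((1 / ((1 : ℕ) : ℂ)) * Wi M τ)
        have h5 : Cs * (1 + |τ|) ≤ 9 * Cs * M ^ (1 / 4 : ℝ) := by
          have : 1 + |τ| ≤ 9 * M ^ (1 / 4 : ℝ) := by linarith
          nlinarith
        have h6 : 0 ≤ 8 * Cl * M ^ (1 - c) := by positivity
        have h7 : Cw * M / (1 + τ ^ 2) = Cw * M * (1 / (1 + τ ^ 2)) := by ring
        linarith
      · push Not at hs
        have h1 := hTl M τ 1 le_rfl (by push_cast; linarith) hs.le (by
          push_cast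
          rw [mul_one]
          exact hτ.trans hXle)
        rw [hfil] at h1
        have h2 : Cl * (8 * M) ^ (1 - c) ≤ 8 * Cl * M ^ (1 - c) := by
          nlinarith
        have h3 : 0 ≤ Cw * M * (1 / (1 + τ ^ 2)) := by positivity
        have h4 : 0 ≤ 9 * Cs * M ^ (1 / 4 : ℝ) := by positivity
        linarith
    have hB : ∀ s ∈ S, ∑ t ∈ S, ‖∑ n ∈ Finset.Icc 1 ⌊8 * M⌋₊, (trap M n : ℂ) * ep (s - t) n‖ ≤
        (Cw * C0 + 9 * Cs + 8 * Cl) * M := by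
      intro s hs
      have h1 : ∑ t ∈ S, ‖∑ n ∈ Finset.Icc 1 ⌊8 * M⌋₊, (trap M n : ℂ) * ep (s - t) n‖ ≤
          ∑ t ∈ S, (Cw * M * (1 / (1 + (s - t) ^ 2)) + (9 * Cs * M ^ (1 / 4 : ℝ) + 8 * Cl * M ^ (1 - c))) := by
        refine Finset.sum_le_sum fun t ht => hD _ ?_
        have h1 := hSX s hs
        have h2 := hSX t ht
        have h3 := abs_sub s t
        linarith
      refine h1.trans ?_
      rw [Finset.sum_add_distrib, ← Finset.mul_sum, Finset.sum_const, nsmul_eq_mul]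
      have h2 : Cw * M * ∑ t ∈ S, 1 / (1 + (s - t) ^ 2) ≤ Cw * M * C0 :=
        mul_le_mul_of_nonneg_left (hSp S s hS) (by positivity)
      have h3 : (S.card : ℝ) * (9 * Cs * M ^ (1 / 4 : ℝ) + 8 * Cl * M ^ (1 - c)) ≤
          M ^ c * (9 * Cs * M ^ (1 / 4 : ℝ) + 8 * Cl * M ^ (1 - c)) :=
        mul_le_mul_of_nonneg_right hcardM (by positivity)
      have h4 : M ^ c * M ^ (1 - c) = M := by
        rw [← Real.rpow_add hM0]; norm_num
      have h5 : M ^ c * M ^ (1 / 4 : ℝ) ≤ M := by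
        rw [← Real.rpow_add hM0]
        calc M ^ (c + 1 / 4) ≤ M ^ (1 : ℝ) := Real.rpow_le_rpow_of_exponent_le hM (by linarith)
          _ = M := Real.rpow_one _
      have h6 : M ^ c * (9 * Cs * M ^ (1 / 4 : ℝ) + 8 * Cl * M ^ (1 - c)) =
          9 * Cs * (M ^ c * M ^ (1 / 4 : ℝ)) + 8 * Cl * (M ^ c * M ^ (1 - c)) := by ring
      rw [h4] at h6
      have h7 : 9 * Cs * (M ^ c * M ^ (1 / 4 : ℝ)) ≤ 9 * Cs * M :=
        mul_le_mul_of_nonneg_left h5 (by positivity)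
      linarith
    have := hm_duality M hM a S _ (by positivity) ha hB
    refine this.trans ?_
    have : 0 ≤ M ^ 2 := by positivity
    nlinarith
  · push Not at hbig
    have h1 : ∀ t ∈ S, ‖dp (seg M (4 * M)) a t‖ ^ 2 ≤ (4 * M) ^ 2 := by
      intro t _
      refine pow_le_pow_left₀ (norm_nonneg _) ?_ 2
      refine (norm_dp_le _ _ _).trans ?_
      refine (Finset.sum_le_sum fun n _ => ha n).trans ?_
      rw [Finset.sum_const, nsmul_eq_mul, mul_one]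
      have := card_seg_le (x := M) (y := 4 * M) (by linarith) (by linarith)
      linarith
    refine (Finset.sum_le_sum h1).trans ?_
    rw [Finset.sum_const, nsmul_eq_mul]
    have h2 : (S.card : ℝ) ≤ 1024 := by
      refine hcardM.trans ?_
      calc M ^ c ≤ M ^ (1 : ℝ) := Real.rpow_le_rpow_of_exponent_le hM (by linarith)
        _ = M := Real.rpow_one _
        _ ≤ 1024 := hbig.le
    have h3 : 0 ≤ M ^ 2 := by positivity
    have h4 : (S.card : ℝ) * (4 * M) ^ 2 ≤ 1024 * (4 * M) ^ 2 :=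
      mul_le_mul_of_nonneg_right h2 (by positivity)
    have h5 : 0 ≤ (4 * (Cw * C0 + 9 * Cs + 8 * Cl)) * M ^ 2 := by positivity
    nlinarith

end Pool.MP_67663b_nt.MR
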