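import Pool.Agent.Lib.MP_67663b_nt.MR.MDefs
import Pool.Agent.Lib.MP_67663b_nt.Odd.WPNT

set_option autoImplicit false
open Filter Topology MeasureTheory
namespace Pool.MP_67663b_nt.MR
open Pool.MP_67663b_nt.Odd

private theorem mert_harm (M1 : ℕ) (h1 : 1 ≤ M1) (M2 : ℕ) (h2 : 1 ≤ M2) :
    Real.log ((M2 : ℝ) / M1) ≤ ∑ m ∈ Finset.Ico M1 M2, 1 / (m : ℝ) := by
  have hM1 : (0 : ℝ) < M1 := by exact_mod_cast h1
  rcases le_total M2 M1 with h | h
  · have h3 : Real.log ((M2 : ℝ) / M1) ≤ 0 := by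
      refine Real.log_nonpos (by positivity) ?_
      rw [div_le_one hM1]; exact_mod_cast h
    exact h3.trans (Finset.sum_nonneg fun m _ => by positivity)
  · clear h2
    induction M2, h using Nat.le_induction with
    | base => simp [div_self hM1.ne']
    | succ n hn ih =>
      have hn0 : (0 : ℝ) < n := by exact_mod_cast (lt_of_lt_of_le h1 hn)
      rw [Finset.sum_Ico_succ_top hn]
      have h4 : Real.log (((n + 1 : ℕ) : ℝ) / M1) = Real.log ((n : ℝ) / M1) +
          Real.log (((n : ℝ) + 1) / n) := by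
        rw [← Real.log_mul (by positivity) (by positivity)]
        congr 1
        push_cast
        field_simp
      have h5 : Real.log (((n : ℝ) + 1) / n) ≤ 1 / n := by
        have h6 := Real.log_le_sub_one_of_pos (show (0 : ℝ) < ((n : ℝ) + 1) / n by positivity)
        have h7 : ((n : ℝ) + 1) / n - 1 = 1 / n := by field_simp; ring
        linarith
      linarith

private theorem mert_cover (K a b : ℕ) (hK : 1 ≤ K) (f : ℕ → ℝ) (hf : ∀ n, 0 ≤ f n) :
    ∑ p ∈ (seg (Real.exp ((a : ℝ) / K)) (Real.exp ((b : ℝ) / K))).filter Nat.Prime, f p ≤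
      ∑ v ∈ Finset.Ico a b, ∑ p ∈ sl K v, f p := by
  classical
  have hKR : (0 : ℝ) < K := by exact_mod_cast hK
  set S := (seg (Real.exp ((a : ℝ) / K)) (Real.exp ((b : ℝ) / K))).filter Nat.Prime with hS
  calc ∑ p ∈ S, f p ≤ ∑ p ∈ S, ∑ v ∈ Finset.Ico a b, (if p ∈ sl K v then f p else 0) := by
        refine Finset.sum_le_sum fun p hp => ?_
        rw [hS, Finset.mem_filter, mem_seg (Real.exp_pos _).le (Real.exp_pos _).le] at hp
        obtain ⟨⟨h1, h2⟩, h3⟩ := hp
        have hp0 : (0 : ℝ) < p := by exact_mod_cast h3.pos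
        have h4 : (a : ℝ) < K * Real.log p := by
          have := (Real.lt_log_iff_exp_lt hp0).2 h1
          rw [div_lt_iff₀ hKR] at this
          linarith
        have h5 : K * Real.log p ≤ (b : ℝ) := by
          have := (Real.log_le_iff_le_exp hp0).2 h2
          rw [le_div_iff₀ hKR] at this
          linarith
        set u := ⌈K * Real.log p⌉₊ with hu
        have hpos : 0 < K * Real.log p := lt_of_le_of_lt (Nat.cast_nonneg _) h4
        have hu1 : a < u := Nat.lt_ceil.2 h4
        have hu2 : u ≤ b := Nat.ceil_le.2 h5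
        have hu3 : K * Real.log p ≤ u := Nat.le_ceil _
        have hu4 : (u : ℝ) < K * Real.log p + 1 := Nat.ceil_lt_add_one hpos.le
        have hu5 : ((u - 1 : ℕ) : ℝ) = (u : ℝ) - 1 := by
          rw [Nat.cast_sub (by omega)]; simp
        have hmem : p ∈ sl K (u - 1) := by
          rw [mem_sl, hu5]
          refine ⟨h3, ?_, ?_⟩
          · rw [← Real.lt_log_iff_exp_lt hp0, div_lt_iff₀ hKR]; linarith
          · rw [← Real.log_le_iff_le_exp hp0, le_div_iff₀ hKR]; linarith
        have hin : u - 1 ∈ Finset.Ico a b := by rw [Finset.mem_Ico]; omega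
        have h6 := Finset.single_le_sum (f := fun v => if p ∈ sl K v then f p else 0)
          (fun v _ => by
            by_cases h : p ∈ sl K v
            · simp only [h, if_true]; exact hf p
            · simp [h]) hin
        simp only [hmem, if_true] at h6
        exact h6
    _ = ∑ v ∈ Finset.Ico a b, ∑ p ∈ S, (if p ∈ sl K v then f p else 0) := Finset.sum_comm
    _ ≤ ∑ v ∈ Finset.Ico a b, ∑ p ∈ sl K v, f p := by
        refine Finset.sum_le_sum fun v _ => ?_
        rw [← Finset.sum_filter]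
        refine Finset.sum_le_sum_of_subset_of_nonneg (fun p hp => ?_) (fun p _ _ => hf p)
        exact (Finset.mem_filter.1 hp).2

/-- Lower bound of Mertens type (Chebyshev strength is enough). -/
theorem mert_low : ∃ c : ℝ, 0 < c ∧ ∃ C : ℝ, ∀ K a b : ℕ, 1 ≤ K → K ≤ a → a < b →
    c * Real.log ((b : ℝ) / a) - C ≤ Lm K a b := by
  classical
  obtain ⟨c, hc, m0, h⟩ := weak_pnt (η := 1) one_pos
  refine ⟨c / 2, by positivity, c / 2 * Real.log (2 * (m0 + 2)), ?_⟩
  intro K a b hK hKa hab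
  have hKR : (0 : ℝ) < K := by exact_mod_cast hK
  have hl2 : 0 < Real.log 2 := Real.log_pos (by norm_num)
  have hl2' : Real.log 2 < 1 := by
    have := Real.log_two_lt_d9; linarith
  set u : ℝ := (a : ℝ) / (K * Real.log 2) with hu
  set w : ℝ := (b : ℝ) / (K * Real.log 2) with hw
  have haR : (K : ℝ) ≤ a := by exact_mod_cast hKa
  have hbR : (a : ℝ) < b := by exact_mod_cast hab
  have hapos : (0 : ℝ) < a := by linarith
  have hu1 : 1 ≤ u := by
    rw [hu, le_div_iff₀ (by positivity)]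
    nlinarith
  have huw : u < w := by
    rw [hu, hw]
    exact div_lt_div_of_pos_right hbR (by positivity)
  set M1 : ℕ := max (⌊u⌋₊ + 1) m0 with hM1
  set M2 : ℕ := ⌊w⌋₊ with hM2
  have hM1pos : 1 ≤ M1 := le_trans (by omega) (le_max_left _ _)
  have hM2pos : 1 ≤ M2 := Nat.le_floor (by push_cast; linarith)
  have hharm := mert_harm M1 hM1pos M2 hM2pos
  -- blocks
  set blk' : ℕ → Finset ℕ := fun m => (Finset.Ico (2 ^ m) (2 ^ (m + 1))).filter
      (fun p : ℕ => p.Prime ∧ (p : ℝ) ≤ (1 + 1) * 2 ^ m) with hblk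
  have hblksum : ∀ m ∈ Finset.Ico M1 M2, c / 2 * (1 / (m : ℝ)) ≤ ∑ p ∈ blk' m, 1 / (p : ℝ) := by
    intro m hm
    rw [Finset.mem_Ico] at hm
    have hm0 : m0 ≤ m := (le_max_right _ _).trans hm.1
    have hmpos : (0 : ℝ) < m := by exact_mod_cast (lt_of_lt_of_le hM1pos hm.1)
    have h1 := h m hm0
    have h2 : ((blk' m).card : ℝ) * (1 / 2 ^ (m + 1)) ≤ ∑ p ∈ blk' m, 1 / (p : ℝ) := by
      rw [← nsmul_eq_mul, ← Finset.sum_const]
      refine Finset.sum_le_sum fun p hp => ?_
      rw [hblk, Finset.mem_filter, Finset.mem_Ico] at hp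
      have hp0 : (0 : ℝ) < p := by exact_mod_cast hp.2.1.pos
      refine one_div_le_one_div_of_le hp0 ?_
      exact_mod_cast hp.1.2.le
    refine le_trans ?_ h2
    have h3 : (0 : ℝ) < 2 ^ m := by positivity
    have h4 : c / 2 * (1 / (m : ℝ)) = (c * 2 ^ m) / (m * 2 ^ (m + 1)) := by
      rw [pow_succ]; field_simp
    rw [h4, div_le_iff₀ (by positivity)]
    calc c * 2 ^ m ≤ m * ((blk' m).card : ℝ) := h1
      _ = (blk' m).card * (1 / 2 ^ (m + 1)) * (m * 2 ^ (m + 1)) := by field_simp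
  have hexp : ∀ y : ℝ, Real.exp (y * Real.log 2) = (2 : ℝ) ^ y := by
    intro y
    rw [Real.rpow_def_of_pos (by norm_num), mul_comm]
  have hea : Real.exp ((a : ℝ) / K) = (2 : ℝ) ^ u := by
    rw [← hexp]; congr 1; rw [hu]; field_simp
  have heb : Real.exp ((b : ℝ) / K) = (2 : ℝ) ^ w := by
    rw [← hexp]; congr 1; rw [hw]; field_simp
  have hdisj : (Finset.Ico M1 M2 : Set ℕ).PairwiseDisjoint blk' := by
    intro m _ m' _ hne
    rw [Function.onFun, Finset.disjoint_left]
    intro p hp hp'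
    rw [hblk, Finset.mem_filter, Finset.mem_Ico] at hp hp'
    apply hne
    have e1 : Nat.log 2 p = m := (Nat.log_eq_iff (Or.inr ⟨by norm_num, hp.2.1.ne_zero⟩)).2 hp.1
    have e2 : Nat.log 2 p = m' := (Nat.log_eq_iff (Or.inr ⟨by norm_num, hp'.2.1.ne_zero⟩)).2 hp'.1
    omega
  have hsub : (Finset.Ico M1 M2).biUnion blk' ⊆
      (seg (Real.exp ((a : ℝ) / K)) (Real.exp ((b : ℝ) / K))).filter Nat.Prime := by
    intro p hp
    rw [Finset.mem_biUnion] at hp
    obtain ⟨m, hm, hp⟩ := hp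
    rw [Finset.mem_Ico] at hm
    rw [hblk, Finset.mem_filter, Finset.mem_Ico] at hp
    rw [Finset.mem_filter, mem_seg (Real.exp_pos _).le (Real.exp_pos _).le, hea, heb]
    refine ⟨⟨?_, ?_⟩, hp.2.1⟩
    · have h1 : ⌊u⌋₊ + 1 ≤ m := (le_max_left _ _).trans hm.1
      have h2 : u < m := by
        have := Nat.lt_floor_add_one u
        have h3 : ((⌊u⌋₊ + 1 : ℕ) : ℝ) ≤ m := by exact_mod_cast h1
        push_cast at h3
        linarith
      calc (2 : ℝ) ^ u < (2 : ℝ) ^ (m : ℝ) := Real.rpow_lt_rpow_of_exponent_lt (by norm_num) h2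
        _ = ((2 ^ m : ℕ) : ℝ) := by rw [Real.rpow_natCast]; push_cast; rfl
        _ ≤ p := by exact_mod_cast hp.1.1
    · have h1 : ((m + 1 : ℕ) : ℝ) ≤ w := by
        have h2 : m + 1 ≤ M2 := hm.2
        have h3 : ((m + 1 : ℕ) : ℝ) ≤ (M2 : ℝ) := by exact_mod_cast h2
        exact h3.trans (Nat.floor_le (by linarith))
      calc (p : ℝ) ≤ ((2 ^ (m + 1) : ℕ) : ℝ) := by exact_mod_cast hp.1.2.le
        _ = (2 : ℝ) ^ ((m + 1 : ℕ) : ℝ) := by rw [Real.rpow_natCast]; push_cast; rfl
        _ ≤ (2 : ℝ) ^ w := Real.rpow_le_rpow_of_exponent_le (by norm_num) h1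
  have hmain : c / 2 * ∑ m ∈ Finset.Ico M1 M2, 1 / (m : ℝ) ≤ Lm K a b := by
    rw [Finset.mul_sum]
    refine (Finset.sum_le_sum hblksum).trans ?_
    rw [← Finset.sum_biUnion hdisj]
    refine (Finset.sum_le_sum_of_subset_of_nonneg hsub fun p _ _ => by positivity).trans ?_
    exact mert_cover K a b hK (fun p => 1 / (p : ℝ)) (fun p => by positivity)
  refine le_trans ?_ hmain
  have hlog : Real.log ((b : ℝ) / a) - Real.log (2 * (m0 + 2)) ≤ Real.log ((M2 : ℝ) / M1) := by
    have hM1R : (0 : ℝ) < M1 := by exact_mod_cast hM1pos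
    have hM2R : (0 : ℝ) < M2 := by exact_mod_cast hM2pos
    have hm0R : (0 : ℝ) ≤ m0 := Nat.cast_nonneg _
    have hb0 : (0 : ℝ) < b := by linarith
    rw [← Real.log_div (by positivity) (by positivity)]
    refine Real.log_le_log (by positivity) ?_
    have e1 : (b : ℝ) / a = w / u := by
      rw [hw, hu]; field_simp
    have e2 : (M1 : ℝ) ≤ u * (m0 + 2) := by
      rw [hM1]
      push_cast
      refine max_le ?_ ?_
      · have := Nat.floor_le (show 0 ≤ u by linarith)
        nlinarith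
      · nlinarith
    have e3 : w ≤ 2 * M2 := by
      have := Nat.lt_floor_add_one w
      rw [← hM2] at this
      have h5 : (1 : ℝ) ≤ M2 := by exact_mod_cast hM2pos
      linarith
    rw [e1, div_div, div_le_div_iff₀ (by positivity) hM1R]
    have hu0 : 0 < u := by linarith
    calc w * M1 ≤ (2 * M2) * (u * (m0 + 2)) :=
          mul_le_mul e3 e2 hM1R.le (by positivity)
      _ = M2 * (u * (2 * (m0 + 2))) := by ring
  nlinarith

end Pool.MP_67663b_nt.MR
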