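import Pool.Agent.Lib.MP_67663b_nt.MR.MDefs

set_option autoImplicit false
open Filter Topology MeasureTheory
namespace Pool.MP_67663b_nt.MR
open Pool.MP_67663b_nt.Odd

/-- squarefree numbers up to `D` -/
private def sieveW_T (D : ℕ) : Finset ℕ := (Finset.Icc 1 D).filter Squarefree

private noncomputable def sieveW_S (D : ℕ) : ℝ := ∑ m ∈ sieveW_T D, 1 / (Nat.totient m : ℝ)

private theorem sieveW_sum_sq (D : ℕ) : ∑ k ∈ Finset.Icc 1 D, 1 / ((k : ℝ) ^ 2) ≤ 2 := by
  have h : ∀ D : ℕ, 1 ≤ D → ∑ k ∈ Finset.Icc 1 D, 1 / ((k : ℝ) ^ 2) ≤ 2 - 1 / (D : ℝ) := by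
    intro D hD
    induction D, hD using Nat.le_induction with
    | base => norm_num
    | succ n hn ih =>
      rw [Finset.sum_Icc_succ_top (by omega)]
      have hn0 : (0 : ℝ) < n := by exact_mod_cast hn
      have : 1 / (((n + 1 : ℕ) : ℝ) ^ 2) ≤ 1 / (n : ℝ) - 1 / ((n + 1 : ℕ) : ℝ) := by
        push_cast
        rw [div_sub_div _ _ (by positivity) (by positivity), div_le_div_iff₀ (by positivity) (by positivity)]
        nlinarith
      linarith
  rcases Nat.eq_zero_or_pos D with rfl | hD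
  · simp
  · have := h D hD
    have h0 : (0 : ℝ) ≤ 1 / (D : ℝ) := by positivity
    linarith

private theorem sieveW_S_ge (D : ℕ) : Real.log D ≤ 2 * sieveW_S D := by
  have h1 : Real.log D ≤ ∑ n ∈ Finset.Icc 1 D, 1 / (n : ℝ) := by
    rcases Nat.eq_zero_or_pos D with rfl | hD
    · simp
    · have h := log_add_one_le_harmonic D
      have h' : Real.log D ≤ Real.log ((D + 1 : ℕ) : ℝ) := by
        apply Real.log_le_log (by exact_mod_cast hD)
        push_cast
        linarith
      have e : ((harmonic D : ℚ) : ℝ) = ∑ n ∈ Finset.Icc 1 D, 1 / (n : ℝ) := by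
        rw [harmonic_eq_sum_Icc]
        push_cast
        exact Finset.sum_congr rfl fun n _ => by rw [one_div]
      rw [e] at h
      push_cast at h h'
      linarith
  choose A B hAB using Nat.sq_mul_squarefree
  have h2 : ∑ n ∈ Finset.Icc 1 D, 1 / (n : ℝ) ≤
      ∑ p ∈ sieveW_T D ×ˢ Finset.Icc 1 D, 1 / ((p.1 : ℝ)) * (1 / ((p.2 : ℝ) ^ 2)) := by
    have hinj : Set.InjOn (fun n => (A n, B n)) (Finset.Icc 1 D : Finset ℕ) := by
      intro n _ m _ hnm
      simp only [Prod.mk.injEq] at hnm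
      rw [← (hAB n).1, ← (hAB m).1, hnm.1, hnm.2]
    have hmap : ∀ n ∈ Finset.Icc 1 D, (A n, B n) ∈ sieveW_T D ×ˢ Finset.Icc 1 D := by
      intro n hn
      rw [Finset.mem_Icc] at hn
      have h := (hAB n).1
      have hA : A n ≠ 0 := fun h0 => by
        rw [h0, mul_zero] at h
        omega
      have hB : B n ≠ 0 := fun h0 => by
        rw [h0] at h
        simp at h
        omega
      have hA1 : A n ≤ n := by
        calc A n = 1 * A n := (one_mul _).symm
          _ ≤ B n ^ 2 * A n := Nat.mul_le_mul_right _ (Nat.one_le_pow _ _ (by omega))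
          _ = n := h
      have hB1 : B n ≤ n := by
        calc B n = B n * 1 := (mul_one _).symm
          _ ≤ B n * (B n * A n) := Nat.mul_le_mul_left _ (Nat.one_le_iff_ne_zero.2 (Nat.mul_ne_zero hB hA))
          _ = B n ^ 2 * A n := by ring
          _ = n := h
      rw [Finset.mem_product, sieveW_T, Finset.mem_filter, Finset.mem_Icc, Finset.mem_Icc]
      refine ⟨⟨⟨?_, ?_⟩, (hAB n).2⟩, ?_, ?_⟩
      · show 1 ≤ A n
        omega
      · show A n ≤ D
        omega
      · show 1 ≤ B n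
        omega
      · show B n ≤ D
        omega
    have e : ∑ n ∈ Finset.Icc 1 D, 1 / (n : ℝ) =
        ∑ p ∈ (Finset.Icc 1 D).image (fun n => (A n, B n)), 1 / ((p.1 : ℝ)) * (1 / ((p.2 : ℝ) ^ 2)) := by
      rw [Finset.sum_image hinj]
      refine Finset.sum_congr rfl fun n _ => ?_
      have h := (hAB n).1
      have h' : ((B n : ℝ)) ^ 2 * A n = n := by exact_mod_cast h
      show 1 / (n : ℝ) = 1 / (A n : ℝ) * (1 / (B n : ℝ) ^ 2)
      rw [← h', one_div_mul_one_div, mul_comm ((B n : ℝ) ^ 2)]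
    rw [e]
    refine Finset.sum_le_sum_of_subset_of_nonneg ?_ fun p _ _ => by positivity
    intro p hp
    rw [Finset.mem_image] at hp
    obtain ⟨n, hn, rfl⟩ := hp
    exact hmap n hn
  have h3 : ∑ p ∈ sieveW_T D ×ˢ Finset.Icc 1 D, 1 / ((p.1 : ℝ)) * (1 / ((p.2 : ℝ) ^ 2)) =
      (∑ m ∈ sieveW_T D, 1 / (m : ℝ)) * ∑ k ∈ Finset.Icc 1 D, 1 / ((k : ℝ) ^ 2) := by
    rw [Finset.sum_product, Finset.sum_mul]
    exact Finset.sum_congr rfl fun m _ => by rw [Finset.mul_sum]
  have h4 : ∑ m ∈ sieveW_T D, 1 / (m : ℝ) ≤ sieveW_S D := by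
    refine Finset.sum_le_sum fun m hm => ?_
    rw [sieveW_T, Finset.mem_filter, Finset.mem_Icc] at hm
    have h : Nat.totient m ≤ m := Nat.totient_le m
    have h0 : 0 < Nat.totient m := Nat.totient_pos.2 (by omega)
    have h' : (Nat.totient m : ℝ) ≤ m := by exact_mod_cast h
    have h0' : (0 : ℝ) < Nat.totient m := by exact_mod_cast h0
    exact one_div_le_one_div_of_le h0' h'
  have h5 : (0 : ℝ) ≤ ∑ m ∈ sieveW_T D, 1 / (m : ℝ) := Finset.sum_nonneg fun m _ => by positivity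
  calc Real.log D ≤ _ := h1
    _ ≤ _ := h2
    _ = _ := h3
    _ ≤ (∑ m ∈ sieveW_T D, 1 / (m : ℝ)) * 2 := mul_le_mul_of_nonneg_left (sieveW_sum_sq D) h5
    _ ≤ sieveW_S D * 2 := mul_le_mul_of_nonneg_right h4 (by norm_num)
    _ = _ := mul_comm _ _

/-- `d ∑_{m ∈ T, d ∣ m} 1/φ(m) ≤ S` -/
private theorem sieveW_S_part (D d : ℕ) :
    (d : ℝ) * ∑ m ∈ (sieveW_T D).filter (fun m => d ∣ m), 1 / (Nat.totient m : ℝ) ≤ sieveW_S D := by
  have hSnn : 0 ≤ sieveW_S D := Finset.sum_nonneg fun m _ => by positivity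
  by_cases hd : Squarefree d
  swap
  · have : (sieveW_T D).filter (fun m => d ∣ m) = ∅ := by
      rw [Finset.filter_eq_empty_iff]
      intro m hm hdm
      rw [sieveW_T, Finset.mem_filter] at hm
      exact hd (hm.2.squarefree_of_dvd hdm)
    rw [this, Finset.sum_empty, mul_zero]
    exact hSnn
  have hd0 : d ≠ 0 := hd.ne_zero
  set F := (sieveW_T D).filter (fun m => d ∣ m) with hF
  have hmem : ∀ m ∈ F, 1 ≤ m ∧ m ≤ D ∧ Squarefree m ∧ d ∣ m := by
    intro m hm
    rw [hF, Finset.mem_filter, sieveW_T, Finset.mem_filter, Finset.mem_Icc] at hm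
    exact ⟨hm.1.1.1, hm.1.1.2, hm.1.2, hm.2⟩
  have hcop : ∀ m ∈ F, Nat.Coprime d (m / d) := by
    intro m hm
    obtain ⟨-, -, h3, k, rfl⟩ := hmem m hm
    rw [Nat.mul_div_cancel_left _ (Nat.pos_of_ne_zero hd0)]
    exact Nat.coprime_of_squarefree_mul h3
  have e1 : (d : ℝ) * ∑ m ∈ F, 1 / (Nat.totient m : ℝ) =
      ∑ p ∈ F ×ˢ d.divisors, 1 / (Nat.totient (p.2 * (p.1 / d)) : ℝ) := by
    rw [Finset.sum_product, Finset.mul_sum]
    refine Finset.sum_congr rfl fun m hm => ?_
    have hm' := hmem m hm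
    have hc := hcop m hm
    have hφd : (0 : ℝ) < Nat.totient d := by
      have := Nat.totient_pos.2 (Nat.pos_of_ne_zero hd0)
      exact_mod_cast this
    have hmd : d * (m / d) = m := Nat.mul_div_cancel' hm'.2.2.2
    have hk0 : 0 < m / d := Nat.pos_of_ne_zero fun h => by
      rw [h, mul_zero] at hmd
      omega
    have hφk : (0 : ℝ) < Nat.totient (m / d) := by
      have := Nat.totient_pos.2 hk0
      exact_mod_cast this
    have h1 : (Nat.totient m : ℝ) = Nat.totient d * Nat.totient (m / d) := by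
      conv_lhs => rw [← hmd]
      rw [Nat.totient_mul hc]
      push_cast
      rfl
    have h2 : ∀ l ∈ d.divisors, 1 / (Nat.totient (l * (m / d)) : ℝ) =
        (Nat.totient (d / l) : ℝ) / (Nat.totient d * Nat.totient (m / d)) := by
      intro l hl
      rw [Nat.mem_divisors] at hl
      have hcl : Nat.Coprime l (m / d) := Nat.Coprime.coprime_dvd_left hl.1 hc
      have hll : l * (d / l) = d := Nat.mul_div_cancel' hl.1
      have hc2 : Nat.Coprime l (d / l) := by
        apply Nat.coprime_of_squarefree_mul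
        rw [hll]
        exact hd
      have h3 : (Nat.totient d : ℝ) = Nat.totient l * Nat.totient (d / l) := by
        conv_lhs => rw [← hll]
        rw [Nat.totient_mul hc2]
        push_cast
        rfl
      have hl0 : 0 < l := Nat.pos_of_dvd_of_pos hl.1 (Nat.pos_of_ne_zero hd0)
      have hφl : (0 : ℝ) < Nat.totient l := by
        have := Nat.totient_pos.2 hl0
        exact_mod_cast this
      have hφdl : (0 : ℝ) < Nat.totient (d / l) := by
        have : 0 < d / l := Nat.div_pos (Nat.le_of_dvd (Nat.pos_of_ne_zero hd0) hl.1) hl0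
        have := Nat.totient_pos.2 this
        exact_mod_cast this
      rw [Nat.totient_mul hcl, h3]
      push_cast
      field_simp
    show (d : ℝ) * (1 / (Nat.totient m : ℝ)) = ∑ l ∈ d.divisors, 1 / (Nat.totient (l * (m / d)) : ℝ)
    rw [Finset.sum_congr rfl h2, ← Finset.sum_div, h1]
    have h4 : ∑ l ∈ d.divisors, (Nat.totient (d / l) : ℝ) = d := by
      have := Nat.sum_div_divisors d (fun i => (Nat.totient i : ℝ))
      rw [this]
      have h5 := Nat.sum_totient d
      exact_mod_cast h5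
    rw [h4, mul_one_div]
  have hinj : Set.InjOn (fun p : ℕ × ℕ => p.2 * (p.1 / d)) (F ×ˢ d.divisors : Finset (ℕ × ℕ)) := by
    rintro ⟨m, l⟩ hp ⟨m', l'⟩ hq h
    rw [Finset.mem_coe, Finset.mem_product, Nat.mem_divisors] at hp hq
    obtain ⟨hm, hl, -⟩ := hp
    obtain ⟨hm', hl', -⟩ := hq
    simp only at hm hl hm' hl' h
    have hc := hcop m hm
    have hc' := hcop m' hm'
    have g1 : Nat.gcd d (l * (m / d)) = l := by
      rw [Nat.Coprime.gcd_mul_right_cancel_right _ hc.symm]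
      exact Nat.gcd_eq_right hl
    have g2 : Nat.gcd d (l' * (m' / d)) = l' := by
      rw [Nat.Coprime.gcd_mul_right_cancel_right _ hc'.symm]
      exact Nat.gcd_eq_right hl'
    have hll : l = l' := by rw [← g1, ← g2, h]
    subst hll
    have hl0 : 0 < l := Nat.pos_of_dvd_of_pos hl (Nat.pos_of_ne_zero hd0)
    have hk : m / d = m' / d := Nat.eq_of_mul_eq_mul_left hl0 h
    have h1 : d * (m / d) = m := Nat.mul_div_cancel' (hmem m hm).2.2.2
    have h2 : d * (m' / d) = m' := Nat.mul_div_cancel' (hmem m' hm').2.2.2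
    rw [Prod.mk.injEq]
    exact ⟨by rw [← h1, ← h2, hk], rfl⟩
  rw [e1]
  have e2 := Finset.sum_image (f := fun m : ℕ => 1 / (Nat.totient m : ℝ)) hinj
  rw [← e2]
  refine Finset.sum_le_sum_of_subset_of_nonneg ?_ fun m _ _ => by positivity
  intro n hn
  rw [Finset.mem_image] at hn
  obtain ⟨⟨m, l⟩, hp, rfl⟩ := hn
  rw [Finset.mem_product, Nat.mem_divisors] at hp
  obtain ⟨hm, hl, -⟩ := hp
  simp only at hm hl
  have hm' := hmem m hm
  have hmd : d * (m / d) = m := Nat.mul_div_cancel' hm'.2.2.2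
  have hdvd : l * (m / d) ∣ m := by
    conv_rhs => rw [← hmd]
    exact Nat.mul_dvd_mul_right hl _
  rw [sieveW_T, Finset.mem_filter, Finset.mem_Icc]
  refine ⟨⟨?_, ?_⟩, hm'.2.2.1.squarefree_of_dvd hdvd⟩
  · exact Nat.pos_of_dvd_of_pos hdvd (by omega)
  · exact (Nat.le_of_dvd (by omega) hdvd).trans hm'.2.1

/-- inner Moebius sum -/
private theorem sieveW_moebius {r m : ℕ} (hm : m ≠ 0) :
    ∑ d ∈ m.divisors.filter (fun d => r ∣ d), (ArithmeticFunction.moebius (m / d) : ℝ) =
      if r = m then 1 else 0 := by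
  by_cases hr : r ∣ m
  · obtain ⟨k, rfl⟩ := hr
    have hr0 : r ≠ 0 := fun h => hm (by rw [h, zero_mul])
    have hk0 : k ≠ 0 := fun h => hm (by rw [h, mul_zero])
    have hrp : 0 < r := Nat.pos_of_ne_zero hr0
    have e1 : (r * k).divisors.filter (fun d => r ∣ d) = k.divisors.image (fun j => r * j) := by
      ext d
      rw [Finset.mem_filter, Nat.mem_divisors, Finset.mem_image]
      constructor
      · rintro ⟨⟨h1, -⟩, j, rfl⟩
        refine ⟨j, ?_, rfl⟩
        rw [Nat.mem_divisors]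
        exact ⟨Nat.dvd_of_mul_dvd_mul_left hrp h1, hk0⟩
      · rintro ⟨j, hj, rfl⟩
        rw [Nat.mem_divisors] at hj
        exact ⟨⟨Nat.mul_dvd_mul_left r hj.1, hm⟩, Dvd.intro j rfl⟩
    rw [e1, Finset.sum_image (fun a _ b _ h => Nat.eq_of_mul_eq_mul_left hrp h)]
    have e2 : ∀ j ∈ k.divisors, (ArithmeticFunction.moebius (r * k / (r * j)) : ℝ) =
        (ArithmeticFunction.moebius (k / j) : ℝ) := by
      intro j _
      rw [Nat.mul_div_mul_left _ _ hrp]
    rw [Finset.sum_congr rfl e2]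
    have e3 := Nat.sum_div_divisors k (fun i => (ArithmeticFunction.moebius i : ℝ))
    rw [e3]
    have e4 : ∑ i ∈ k.divisors, ArithmeticFunction.moebius i = if k = 1 then 1 else 0 := by
      rw [← ArithmeticFunction.coe_mul_zeta_apply, ArithmeticFunction.moebius_mul_coe_zeta,
        ArithmeticFunction.one_apply]
    have e5 : (∑ i ∈ k.divisors, (ArithmeticFunction.moebius i : ℝ)) = if k = 1 then 1 else 0 := by
      have h := congrArg (fun z : ℤ => (z : ℝ)) e4
      simp only [Int.cast_sum] at h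
      rw [h]
      split_ifs <;> simp
    rw [e5]
    by_cases h1 : k = 1
    · subst h1
      simp
    · have h2 : r ≠ r * k := by
        intro h
        apply h1
        have : r * 1 = r * k := by rw [mul_one]; exact h
        exact (Nat.eq_of_mul_eq_mul_left hrp this).symm
      rw [if_neg h1, if_neg h2]
  · have h1 : r ≠ m := fun h => hr (by rw [h])
    have h2 : m.divisors.filter (fun d => r ∣ d) = ∅ := by
      rw [Finset.filter_eq_empty_iff]
      intro d hd h
      rw [Nat.mem_divisors] at hd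
      exact hr (h.trans hd.1)
    rw [h2, Finset.sum_empty, if_neg h1]

private noncomputable def sieveW_rho (D d : ℕ) : ℝ :=
  (d : ℝ) * ∑ m ∈ (sieveW_T D).filter (fun m => d ∣ m),
    (ArithmeticFunction.moebius (m / d) : ℝ) *
      ((ArithmeticFunction.moebius m : ℝ) / ((Nat.totient m : ℝ) * sieveW_S D))

private theorem sieveW_S_pos {D : ℕ} (hD : 1 ≤ D) : 0 < sieveW_S D := by
  unfold sieveW_S
  refine Finset.sum_pos ?_ ?_
  · intro m hm
    rw [sieveW_T, Finset.mem_filter, Finset.mem_Icc] at hm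
    have h : 0 < Nat.totient m := Nat.totient_pos.2 (by omega)
    have h' : (0 : ℝ) < Nat.totient m := by exact_mod_cast h
    positivity
  · refine ⟨1, ?_⟩
    rw [sieveW_T, Finset.mem_filter, Finset.mem_Icc]
    exact ⟨⟨le_refl _, hD⟩, squarefree_one⟩

private theorem sieveW_mu_sq {m : ℕ} (h : Squarefree m) :
    (ArithmeticFunction.moebius m : ℝ) * (ArithmeticFunction.moebius m : ℝ) = 1 := by
  rcases ArithmeticFunction.moebius_ne_zero_iff_eq_or.1
    (ArithmeticFunction.moebius_ne_zero_iff_squarefree.2 h) with h1 | h1 <;> rw [h1] <;> norm_num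

private theorem sieveW_mu_abs (m : ℕ) : |(ArithmeticFunction.moebius m : ℝ)| ≤ 1 := by
  have h := ArithmeticFunction.abs_moebius_le_one (n := m)
  have h' : ((|ArithmeticFunction.moebius m| : ℤ) : ℝ) ≤ ((1 : ℤ) : ℝ) := by exact_mod_cast h
  rw [Int.cast_abs, Int.cast_one] at h'
  exact h'

private theorem sieveW_rho_one {D : ℕ} (hD : 1 ≤ D) : sieveW_rho D 1 = 1 := by
  have hS := sieveW_S_pos hD
  unfold sieveW_rho
  rw [Nat.cast_one, one_mul]
  have e1 : (sieveW_T D).filter (fun m => 1 ∣ m) = sieveW_T D := by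
    rw [Finset.filter_true_of_mem]
    intro m _
    exact one_dvd m
  rw [e1]
  have e2 : ∀ m ∈ sieveW_T D, (ArithmeticFunction.moebius (m / 1) : ℝ) *
      ((ArithmeticFunction.moebius m : ℝ) / ((Nat.totient m : ℝ) * sieveW_S D)) =
      (1 / (Nat.totient m : ℝ)) / sieveW_S D := by
    intro m hm
    rw [sieveW_T, Finset.mem_filter, Finset.mem_Icc] at hm
    rw [Nat.div_one, ← mul_div_assoc, sieveW_mu_sq hm.2, div_div]
  rw [Finset.sum_congr rfl e2, ← Finset.sum_div]
  exact div_self hS.ne'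

private theorem sieveW_rho_abs {D : ℕ} (hD : 1 ≤ D) (d : ℕ) : |sieveW_rho D d| ≤ 1 := by
  have hS := sieveW_S_pos hD
  unfold sieveW_rho
  rw [abs_mul, Nat.abs_cast]
  have h1 : |∑ m ∈ (sieveW_T D).filter (fun m => d ∣ m),
    (ArithmeticFunction.moebius (m / d) : ℝ) *
      ((ArithmeticFunction.moebius m : ℝ) / ((Nat.totient m : ℝ) * sieveW_S D))| ≤
      ∑ m ∈ (sieveW_T D).filter (fun m => d ∣ m), (1 / (Nat.totient m : ℝ)) / sieveW_S D := by
    refine (Finset.abs_sum_le_sum_abs _ _).trans (Finset.sum_le_sum fun m hm => ?_)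
    rw [Finset.mem_filter, sieveW_T, Finset.mem_filter, Finset.mem_Icc] at hm
    have hφ : 0 < Nat.totient m := Nat.totient_pos.2 (by omega)
    have hφ' : (0 : ℝ) < Nat.totient m := by exact_mod_cast hφ
    rw [abs_mul, abs_div, abs_of_pos (mul_pos hφ' hS), div_div]
    calc |(ArithmeticFunction.moebius (m / d) : ℝ)| *
        (|(ArithmeticFunction.moebius m : ℝ)| / ((Nat.totient m : ℝ) * sieveW_S D)) ≤
        1 * (1 / ((Nat.totient m : ℝ) * sieveW_S D)) := by
          refine mul_le_mul (sieveW_mu_abs _) ?_ (by positivity) zero_le_one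
          exact div_le_div_of_nonneg_right (sieveW_mu_abs _) (by positivity)
      _ = _ := one_mul _
  have h2 := sieveW_S_part D d
  rw [← Finset.sum_div] at h1
  calc (d : ℝ) * _ ≤ (d : ℝ) * ((∑ m ∈ (sieveW_T D).filter (fun m => d ∣ m),
        1 / (Nat.totient m : ℝ)) / sieveW_S D) := mul_le_mul_of_nonneg_left h1 (Nat.cast_nonneg d)
    _ = ((d : ℝ) * ∑ m ∈ (sieveW_T D).filter (fun m => d ∣ m), 1 / (Nat.totient m : ℝ)) /
        sieveW_S D := by rw [mul_div_assoc]
    _ ≤ 1 := by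
      rw [div_le_one hS]
      exact h2

private theorem sieveW_rho_zero {D d : ℕ} (h : D < d) : sieveW_rho D d = 0 := by
  unfold sieveW_rho
  have e : (sieveW_T D).filter (fun m => d ∣ m) = ∅ := by
    rw [Finset.filter_eq_empty_iff]
    intro m hm hdm
    rw [sieveW_T, Finset.mem_filter, Finset.mem_Icc] at hm
    have := Nat.le_of_dvd (by omega) hdm
    omega
  rw [e, Finset.sum_empty, mul_zero]

private theorem sieveW_inner {D r : ℕ} :
    ∑ d ∈ (Finset.Icc 1 D).filter (fun d => r ∣ d), sieveW_rho D d / (d : ℝ) =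
      if r ∈ sieveW_T D then (ArithmeticFunction.moebius r : ℝ) / ((Nat.totient r : ℝ) * sieveW_S D)
      else 0 := by
  have e1 : ∀ d ∈ (Finset.Icc 1 D).filter (fun d => r ∣ d), sieveW_rho D d / (d : ℝ) =
      ∑ m ∈ sieveW_T D, if d ∣ m then (ArithmeticFunction.moebius (m / d) : ℝ) *
      ((ArithmeticFunction.moebius m : ℝ) / ((Nat.totient m : ℝ) * sieveW_S D)) else 0 := by
    intro d hd
    rw [Finset.mem_filter, Finset.mem_Icc] at hd
    have hd0 : (d : ℝ) ≠ 0 := by
      have : d ≠ 0 := by omega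
      exact_mod_cast this
    unfold sieveW_rho
    rw [mul_div_assoc, mul_comm, div_mul_cancel₀ _ hd0, Finset.sum_filter]
  rw [Finset.sum_congr rfl e1, Finset.sum_comm]
  have e2 : ∀ m ∈ sieveW_T D, (∑ d ∈ (Finset.Icc 1 D).filter (fun d => r ∣ d),
      if d ∣ m then (ArithmeticFunction.moebius (m / d) : ℝ) *
      ((ArithmeticFunction.moebius m : ℝ) / ((Nat.totient m : ℝ) * sieveW_S D)) else 0) =
      if r = m then (ArithmeticFunction.moebius m : ℝ) / ((Nat.totient m : ℝ) * sieveW_S D) else 0 := by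
    intro m hm
    rw [sieveW_T, Finset.mem_filter, Finset.mem_Icc] at hm
    have hm0 : m ≠ 0 := by omega
    have e3 : ((Finset.Icc 1 D).filter (fun d => r ∣ d)).filter (fun d => d ∣ m) =
        m.divisors.filter (fun d => r ∣ d) := by
      ext d
      simp only [Finset.mem_filter, Finset.mem_Icc, Nat.mem_divisors]
      constructor
      · rintro ⟨⟨-, h2⟩, h3⟩
        exact ⟨⟨h3, hm0⟩, h2⟩
      · rintro ⟨⟨h1, -⟩, h2⟩
        have := Nat.le_of_dvd (by omega) h1
        have := Nat.pos_of_dvd_of_pos h1 (by omega)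
        exact ⟨⟨⟨by omega, by omega⟩, h2⟩, h1⟩
    rw [← Finset.sum_filter, e3, ← Finset.sum_mul, sieveW_moebius hm0]
    split_ifs <;> simp
  rw [Finset.sum_congr rfl e2, Finset.sum_ite_eq]

private theorem sieveW_form (D : ℕ) (ρ : ℕ → ℝ) :
    ∑ d ∈ Finset.Icc 1 D, ∑ e ∈ Finset.Icc 1 D, ρ d * ρ e / (Nat.lcm d e : ℝ) =
      ∑ r ∈ Finset.Icc 1 D, (Nat.totient r : ℝ) *
        (∑ d ∈ (Finset.Icc 1 D).filter (fun d => r ∣ d), ρ d / (d : ℝ)) ^ 2 := by
  have e1 : ∀ d ∈ Finset.Icc 1 D, ∀ e ∈ Finset.Icc 1 D, ρ d * ρ e / (Nat.lcm d e : ℝ) =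
      ∑ r ∈ Finset.Icc 1 D, (Nat.totient r : ℝ) *
        ((if r ∣ d then ρ d / (d : ℝ) else 0) * (if r ∣ e then ρ e / (e : ℝ) else 0)) := by
    intro d hd e he
    rw [Finset.mem_Icc] at hd he
    have hd0 : (0 : ℝ) < d := by exact_mod_cast hd.1
    have he0 : (0 : ℝ) < e := by exact_mod_cast he.1
    have hg : 0 < Nat.gcd d e := Nat.gcd_pos_of_pos_left _ hd.1
    have hl : 0 < Nat.lcm d e := Nat.lcm_pos hd.1 he.1
    have hg' : (0 : ℝ) < (Nat.gcd d e : ℝ) := by exact_mod_cast hg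
    have hl' : (0 : ℝ) < (Nat.lcm d e : ℝ) := by exact_mod_cast hl
    have h1 : (Nat.gcd d e : ℝ) * (Nat.lcm d e : ℝ) = d * e := by
      exact_mod_cast Nat.gcd_mul_lcm d e
    have h2 : ∑ r ∈ Finset.Icc 1 D, (Nat.totient r : ℝ) *
        ((if r ∣ d then ρ d / (d : ℝ) else 0) * (if r ∣ e then ρ e / (e : ℝ) else 0)) =
        (∑ r ∈ (Nat.gcd d e).divisors, (Nat.totient r : ℝ)) * (ρ d / d * (ρ e / e)) := by
      rw [Finset.sum_mul]
      have h3 : (Nat.gcd d e).divisors = (Finset.Icc 1 D).filter (fun r => r ∣ d ∧ r ∣ e) := by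
        ext r
        rw [Nat.mem_divisors, Finset.mem_filter, Finset.mem_Icc, Nat.dvd_gcd_iff]
        constructor
        · rintro ⟨⟨h4, h5⟩, -⟩
          have := Nat.le_of_dvd (by omega) h4
          have := Nat.pos_of_dvd_of_pos h4 (by omega)
          exact ⟨⟨by omega, by omega⟩, h4, h5⟩
        · rintro ⟨-, h4⟩
          exact ⟨h4, by omega⟩
      rw [h3, Finset.sum_filter]
      refine Finset.sum_congr rfl fun r _ => ?_
      by_cases h4 : r ∣ d <;> by_cases h5 : r ∣ e <;> simp [h4, h5]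
    have h3 : ∑ r ∈ (Nat.gcd d e).divisors, (Nat.totient r : ℝ) = (Nat.gcd d e : ℝ) := by
      exact_mod_cast Nat.sum_totient (Nat.gcd d e)
    rw [h2, h3, div_mul_div_comm, ← h1]
    field_simp
  rw [Finset.sum_congr rfl fun d hd => Finset.sum_congr rfl fun e he => e1 d hd e he]
  have e2 : ∀ d ∈ Finset.Icc 1 D, (∑ e ∈ Finset.Icc 1 D, ∑ r ∈ Finset.Icc 1 D, (Nat.totient r : ℝ) *
        ((if r ∣ d then ρ d / (d : ℝ) else 0) * (if r ∣ e then ρ e / (e : ℝ) else 0))) =
      ∑ r ∈ Finset.Icc 1 D, (Nat.totient r : ℝ) * ((if r ∣ d then ρ d / (d : ℝ) else 0) *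
        ∑ e ∈ Finset.Icc 1 D, (if r ∣ e then ρ e / (e : ℝ) else 0)) := by
    intro d _
    rw [Finset.sum_comm]
    refine Finset.sum_congr rfl fun r _ => ?_
    rw [Finset.mul_sum, Finset.mul_sum]
  rw [Finset.sum_congr rfl e2, Finset.sum_comm]
  refine Finset.sum_congr rfl fun r _ => ?_
  rw [← Finset.mul_sum, ← Finset.sum_mul, Finset.sum_filter, sq]

/-- Upper bound sieve weights (Selberg's). -/
theorem sieve_weights : ∃ C : ℝ, 0 < C ∧ ∀ D : ℕ, 2 ≤ D → ∃ ρ : ℕ → ℝ, ρ 1 = 1 ∧ (∀ d, |ρ d| ≤ 1) ∧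
    (∀ d, D < d → ρ d = 0) ∧
    ∑ d ∈ Finset.Icc 1 D, ∑ e ∈ Finset.Icc 1 D, ρ d * ρ e / (Nat.lcm d e : ℝ) ≤ C / Real.log D := by
  refine ⟨2, two_pos, fun D hD => ⟨sieveW_rho D, sieveW_rho_one (by omega),
    sieveW_rho_abs (by omega), fun d hd => sieveW_rho_zero hd, ?_⟩⟩
  have hS := sieveW_S_pos (D := D) (by omega)
  rw [sieveW_form]
  have e1 : ∑ r ∈ Finset.Icc 1 D, (Nat.totient r : ℝ) *
        (∑ d ∈ (Finset.Icc 1 D).filter (fun d => r ∣ d), sieveW_rho D d / (d : ℝ)) ^ 2 =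
      ∑ r ∈ sieveW_T D, (1 / (Nat.totient r : ℝ)) / sieveW_S D ^ 2 := by
    rw [sieveW_T, Finset.sum_filter]
    refine Finset.sum_congr rfl fun r hr => ?_
    rw [sieveW_inner]
    rw [Finset.mem_Icc] at hr
    by_cases h : Squarefree r
    · have h1 : r ∈ sieveW_T D := by
        rw [sieveW_T, Finset.mem_filter, Finset.mem_Icc]
        exact ⟨hr, h⟩
      rw [if_pos h1, if_pos h]
      have hφ : 0 < Nat.totient r := Nat.totient_pos.2 (by omega)
      have hφ' : (0 : ℝ) < Nat.totient r := by exact_mod_cast hφ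
      rw [div_pow, sq (ArithmeticFunction.moebius r : ℝ), sieveW_mu_sq h]
      field_simp
    · have h1 : r ∉ sieveW_T D := by
        rw [sieveW_T, Finset.mem_filter]
        exact fun h' => h h'.2
      rw [if_neg h1, if_neg h]
      simp
  rw [e1, ← Finset.sum_div]
  change sieveW_S D / sieveW_S D ^ 2 ≤ 2 / Real.log D
  have hlog : 0 < Real.log D := Real.log_pos (by exact_mod_cast hD)
  rw [div_le_div_iff₀ (by positivity) hlog]
  have h := sieveW_S_ge D
  nlinarith

end Pool.MP_67663b_nt.MR
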