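import Pool.Agent.Lib.MP_67663b_nt.MR.BeattyAv
import Pool.Agent.Lib.MP_67663b_nt.OddB.FinalB

/-!
# Conclusion: a free slope
-/

set_option autoImplicit false
open Filter Topology
namespace Pool.MP_67663b_nt.MR
open Pool.MP_67663b_nt.Odd

variable {I : Type} [Fintype I] [DecidableEq I]

theorem abs_E_le_E (M : IMean) {f g : ℕ → ℝ} (hf : Bdd f) (hg : Bdd g) (h : ∀ n, |f n| ≤ g n) :
    |M.E f| ≤ M.E g := by
  rw [abs_le]
  constructor
  · rw [← M.E_neg hg]
    exact M.mono _ _ hg.neg hf (Eventually.of_forall fun n => (abs_le.mp (h n)).1)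
  · exact M.mono _ _ hf hg (Eventually.of_forall fun n => (abs_le.mp (h n)).2)

theorem bdd_av (α : ℝ) (x : ℕ) : Bdd (fun n => |av x (bt α n)|) :=
  ⟨1, fun n => by rw [abs_abs]; exact abs_av_le _ _⟩

theorem abs_gg_le (M : IMean) (α : I → ℝ) (x : ℕ) (i0 : I) :
    |gg M α x| ≤ M.E (fun n => |av x (bt (α i0) n)|) := by
  refine abs_E_le_E M (bdd_gg α x) (bdd_av _ _) fun n => ?_
  rw [abs_mul, abs_lam, one_mul, Finset.abs_prod, Fintype.prod_eq_mul_prod_subtype_ne _ i0]
  refine mul_le_of_le_one_right (abs_nonneg _) ?_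
  exact Finset.prod_le_one (fun i _ => abs_nonneg _) fun i _ => abs_av_le _ _

theorem avB_le_av (a : I → ℤ) {i0 l : I} (h0 : a i0 = 0) (hl0 : l ≠ i0) {x : ℕ} (hx : 0 < x)
    (hl : IsCoprime (a l) (x : ℤ)) (s : ℤ) (f : I → ℕ → ℝ) (hf : ∀ i r, |f i r| ≤ 1) :
    |avB a x s f| ≤ |(1 / (x : ℝ)) * ∑ r ∈ Finset.range x, f i0 r| := by
  have hx' : (0:ℝ) < x := by exact_mod_cast hx
  set a' : {i : I // i ≠ i0} → ℤ := fun i => a i.1 with ha'
  have hsum : ∀ r : I → ℕ, ∑ i, a i * (r i : ℤ) = ∑ i : {i : I // i ≠ i0}, a' i * (r i.1 : ℤ) := by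
    intro r
    rw [Fintype.sum_eq_add_sum_subtype_ne (fun i => a i * (r i : ℤ)) i0, h0]
    simp [ha']
  have hmemRR : ∀ r : I → ℕ, r ∈ RR a x s ↔ (∀ i, r i < x) ∧ (x : ℤ) ∣ ∑ i, a i * (r i : ℤ) + s := by
    intro r
    unfold RR
    rw [Finset.mem_filter, Fintype.mem_piFinset]
    simp only [Finset.mem_range]
  have hmemRR' : ∀ r : {i : I // i ≠ i0} → ℕ, r ∈ RR a' x s ↔
      (∀ i, r i < x) ∧ (x : ℤ) ∣ ∑ i, a' i * (r i : ℤ) + s := by
    intro r
    unfold RR
    rw [Finset.mem_filter, Fintype.mem_piFinset]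
    simp only [Finset.mem_range]
  have key : ∑ r ∈ RR a x s, ∏ i, f i (r i) =
      (∑ r ∈ RR a' x s, ∏ i : {i : I // i ≠ i0}, f i.1 (r i)) * ∑ k ∈ Finset.range x, f i0 k := by
    rw [Finset.sum_mul_sum, ← Finset.sum_product']
    refine Finset.sum_nbij' (i := fun r => ((fun i : {i : I // i ≠ i0} => r i.1), r i0))
      (j := fun t => fun i => if h : i = i0 then t.2 else t.1 ⟨i, h⟩) ?_ ?_ ?_ ?_ ?_
    · intro r hr
      rw [hmemRR] at hr
      rw [Finset.mem_product, hmemRR', Finset.mem_range]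
      refine ⟨⟨fun i => hr.1 i.1, ?_⟩, hr.1 i0⟩
      rw [← hsum]
      exact hr.2
    · intro t ht
      rw [Finset.mem_product, hmemRR', Finset.mem_range] at ht
      rw [hmemRR]
      refine ⟨fun i => ?_, ?_⟩
      · by_cases h : i = i0
        · subst h
          simpa using ht.2
        · simpa [h] using ht.1.1 ⟨i, h⟩
      · rw [hsum]
        have e : ∀ i : {i : I // i ≠ i0}, (if h : i.1 = i0 then t.2 else t.1 ⟨i.1, h⟩) = t.1 i := by
          intro i
          rw [dif_neg i.2]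
        simp only [e]
        exact ht.1.2
    · intro r _
      funext i
      by_cases h : i = i0
      · subst h
        simp
      · simp [h]
    · intro t _
      refine Prod.ext ?_ ?_
      · funext i
        dsimp only
        rw [dif_neg i.2]
      · simp
    · intro r _
      rw [Fintype.prod_eq_mul_prod_subtype_ne _ i0]
      ring
  have hcard : (Fintype.card {i : I // i ≠ i0}) = Fintype.card I - 1 := by
    rw [Fintype.card_subtype_compl, Fintype.card_subtype_eq]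
  have h2 : 2 ≤ Fintype.card I := by
    have : Fintype.card ({i0, l} : Finset I) ≤ Fintype.card I := by
      rw [Fintype.card_coe]
      exact Finset.card_le_univ _
    rw [Fintype.card_coe, Finset.card_pair hl0.symm] at this
    exact this
  have hR : ((RR a' x s).card : ℝ) = (x:ℝ) ^ (Fintype.card I - 2) := by
    have := card_RR (a := a') (l := ⟨l, hl0⟩) hx hl s
    rw [this, hcard]
    push_cast
    congr 1
  have hle : |∑ r ∈ RR a' x s, ∏ i : {i : I // i ≠ i0}, f i.1 (r i)| ≤ (x:ℝ) ^ (Fintype.card I - 2) := by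
    rw [← hR]
    refine (Finset.abs_sum_le_sum_abs _ _).trans ?_
    calc ∑ r ∈ RR a' x s, |∏ i : {i : I // i ≠ i0}, f i.1 (r i)| ≤ ∑ r ∈ RR a' x s, (1:ℝ) := by
          refine Finset.sum_le_sum fun r _ => ?_
          rw [Finset.abs_prod]
          exact Finset.prod_le_one (fun i _ => abs_nonneg _) (fun i _ => hf _ _)
      _ = ((RR a' x s).card : ℝ) := by simp
  unfold avB
  rw [key, abs_mul, abs_mul, abs_mul, abs_of_pos (by positivity : (0:ℝ) < 1 / (x:ℝ) ^ (Fintype.card I - 1)),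
    abs_of_pos (by positivity : (0:ℝ) < 1 / (x:ℝ))]
  calc 1 / (x:ℝ) ^ (Fintype.card I - 1) * (|∑ r ∈ RR a' x s, ∏ i : {i : I // i ≠ i0}, f i.1 (r i)| *
        |∑ k ∈ Finset.range x, f i0 k|)
      ≤ 1 / (x:ℝ) ^ (Fintype.card I - 1) * ((x:ℝ) ^ (Fintype.card I - 2) *
        |∑ k ∈ Finset.range x, f i0 k|) := by gcongr
    _ = 1 / (x:ℝ) * |∑ k ∈ Finset.range x, f i0 k| := by
        have e : Fintype.card I - 1 = (Fintype.card I - 2) + 1 := by omega
        rw [e, pow_succ]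
        field_simp

theorem abs_gB_le (M : IMean) (α : I → ℝ) (a : I → ℤ) (b : ℤ) {i0 l : I} (h0 : a i0 = 0) (hl0 : l ≠ i0)
    {x : ℕ} (hx : 0 < x) (hl : IsCoprime (a l) (x : ℤ)) :
    |gB M α a b x| ≤ M.E (fun n => |av x (bt (α i0) n)|) := by
  refine abs_E_le_E M (bdd_gB α a b x) (bdd_av _ _) fun n => ?_
  rw [abs_mul, abs_lam, one_mul]
  exact avB_le_av a h0 hl0 hx hl _ _ fun i r => (abs_lam _).le

/-- Case 1: `1` is independent of the slopes. -/
theorem free_indep (α : I → ℝ) (hα : ∀ i, 0 < α i) (i0 : I)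
    (hind : ∀ (c0 : ℤ) (c : I → ℤ), (c0 : ℝ) + ∑ i, (c i : ℝ) * α i = 0 → ∀ i, c i = 0)
    (M : IMean) (hM : LogBound M) : gg M α 1 = 0 := by
  by_contra hne
  have hpos : 0 < |gg M α 1| := abs_pos.mpr hne
  set d := |gg M α 1| with hd
  obtain ⟨x0, hx0⟩ := beatty_av (hα i0) (ε := d / 4) (by positivity)
  obtain ⟨v, hv0, hvs, m0, hm0⟩ := good_scales M α hα hind (x := 1) one_pos (ε := d / 4) (η := 1)
    (by positivity) one_pos
  obtain ⟨m, hm, p, hpp, hp1, hp2, hp⟩ : ∃ m, max m0 x0 ≤ m ∧ Good M α 1 (d / 4) 1 m := by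
    by_contra hno
    push Not at hno
    refine not_summable_of_tail (v := v) 0 (m0 := max m0 x0) (fun m hm => ?_) hvs
    have := hm0 m (le_trans (le_max_left _ _) hm) (hno m hm)
    simpa using this
  have hxp : x0 ≤ p := by
    have h1 : x0 ≤ m := le_trans (le_max_right _ _) hm
    have h2 : m < 2 ^ m := Nat.lt_two_pow_self
    omega
  rw [mul_one] at hp
  have h1 := abs_gg_le M α p i0
  have h2 := hx0 p hxp M hM
  have h3 : d ≤ |gg M α 1 - (-1) ^ (Fintype.card I + 1) * gg M α p| +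
      |(-1) ^ (Fintype.card I + 1) * gg M α p| := by
    have := abs_add_le (gg M α 1 - (-1) ^ (Fintype.card I + 1) * gg M α p)
      ((-1) ^ (Fintype.card I + 1) * gg M α p)
    rw [sub_add_cancel] at this
    exact this
  rw [abs_mul, abs_pow, abs_neg, abs_one, one_pow, one_mul] at h3
  linarith

/-- Case 2: a relation which does not involve `i0`. -/
theorem free_rel (α : I → ℝ) (hα : ∀ i, 0 < α i) (a : I → ℤ) (b : ℤ)
    (hrel : (b : ℝ) = ∑ i, (a i : ℝ) * α i)
    (hind : ∀ c : I → ℤ, ∑ i, (c i : ℝ) * α i = 0 → ∀ i, c i = 0) {i0 l : I} (h0 : a i0 = 0)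
    (hl : a l ≠ 0) (M : IMean) (hM : LogBound M) : gB M α a b 1 = 0 := by
  have hl0 : l ≠ i0 := by
    rintro rfl
    exact hl h0
  by_contra hne
  have hpos : 0 < |gB M α a b 1| := abs_pos.mpr hne
  set d := |gB M α a b 1| with hd
  obtain ⟨x0, hx0⟩ := beatty_av (hα i0) (ε := d / 4) (by positivity)
  obtain ⟨u, hu0, hus, hu⟩ := step_B M α hα a b hrel hind l hl (x := 1) one_pos
    (by rw [Nat.cast_one]; exact isCoprime_one_right)
  obtain ⟨cb, hcb, mb, hmb⟩ := card_blk_ge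
  obtain ⟨m, hmN, -, hm⟩ := pick ({1} : Finset ℕ) (fun _ => u) (fun i _ m => hu0 m) (fun i _ => hus) 0
    (δ := cb * (d / 4) ^ 2 / 2) (by positivity) (max mb (max x0 ((a l).natAbs + 1)))
  have hm1 := hm 1 (Finset.mem_singleton_self 1) 0 le_rfl
  rw [Nat.sub_zero] at hm1
  have hmb' : mb ≤ m := le_trans (le_max_left _ _) hmN
  have hx0m : x0 ≤ m := le_trans (le_trans (le_max_left _ _) (le_max_right _ _)) hmN
  have hlm : (a l).natAbs + 1 ≤ m := le_trans (le_trans (le_max_right _ _) (le_max_right _ _)) hmN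
  have hm2 : m < 2 ^ m := Nat.lt_two_pow_self
  have hA : (a l).natAbs < 2 ^ m := by omega
  have hcop : ∀ p ∈ blk m, IsCoprime (a l) (p : ℤ) := fun p hp => coprime_of_mem_blk hl hp hA
  have hfil : (blk m).filter (fun p : ℕ => IsCoprime (a l) (p : ℤ)) = blk m :=
    Finset.filter_true_of_mem hcop
  have hsum := hu m
  rw [hfil] at hsum
  obtain ⟨p, hpb, hp⟩ : ∃ p ∈ blk m,
      |gB M α a b 1 - (-1) ^ (Fintype.card I + 1) * gB M α a b (p * 1)| ≤ d / 4 := by
    by_contra hno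
    push Not at hno
    have h1 : ((blk m).card : ℝ) * (d / 4) ^ 2 ≤ 2 ^ m * u m := by
      calc ((blk m).card : ℝ) * (d / 4) ^ 2 = ∑ p ∈ blk m, (d / 4) ^ 2 := by simp
        _ ≤ ∑ p ∈ blk m, (gB M α a b 1 - (-1) ^ (Fintype.card I + 1) * gB M α a b (p * 1)) ^ 2 := by
            refine Finset.sum_le_sum fun p hp => ?_
            rw [← sq_abs (gB M α a b 1 - _)]
            exact pow_le_pow_left₀ (by positivity) (hno p hp).le 2
        _ ≤ _ := hsum
    have h2 := hmb m hmb'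
    have h3 : (m : ℝ) * (2 ^ m * u m) ≤ 2 ^ m * (cb * (d / 4) ^ 2 / 2) := by
      have : (m:ℝ) * u m ≤ cb * (d / 4) ^ 2 / 2 := by
        have := hu0 m
        nlinarith [hm1]
      have h2m : (0:ℝ) < 2 ^ m := by positivity
      nlinarith
    have h4 : cb * 2 ^ m * (d / 4) ^ 2 ≤ m * ((blk m).card : ℝ) * (d / 4) ^ 2 := by gcongr
    have h5 : (m:ℝ) * (((blk m).card : ℝ) * (d / 4) ^ 2) ≤ m * (2 ^ m * u m) := by gcongr
    have h6 : 0 < cb * 2 ^ m * (d / 4) ^ 2 := by positivity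
    nlinarith
  rw [mem_blk] at hpb
  have hxp : x0 ≤ p := by omega
  rw [mul_one] at hp
  have h1 := abs_gB_le M α a b h0 hl0 hpb.1.pos (hcop p (by rw [mem_blk]; exact hpb))
  have h2 := hx0 p hxp M hM
  have h3 : d ≤ |gB M α a b 1 - (-1) ^ (Fintype.card I + 1) * gB M α a b p| +
      |(-1) ^ (Fintype.card I + 1) * gB M α a b p| := by
    have := abs_add_le (gB M α a b 1 - (-1) ^ (Fintype.card I + 1) * gB M α a b p)
      ((-1) ^ (Fintype.card I + 1) * gB M α a b p)
    rw [sub_add_cancel] at this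
    exact this
  rw [abs_mul, abs_pow, abs_neg, abs_one, one_pow, one_mul] at h3
  linarith

/-- A free slope: `α i0` is not a rational combination of `1` and the other slopes. -/
theorem main_free {I : Type} [Fintype I] (α : I → ℝ) (hα : ∀ i, 0 < α i)
    (hind : ∀ c : I → ℤ, ∑ i, (c i : ℝ) * α i = 0 → ∀ i, c i = 0) (i0 : I)
    (hfree : ∀ (c0 : ℤ) (c : I → ℤ), (c0 : ℝ) + ∑ i, (c i : ℝ) * α i = 0 → c i0 = 0) :
    Tendsto (logMean (fun n => lam n * ∏ i, lam (bt (α i) n))) atTop (𝓝 0) := by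
  classical
  refine tendsto_of_logbound ?_ fun M hM => ?_
  · exact bdd_lam.mul (Bdd.prod _ fun i _ => bdd_lam.comp _)
  · by_cases hA : ∀ (c0 : ℤ) (c : I → ℤ), (c0 : ℝ) + ∑ i, (c i : ℝ) * α i = 0 → ∀ i, c i = 0
    · have h := free_indep α hα i0 hA M hM
      have e : ∀ m, av 1 m = lam m := fun m => by simp [av]
      unfold gg at h
      simpa only [e] using h
    · push Not at hA
      obtain ⟨c0, c, hrel0, l, hl⟩ := hA
      have hrel : ((-c0 : ℤ) : ℝ) = ∑ i, (c i : ℝ) * α i := by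
        push_cast
        linarith
      rw [← gB_one M α c (-c0)]
      exact free_rel α hα c (-c0) hrel hind (hfree c0 c hrel0) hl M hM

end Pool.MP_67663b_nt.MR
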