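import Pool.Agent.Lib.MP_67663b_nt.MR.MDefs

set_option autoImplicit false
open Filter Topology MeasureTheory
namespace Pool.MP_67663b_nt.MR
open Pool.MP_67663b_nt.Odd

/-- `λ(n) n^{-it}` (value at `0` irrelevant) -/
noncomputable def ft (t : ℝ) (n : ℕ) : ℂ := (lam n : ℂ) * ep t n

private theorem LamSeries_norm_ft (t : ℝ) (n : ℕ) : ‖ft t n‖ = 1 := by
  unfold ft
  rw [norm_mul, norm_lam, norm_ep, mul_one]

/-- `n ↦ λ(n) n^{-s}` as a monoid with zero hom -/
private noncomputable def LamSeriesHom {s : ℂ} (hs : s ≠ 0) : ℕ →*₀ ℂ where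
  toFun n := (lam n : ℂ) * (n : ℂ) ^ (-s)
  map_zero' := by
    have : ((0 : ℕ) : ℂ) ^ (-s) = 0 := by
      rw [Nat.cast_zero, Complex.zero_cpow (neg_ne_zero.mpr hs)]
    rw [this, mul_zero]
  map_one' := by simp [lam]
  map_mul' m n := by
    by_cases hm : m = 0
    · subst hm
      rw [zero_mul, Nat.cast_zero, Complex.zero_cpow (neg_ne_zero.mpr hs)]
      ring
    by_cases hn : n = 0
    · subst hn
      rw [mul_zero, Nat.cast_zero, Complex.zero_cpow (neg_ne_zero.mpr hs)]
      ring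
    rw [lam_mul hm hn, Nat.cast_mul, Complex.natCast_mul_natCast_cpow]
    push_cast
    ring

private theorem LamSeries_one {s : ℂ} (hs : 1 < s.re) :
    ‖LSeries (fun n => (lam n : ℂ)) s‖ * ‖riemannZeta s‖ ≤ 2 := by
  have hs0 : s ≠ 0 := by
    intro h
    rw [h, Complex.zero_re] at hs
    linarith
  have hterm : ∀ n : ℕ, ‖LamSeriesHom hs0 n‖ = ‖riemannZetaSummandHom hs0 n‖ := by
    intro n
    show ‖(lam n : ℂ) * (n : ℂ) ^ (-s)‖ = ‖(n : ℂ) ^ (-s)‖
    rw [norm_mul, norm_lam, one_mul]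
  have hsum : Summable (fun n => ‖LamSeriesHom hs0 n‖) := by
    simp_rw [hterm]
    exact summable_riemannZetaSummand hs
  have h1 := EulerProduct.eulerProduct_completely_multiplicative_hasProd hsum
  have h2 := riemannZeta_eulerProduct_hasProd hs
  have h2s : 1 < (2 * s).re := by
    have : (2 * s).re = 2 * s.re := by simp
    rw [this]
    linarith
  have h3 := riemannZeta_eulerProduct_hasProd h2s
  have h4 := h1.mul h2
  have h5 : ∀ p : Nat.Primes, (1 - LamSeriesHom hs0 p)⁻¹ * (1 - (p : ℂ) ^ (-s))⁻¹ =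
      (1 - (p : ℂ) ^ (-(2 * s)))⁻¹ := by
    intro p
    have e1 : LamSeriesHom hs0 p = -((p : ℂ) ^ (-s)) := by
      show (lam (p : ℕ) : ℂ) * ((p : ℕ) : ℂ) ^ (-s) = _
      rw [lam_prime p.prop]
      push_cast
      ring
    have e2 : (p : ℂ) ^ (-(2 * s)) = ((p : ℂ) ^ (-s)) ^ 2 := by
      rw [show -(2 * s) = ((2 : ℕ) : ℂ) * (-s) by push_cast; ring, Complex.cpow_nat_mul]
    rw [e1, e2, ← mul_inv]
    congr 1
    ring
  simp_rw [h5] at h4
  have h6 := h4.unique h3
  have h7 : ∑' n : ℕ, LamSeriesHom hs0 n = LSeries (fun n => (lam n : ℂ)) s := by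
    unfold LSeries
    refine tsum_congr fun n => ?_
    by_cases hn : n = 0
    · subst hn
      rw [LSeries.term_zero, map_zero]
    · rw [LSeries.term_of_ne_zero hn]
      show (lam n : ℂ) * (n : ℂ) ^ (-s) = _
      rw [Complex.cpow_neg]
      rfl
  rw [h7] at h6
  rw [← norm_mul, h6, zeta_eq_tsum_one_div_nat_cpow h2s]
  have h8 : ∀ n : ℕ, ‖1 / (n : ℂ) ^ (2 * s)‖ ≤ 1 / (n : ℝ) ^ 2 := by
    intro n
    by_cases hn : n = 0
    · subst hn
      have : 2 * s ≠ 0 := mul_ne_zero two_ne_zero hs0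
      rw [Nat.cast_zero, Complex.zero_cpow this]
      simp
    · have hn1 : (1 : ℝ) ≤ n := by
        have := Nat.pos_of_ne_zero hn
        exact_mod_cast this
      have hn0 : (0 : ℝ) < n := by linarith
      rw [norm_div, norm_one, Complex.norm_natCast_cpow_of_pos (Nat.pos_of_ne_zero hn)]
      refine one_div_le_one_div_of_le (by positivity) ?_
      rw [← Real.rpow_natCast]
      refine Real.rpow_le_rpow_of_exponent_le hn1 ?_
      have : (2 * s).re = 2 * s.re := by simp
      rw [this]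
      push_cast
      linarith
  refine (tsum_of_norm_bounded hasSum_zeta_two h8).trans ?_
  have h9 := Real.pi_lt_d2
  have h10 := Real.pi_pos
  nlinarith

private theorem LamSeries_shift (t : ℝ) (s : ℂ) :
    LSeries (ft t) s = LSeries (fun n => (lam n : ℂ)) (s + (t : ℂ) * Complex.I) := by
  unfold LSeries
  refine tsum_congr fun n => ?_
  by_cases hn : n = 0
  · subst hn
    rw [LSeries.term_zero, LSeries.term_zero]
  · rw [LSeries.term_of_ne_zero hn, LSeries.term_of_ne_zero hn]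
    have hn0 : (n : ℂ) ≠ 0 := by exact_mod_cast hn
    unfold ft ep
    rw [Complex.cpow_add _ _ hn0]
    have h1 : (n : ℂ) ^ ((t : ℂ) * Complex.I) =
        Complex.exp (((t * Real.log (n : ℝ) : ℝ) : ℂ) * Complex.I) := by
      rw [Complex.cpow_def_of_ne_zero hn0, ← Complex.natCast_log]
      congr 1
      push_cast
      ring
    rw [h1, Complex.exp_neg]
    have h2 : Complex.exp (((t * Real.log (n : ℝ) : ℝ) : ℂ) * Complex.I) ≠ 0 := Complex.exp_ne_zero _
    have h3 : (n : ℂ) ^ s ≠ 0 := by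
      rw [Complex.cpow_def_of_ne_zero hn0]
      exact Complex.exp_ne_zero _
    field_simp

/-- the series of `λ(n) n^{-it}` is bounded by `2/|ζ|` -/
theorem lam_series (t : ℝ) {σ : ℝ} (hσ : 1 < σ) (ω : ℝ) :
    ‖LSeries (ft t) ((σ : ℂ) + (ω : ℂ) * Complex.I)‖ ≤
      2 / ‖riemannZeta ((σ : ℂ) + ((ω + t : ℝ) : ℂ) * Complex.I)‖ := by
  have hre : 1 < ((σ : ℂ) + ((ω + t : ℝ) : ℂ) * Complex.I).re := by simp [hσ]
  have h0 : 0 < ‖riemannZeta ((σ : ℂ) + ((ω + t : ℝ) : ℂ) * Complex.I)‖ := by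
    rw [norm_pos_iff]
    exact riemannZeta_ne_zero_of_one_le_re hre.le
  rw [le_div_iff₀ h0, LamSeries_shift]
  have h1 : (σ : ℂ) + (ω : ℂ) * Complex.I + (t : ℂ) * Complex.I =
      (σ : ℂ) + ((ω + t : ℝ) : ℂ) * Complex.I := by
    push_cast
    ring
  rw [h1]
  exact LamSeries_one hre

/-- logarithmic derivative: series of `f log` = series of `f` times series of `f Λ`. -/
theorem lam_series_log (t : ℝ) {s : ℂ} (hs : 1 < s.re) :
    LSeries (fun n => ft t n * (Real.log n : ℂ)) s =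
      LSeries (ft t) s * LSeries (fun n => ft t n * (ArithmeticFunction.vonMangoldt n : ℂ)) s := by
  have h1 : LSeriesSummable (ft t) s :=
    LSeriesSummable_of_bounded_of_one_lt_re (m := 1) (fun n _ => (LamSeries_norm_ft t n).le) hs
  have h2 : LSeriesSummable (fun n => ft t n * (ArithmeticFunction.vonMangoldt n : ℂ)) s := by
    have h3 := ArithmeticFunction.LSeriesSummable_vonMangoldt hs
    rw [LSeriesSummable, ← summable_norm_iff] at h3 ⊢
    refine h3.congr fun n => ?_
    rw [LSeries.norm_term_eq, LSeries.norm_term_eq, norm_mul, LamSeries_norm_ft, one_mul]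
  rw [← LSeries_convolution' h1 h2, LSeries.convolution_def]
  refine LSeries_congr (fun {n} hn => ?_) s
  have h4 : ∀ p ∈ n.divisorsAntidiagonal, ft t p.1 * (ft t p.2 *
      (ArithmeticFunction.vonMangoldt p.2 : ℂ)) = ft t n * (ArithmeticFunction.vonMangoldt p.2 : ℂ) := by
    intro p hp
    rw [Nat.mem_divisorsAntidiagonal] at hp
    have hp1 : p.1 ≠ 0 := by
      intro h
      rw [h, zero_mul] at hp
      exact hp.2 hp.1.symm
    have hp2 : p.2 ≠ 0 := by
      intro h
      rw [h, mul_zero] at hp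
      exact hp.2 hp.1.symm
    rw [← hp.1]
    unfold ft
    rw [lam_mul hp1 hp2, ep_mul t hp1 hp2]
    push_cast
    ring
  rw [Finset.sum_congr rfl h4, ← Finset.mul_sum]
  congr 1
  rw [← ArithmeticFunction.vonMangoldt_sum (n := n), Complex.ofReal_sum,
    ← Nat.sum_divisorsAntidiagonal' (f := fun _ b => (ArithmeticFunction.vonMangoldt b : ℂ))]

end Pool.MP_67663b_nt.MR
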