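import Pool.Agent.Lib.MP_67663b_nt.MR.MDefs

set_option autoImplicit false
open Filter Topology MeasureTheory
namespace Pool.MP_67663b_nt.MR
open Pool.MP_67663b_nt.Odd

open FourierTransform SchwartzMap in
private theorem PlanL_fourier_ae {f : ℝ → ℂ} (h1 : Integrable f) (h2 : MemLp f 2) :
    ∀ᵐ x, ((𝓕 (h2.toLp f) : Lp ℂ 2 (volume : Measure ℝ)) : ℝ → ℂ) x = 𝓕 f x := by
  have hcont : Continuous (𝓕 f) :=
    VectorFourier.fourierIntegral_continuous Real.continuous_fourierChar continuous_inner h1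
  refine ae_eq_of_integral_contDiff_smul_eq ((Lp.memLp _).locallyIntegrable (by norm_num))
    hcont.locallyIntegrable fun g hg hgc => ?_
  have hg₁ : HasCompactSupport (Complex.ofRealCLM ∘ g) := hgc.comp_left rfl
  have hg₂ : ContDiff ℝ (⊤ : ℕ∞) (Complex.ofRealCLM ∘ g) := by fun_prop
  set φ : 𝓢(ℝ, ℂ) := hg₁.toSchwartzMap hg₂ with hφ
  have hφx : ∀ x, φ x = (g x : ℂ) := fun x => rfl
  have e1 : ∫ x, g x • ((𝓕 (h2.toLp f) : Lp ℂ 2 (volume : Measure ℝ)) : ℝ → ℂ) x =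
      Lp.toTemperedDistribution (𝓕 (h2.toLp f) : Lp ℂ 2 (volume : Measure ℝ)) φ := by
    rw [Lp.toTemperedDistribution_apply]
    refine integral_congr_ae (Eventually.of_forall fun x => ?_)
    simp only [hφx, smul_eq_mul, Complex.real_smul]
  have e2 : Lp.toTemperedDistribution (𝓕 (h2.toLp f) : Lp ℂ 2 (volume : Measure ℝ)) φ =
      Lp.toTemperedDistribution (h2.toLp f) (𝓕 φ) := by
    rw [← Lp.fourier_toTemperedDistribution_eq, TemperedDistribution.fourier_apply]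
  have e3 : Lp.toTemperedDistribution (h2.toLp f) (𝓕 φ) = ∫ x, (𝓕 φ) x • f x := by
    rw [Lp.toTemperedDistribution_apply]
    refine integral_congr_ae ?_
    filter_upwards [h2.coeFn_toLp] with x hx
    rw [hx]
  have e4 : ∫ x, (𝓕 φ) x • f x = ∫ x, φ x • 𝓕 f x := by
    have := VectorFourier.integral_fourierIntegral_smul_eq_flip (L := innerₗ ℝ) (μ := volume)
      (ν := volume) (f := (φ : ℝ → ℂ)) (g := f) Real.continuous_fourierChar continuous_inner
      φ.integrable h1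
    rw [flip_innerₗ] at this
    exact this
  rw [e1, e2, e3, e4]
  refine integral_congr_ae (Eventually.of_forall fun x => ?_)
  simp only [hφx, smul_eq_mul, Complex.real_smul]

private theorem PlanL_norm_sq (F : Lp ℂ 2 (volume : Measure ℝ)) : ‖F‖ ^ 2 = ∫ x, ‖F x‖ ^ 2 := by
  have h := L2.inner_def (𝕜 := ℂ) F F
  rw [inner_self_eq_norm_sq_to_K] at h
  have h2 : ∫ x, inner ℂ (F x) (F x) = ((∫ x, ‖F x‖ ^ 2 : ℝ) : ℂ) := by
    rw [← integral_complex_ofReal]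
    refine integral_congr_ae (Eventually.of_forall fun x => ?_)
    simp only
    rw [inner_self_eq_norm_sq_to_K]
    push_cast
    rfl
  rw [h2] at h
  have h5 : ((‖F‖ ^ 2 : ℝ) : ℂ) = ((∫ x, ‖F x‖ ^ 2 : ℝ) : ℂ) := by
    rw [Complex.ofReal_pow]
    exact h
  exact Complex.ofReal_injective h5

open FourierTransform in
/-- Plancherel theorem for functions in `L¹ ∩ L²`. -/
theorem PlanL_plancherel {f : ℝ → ℂ} (h1 : Integrable f) (h2 : MemLp f 2) :
    MemLp (𝓕 f) 2 ∧ ∫ w, ‖𝓕 f w‖ ^ 2 = ∫ x, ‖f x‖ ^ 2 := by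
  have hae := PlanL_fourier_ae h1 h2
  refine ⟨(memLp_congr_ae hae).mp (Lp.memLp _), ?_⟩
  have e1 : ∫ w, ‖𝓕 f w‖ ^ 2 =
      ∫ w, ‖((𝓕 (h2.toLp f) : Lp ℂ 2 (volume : Measure ℝ)) : ℝ → ℂ) w‖ ^ 2 := by
    refine integral_congr_ae ?_
    filter_upwards [hae] with x hx
    rw [hx]
  have e2 : ∫ x, ‖f x‖ ^ 2 = ∫ x, ‖((h2.toLp f : Lp ℂ 2 (volume : Measure ℝ)) : ℝ → ℂ) x‖ ^ 2 := by
    refine integral_congr_ae ?_
    filter_upwards [h2.coeFn_toLp] with x hx
    rw [hx]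
  rw [e1, e2, ← PlanL_norm_sq, ← PlanL_norm_sq, Lp.norm_fourier_eq]

section
variable (a : ℕ → ℂ) (ha : ∀ n, 1 ≤ n → ‖a n‖ ≤ 1 + Real.log n) {σ : ℝ} (hσ : 1 < σ)

private theorem PlanL_sum_le (ha : ∀ n, 1 ≤ n → ‖a n‖ ≤ 1 + Real.log n) {ε : ℝ} (hε : 0 < ε)
    {y : ℝ} (hy : 1 ≤ y) :
    ∑ n ∈ Finset.Icc 1 ⌊y⌋₊, ‖a n‖ ≤ (1 + 1 / ε) * y ^ (1 + ε) := by
  have hy0 : 0 < y := by linarith
  have h1 : ∀ n ∈ Finset.Icc 1 ⌊y⌋₊, ‖a n‖ ≤ (1 + 1 / ε) * y ^ ε := by
    intro n hn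
    rw [Finset.mem_Icc] at hn
    refine (ha n hn.1).trans ?_
    have hn1 : (1 : ℝ) ≤ n := by exact_mod_cast hn.1
    have hny : (n : ℝ) ≤ y := le_trans (by exact_mod_cast hn.2) (Nat.floor_le hy0.le)
    have h2 := Real.log_le_rpow_div (show (0 : ℝ) ≤ n by linarith) hε
    have h3 : (n : ℝ) ^ ε ≤ y ^ ε := Real.rpow_le_rpow (by linarith) hny hε.le
    have h4 : (1 : ℝ) ≤ y ^ ε := Real.one_le_rpow hy hε.le
    have h5 : (n : ℝ) ^ ε / ε ≤ y ^ ε / ε := div_le_div_of_nonneg_right h3 hε.le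
    have h6 : (1 + 1 / ε) * y ^ ε = y ^ ε + y ^ ε / ε := by ring
    rw [h6]
    linarith
  refine (Finset.sum_le_sum h1).trans ?_
  rw [Finset.sum_const, Nat.card_Icc, Nat.add_sub_cancel, nsmul_eq_mul, Real.rpow_add hy0,
    Real.rpow_one]
  have h7 : (⌊y⌋₊ : ℝ) ≤ y := Nat.floor_le hy0.le
  have h8 : 0 ≤ (1 + 1 / ε) * y ^ ε := by positivity
  calc (⌊y⌋₊ : ℝ) * ((1 + 1 / ε) * y ^ ε) ≤ y * ((1 + 1 / ε) * y ^ ε) :=
        mul_le_mul_of_nonneg_right h7 h8
    _ = _ := by ring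

private theorem PlanL_meas : Measurable (fun y : ℝ => ∑ n ∈ Finset.Icc 1 ⌊y⌋₊, a n) := by
  have h : Measurable (fun k : ℕ => ∑ n ∈ Finset.Icc 1 k, a n) := measurable_from_top
  exact h.comp Nat.measurable_floor

/-- the function whose Fourier transform is `L(s)/s` -/
private noncomputable def PlanLg (σ : ℝ) (u : ℝ) : ℂ :=
  Set.indicator (Set.Ioi (0 : ℝ))
    (fun u => (∑ n ∈ Finset.Icc 1 ⌊Real.exp u⌋₊, a n) * ((Real.exp (-(σ * u)) : ℝ) : ℂ)) u

private theorem PlanLg_meas (σ : ℝ) : Measurable (PlanLg a σ) := by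
  unfold PlanLg
  refine Measurable.indicator ?_ measurableSet_Ioi
  refine ((PlanL_meas a).comp Real.measurable_exp).mul ?_
  fun_prop

include ha hσ in
private theorem PlanLg_bound (u : ℝ) : ‖PlanLg a σ u‖ ≤
    Set.indicator (Set.Ioi (0 : ℝ)) (fun u => (1 + 1 / ((σ - 1) / 2)) *
      Real.exp (-((σ - 1) / 2) * u)) u := by
  unfold PlanLg
  by_cases hu : u ∈ Set.Ioi (0 : ℝ)
  · rw [Set.indicator_of_mem hu, Set.indicator_of_mem hu, norm_mul, Complex.norm_real,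
      Real.norm_eq_abs, abs_of_pos (Real.exp_pos _)]
    have hu0 : 0 < u := hu
    have hε : 0 < (σ - 1) / 2 := by linarith
    have h1 : ‖∑ n ∈ Finset.Icc 1 ⌊Real.exp u⌋₊, a n‖ ≤
        (1 + 1 / ((σ - 1) / 2)) * Real.exp u ^ (1 + (σ - 1) / 2) :=
      (norm_sum_le _ _).trans (PlanL_sum_le a ha hε (Real.one_le_exp hu0.le))
    refine (mul_le_mul_of_nonneg_right h1 (Real.exp_pos _).le).trans (le_of_eq ?_)
    rw [← Real.exp_mul, mul_assoc, ← Real.exp_add]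
    congr 2
    ring
  · rw [Set.indicator_of_notMem hu, Set.indicator_of_notMem hu, norm_zero]

include ha hσ in
private theorem PlanLg_int : Integrable (PlanLg a σ) := by
  have hε : 0 < (σ - 1) / 2 := by linarith
  refine Integrable.mono' (g := fun u => Set.indicator (Set.Ioi (0 : ℝ))
      (fun u => (1 + 1 / ((σ - 1) / 2)) * Real.exp (-((σ - 1) / 2) * u)) u) ?_
    (PlanLg_meas a σ).aestronglyMeasurable (Eventually.of_forall (PlanLg_bound a ha hσ))
  rw [integrable_indicator_iff measurableSet_Ioi]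
  exact (exp_neg_integrableOn_Ioi 0 hε).const_mul _

include ha hσ in
private theorem PlanLg_memLp : MemLp (PlanLg a σ) 2 := by
  have hε : 0 < (σ - 1) / 2 := by linarith
  rw [memLp_two_iff_integrable_sq_norm (PlanLg_meas a σ).aestronglyMeasurable]
  refine Integrable.mono' (g := fun u => Set.indicator (Set.Ioi (0 : ℝ))
      (fun u => (1 + 1 / ((σ - 1) / 2)) ^ 2 * Real.exp (-(σ - 1) * u)) u) ?_
    ((PlanLg_meas a σ).norm.pow_const 2).aestronglyMeasurable (Eventually.of_forall fun u => ?_)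
  · rw [integrable_indicator_iff measurableSet_Ioi]
    exact (exp_neg_integrableOn_Ioi 0 (show 0 < σ - 1 by linarith)).const_mul _
  · have h := PlanLg_bound a ha hσ u
    rw [Real.norm_eq_abs, abs_of_nonneg (by positivity)]
    by_cases hu : u ∈ Set.Ioi (0 : ℝ)
    · rw [Set.indicator_of_mem hu] at h ⊢
      refine (pow_le_pow_left₀ (norm_nonneg _) h 2).trans (le_of_eq ?_)
      rw [mul_pow, ← Real.exp_nat_mul]
      congr 2
      push_cast
      ring
    · rw [Set.indicator_of_notMem hu] at h ⊢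
      have : ‖PlanLg a σ u‖ = 0 := le_antisymm h (norm_nonneg _)
      rw [this]
      norm_num

private theorem PlanL_image : Real.exp '' (Set.Ioi (0 : ℝ)) = Set.Ioi 1 := by
  ext y
  simp only [Set.mem_image, Set.mem_Ioi]
  constructor
  · rintro ⟨x, hx, rfl⟩
    exact Real.one_lt_exp_iff.mpr hx
  · intro hy
    exact ⟨Real.log y, Real.log_pos hy, Real.exp_log (by linarith)⟩

private theorem PlanL_cov (g : ℝ → ℂ) :
    ∫ y in Set.Ioi (1 : ℝ), g y = ∫ u in Set.Ioi (0 : ℝ), (Real.exp u : ℂ) * g (Real.exp u) := by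
  rw [← PlanL_image, integral_image_eq_integral_abs_deriv_smul measurableSet_Ioi
    (fun x _ => (Real.hasDerivAt_exp x).hasDerivWithinAt) Real.exp_injective.injOn]
  refine setIntegral_congr_fun measurableSet_Ioi fun u _ => ?_
  show |Real.exp u| • g (Real.exp u) = _
  rw [abs_of_pos (Real.exp_pos _), Complex.real_smul]

private theorem PlanL_cov' (g : ℝ → ℝ) :
    ∫ y in Set.Ioi (1 : ℝ), g y = ∫ u in Set.Ioi (0 : ℝ), Real.exp u * g (Real.exp u) := by
  rw [← PlanL_image, integral_image_eq_integral_abs_deriv_smul measurableSet_Ioi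
    (fun x _ => (Real.hasDerivAt_exp x).hasDerivWithinAt) Real.exp_injective.injOn]
  refine setIntegral_congr_fun measurableSet_Ioi fun u _ => ?_
  show |Real.exp u| • g (Real.exp u) = _
  rw [abs_of_pos (Real.exp_pos _), smul_eq_mul]

open FourierTransform in
include ha hσ in
private theorem PlanLg_fourier (w : ℝ) :
    𝓕 (PlanLg a σ) w = LSeries a ((σ : ℂ) + ((2 * Real.pi * w : ℝ) : ℂ) * Complex.I) /
      ((σ : ℂ) + ((2 * Real.pi * w : ℝ) : ℂ) * Complex.I) := by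
  set s : ℂ := (σ : ℂ) + ((2 * Real.pi * w : ℝ) : ℂ) * Complex.I with hs
  have hsre : s.re = σ := by simp [hs]
  have hs0 : s ≠ 0 := by
    intro h
    rw [h, Complex.zero_re] at hsre
    linarith
  have hε : 0 < (σ - 1) / 2 := by linarith
  have hO : (fun n : ℕ ↦ ∑ k ∈ Finset.Icc 1 n, ‖a k‖) =O[atTop]
      fun n ↦ (n : ℝ) ^ (1 + (σ - 1) / 2) := by
    refine Asymptotics.IsBigO.of_bound (1 + 1 / ((σ - 1) / 2)) ?_
    filter_upwards [eventually_ge_atTop 1] with n hn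
    have h := PlanL_sum_le a ha hε (y := (n : ℝ)) (by exact_mod_cast hn)
    rw [Nat.floor_natCast] at h
    rw [Real.norm_eq_abs, Real.norm_eq_abs, abs_of_nonneg (Finset.sum_nonneg fun _ _ => norm_nonneg _),
      abs_of_nonneg (by positivity)]
    exact h
  rw [LSeries_eq_mul_integral' a (r := 1 + (σ - 1) / 2) (by linarith) (by rw [hsre]; linarith) hO,
    mul_div_cancel_left₀ _ hs0, Real.fourier_real_eq_integral_exp_smul, PlanL_cov,
    ← integral_indicator measurableSet_Ioi]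
  refine integral_congr_ae (Eventually.of_forall fun u => ?_)
  simp only
  unfold PlanLg
  by_cases hu : u ∈ Set.Ioi (0 : ℝ)
  · rw [Set.indicator_of_mem hu, Set.indicator_of_mem hu, smul_eq_mul]
    have h1 : ((Real.exp u : ℝ) : ℂ) ^ (-(s + 1)) = Complex.exp ((u : ℂ) * (-(s + 1))) := by
      rw [Complex.cpow_def_of_ne_zero (by exact_mod_cast (Real.exp_pos u).ne'),
        ← Complex.ofReal_log (Real.exp_pos u).le, Real.log_exp]
    rw [h1, Complex.ofReal_exp, Complex.ofReal_exp]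
    have h2 : Complex.exp (((-2 * Real.pi * u * w : ℝ) : ℂ) * Complex.I) *
        Complex.exp ((-(σ * u) : ℝ) : ℂ) = Complex.exp (u : ℂ) * Complex.exp ((u : ℂ) * (-(s + 1))) := by
      rw [← Complex.exp_add, ← Complex.exp_add]
      congr 1
      rw [hs]
      push_cast
      ring
    calc _ = (∑ n ∈ Finset.Icc 1 ⌊Real.exp u⌋₊, a n) *
          (Complex.exp (((-2 * Real.pi * u * w : ℝ) : ℂ) * Complex.I) *
            Complex.exp ((-(σ * u) : ℝ) : ℂ)) := by ring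
      _ = _ := by rw [h2]; ring
  · rw [Set.indicator_of_notMem hu, Set.indicator_of_notMem hu, smul_zero]

private theorem PlanLg_sq (σ : ℝ) :
    ∫ u, ‖PlanLg a σ u‖ ^ 2 =
      ∫ y in Set.Ioi (1 : ℝ), ‖∑ n ∈ Finset.Icc 1 ⌊y⌋₊, a n‖ ^ 2 * y ^ (-1 - 2 * σ) := by
  rw [PlanL_cov', ← integral_indicator measurableSet_Ioi]
  refine integral_congr_ae (Eventually.of_forall fun u => ?_)
  simp only
  unfold PlanLg
  by_cases hu : u ∈ Set.Ioi (0 : ℝ)
  · rw [Set.indicator_of_mem hu, Set.indicator_of_mem hu, norm_mul, Complex.norm_real,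
      Real.norm_eq_abs, abs_of_pos (Real.exp_pos _), mul_pow]
    have h1 : Real.exp (-(σ * u)) ^ 2 = Real.exp u * Real.exp u ^ (-1 - 2 * σ) := by
      rw [← Real.exp_nat_mul, ← Real.exp_mul, ← Real.exp_add]
      congr 1
      push_cast
      ring
    rw [h1]
    ring
  · rw [Set.indicator_of_notMem hu, Set.indicator_of_notMem hu, norm_zero]
    norm_num

end

/-- Plancherel for Dirichlet series, coefficients of logarithmic size. -/
theorem plan_L (a : ℕ → ℂ) (ha : ∀ n, 1 ≤ n → ‖a n‖ ≤ 1 + Real.log n) {σ : ℝ} (hσ : 1 < σ) :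
    ∫ ω : ℝ, ‖LSeries a ((σ : ℂ) + (ω : ℂ) * Complex.I) / ((σ : ℂ) + (ω : ℂ) * Complex.I)‖ ^ 2 =
      2 * Real.pi * ∫ y in Set.Ioi (1 : ℝ), ‖∑ n ∈ Finset.Icc 1 ⌊y⌋₊, a n‖ ^ 2 * y ^ (-1 - 2 * σ) := by
  have h := (PlanL_plancherel (PlanLg_int a ha hσ) (PlanLg_memLp a ha hσ)).2
  rw [PlanLg_sq] at h
  rw [← h]
  have hpi := Real.pi_pos
  set G : ℝ → ℝ := fun ω : ℝ =>
    ‖LSeries a ((σ : ℂ) + (ω : ℂ) * Complex.I) / ((σ : ℂ) + (ω : ℂ) * Complex.I)‖ ^ 2 with hG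
  have h3 : ∀ w : ℝ, ‖FourierTransform.fourier (PlanLg a σ) w‖ ^ 2 = G (2 * Real.pi * w) := by
    intro w
    rw [PlanLg_fourier a ha hσ]
  simp_rw [h3]
  rw [Measure.integral_comp_mul_left G (2 * Real.pi), abs_of_pos (by positivity), smul_eq_mul,
    ← mul_assoc, mul_inv_cancel₀ (by positivity), one_mul]

theorem plan_L_int_left (a : ℕ → ℂ) (ha : ∀ n, 1 ≤ n → ‖a n‖ ≤ 1 + Real.log n) {σ : ℝ} (hσ : 1 < σ) :
    Integrable (fun ω : ℝ =>
      ‖LSeries a ((σ : ℂ) + (ω : ℂ) * Complex.I) / ((σ : ℂ) + (ω : ℂ) * Complex.I)‖ ^ 2) := by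
  have h := (PlanL_plancherel (PlanLg_int a ha hσ) (PlanLg_memLp a ha hσ)).1
  have h1 := h.norm.integrable_sq
  have hpi := Real.pi_pos
  set G : ℝ → ℝ := fun ω : ℝ =>
    ‖LSeries a ((σ : ℂ) + (ω : ℂ) * Complex.I) / ((σ : ℂ) + (ω : ℂ) * Complex.I)‖ ^ 2 with hG
  have h3 : ∀ w : ℝ, ‖FourierTransform.fourier (PlanLg a σ) w‖ ^ 2 = G (2 * Real.pi * w) := by
    intro w
    rw [PlanLg_fourier a ha hσ]
  simp_rw [h3] at h1
  rwa [integrable_comp_mul_left_iff G (by positivity)] at h1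

theorem plan_L_int_right (a : ℕ → ℂ) (ha : ∀ n, 1 ≤ n → ‖a n‖ ≤ 1 + Real.log n) {σ : ℝ} (hσ : 1 < σ) :
    IntegrableOn (fun y : ℝ => ‖∑ n ∈ Finset.Icc 1 ⌊y⌋₊, a n‖ ^ 2 * y ^ (-1 - 2 * σ)) (Set.Ioi 1) := by
  have hε : 0 < (σ - 1) / 2 := by linarith
  refine Integrable.mono' (g := fun y => (1 + 1 / ((σ - 1) / 2)) ^ 2 * y ^ (-σ)) ?_ ?_ ?_
  · exact (integrableOn_Ioi_rpow_of_lt (by linarith) one_pos).const_mul _
  · refine Measurable.aestronglyMeasurable ?_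
    exact ((PlanL_meas a).norm.pow_const 2).mul (by fun_prop)
  · refine (ae_restrict_iff' measurableSet_Ioi).mpr (Eventually.of_forall fun y hy => ?_)
    have hy1 : 1 < y := hy
    have hy0 : 0 < y := by linarith
    have h1 : ‖∑ n ∈ Finset.Icc 1 ⌊y⌋₊, a n‖ ≤
        (1 + 1 / ((σ - 1) / 2)) * y ^ (1 + (σ - 1) / 2) :=
      (norm_sum_le _ _).trans (PlanL_sum_le a ha hε hy1.le)
    rw [Real.norm_eq_abs, abs_of_nonneg (by positivity)]
    refine (mul_le_mul_of_nonneg_right (pow_le_pow_left₀ (norm_nonneg _) h1 2)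
      (Real.rpow_nonneg hy0.le _)).trans (le_of_eq ?_)
    rw [mul_pow, mul_assoc]
    congr 1
    rw [← Real.rpow_natCast, ← Real.rpow_mul hy0.le, ← Real.rpow_add hy0]
    congr 1
    push_cast
    ring

end Pool.MP_67663b_nt.MR
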