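import Pool.Agent.Lib.MP_67663b_nt.MR.MDefs

set_option autoImplicit false
open Filter Topology MeasureTheory
namespace Pool.MP_67663b_nt.MR
open Pool.MP_67663b_nt.Odd

/-- Parameters of the levels: level `j` has the primes in `(e^(a j/K j), e^(b j/K j)]`, exponent `α j`. -/
structure Lev (κ a0 D0 : ℝ) where
  K : ℕ → ℕ
  a : ℕ → ℕ
  b : ℕ → ℕ
  α : ℕ → ℝ
  hK : ∀ j, 1 ≤ K j
  hab : ∀ j, a j < b j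
  ha : ∀ j, K j ≤ a j
  h0 : (b 0 : ℝ) ^ 2 * Real.exp (-(2 * α 0 * ((a 0 : ℝ) / K 0))) ≤ κ
  hL0 : ∀ j, 0 < Lm (K j) (a j) (b j)
  hL : ∀ j, 1 / Lm (K j) (a j) (b j) + 1 / (K j : ℝ) ≤ κ / ((j : ℝ) + 1) ^ 2
  hα0 : ∀ j, 0 < α j
  hαa : ∀ j, α j ≤ a0
  hαm : ∀ j, α j ≤ α (j + 1)
  hord : ∀ j, ∀ v' ∈ Finset.Ico (a j) (b j), ∀ v ∈ Finset.Ico (a (j + 1)) (b (j + 1)),
    (v' : ℝ) / K j ≤ (v : ℝ) / K (j + 1)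
  hstep : ∀ j, ∀ v' ∈ Finset.Ico (a j) (b j), ∀ v ∈ Finset.Ico (a (j + 1)) (b (j + 1)),
    2 * ((v' : ℝ) / K j) + 2 * (⌈((v : ℝ) / K (j + 1)) / ((v' : ℝ) / K j)⌉₊ : ℝ) *
      (Real.log (2 * (⌈((v : ℝ) / K (j + 1)) / ((v' : ℝ) / K j)⌉₊ : ℝ)) + 1) ≤
      (α (j + 1) - α j) * ((v : ℝ) / K (j + 1))
  hsum : ∀ j, (b (j + 1) : ℝ) ^ 2 * b j *
    Real.exp (-((α (j + 1) - α j) * ((a (j + 1) : ℝ) / K (j + 1)))) ≤ κ / ((j : ℝ) + 1) ^ 2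
  hmono : ∀ j, (b j : ℝ) / K j ≤ (b (j + 1) : ℝ) / K (j + 1)
  hD : ∀ j, D0 * Real.log ((b (j + 1) : ℝ) / K (j + 1)) ≤ (a j : ℝ) / K j
  hb : Tendsto (fun j => (b j : ℝ) / K j) atTop atTop
  hpoly : ∀ j, (K j : ℝ) ≤ ((b j : ℝ) / K j) ^ 3

/-- the set of `t` for which every level `j ≤ J` has a large slice polynomial -/
def Lev.U {κ a0 D0 : ℝ} (L : Lev κ a0 D0) (J : ℕ) (T : ℝ) : Set ℝ :=
  {t | t ∈ Set.Icc (-T) T ∧ ∀ j ≤ J, ∃ v ∈ Finset.Ico (L.a j) (L.b j),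
    Real.exp ((1 - L.α j) * ((v : ℝ) / L.K j)) < ‖Qp (L.K j) v t‖}

end Pool.MP_67663b_nt.MR
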