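import Pool.Agent.Lib.MP_67663b_nt.MR.MVT

set_option autoImplicit false
open Filter Topology MeasureTheory
namespace Pool.MP_67663b_nt.MR
open Pool.MP_67663b_nt.Odd

private lemma lo_set {S : Set ℝ} {T : ℝ} (hT : 0 ≤ T) (hS : MeasurableSet S)
    (hST : S ⊆ Set.Icc (-T) T) {f g : ℝ → ℝ} (hf : Continuous f) (hg : Continuous g)
    (hg0 : ∀ t, 0 ≤ g t) (h : ∀ t ∈ S, f t ≤ g t) :
    ∫ t in S, f t ≤ ∫ t in (-T)..T, g t := by
  have hfi : IntegrableOn f S := (hf.integrableOn_Icc (a := -T) (b := T)).mono_set hST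
  have hgi : IntegrableOn g (Set.Icc (-T) T) := hg.integrableOn_Icc
  refine (setIntegral_mono_on hfi (hgi.mono_set hST) hS h).trans ?_
  rw [intervalIntegral.integral_of_le (by linarith), ← integral_Icc_eq_integral_Ioc]
  exact setIntegral_mono_set hgi (Eventually.of_forall fun t => hg0 t) hST.eventuallyLE

private lemma lo_Rp {C : ℝ} (hC : 0 < C)
    (hmvt : ∀ (N : ℕ) (s : Finset ℕ) (a : ℕ → ℂ) (T : ℝ), 1 ≤ T →
      s ⊆ Finset.Icc 1 N → ∫ t in (-T)..T, ‖dp s a t‖ ^ 2 ≤ C * (T + N) * ∑ n ∈ s, ‖a n‖ ^ 2)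
    {X T : ℝ} {K v : ℕ} (hX : Real.exp ((v : ℝ) / K) ≤ X) (hT : 1 ≤ T) :
    ∫ t in (-T)..T, ‖Rp X K v t‖ ^ 2 ≤
      C * (T + 4 * (X * Real.exp (-((v : ℝ) / K)))) * (4 * (X * Real.exp (-((v : ℝ) / K)))) := by
  set Y : ℝ := X * Real.exp (-((v : ℝ) / K)) with hY
  have hY1 : 1 ≤ Y := by
    have h1 := mul_le_mul_of_nonneg_right hX (Real.exp_pos (-((v : ℝ) / K))).le
    rw [← Real.exp_add, add_neg_cancel, Real.exp_zero] at h1
    exact h1
  have h := hmvt ⌊4 * Y⌋₊ (seg Y (4 * Y)) (fun m => (lam m : ℂ)) T hT seg_subset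
  have h1 : ∑ n ∈ seg Y (4 * Y), ‖(lam n : ℂ)‖ ^ 2 ≤ 4 * Y := by
    have e : ∑ n ∈ seg Y (4 * Y), ‖(lam n : ℂ)‖ ^ 2 = ((seg Y (4 * Y)).card : ℝ) := by
      rw [Finset.sum_congr rfl (fun n _ => by rw [norm_lam, one_pow])]
      simp
    rw [e]
    have := card_seg_le (x := Y) (y := 4 * Y) (by linarith) (by linarith)
    linarith
  have h2 : ((⌊4 * Y⌋₊ : ℕ) : ℝ) ≤ 4 * Y := Nat.floor_le (by linarith)
  have h3 : C * (T + ((⌊4 * Y⌋₊ : ℕ) : ℝ)) ≤ C * (T + 4 * Y) :=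
    mul_le_mul_of_nonneg_left (by linarith) hC.le
  have h4 : 0 ≤ C * (T + 4 * Y) := by positivity
  exact h.trans (mul_le_mul h3 h1 (Finset.sum_nonneg fun n _ => by positivity) h4)

/-- First level. -/
theorem level_one : ∃ C : ℝ, 0 < C ∧ ∀ (X T H α : ℝ) (K a b : ℕ) (S : Set ℝ), 1 ≤ K → a < b →
    Real.exp ((b : ℝ) / K) ≤ H → H ≤ X → 0 ≤ α → α ≤ 1 → X / H ≤ T → T ≤ X →
    MeasurableSet S → S ⊆ Set.Icc (-T) T →
    (∀ t ∈ S, ∀ v ∈ Finset.Ico a b, ‖Qp K v t‖ ≤ Real.exp ((1 - α) * ((v : ℝ) / K))) →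
    ∫ t in S, ‖∑ v ∈ Finset.Ico a b, Qp K v t * Rp X K v t‖ ^ 2 ≤
      C * (b : ℝ) ^ 2 * Real.exp (-(2 * α * ((a : ℝ) / K))) * (T * H * X) := by
  obtain ⟨C, hC, hmvt⟩ := mvt
  refine ⟨20 * C, by positivity, fun X T H α K a b S hK hab hbH hHX hα0 hα1 hXT hTX hS hST hQ => ?_⟩
  have hH0 : 0 < H := (Real.exp_pos _).trans_le hbH
  have hX0 : 0 < X := hH0.trans_le hHX
  have hT1 : 1 ≤ T := ((one_le_div hH0).2 hHX).trans hXT
  have hT0 : 0 ≤ T := by linarith
  have hK0 : (0 : ℝ) < K := by exact_mod_cast hK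
  have hb0 : (0 : ℝ) ≤ b := Nat.cast_nonneg b
  have hbK : ∀ v ∈ Finset.Ico a b, Real.exp ((v : ℝ) / K) ≤ H := by
    intro v hv
    refine le_trans ?_ hbH
    apply Real.exp_le_exp.2
    have : (v : ℝ) ≤ b := by exact_mod_cast (Finset.mem_Ico.1 hv).2.le
    gcongr
  set g : ℝ → ℝ := fun t => (b : ℝ) * ∑ v ∈ Finset.Ico a b,
    Real.exp ((1 - α) * ((v : ℝ) / K)) ^ 2 * ‖Rp X K v t‖ ^ 2 with hg
  have hgc : Continuous g := by
    rw [hg]
    apply continuous_const.mul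
    apply continuous_finsetSum
    intro v _
    exact continuous_const.mul ((continuous_Rp X K v).norm.pow 2)
  have hfc : Continuous (fun t => ‖∑ v ∈ Finset.Ico a b, Qp K v t * Rp X K v t‖ ^ 2) := by
    apply Continuous.pow
    apply Continuous.norm
    apply continuous_finsetSum
    intro v _
    exact (continuous_Qp K v).mul (continuous_Rp X K v)
  have hcard : ((Finset.Ico a b).card : ℝ) ≤ b := by
    rw [Nat.card_Ico]
    exact_mod_cast Nat.sub_le b a
  have hpt : ∀ t ∈ S, ‖∑ v ∈ Finset.Ico a b, Qp K v t * Rp X K v t‖ ^ 2 ≤ g t := by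
    intro t ht
    have h1 : ‖∑ v ∈ Finset.Ico a b, Qp K v t * Rp X K v t‖ ≤
        ∑ v ∈ Finset.Ico a b, Real.exp ((1 - α) * ((v : ℝ) / K)) * ‖Rp X K v t‖ := by
      refine (norm_sum_le _ _).trans (Finset.sum_le_sum fun v hv => ?_)
      rw [norm_mul]
      exact mul_le_mul_of_nonneg_right (hQ t ht v hv) (norm_nonneg _)
    have h2 := pow_le_pow_left₀ (norm_nonneg _) h1 2
    refine h2.trans ?_
    refine (sq_sum_le_card_mul_sum_sq).trans ?_
    rw [hg]
    simp only [mul_pow]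
    exact mul_le_mul_of_nonneg_right hcard (Finset.sum_nonneg fun v _ => by positivity)
  refine (lo_set hT0 hS hST hfc hgc (fun t => by rw [hg]; positivity) hpt).trans ?_
  have e1 : ∫ t in (-T)..T, g t = (b : ℝ) * ∑ v ∈ Finset.Ico a b,
      Real.exp ((1 - α) * ((v : ℝ) / K)) ^ 2 * ∫ t in (-T)..T, ‖Rp X K v t‖ ^ 2 := by
    rw [hg, intervalIntegral.integral_const_mul, intervalIntegral.integral_finsetSum]
    · congr 1
      refine Finset.sum_congr rfl fun v _ => ?_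
      rw [intervalIntegral.integral_const_mul]
    · intro v _
      apply Continuous.intervalIntegrable
      exact continuous_const.mul ((continuous_Rp X K v).norm.pow 2)
  rw [e1]
  have hterm : ∀ v ∈ Finset.Ico a b,
      Real.exp ((1 - α) * ((v : ℝ) / K)) ^ 2 * (∫ t in (-T)..T, ‖Rp X K v t‖ ^ 2) ≤
      20 * C * Real.exp (-(2 * α * ((a : ℝ) / K))) * (T * H * X) := by
    intro v hv
    have hvH := hbK v hv
    have hav : (a : ℝ) ≤ v := by exact_mod_cast (Finset.mem_Ico.1 hv).1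
    have h1 := lo_Rp hC hmvt (K := K) (v := v) (hvH.trans hHX) hT1
    have h2 := mul_le_mul_of_nonneg_left h1 (sq_nonneg (Real.exp ((1 - α) * ((v : ℝ) / K))))
    refine h2.trans ?_
    set V : ℝ := (v : ℝ) / K with hV
    have e2 : Real.exp ((1 - α) * V) ^ 2 * (C * (T + 4 * (X * Real.exp (-V))) *
        (4 * (X * Real.exp (-V)))) =
        4 * C * Real.exp (-(2 * α * V)) * (T * Real.exp V * X + 4 * X ^ 2) := by
      have k1 : Real.exp ((1 - α) * V) ^ 2 = Real.exp (-(2 * α * V)) * Real.exp V ^ 2 := by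
        rw [← Real.exp_nat_mul, ← Real.exp_nat_mul, ← Real.exp_add]
        congr 1
        push_cast
        ring
      have k2 : Real.exp V * Real.exp (-V) = 1 := by
        rw [← Real.exp_add, add_neg_cancel, Real.exp_zero]
      rw [k1]
      linear_combination (4 * C * Real.exp (-(2 * α * V)) * (T * X * Real.exp V +
        4 * X ^ 2 * (Real.exp V * Real.exp (-V) + 1))) * k2
    rw [e2]
    have h3 : Real.exp (-(2 * α * V)) ≤ Real.exp (-(2 * α * ((a : ℝ) / K))) := by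
      apply Real.exp_le_exp.2
      have : (a : ℝ) / K ≤ V := by rw [hV]; gcongr
      have := mul_le_mul_of_nonneg_left this (by positivity : 0 ≤ 2 * α)
      linarith
    have h4 : T * Real.exp V * X + 4 * X ^ 2 ≤ 5 * (T * H * X) := by
      have h5 : T * Real.exp V * X ≤ T * H * X := by gcongr
      have h6 : X ≤ T * H := (div_le_iff₀ hH0).1 hXT
      nlinarith
    have h7 : 0 ≤ T * Real.exp V * X + 4 * X ^ 2 := by positivity
    calc 4 * C * Real.exp (-(2 * α * V)) * (T * Real.exp V * X + 4 * X ^ 2) ≤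
        4 * C * Real.exp (-(2 * α * ((a : ℝ) / K))) * (5 * (T * H * X)) := by gcongr
      _ = _ := by ring
  have h8 := Finset.sum_le_sum hterm
  rw [Finset.sum_const, nsmul_eq_mul] at h8
  have h9 : 0 ≤ 20 * C * Real.exp (-(2 * α * ((a : ℝ) / K))) * (T * H * X) := by positivity
  calc _ ≤ (b : ℝ) * (((Finset.Ico a b).card : ℝ) *
        (20 * C * Real.exp (-(2 * α * ((a : ℝ) / K))) * (T * H * X))) :=
        mul_le_mul_of_nonneg_left h8 hb0
    _ ≤ (b : ℝ) * ((b : ℝ) * (20 * C * Real.exp (-(2 * α * ((a : ℝ) / K))) * (T * H * X))) := by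
        gcongr
    _ = _ := by ring

end Pool.MP_67663b_nt.MR
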