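import Pool.Agent.Lib.MP_67663b_nt.Odd.Defs

/-!
# Matomaki-Radziwill theorem for the Liouville function: definitions and basic facts
-/

set_option autoImplicit false
open Filter Topology MeasureTheory
namespace Pool.MP_67663b_nt.MR
open Pool.MP_67663b_nt.Odd

/-- `n^{-it}` -/
noncomputable def ep (t : ℝ) (n : ℕ) : ℂ :=
  Complex.exp (-(((t * Real.log (n : ℝ) : ℝ) : ℂ) * Complex.I))

/-- Dirichlet polynomial `∑_{n ∈ s} a n n^{-it}` -/
noncomputable def dp (s : Finset ℕ) (a : ℕ → ℂ) (t : ℝ) : ℂ := ∑ n ∈ s, a n * ep t n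

/-- integers in `(x, y]` -/
noncomputable def seg (x y : ℝ) : Finset ℕ := Finset.Ioc ⌊x⌋₊ ⌊y⌋₊

/-- distinct points have distance at least one -/
def Spaced (S : Finset ℝ) : Prop := ∀ x ∈ S, ∀ y ∈ S, x ≠ y → 1 ≤ |x - y|

/-- primes in `(e^(v/K), e^((v+1)/K)]` -/
noncomputable def sl (K v : ℕ) : Finset ℕ :=
  (seg (Real.exp ((v : ℝ) / K)) (Real.exp (((v : ℝ) + 1) / K))).filter Nat.Prime

/-- prime polynomial of the slice `v` -/
noncomputable def Qp (K v : ℕ) (t : ℝ) : ℂ := dp (sl K v) (fun _ => 1) t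

/-- Liouville polynomial over `(X e^(-v/K), 4 X e^(-v/K)]` -/
noncomputable def Rp (X : ℝ) (K v : ℕ) (t : ℝ) : ℂ :=
  dp (seg (X * Real.exp (-((v : ℝ) / K))) (4 * (X * Real.exp (-((v : ℝ) / K)))))
    (fun m => (lam m : ℂ)) t

/-- Liouville polynomial over `(X, 4 X]` -/
noncomputable def Gp (X : ℝ) (t : ℝ) : ℂ := dp (seg X (4 * X)) (fun m => (lam m : ℂ)) t

/-- sum of `1/p` over the slices `a ≤ v < b` -/
noncomputable def Lm (K a b : ℕ) : ℝ := ∑ v ∈ Finset.Ico a b, ∑ p ∈ sl K v, 1 / (p : ℝ)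

/-- weight for the short interval integral -/
noncomputable def wt (T0 t : ℝ) : ℝ := if |t| ≤ T0 then 1 else (T0 / t) ^ 2

/-! ### basic facts -/

theorem norm_ep (t : ℝ) (n : ℕ) : ‖ep t n‖ = 1 := by
  unfold ep
  rw [← neg_mul, ← Complex.ofReal_neg]
  exact Complex.norm_exp_ofReal_mul_I _

theorem ep_zero_left (n : ℕ) : ep 0 n = 1 := by simp [ep]

theorem ep_one (t : ℝ) : ep t 1 = 1 := by simp [ep]

theorem ep_mul (t : ℝ) {m n : ℕ} (hm : m ≠ 0) (hn : n ≠ 0) : ep t (m * n) = ep t m * ep t n := by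
  unfold ep
  rw [← Complex.exp_add]
  congr 1
  have : Real.log ((m * n : ℕ) : ℝ) = Real.log m + Real.log n := by
    push_cast
    exact Real.log_mul (by exact_mod_cast hm) (by exact_mod_cast hn)
  rw [this]
  push_cast
  ring

theorem ep_add (s t : ℝ) (n : ℕ) : ep (s + t) n = ep s n * ep t n := by
  unfold ep
  rw [← Complex.exp_add]
  congr 1
  push_cast
  ring

theorem ep_neg (t : ℝ) (n : ℕ) : ep (-t) n = (starRingEnd ℂ) (ep t n) := by
  unfold ep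
  rw [← Complex.exp_conj]
  congr 1
  rw [map_neg, map_mul, Complex.conj_ofReal, Complex.conj_I]
  push_cast
  ring

theorem ep_sub (s t : ℝ) (n : ℕ) : ep (s - t) n = ep s n * (starRingEnd ℂ) (ep t n) := by
  rw [sub_eq_add_neg, ep_add, ep_neg]

theorem continuous_ep (n : ℕ) : Continuous (fun t => ep t n) := by
  unfold ep
  fun_prop

theorem continuous_dp (s : Finset ℕ) (a : ℕ → ℂ) : Continuous (dp s a) := by
  unfold dp
  exact continuous_finsetSum _ fun n _ => continuous_const.mul (continuous_ep n)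

theorem norm_dp_le (s : Finset ℕ) (a : ℕ → ℂ) (t : ℝ) : ‖dp s a t‖ ≤ ∑ n ∈ s, ‖a n‖ := by
  unfold dp
  refine (norm_sum_le _ _).trans (Finset.sum_le_sum fun n _ => ?_)
  rw [norm_mul, norm_ep, mul_one]

theorem mem_seg {x y : ℝ} (hx : 0 ≤ x) (hy : 0 ≤ y) {n : ℕ} :
    n ∈ seg x y ↔ x < n ∧ (n : ℝ) ≤ y := by
  unfold seg
  rw [Finset.mem_Ioc, Nat.floor_lt hx, Nat.le_floor_iff hy]

theorem pos_of_mem_seg {x y : ℝ} {n : ℕ} (h : n ∈ seg x y) : 0 < n := by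
  unfold seg at h
  rw [Finset.mem_Ioc] at h
  omega

theorem card_seg_le {x y : ℝ} (hx : 0 ≤ x) (hxy : x ≤ y) :
    ((seg x y).card : ℝ) ≤ y - x + 1 := by
  unfold seg
  rw [Nat.card_Ioc]
  have h1 : ⌊x⌋₊ ≤ ⌊y⌋₊ := Nat.floor_le_floor hxy
  rw [Nat.cast_sub h1]
  have h2 : (⌊y⌋₊ : ℝ) ≤ y := Nat.floor_le (hx.trans hxy)
  have h3 : x < (⌊x⌋₊ : ℝ) + 1 := Nat.lt_floor_add_one x
  linarith

theorem seg_subset {x y : ℝ} : seg x y ⊆ Finset.Icc 1 ⌊y⌋₊ := by
  intro n hn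
  unfold seg at hn
  rw [Finset.mem_Ioc] at hn
  rw [Finset.mem_Icc]
  omega

theorem mem_sl {K v p : ℕ} : p ∈ sl K v ↔
    p.Prime ∧ Real.exp ((v : ℝ) / K) < p ∧ (p : ℝ) ≤ Real.exp (((v : ℝ) + 1) / K) := by
  unfold sl
  rw [Finset.mem_filter, mem_seg (Real.exp_pos _).le (Real.exp_pos _).le]
  tauto

theorem continuous_Qp (K v : ℕ) : Continuous (Qp K v) := continuous_dp _ _

theorem continuous_Rp (X : ℝ) (K v : ℕ) : Continuous (Rp X K v) := continuous_dp _ _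

theorem continuous_Gp (X : ℝ) : Continuous (Gp X) := continuous_dp _ _

theorem norm_lam (n : ℕ) : ‖(lam n : ℂ)‖ = 1 := by
  rw [Complex.norm_real, Real.norm_eq_abs, abs_lam]

theorem Lm_nonneg (K a b : ℕ) : 0 ≤ Lm K a b := by
  unfold Lm
  exact Finset.sum_nonneg fun v _ => Finset.sum_nonneg fun p _ => by positivity

theorem Spaced.subset {S S' : Finset ℝ} (h : Spaced S) (hs : S' ⊆ S) : Spaced S' :=
  fun x hx y hy hxy => h x (hs hx) y (hs hy) hxy

end Pool.MP_67663b_nt.MR
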