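import Pool.Agent.Lib.MP_67663b_nt.MR.Planch

set_option autoImplicit false
open Filter Topology MeasureTheory
namespace Pool.MP_67663b_nt.MR
open Pool.MP_67663b_nt.Odd

private theorem shortInt_avg (X H : ℕ) (a : ℕ → ℂ) :
    (H : ℝ) * ∑ n ∈ Finset.Ico X (2 * X), ‖∑ m ∈ Finset.Ioc n (n + H), a m‖ ^ 2 ≤
      4 * ∑ p ∈ Finset.Ico X (2 * X + H) ×ˢ Finset.Ioc H (3 * H),
        ‖∑ m ∈ Finset.Ioc p.1 (p.1 + p.2), a m‖ ^ 2 := by
  set B : ℕ → ℕ → ℝ := fun n v => ‖∑ m ∈ Finset.Ioc n (n + v), a m‖ ^ 2 with hB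
  have hBnn : ∀ n v, 0 ≤ B n v := fun n v => by positivity
  have h1 : ∀ n v : ℕ, v ∈ Finset.Ioc (2 * H) (3 * H) → B n H ≤ 2 * B n v + 2 * B (n + H) (v - H) := by
    intro n v hv
    rw [Finset.mem_Ioc] at hv
    have e : ∑ m ∈ Finset.Ioc n (n + H), a m + ∑ m ∈ Finset.Ioc (n + H) (n + v), a m =
        ∑ m ∈ Finset.Ioc n (n + v), a m :=
      Finset.sum_Ioc_consecutive _ (by omega) (by omega)
    have e2 : n + H + (v - H) = n + v := by omega
    simp only [hB, e2]
    rw [← e]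
    set x := ∑ m ∈ Finset.Ioc n (n + H), a m
    set y := ∑ m ∈ Finset.Ioc (n + H) (n + v), a m
    have h : ‖x‖ ≤ ‖x + y‖ + ‖y‖ := by
      have := norm_sub_le (x + y) y
      simpa using this
    nlinarith [norm_nonneg x, norm_nonneg y, norm_nonneg (x + y), sq_nonneg (‖x + y‖ - ‖y‖)]
  have h2 : (H : ℝ) * ∑ n ∈ Finset.Ico X (2 * X), B n H ≤
      ∑ v ∈ Finset.Ioc (2 * H) (3 * H), ∑ n ∈ Finset.Ico X (2 * X), (2 * B n v + 2 * B (n + H) (v - H)) := by
    have : (H : ℝ) * ∑ n ∈ Finset.Ico X (2 * X), B n H =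
        ∑ v ∈ Finset.Ioc (2 * H) (3 * H), ∑ n ∈ Finset.Ico X (2 * X), B n H := by
      rw [Finset.sum_const, nsmul_eq_mul, Nat.card_Ioc]
      congr 2
      omega
    rw [this]
    exact Finset.sum_le_sum fun v hv => Finset.sum_le_sum fun n _ => h1 n v hv
  set T := ∑ p ∈ Finset.Ico X (2 * X + H) ×ˢ Finset.Ioc H (3 * H), B p.1 p.2 with hT
  have h3 : ∑ v ∈ Finset.Ioc (2 * H) (3 * H), ∑ n ∈ Finset.Ico X (2 * X), B n v ≤ T := by
    rw [hT, Finset.sum_product_right]
    refine (Finset.sum_le_sum_of_subset_of_nonneg (Finset.Ioc_subset_Ioc_left (by omega)) ?_).trans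
      (Finset.sum_le_sum fun v _ => Finset.sum_le_sum_of_subset_of_nonneg
        (Finset.Ico_subset_Ico_right (by omega)) fun n _ _ => hBnn n v)
    exact fun v _ _ => Finset.sum_nonneg fun n _ => hBnn n v
  have h4 : ∑ v ∈ Finset.Ioc (2 * H) (3 * H), ∑ n ∈ Finset.Ico X (2 * X), B (n + H) (v - H) ≤ T := by
    have e : ∑ v ∈ Finset.Ioc (2 * H) (3 * H), ∑ n ∈ Finset.Ico X (2 * X), B (n + H) (v - H) =
        ∑ w ∈ Finset.Ioc H (2 * H), ∑ n ∈ Finset.Ico (X + H) (2 * X + H), B n w := by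
      have i1 : ∀ v, ∑ n ∈ Finset.Ico X (2 * X), B (n + H) (v - H) =
          ∑ n ∈ Finset.Ico (X + H) (2 * X + H), B n (v - H) := fun v =>
        Finset.sum_Ico_add' (fun n => B n (v - H)) X (2 * X) H
      simp only [i1]
      refine Finset.sum_nbij' (fun v => v - H) (fun w => w + H) ?_ ?_ ?_ ?_ ?_
      · intro v hv
        rw [Finset.mem_Ioc] at hv ⊢
        omega
      · intro v hv
        rw [Finset.mem_Ioc] at hv ⊢
        omega
      · intro v hv
        rw [Finset.mem_Ioc] at hv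
        omega
      · intro v hv
        omega
      · intro v hv
        rfl
    rw [e, hT, Finset.sum_product_right]
    refine (Finset.sum_le_sum_of_subset_of_nonneg (Finset.Ioc_subset_Ioc_right (by omega)) ?_).trans
      (Finset.sum_le_sum fun v _ => Finset.sum_le_sum_of_subset_of_nonneg
        (Finset.Ico_subset_Ico_left (by omega)) fun n _ _ => hBnn n v)
    exact fun v _ _ => Finset.sum_nonneg fun n _ => hBnn n v
  have h5 : ∑ v ∈ Finset.Ioc (2 * H) (3 * H), ∑ n ∈ Finset.Ico X (2 * X), (2 * B n v + 2 * B (n + H) (v - H)) =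
      2 * ∑ v ∈ Finset.Ioc (2 * H) (3 * H), ∑ n ∈ Finset.Ico X (2 * X), B n v +
      2 * ∑ v ∈ Finset.Ioc (2 * H) (3 * H), ∑ n ∈ Finset.Ico X (2 * X), B (n + H) (v - H) := by
    simp only [Finset.sum_add_distrib, Finset.mul_sum]
  show (H : ℝ) * ∑ n ∈ Finset.Ico X (2 * X), B n H ≤ 4 * T
  linarith

/-- the step function -/
private noncomputable def stepF (s : Finset ℕ) (a : ℕ → ℂ) (L u : ℝ) : ℂ :=
  ∑ n ∈ s.filter (fun n : ℕ => u < Real.log n ∧ Real.log n ≤ u + L), a n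

private theorem stepF_integrable (s : Finset ℕ) (a : ℕ → ℂ) (L : ℝ) :
    Integrable (fun u => ‖stepF s a L u‖ ^ 2) := by
  have e : ∀ u, stepF s a L u = ∑ n ∈ s, Set.indicator (Set.Ico (Real.log n - L) (Real.log n))
      (fun _ => a n) u := by
    intro u
    unfold stepF
    rw [Finset.sum_filter]
    refine Finset.sum_congr rfl fun n _ => ?_
    by_cases h : u < Real.log n ∧ Real.log n ≤ u + L
    · rw [if_pos h, Set.indicator_of_mem]
      exact ⟨by linarith [h.2], h.1⟩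
    · rw [if_neg h, Set.indicator_of_notMem]
      rintro ⟨h1, h2⟩
      exact h ⟨h2, by linarith⟩
  have hmem : MemLp (fun u => ∑ n ∈ s, Set.indicator (Set.Ico (Real.log n - L) (Real.log n))
      (fun _ => a n) u) ((2 : ℕ) : ENNReal) (volume : Measure ℝ) := by
    refine memLp_finsetSum s fun n _ => ?_
    refine memLp_indicator_const _ measurableSet_Ico _ (Or.inr ?_)
    rw [Real.volume_Ico]
    exact ENNReal.ofReal_ne_top
  have := hmem.integrable_norm_pow (by norm_num)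
  refine this.congr (Filter.Eventually.of_forall fun u => ?_)
  show ‖_‖ ^ 2 = ‖stepF s a L u‖ ^ 2
  rw [e u]

/-- the value of the step function on the part of the cell -/
private theorem stepF_eq {X H n v j : ℕ} (a : ℕ → ℂ) (hH : 1 ≤ H) (hX : 9 * H ≤ X)
    (hn : n ∈ Finset.Ico X (2 * X + H)) (hv : v ∈ Finset.Ioc H (3 * H))
    (hj : 12 * X * v / (2 * n + 1) = j) {u : ℝ}
    (hu : u ∈ Set.Icc (Real.log (n + 1 / 2)) (Real.log (n + 3 / 4))) :
    stepF (seg X (4 * X)) a (Real.log (1 + j / (6 * X))) u = ∑ m ∈ Finset.Ioc n (n + v), a m := by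
  rw [Finset.mem_Ico] at hn
  rw [Finset.mem_Ioc] at hv
  have hXpos : (0 : ℝ) < X := by
    have : 0 < X := by omega
    exact_mod_cast this
  have hn0 : (0 : ℝ) ≤ n := Nat.cast_nonneg n
  have hXn : (X : ℝ) ≤ n := by exact_mod_cast hn.1
  have hnX : (n : ℝ) + 1 ≤ 2 * X + H := by exact_mod_cast hn.2
  have hHX : 9 * (H : ℝ) ≤ X := by exact_mod_cast hX
  have hH0 : (1 : ℝ) ≤ H := by exact_mod_cast hH
  have hv1 : (H : ℝ) + 1 ≤ v := by exact_mod_cast hv.1
  have hv2 : (v : ℝ) ≤ 3 * H := by exact_mod_cast hv.2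
  -- bounds for j
  have hj1 : (j : ℝ) * (2 * n + 1) ≤ 12 * X * v := by
    have : j * (2 * n + 1) ≤ 12 * X * v := by
      rw [← hj]
      exact Nat.div_mul_le_self _ _
    exact_mod_cast this
  have hj2 : 12 * X * v < ((j : ℝ) + 1) * (2 * n + 1) := by
    have : 12 * X * v < (j + 1) * (2 * n + 1) := by
      have := Nat.lt_mul_div_succ (12 * X * v) (show 0 < 2 * n + 1 by omega)
      rw [hj] at this
      calc 12 * X * v < (2 * n + 1) * (j + 1) := this
        _ = (j + 1) * (2 * n + 1) := Nat.mul_comm _ _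
    exact_mod_cast this
  set σ : ℝ := 1 + j / (6 * X) with hσ
  have hσ1 : 1 ≤ σ := by
    rw [hσ]
    have : (0 : ℝ) ≤ j / (6 * X) := by positivity
    linarith
  have hσpos : 0 < σ := by linarith
  have hjX : (j : ℝ) = 6 * X * (σ - 1) := by
    rw [hσ]
    field_simp
    ring
  -- (n+1/2) σ ≤ n + 1/2 + v
  have hup : (n + 1 / 2) * σ ≤ n + 1 / 2 + v := by
    rw [hjX] at hj1
    have : 6 * X * ((σ - 1) * (2 * n + 1)) ≤ 6 * X * (2 * v) := by nlinarith
    have := le_of_mul_le_mul_left this (by positivity)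
    nlinarith
  have hlow : n + v < (n + 1 / 2) * σ := by
    rw [hjX] at hj2
    have h1 : 12 * X * v < 12 * X * ((σ - 1) * (n + 1 / 2)) + (2 * n + 1) := by nlinarith
    have h2 : 2 * (n : ℝ) + 1 ≤ 6 * X := by linarith
    have h3 : 12 * X * (v : ℝ) < 12 * X * ((σ - 1) * (n + 1 / 2) + 1 / 2) := by nlinarith
    have := lt_of_mul_lt_mul_left h3 (by positivity)
    nlinarith
  have hσ2 : σ ≤ 4 / 3 := by
    have h1 : (n : ℝ) * (σ - 1) ≤ v := by nlinarith
    have h2 : (X : ℝ) * (σ - 1) ≤ v := le_trans (mul_le_mul_of_nonneg_right hXn (by linarith)) h1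
    have h3 : (X : ℝ) * (σ - 1) ≤ X * (1 / 3) := by linarith
    have := le_of_mul_le_mul_left h3 hXpos
    linarith
  have hup2 : (n + 3 / 4) * σ < n + v + 1 := by nlinarith
  -- exp u
  obtain ⟨hu1, hu2⟩ := hu
  set x := Real.exp u with hx
  have hx1 : n + 1 / 2 ≤ x := by
    rw [hx, ← Real.log_le_iff_le_exp (by positivity)]
    exact hu1
  have hx2 : x ≤ n + 3 / 4 := by
    rw [hx, ← Real.le_log_iff_exp_le (by positivity)]
    exact hu2
  have hset : (seg (X : ℝ) (4 * X)).filter (fun m : ℕ => u < Real.log m ∧ Real.log m ≤ u + Real.log σ) =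
      Finset.Ioc n (n + v) := by
    ext m
    rw [Finset.mem_filter, Finset.mem_Ioc, mem_seg hXpos.le (by positivity)]
    constructor
    · rintro ⟨⟨h1, h2⟩, h3, h4⟩
      have hm : (0 : ℝ) < m := lt_trans hXpos h1
      rw [Real.lt_log_iff_exp_lt hm, ← hx] at h3
      have h5 : (n : ℝ) < m := by linarith
      have h6 : (m : ℝ) ≤ x * σ := by
        rw [← Real.log_le_log_iff hm (by positivity), Real.log_mul (by positivity) hσpos.ne',
          hx, Real.log_exp]
        exact h4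
      have h7 : (m : ℝ) < n + v + 1 := by nlinarith
      refine ⟨by exact_mod_cast h5, ?_⟩
      have : m < n + v + 1 := by exact_mod_cast h7
      omega
    · rintro ⟨h1, h2⟩
      have h1' : (n : ℝ) + 1 ≤ m := by exact_mod_cast h1
      have h2' : (m : ℝ) ≤ n + v := by exact_mod_cast h2
      have hm : (0 : ℝ) < m := by linarith
      refine ⟨⟨by linarith, by linarith⟩, ?_, ?_⟩
      · rw [Real.lt_log_iff_exp_lt hm, ← hx]
        linarith
      · have h6 : (m : ℝ) ≤ x * σ := by nlinarith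
        rw [← Real.log_le_log_iff hm (by positivity), Real.log_mul (by positivity) hσpos.ne',
          hx, Real.log_exp] at h6
        exact h6
  unfold stepF
  rw [hset]

private theorem shortInt_fiber {X H j : ℕ} (a : ℕ → ℂ) (hH : 1 ≤ H) (hX : 9 * H ≤ X) :
    ∑ p ∈ (Finset.Ico X (2 * X + H) ×ˢ Finset.Ioc H (3 * H)).filter
        (fun p : ℕ × ℕ => 12 * X * p.2 / (2 * p.1 + 1) = j),
        ‖∑ m ∈ Finset.Ioc p.1 (p.1 + p.2), a m‖ ^ 2 ≤
      9 * X * ∫ u : ℝ, ‖stepF (seg X (4 * X)) a (Real.log (1 + j / (6 * X))) u‖ ^ 2 := by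
  set P := (Finset.Ico X (2 * X + H) ×ˢ Finset.Ioc H (3 * H)).filter
        (fun p : ℕ × ℕ => 12 * X * p.2 / (2 * p.1 + 1) = j) with hP
  set f : ℝ → ℝ := fun u => ‖stepF (seg X (4 * X)) a (Real.log (1 + j / (6 * X))) u‖ ^ 2 with hf
  have hfi : Integrable f := stepF_integrable _ _ _
  have hf0 : ∀ u, 0 ≤ f u := fun u => by positivity
  have hXpos : (0 : ℝ) < X := by
    have : 0 < X := by omega
    exact_mod_cast this
  let U : ℕ × ℕ → Set ℝ := fun p => Set.Icc (Real.log (p.1 + 1 / 2)) (Real.log (p.1 + 3 / 4))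
  have hmemP : ∀ p ∈ P, p.1 ∈ Finset.Ico X (2 * X + H) ∧ p.2 ∈ Finset.Ioc H (3 * H) ∧
      12 * X * p.2 / (2 * p.1 + 1) = j := by
    intro p hp
    rw [hP, Finset.mem_filter, Finset.mem_product] at hp
    exact ⟨hp.1.1, hp.1.2, hp.2⟩
  have hne : ∀ p ∈ P, ∀ q ∈ P, p.1 = q.1 → p.2 < q.2 → False := by
    intro p hp q hq h1 h2
    obtain ⟨hp1, hp2, hp3⟩ := hmemP p hp
    obtain ⟨hq1, hq2, hq3⟩ := hmemP q hq
    rw [Finset.mem_Ico] at hp1
    have h3 : 12 * X * p.2 + 1 * (2 * p.1 + 1) ≤ 12 * X * q.2 := by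
      have : 12 * X * (p.2 + 1) ≤ 12 * X * q.2 := Nat.mul_le_mul_left _ h2
      have h4 : 12 * X * (p.2 + 1) = 12 * X * p.2 + 12 * X := by ring
      omega
    have h5 : (12 * X * p.2 + 1 * (2 * p.1 + 1)) / (2 * p.1 + 1) ≤ 12 * X * q.2 / (2 * p.1 + 1) :=
      Nat.div_le_div_right h3
    rw [Nat.add_mul_div_right _ _ (by omega), hp3] at h5
    rw [← h1] at hq3
    omega
  have hdisj : Set.Pairwise (↑P) (Function.onFun Disjoint U) := by
    intro p hp q hq hpq
    have h1 : p.1 ≠ q.1 := by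
      intro h
      rcases lt_trichotomy p.2 q.2 with h2 | h2 | h2
      · exact hne p hp q hq h h2
      · exact hpq (Prod.ext h h2)
      · exact hne q hq p hp h.symm h2
    have key : ∀ n m : ℕ, n < m → Real.log ((n : ℝ) + 3 / 4) < Real.log ((m : ℝ) + 1 / 2) := by
      intro n m hnm
      have : (n : ℝ) + 1 ≤ m := by exact_mod_cast hnm
      have hn0 : (0 : ℝ) ≤ n := Nat.cast_nonneg n
      exact Real.log_lt_log (by linarith) (by linarith)
    rw [Function.onFun, Set.disjoint_left]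
    rintro u ⟨hu1, hu2⟩ ⟨hu3, hu4⟩
    rcases lt_or_gt_of_ne h1 with h2 | h2
    · have := key _ _ h2
      linarith
    · have := key _ _ h2
      linarith
  have hU : ∀ p ∈ P, MeasurableSet (U p) := fun p _ => measurableSet_Icc
  have h1 : ∑ p ∈ P, ∫ u in U p, f u = ∫ u in ⋃ p ∈ P, U p, f u :=
    (integral_biUnion_finset P hU hdisj fun p _ => hfi.integrableOn).symm
  have h2 : ∫ u in ⋃ p ∈ P, U p, f u ≤ ∫ u, f u :=
    setIntegral_le_integral hfi (Filter.Eventually.of_forall hf0)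
  have h3 : ∀ p ∈ P, ‖∑ m ∈ Finset.Ioc p.1 (p.1 + p.2), a m‖ ^ 2 ≤ 9 * X * ∫ u in U p, f u := by
    intro p hp
    obtain ⟨hp1, hp2, hp3⟩ := hmemP p hp
    have e1 : ∫ u in U p, f u = ∫ u in U p, ‖∑ m ∈ Finset.Ioc p.1 (p.1 + p.2), a m‖ ^ 2 := by
      refine setIntegral_congr_fun measurableSet_Icc fun u hu => ?_
      show ‖stepF (seg X (4 * X)) a (Real.log (1 + j / (6 * X))) u‖ ^ 2 = _
      rw [stepF_eq a hH hX hp1 hp2 hp3 hu]
    rw [Finset.mem_Ico] at hp1
    have hn0 : (0 : ℝ) ≤ p.1 := Nat.cast_nonneg _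
    have hnX : (p.1 : ℝ) + 1 ≤ 2 * X + H := by exact_mod_cast hp1.2
    have hHX : 9 * (H : ℝ) ≤ X := by exact_mod_cast hX
    have hle : Real.log ((p.1 : ℝ) + 1 / 2) ≤ Real.log ((p.1 : ℝ) + 3 / 4) :=
      Real.log_le_log (by positivity) (by linarith)
    have hlen : 1 / (9 * X) ≤ Real.log ((p.1 : ℝ) + 3 / 4) - Real.log ((p.1 : ℝ) + 1 / 2) := by
      rw [← Real.log_div (by positivity) (by positivity)]
      refine le_trans ?_ (Real.one_sub_inv_le_log_of_pos (by positivity))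
      rw [inv_div]
      have e : 1 - ((p.1 : ℝ) + 1 / 2) / (p.1 + 3 / 4) = (1 / 4) / (p.1 + 3 / 4) := by
        field_simp
        ring
      rw [e, div_le_div_iff₀ (by positivity) (by positivity)]
      nlinarith
    have hvol : (volume : Measure ℝ).real (U p) = Real.log ((p.1 : ℝ) + 3 / 4) - Real.log ((p.1 : ℝ) + 1 / 2) := by
      show (volume : Measure ℝ).real (Set.Icc _ _) = _
      rw [Real.volume_real_Icc_of_le hle]
    rw [e1, setIntegral_const, hvol, smul_eq_mul]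
    set b := ‖∑ m ∈ Finset.Ioc p.1 (p.1 + p.2), a m‖ ^ 2 with hb
    have hb0 : 0 ≤ b := by positivity
    have : 1 ≤ 9 * X * (Real.log ((p.1 : ℝ) + 3 / 4) - Real.log ((p.1 : ℝ) + 1 / 2)) := by
      have := mul_le_mul_of_nonneg_left hlen (show (0 : ℝ) ≤ 9 * X by positivity)
      rwa [mul_one_div_cancel (by positivity)] at this
    calc b = 1 * b := (one_mul b).symm
      _ ≤ (9 * X * (Real.log ((p.1 : ℝ) + 3 / 4) - Real.log ((p.1 : ℝ) + 1 / 2))) * b :=
          mul_le_mul_of_nonneg_right this hb0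
      _ = _ := by ring
  calc ∑ p ∈ P, ‖∑ m ∈ Finset.Ioc p.1 (p.1 + p.2), a m‖ ^ 2
      ≤ ∑ p ∈ P, 9 * X * ∫ u in U p, f u := Finset.sum_le_sum h3
    _ = 9 * X * ∑ p ∈ P, ∫ u in U p, f u := by rw [Finset.mul_sum]
    _ ≤ 9 * X * ∫ u, f u := by
        rw [h1]
        exact mul_le_mul_of_nonneg_left h2 (by positivity)

private theorem shortInt_wt {X H : ℕ} (hH : 1 ≤ H) (hX : 9 * H ≤ X) {L : ℝ} (hL0 : 0 ≤ L)
    (hL : L ≤ 3 * H / X) (t : ℝ) :
    min (L ^ 2) (4 / t ^ 2) ≤ 9 * ((H : ℝ) / X) ^ 2 * wt ((X : ℝ) / H) t := by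
  have hXpos : (0 : ℝ) < X := by
    have : 0 < X := by omega
    exact_mod_cast this
  have hHpos : (0 : ℝ) < H := by exact_mod_cast hH
  unfold wt
  split_ifs with h
  · refine (min_le_left _ _).trans ?_
    rw [mul_one]
    calc L ^ 2 ≤ (3 * H / X) ^ 2 := pow_le_pow_left₀ hL0 hL 2
      _ = 9 * ((H : ℝ) / X) ^ 2 := by ring
  · refine (min_le_right _ _).trans ?_
    have ht : t ≠ 0 := by
      rintro rfl
      apply h
      rw [abs_zero]
      positivity
    have e : 9 * ((H : ℝ) / X) ^ 2 * ((X : ℝ) / H / t) ^ 2 = 9 / t ^ 2 := by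
      field_simp
    rw [e]
    have : (0 : ℝ) < t ^ 2 := by positivity
    gcongr
    norm_num

private theorem shortInt_int {X H : ℕ} (a : ℕ → ℂ) (s : Finset ℕ) (hH : 1 ≤ H) (hX : 9 * H ≤ X) :
    Integrable (fun t : ℝ => ‖dp s a t‖ ^ 2 * wt ((X : ℝ) / H) t) := by
  have hXpos : (0 : ℝ) < X := by
    have : 0 < X := by omega
    exact_mod_cast this
  have hHpos : (0 : ℝ) < H := by exact_mod_cast hH
  have h1 := (planch_integrable s a (2 * H / X)).const_mul (((X : ℝ) / H) ^ 2 / 4)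
  refine h1.congr ?_
  have hae : ∀ᵐ t : ℝ, t ≠ 0 := by
    have : ({0} : Set ℝ)ᶜ ∈ ae (volume : Measure ℝ) := by
      rw [mem_ae_iff, compl_compl]
      exact Real.volume_singleton
    exact this
  filter_upwards [hae] with t ht
  have key : min ((2 * (H : ℝ) / X) ^ 2) (4 / t ^ 2) = 4 * ((H : ℝ) / X) ^ 2 * wt ((X : ℝ) / H) t := by
    unfold wt
    have ht2 : (0 : ℝ) < t ^ 2 := by positivity
    split_ifs with h
    · rw [min_eq_left]
      · ring
      · rw [le_div_iff₀ ht2]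
        have : t ^ 2 ≤ ((X : ℝ) / H) ^ 2 := by
          rw [← sq_abs t]
          exact pow_le_pow_left₀ (abs_nonneg t) h 2
        calc (2 * (H : ℝ) / X) ^ 2 * t ^ 2 ≤ (2 * (H : ℝ) / X) ^ 2 * ((X : ℝ) / H) ^ 2 :=
              mul_le_mul_of_nonneg_left this (by positivity)
          _ = 4 := by
              field_simp
              norm_num
    · push Not at h
      rw [min_eq_right]
      · field_simp
      · rw [div_le_iff₀ ht2]
        have : ((X : ℝ) / H) ^ 2 ≤ t ^ 2 := by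
          rw [← sq_abs t]
          exact pow_le_pow_left₀ (by positivity) h.le 2
        calc (4 : ℝ) = (2 * (H : ℝ) / X) ^ 2 * ((X : ℝ) / H) ^ 2 := by
              field_simp
              norm_num
          _ ≤ (2 * (H : ℝ) / X) ^ 2 * t ^ 2 := mul_le_mul_of_nonneg_left this (by positivity)
  rw [key]
  field_simp

/-- Short interval sums against the Dirichlet polynomial (Saffari-Vaughan averaging). -/
theorem short_le : ∃ C : ℝ, 0 < C ∧ ∀ (X H : ℕ) (a : ℕ → ℂ), 1 ≤ H → 9 * H ≤ X →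
    ∑ n ∈ Finset.Ico X (2 * X), ‖∑ m ∈ Finset.Ioc n (n + H), a m‖ ^ 2 ≤
      C * ((H : ℝ) ^ 2 / X) * ∫ t : ℝ, ‖dp (seg X (4 * X)) a t‖ ^ 2 * wt ((X : ℝ) / H) t := by
  refine ⟨5832, by norm_num, ?_⟩
  intro X H a hH hX
  have hXpos : (0 : ℝ) < X := by
    have : 0 < X := by omega
    exact_mod_cast this
  have hHpos : (0 : ℝ) < H := by exact_mod_cast hH
  set s := seg (X : ℝ) (4 * X) with hs
  set I := ∫ t : ℝ, ‖dp s a t‖ ^ 2 * wt ((X : ℝ) / H) t with hI
  have havg := shortInt_avg X H a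
  set P := Finset.Ico X (2 * X + H) ×ˢ Finset.Ioc H (3 * H) with hP
  have hmaps : ∀ p ∈ P, 12 * X * p.2 / (2 * p.1 + 1) ∈ Finset.Icc 1 (18 * H) := by
    intro p hp
    rw [hP, Finset.mem_product, Finset.mem_Ico, Finset.mem_Ioc] at hp
    obtain ⟨⟨h1, h2⟩, h3, h4⟩ := hp
    rw [Finset.mem_Icc]
    constructor
    · apply Nat.div_pos _ (by omega)
      have : 12 * X * 1 ≤ 12 * X * p.2 := Nat.mul_le_mul_left _ (by omega)
      omega
    · apply Nat.div_le_of_le_mul
      calc 12 * X * p.2 ≤ 12 * X * (3 * H) := Nat.mul_le_mul_left _ h4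
        _ = (2 * X) * (18 * H) := by ring
        _ ≤ (2 * p.1 + 1) * (18 * H) := Nat.mul_le_mul_right _ (by omega)
  have hfib := Finset.sum_fiberwise_of_maps_to hmaps
    (fun p : ℕ × ℕ => ‖∑ m ∈ Finset.Ioc p.1 (p.1 + p.2), a m‖ ^ 2)
  rw [← hfib] at havg
  have hj : ∀ j ∈ Finset.Icc 1 (18 * H), ∑ p ∈ P.filter
        (fun p : ℕ × ℕ => 12 * X * p.2 / (2 * p.1 + 1) = j),
        ‖∑ m ∈ Finset.Ioc p.1 (p.1 + p.2), a m‖ ^ 2 ≤ 9 * X * (9 * ((H : ℝ) / X) ^ 2 * I) := by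
    intro j hj
    rw [Finset.mem_Icc] at hj
    refine (shortInt_fiber a hH hX).trans (mul_le_mul_of_nonneg_left ?_ (by positivity))
    have hjR : (1 : ℝ) ≤ j := by exact_mod_cast hj.1
    have hjR2 : (j : ℝ) ≤ 18 * H := by exact_mod_cast hj.2
    have hjpos : (0 : ℝ) < j / (6 * X) := by positivity
    have hL : 0 < Real.log (1 + (j : ℝ) / (6 * X)) := Real.log_pos (by linarith)
    have hL2 : Real.log (1 + (j : ℝ) / (6 * X)) ≤ 3 * H / X := by
      have h1 := Real.log_le_sub_one_of_pos (show 0 < 1 + (j : ℝ) / (6 * X) by positivity)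
      have h2 : (j : ℝ) / (6 * X) ≤ 3 * H / X := by
        rw [div_le_div_iff₀ (by positivity) hXpos]
        nlinarith
      linarith
    have h1 := planch_step s a hL (fun n hn => pos_of_mem_seg hn)
    refine le_trans h1 ?_
    have h2 : ∫ t : ℝ, ‖dp s a t‖ ^ 2 * min ((Real.log (1 + (j : ℝ) / (6 * X))) ^ 2) (4 / t ^ 2) ≤
        ∫ t : ℝ, 9 * ((H : ℝ) / X) ^ 2 * (‖dp s a t‖ ^ 2 * wt ((X : ℝ) / H) t) := by
      refine integral_mono (planch_integrable s a _) ((shortInt_int a s hH hX).const_mul _) fun t => ?_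
      have := shortInt_wt hH hX hL.le hL2 t
      have h3 := mul_le_mul_of_nonneg_left this (sq_nonneg ‖dp s a t‖)
      calc _ ≤ _ := h3
        _ = _ := by ring
    rw [integral_const_mul] at h2
    exact h2
  have hsum := Finset.sum_le_sum hj
  rw [Finset.sum_const, Nat.card_Icc, nsmul_eq_mul] at hsum
  have e : ((18 * H + 1 - 1 : ℕ) : ℝ) = 18 * H := by
    push_cast [Nat.add_sub_cancel]
    ring
  rw [e] at hsum
  have hfin : (H : ℝ) * ∑ n ∈ Finset.Ico X (2 * X), ‖∑ m ∈ Finset.Ioc n (n + H), a m‖ ^ 2 ≤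
      H * (5832 * ((H : ℝ) ^ 2 / X) * I) := by
    calc _ ≤ _ := havg
      _ ≤ 4 * (18 * H * (9 * X * (9 * ((H : ℝ) / X) ^ 2 * I))) :=
          mul_le_mul_of_nonneg_left hsum (by norm_num)
      _ = H * (5832 * ((H : ℝ) ^ 2 / X) * I) := by
          field_simp
          ring
  exact le_of_mul_le_mul_left hfin hHpos

end Pool.MP_67663b_nt.MR
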