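import Pool.Agent.Lib.MP_67663b_nt.MR.MeanG
import Pool.Agent.Lib.MP_67663b_nt.MR.ShortInt
import Pool.Agent.Lib.MP_67663b_nt.Odd.WordsDefs

set_option autoImplicit false
open Filter Topology MeasureTheory
namespace Pool.MP_67663b_nt.MR
open Pool.MP_67663b_nt.Odd

/-- Matomaki-Radziwill for the Liouville function (qualitative). -/
theorem mr_short {ε : ℝ} (hε : 0 < ε) : ∃ H0 : ℕ, 1 ≤ H0 ∧ ∀ H ≥ H0, ∃ X0 : ℕ, ∀ X ≥ X0,
    ∑ n ∈ Finset.Ico X (2 * X), (∑ m ∈ Finset.Ioc n (n + H), lam m) ^ 2 ≤ ε * (H : ℝ) ^ 2 * X := by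
  obtain ⟨C, hC, hsh⟩ := short_le
  obtain ⟨H1, hH1, hw⟩ := weighted_G (show 0 < ε / C by positivity)
  refine ⟨⌈H1⌉₊, ?_, fun H hH => ?_⟩
  · exact Nat.one_le_ceil_iff.mpr (by linarith)
  have hH1' : H1 ≤ (H : ℝ) := (Nat.le_ceil H1).trans (by exact_mod_cast hH)
  have hHr : (1 : ℝ) ≤ H := hH1.trans hH1'
  have hHn : 1 ≤ H := by exact_mod_cast hHr
  obtain ⟨X1, hX1⟩ := hw H hH1'
  refine ⟨max ⌈X1⌉₊ (9 * H), fun X hX => ?_⟩
  have hXX1 : X1 ≤ (X : ℝ) := (Nat.le_ceil X1).trans (by exact_mod_cast (le_max_left _ _).trans hX)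
  have hX9 : 9 * H ≤ X := (le_max_right _ _).trans hX
  have hXpos : (0 : ℝ) < X := by
    have : 0 < X := by omega
    exact_mod_cast this
  have h1 := hsh X H (fun m => (lam m : ℂ)) hHn hX9
  have h2 := hX1 X hXX1
  have e : ∀ n, ‖∑ m ∈ Finset.Ioc n (n + H), ((lam m : ℝ) : ℂ)‖ ^ 2 = (∑ m ∈ Finset.Ioc n (n + H), lam m) ^ 2 := by
    intro n
    rw [← Complex.ofReal_sum, Complex.norm_real, Real.norm_eq_abs, sq_abs]
  simp only [e] at h1
  refine h1.trans ?_
  unfold Gp at h2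
  calc C * ((H : ℝ) ^ 2 / X) * ∫ t : ℝ, ‖dp (seg X (4 * X)) (fun m => (lam m : ℂ)) t‖ ^ 2 * wt ((X : ℝ) / H) t
      ≤ C * ((H : ℝ) ^ 2 / X) * (ε / C * (X : ℝ) ^ 2) := by gcongr
    _ = _ := by field_simp

/-- first absolute moment on dyadic blocks -/
theorem MRShort_block {δ : ℝ} (hδ : 0 < δ) : ∃ H0 : ℕ, 1 ≤ H0 ∧ ∀ H ≥ H0, ∃ X0 : ℕ, 1 ≤ X0 ∧ ∀ X ≥ X0,
    ∑ n ∈ Finset.Ico X (2 * X), |av H n| ≤ δ * X := by
  obtain ⟨H0, hH0, hm⟩ := mr_short (show 0 < (δ / 2) ^ 2 by positivity)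
  refine ⟨H0, hH0, fun H hH => ?_⟩
  obtain ⟨X1, hX1⟩ := hm H hH
  refine ⟨max (max X1 1) ⌈2 * H / δ⌉₊, (le_max_right _ _).trans (le_max_left _ _), fun X hX => ?_⟩
  have hHpos : 0 < H := by omega
  have hHr : (0 : ℝ) < H := by exact_mod_cast hHpos
  have hXX1 : X1 ≤ X := ((le_max_left _ _).trans (le_max_left _ _)).trans hX
  have hX1n : 1 ≤ X := ((le_max_right _ _).trans (le_max_left _ _)).trans hX
  have hXr : (0 : ℝ) < X := by exact_mod_cast hX1n
  have hXH : (H : ℝ) ≤ δ / 2 * X := by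
    have h1 : 2 * H / δ ≤ (X : ℝ) := (Nat.le_ceil _).trans (by exact_mod_cast (le_max_right _ _).trans hX)
    rw [div_le_iff₀ hδ] at h1
    linarith
  have h1 := hX1 X hXX1
  -- Cauchy-Schwarz
  have hcs : (∑ n ∈ Finset.Ico X (2 * X), |∑ m ∈ Finset.Ioc n (n + H), lam m|) ≤ δ / 2 * H * X := by
    have h2 : (∑ n ∈ Finset.Ico X (2 * X), |∑ m ∈ Finset.Ioc n (n + H), lam m|) ^ 2 ≤ (δ / 2 * H * X) ^ 2 := by
      have h3 := sq_sum_le_card_mul_sum_sq (s := Finset.Ico X (2 * X)) (f := fun n => |∑ m ∈ Finset.Ioc n (n + H), lam m|)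
      rw [Nat.card_Ico] at h3
      have h4 : ((2 * X - X : ℕ) : ℝ) = X := by
        congr 1
        omega
      rw [h4] at h3
      simp only [sq_abs] at h3
      calc _ ≤ (X : ℝ) * ∑ n ∈ Finset.Ico X (2 * X), (∑ m ∈ Finset.Ioc n (n + H), lam m) ^ 2 := h3
        _ ≤ (X : ℝ) * ((δ / 2) ^ 2 * (H : ℝ) ^ 2 * X) := by gcongr
        _ = _ := by ring
    exact le_of_sq_le_sq h2 (by positivity)
  -- compare
  have hsplit : ∑ n ∈ Finset.Ico X (2 * X), |av H n| ≤ H + (1 / (H : ℝ)) *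
      ∑ n ∈ Finset.Ico X (2 * X), |∑ m ∈ Finset.Ioc n (n + H), lam m| := by
    have hsub : Finset.Ico X (2 * X) ⊆ Finset.Ico X (X + H) ∪ Finset.Ico (X + H) (2 * X + H) := by
      intro n hn
      rw [Finset.mem_Ico] at hn
      rw [Finset.mem_union, Finset.mem_Ico, Finset.mem_Ico]
      omega
    have hdisj : Disjoint (Finset.Ico X (X + H)) (Finset.Ico (X + H) (2 * X + H)) :=
      Finset.Ico_disjoint_Ico_consecutive _ _ _
    calc ∑ n ∈ Finset.Ico X (2 * X), |av H n|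
        ≤ ∑ n ∈ Finset.Ico X (X + H) ∪ Finset.Ico (X + H) (2 * X + H), |av H n| :=
          Finset.sum_le_sum_of_subset_of_nonneg hsub fun _ _ _ => abs_nonneg _
      _ = (∑ n ∈ Finset.Ico X (X + H), |av H n|) + ∑ n ∈ Finset.Ico (X + H) (2 * X + H), |av H n| :=
          Finset.sum_union hdisj
      _ ≤ H + (1 / (H : ℝ)) * ∑ n ∈ Finset.Ico X (2 * X), |∑ m ∈ Finset.Ioc n (n + H), lam m| := by
          refine add_le_add ?_ (le_of_eq ?_)
          · calc (∑ n ∈ Finset.Ico X (X + H), |av H n|) ≤ ∑ n ∈ Finset.Ico X (X + H), (1 : ℝ) :=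
                  Finset.sum_le_sum fun n _ => abs_av_le _ _
              _ = H := by simp
          · rw [← Finset.sum_Ico_add' (fun n => |av H n|) X (2 * X) H, Finset.mul_sum]
            refine Finset.sum_congr rfl fun n _ => ?_
            unfold av
            rw [abs_mul, abs_of_pos (by positivity : (0 : ℝ) < 1 / H)]
            congr 2
            refine Finset.sum_nbij' (i := fun s => n + H - s) (j := fun m => n + H - m) ?_ ?_ ?_ ?_ ?_
            · intro s hs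
              rw [Finset.mem_range] at hs
              rw [Finset.mem_Ioc]
              omega
            · intro m hm
              rw [Finset.mem_Ioc] at hm
              rw [Finset.mem_range]
              omega
            · intro s hs
              rw [Finset.mem_range] at hs
              show n + H - (n + H - s) = s
              omega
            · intro m hm
              rw [Finset.mem_Ioc] at hm
              show n + H - (n + H - m) = m
              omega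
            · intro s _
              rfl
  have h5 : (1 / (H : ℝ)) * (δ / 2 * H * X) = δ / 2 * X := by field_simp
  have h6 : (1 / (H : ℝ)) * ∑ n ∈ Finset.Ico X (2 * X), |∑ m ∈ Finset.Ioc n (n + H), lam m| ≤
      (1 / (H : ℝ)) * (δ / 2 * H * X) := by gcongr
  linarith

theorem MRShort_dyadic (g : ℕ → ℝ) (hg0 : ∀ n, 0 ≤ g n) {δ : ℝ} {X0 : ℕ} (hX0 : 1 ≤ X0)
    (h : ∀ X ≥ X0, ∑ n ∈ Finset.Ico X (2 * X), g n ≤ δ * X) (k : ℕ) :
    ∑ n ∈ Finset.Ico 1 (2 ^ k * X0), (1 / (n : ℝ)) * g n ≤ ∑ n ∈ Finset.Ico 1 X0, (1 / (n : ℝ)) * g n + k * δ := by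
  induction k with
  | zero => simp
  | succ k ih =>
    have h1 : 1 ≤ 2 ^ k * X0 := Nat.one_le_iff_ne_zero.mpr (by positivity)
    have h2 : 2 ^ k * X0 ≤ 2 ^ (k + 1) * X0 := by
      rw [pow_succ]
      nlinarith
    rw [← Finset.sum_Ico_consecutive _ h1 h2]
    have hY : X0 ≤ 2 ^ k * X0 := Nat.le_mul_of_pos_left _ (by positivity)
    have e : 2 ^ (k + 1) * X0 = 2 * (2 ^ k * X0) := by ring
    set Y := 2 ^ k * X0 with hYd
    have hYr : (0 : ℝ) < Y := by exact_mod_cast h1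
    have h3 : ∑ n ∈ Finset.Ico Y (2 ^ (k + 1) * X0), (1 / (n : ℝ)) * g n ≤ δ := by
      rw [e]
      calc ∑ n ∈ Finset.Ico Y (2 * Y), (1 / (n : ℝ)) * g n ≤ ∑ n ∈ Finset.Ico Y (2 * Y), (1 / (Y : ℝ)) * g n := by
            refine Finset.sum_le_sum fun n hn => ?_
            rw [Finset.mem_Ico] at hn
            have : (Y : ℝ) ≤ n := by exact_mod_cast hn.1
            have := hg0 n
            gcongr
        _ = (1 / (Y : ℝ)) * ∑ n ∈ Finset.Ico Y (2 * Y), g n := by rw [Finset.mul_sum]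
        _ ≤ (1 / (Y : ℝ)) * (δ * Y) := by
            have := h Y hY
            gcongr
        _ = δ := by field_simp
    push_cast
    linarith

/-- Logarithmic average of the short averages. -/
theorem log_av {ε : ℝ} (hε : 0 < ε) : ∃ H0 : ℕ, 1 ≤ H0 ∧ ∀ H ≥ H0, ∀ᶠ N in atTop,
    logMean (fun n => |av H n|) N ≤ ε := by
  obtain ⟨H0, hH0, hb⟩ := MRShort_block (show 0 < ε / 4 by positivity)
  refine ⟨H0, hH0, fun H hH => ?_⟩
  obtain ⟨X0, hX0, hX⟩ := hb H hH
  set C0 : ℝ := ∑ n ∈ Finset.Ico 1 X0, (1 / (n : ℝ)) * |av H n| with hC0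
  have hlog : Tendsto (fun N : ℕ => Real.log (N : ℝ)) atTop atTop :=
    Real.tendsto_log_atTop.comp tendsto_natCast_atTop_atTop
  filter_upwards [hlog.eventually_ge_atTop (2 * (C0 + ε / 4) / ε), eventually_ge_atTop 2] with N hN1 hN2
  have hlN : 0 < Real.log (N : ℝ) := Real.log_pos (by exact_mod_cast (by omega : 1 < N))
  set k := Nat.log 2 N + 1 with hk
  have hNk : N < 2 ^ k := Nat.lt_pow_succ_log_self (by norm_num) N
  have hsub : Finset.Icc 1 N ⊆ Finset.Ico 1 (2 ^ k * X0) := by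
    intro n hn
    rw [Finset.mem_Icc] at hn
    rw [Finset.mem_Ico]
    refine ⟨hn.1, lt_of_le_of_lt hn.2 (lt_of_lt_of_le hNk (Nat.le_mul_of_pos_right _ hX0))⟩
  have h1 := MRShort_dyadic (fun n => |av H n|) (fun n => abs_nonneg _) hX0 hX k
  have h2 : ∑ n ∈ Finset.Icc 1 N, (1 / (n : ℝ)) * |av H n| ≤ C0 + k * (ε / 4) :=
    (Finset.sum_le_sum_of_subset_of_nonneg hsub fun n _ _ => by positivity).trans h1
  have hl2 : 0 < Real.log 2 := Real.log_pos (by norm_num)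
  have h3 : (Nat.log 2 N : ℝ) * Real.log 2 ≤ Real.log N := by
    rw [← Real.log_pow]
    apply Real.log_le_log (by positivity)
    exact_mod_cast Nat.pow_log_le_self 2 (by omega)
  have h4 : (Nat.log 2 N : ℝ) ≤ 2 * Real.log N := by
    have h5 := Real.log_two_gt_d9
    have h6 : (0 : ℝ) ≤ Nat.log 2 N := Nat.cast_nonneg _
    nlinarith
  have h7 : (k : ℝ) = Nat.log 2 N + 1 := by
    rw [hk]
    push_cast
    ring
  have h8 : C0 + ε / 4 ≤ Real.log N * (ε / 2) := by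
    rw [div_le_iff₀ hε] at hN1
    linarith
  have h9 : ∑ n ∈ Finset.Icc 1 N, (1 / (n : ℝ)) * |av H n| ≤ Real.log N * ε := by
    rw [h7] at h2
    nlinarith
  unfold logMean
  calc (1 / Real.log (N : ℝ)) * ∑ n ∈ Finset.Icc 1 N, (1 / (n : ℝ)) * |av H n|
      ≤ (1 / Real.log (N : ℝ)) * (Real.log N * ε) := by gcongr
    _ = ε := by field_simp

end Pool.MP_67663b_nt.MR
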