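import Pool.Agent.Lib.MP_67663b_nt.MR.MDefs

set_option autoImplicit false
open Filter Topology MeasureTheory
namespace Pool.MP_67663b_nt.MR
open Pool.MP_67663b_nt.Odd

private lemma mvt_exp_le (x : ℝ) (hx : 0 ≤ x) : Real.exp (-x ^ 2) ≤ 2 / (1 + x) ^ 2 := by
  rw [Real.exp_neg, inv_eq_one_div, div_le_div_iff₀ (Real.exp_pos _) (by positivity)]
  have := Real.add_one_le_exp (x ^ 2)
  nlinarith [sq_nonneg (x - 1)]

private lemma mvt_sum_le (c : ℝ) (hc : 0 < c) (K : ℕ) :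
    ∑ k ∈ Finset.range K, Real.exp (-(c * ((k : ℝ) + 1)) ^ 2) ≤ 2 / c * (1 - 1 / (1 + c * K)) := by
  induction K with
  | zero => simp
  | succ K ih =>
    rw [Finset.sum_range_succ]
    have h1 : Real.exp (-(c * ((K : ℝ) + 1)) ^ 2) ≤ 2 / (1 + c * ((K : ℝ) + 1)) ^ 2 :=
      mvt_exp_le _ (by positivity)
    have hK : (0 : ℝ) ≤ K := Nat.cast_nonneg K
    have a1 : 0 < 1 + c * (K : ℝ) := by positivity
    have a2 : 0 < 1 + c * ((K : ℝ) + 1) := by positivity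
    have h2 : 2 / (1 + c * ((K : ℝ) + 1)) ^ 2 ≤
        2 / c * (1 / (1 + c * K) - 1 / (1 + c * ((K : ℝ) + 1))) := by
      have e : 2 / c * (1 / (1 + c * K) - 1 / (1 + c * ((K : ℝ) + 1))) =
          2 / ((1 + c * K) * (1 + c * ((K : ℝ) + 1))) := by
        field_simp
        ring
      rw [e, sq]
      apply div_le_div_of_nonneg_left (by norm_num) (mul_pos a1 a2)
      apply mul_le_mul_of_nonneg_right _ a2.le
      nlinarith
    push_cast
    have e3 : 2 / c * (1 - 1 / (1 + c * ((K : ℝ) + 1))) = 2 / c * (1 - 1 / (1 + c * K)) +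
        2 / c * (1 / (1 + c * K) - 1 / (1 + c * ((K : ℝ) + 1))) := by ring
    rw [e3]
    linarith

private lemma mvt_sum_le' (c : ℝ) (hc : 0 < c) (K : ℕ) :
    ∑ k ∈ Finset.range K, Real.exp (-(c * ((k : ℝ) + 1)) ^ 2) ≤ 2 / c := by
  refine (mvt_sum_le c hc K).trans ?_
  have h1 : 0 ≤ 1 / (1 + c * (K : ℝ)) := by positivity
  have h2 : 0 < 2 / c := by positivity
  nlinarith

private lemma mvt_row (c : ℝ) (hc : 0 < c) (N m : ℕ) :
    ∑ n ∈ Finset.Icc 1 N, Real.exp (-(c * ((m : ℝ) - n)) ^ 2) ≤ 1 + 4 / c := by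
  have h1 : Finset.Icc 1 N ⊆ Finset.range (m + 1 + N) := by
    intro n hn
    rw [Finset.mem_Icc] at hn
    rw [Finset.mem_range]
    omega
  refine (Finset.sum_le_sum_of_subset_of_nonneg h1 fun _ _ _ => (Real.exp_pos _).le).trans ?_
  rw [Finset.sum_range_add]
  have h2 : ∑ n ∈ Finset.range (m + 1), Real.exp (-(c * ((m : ℝ) - n)) ^ 2) ≤ 1 + 2 / c := by
    rw [← Finset.sum_range_reflect, Finset.sum_range_succ']
    have e0 : Real.exp (-(c * ((m : ℝ) - ((m + 1 - 1 - 0 : ℕ) : ℝ))) ^ 2) = 1 := by simp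
    rw [e0, add_comm]
    apply add_le_add_right
    refine le_trans (le_of_eq ?_) (mvt_sum_le' c hc m)
    apply Finset.sum_congr rfl
    intro k hk
    rw [Finset.mem_range] at hk
    have : (m : ℝ) - ((m + 1 - 1 - (k + 1) : ℕ) : ℝ) = k + 1 := by
      have h3 : m + 1 - 1 - (k + 1) = m - (k + 1) := by omega
      rw [h3, Nat.cast_sub (by omega)]
      push_cast
      ring
    rw [this]
  have h3 : ∑ k ∈ Finset.range N, Real.exp (-(c * ((m : ℝ) - ((m + 1 + k : ℕ) : ℝ))) ^ 2) ≤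
      2 / c := by
    refine le_trans (le_of_eq ?_) (mvt_sum_le' c hc N)
    apply Finset.sum_congr rfl
    intro k _
    congr 1
    push_cast
    ring
  have e : 4 / c = 2 / c + 2 / c := by ring
  rw [e]
  linarith

private lemma mvt_log {N m n : ℕ} (hm : m ∈ Finset.Icc 1 N) (hn : n ∈ Finset.Icc 1 N) :
    |(m : ℝ) - n| / N ≤ |Real.log m - Real.log n| := by
  rw [Finset.mem_Icc] at hm hn
  have key : ∀ a b : ℕ, 1 ≤ a → a ≤ b → b ≤ N → ((b : ℝ) - a) / N ≤ Real.log b - Real.log a := by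
    intro a b ha hab hb
    have ha' : (0 : ℝ) < a := by exact_mod_cast ha
    have hb' : (0 : ℝ) < b := by exact_mod_cast (by omega : 0 < b)
    have h1 := Real.one_sub_inv_le_log_of_pos (x := (b : ℝ) / a) (by positivity)
    rw [Real.log_div hb'.ne' ha'.ne', inv_div] at h1
    have h2 : ((b : ℝ) - a) / N ≤ ((b : ℝ) - a) / b := by
      apply div_le_div_of_nonneg_left _ hb' (by exact_mod_cast hb)
      have : (a : ℝ) ≤ b := by exact_mod_cast hab
      linarith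
    have h3 : ((b : ℝ) - a) / b = 1 - a / b := by field_simp
    linarith
  rcases le_total m n with h | h
  · have h1 := key m n hm.1 h hn.2
    have h2 : (m : ℝ) ≤ n := by exact_mod_cast h
    rw [abs_sub_comm, abs_of_nonneg (by linarith), abs_sub_comm]
    exact h1.trans (le_abs_self _)
  · have h1 := key n m hn.1 h hm.2
    have h2 : (n : ℝ) ≤ m := by exact_mod_cast h
    rw [abs_of_nonneg (by linarith)]
    exact h1.trans (le_abs_self _)

private lemma mvt_fourier (T : ℝ) (hT : 1 ≤ T) (y : ℝ) :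
    ‖∫ t : ℝ, Complex.exp (Complex.I * (y : ℂ) * t) * Complex.exp (-((T ^ 2 : ℝ)⁻¹ : ℂ) * t ^ 2)‖ ≤
      2 * T * Real.exp (-(T * y / 2) ^ 2) := by
  have hT0 : 0 < T := by linarith
  have hb : 0 < ((((T ^ 2 : ℝ)⁻¹ : ℝ) : ℂ)).re := by
    rw [Complex.ofReal_re]; positivity
  have h1 := fourierIntegral_gaussian hb (y : ℂ)
  rw [Complex.ofReal_inv] at h1
  rw [h1, norm_mul]
  have h2 : ‖((Real.pi : ℂ) / ((T ^ 2 : ℝ) : ℂ)⁻¹) ^ (1 / 2 : ℂ)‖ ≤ 2 * T := by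
    have e : (Real.pi : ℂ) / ((T ^ 2 : ℝ) : ℂ)⁻¹ = ((Real.pi * T ^ 2 : ℝ) : ℂ) := by
      push_cast; rw [div_inv_eq_mul]
    rw [e, Complex.norm_cpow_eq_rpow_re_of_pos (by positivity)]
    have e2 : ((1 / 2 : ℂ)).re = 1 / 2 := by norm_num
    rw [e2, ← Real.sqrt_eq_rpow]
    apply Real.sqrt_le_iff.2
    refine ⟨by positivity, ?_⟩
    nlinarith [Real.pi_le_four, sq_nonneg T, Real.pi_pos]
  have h3 : ‖Complex.exp (-(y : ℂ) ^ 2 / (4 * ((T ^ 2 : ℝ) : ℂ)⁻¹))‖ = Real.exp (-(T * y / 2) ^ 2) := by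
    have e : -(y : ℂ) ^ 2 / (4 * ((T ^ 2 : ℝ) : ℂ)⁻¹) = ((-(T * y / 2) ^ 2 : ℝ) : ℂ) := by
      push_cast
      have : (T : ℂ) ≠ 0 := by exact_mod_cast hT0.ne'
      field_simp
      ring
    rw [e, Complex.norm_exp_ofReal]
  rw [h3]
  exact mul_le_mul_of_nonneg_right h2 (Real.exp_pos _).le

private lemma mvt_int (T : ℝ) (hT : 1 ≤ T) (m n : ℕ) :
    Integrable (fun t : ℝ => (Real.exp (-(T ^ 2)⁻¹ * t ^ 2) : ℂ) *
      (ep t m * (starRingEnd ℂ) (ep t n))) := by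
  have h1 := integrable_exp_neg_mul_sq (b := (T ^ 2)⁻¹) (by positivity)
  refine h1.mono' ?_ ?_
  · apply Continuous.aestronglyMeasurable
    have := continuous_ep m
    have := continuous_ep n
    fun_prop
  · refine Eventually.of_forall fun t => ?_
    rw [norm_mul, norm_mul, RCLike.norm_conj, norm_ep, norm_ep, mul_one, mul_one, Complex.norm_real,
      Real.norm_eq_abs, abs_of_pos (Real.exp_pos _)]

private lemma mvt_int_le (T : ℝ) (hT : 1 ≤ T) {N m n : ℕ} (hm : m ∈ Finset.Icc 1 N)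
    (hn : n ∈ Finset.Icc 1 N) :
    ‖∫ t : ℝ, (Real.exp (-(T ^ 2)⁻¹ * t ^ 2) : ℂ) * (ep t m * (starRingEnd ℂ) (ep t n))‖ ≤
      2 * T * Real.exp (-(T / (2 * N) * ((m : ℝ) - n)) ^ 2) := by
  have e : ∀ t : ℝ, (Real.exp (-(T ^ 2)⁻¹ * t ^ 2) : ℂ) * (ep t m * (starRingEnd ℂ) (ep t n)) =
      Complex.exp (Complex.I * ((Real.log n - Real.log m : ℝ) : ℂ) * t) *
        Complex.exp (-((T ^ 2 : ℝ)⁻¹ : ℂ) * t ^ 2) := by
    intro t
    rw [← ep_neg, mul_comm]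
    congr 1
    · unfold ep
      rw [← Complex.exp_add]
      congr 1
      push_cast
      ring
    · rw [Complex.ofReal_exp]
      congr 1
      push_cast
      ring
  simp only [e]
  refine (mvt_fourier T hT _).trans ?_
  apply mul_le_mul_of_nonneg_left _ (by linarith)
  apply Real.exp_le_exp.2
  have h1 := mvt_log hm hn
  have hN : (0 : ℝ) < N := by
    rw [Finset.mem_Icc] at hm
    exact_mod_cast (by omega : 0 < N)
  have h2 : (((m : ℝ) - n) / N) ^ 2 ≤ (Real.log n - Real.log m) ^ 2 := by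
    rw [sq_le_sq, abs_div, abs_of_pos hN, abs_sub_comm (Real.log n)]
    exact h1
  have e1 : (T / (2 * N) * ((m : ℝ) - n)) ^ 2 = T ^ 2 / 4 * (((m : ℝ) - n) / N) ^ 2 := by
    field_simp
    ring
  have e2 : (T * (Real.log n - Real.log m) / 2) ^ 2 =
      T ^ 2 / 4 * (Real.log n - Real.log m) ^ 2 := by ring
  rw [neg_le_neg_iff, e1, e2]
  exact mul_le_mul_of_nonneg_left h2 (by positivity)

/-- Mean value theorem for Dirichlet polynomials. Proof: `1_[-T,T](t) ≤ e * exp(-t²/T²)`, expand the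
square, `∫ exp(-t²/T²) exp(-ity) dt = √π T exp(-T²y²/4)`, `|log m - log n| ≥ |m-n|/N`, and
`|a_m a_n| ≤ (|a_m|²+|a_n|²)/2`, `∑_n exp(-T²(m-n)²/(4N²)) ≤ 1 + C N/T`. -/
theorem mvt : ∃ C : ℝ, 0 < C ∧ ∀ (N : ℕ) (s : Finset ℕ) (a : ℕ → ℂ) (T : ℝ), 1 ≤ T →
    s ⊆ Finset.Icc 1 N →
    ∫ t in (-T)..T, ‖dp s a t‖ ^ 2 ≤ C * (T + N) * ∑ n ∈ s, ‖a n‖ ^ 2 := by
  refine ⟨16 * Real.exp 1, by positivity, fun N s a T hT hs => ?_⟩
  have hT0 : 0 < T := by linarith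
  have hcs : Continuous (fun t => ‖dp s a t‖ ^ 2) := (continuous_dp s a).norm.pow 2
  have hw : Integrable (fun t : ℝ => Real.exp (-(T ^ 2)⁻¹ * t ^ 2) * ‖dp s a t‖ ^ 2) := by
    have h1 := integrable_exp_neg_mul_sq (b := (T ^ 2)⁻¹) (by positivity)
    refine (h1.mul_const ((∑ n ∈ s, ‖a n‖) ^ 2)).mono' ?_ ?_
    · apply Continuous.aestronglyMeasurable
      fun_prop
    · refine Eventually.of_forall fun t => ?_
      rw [norm_mul, Real.norm_eq_abs, abs_of_pos (Real.exp_pos _), Real.norm_eq_abs,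
        abs_of_nonneg (by positivity)]
      apply mul_le_mul_of_nonneg_left _ (Real.exp_pos _).le
      exact pow_le_pow_left₀ (norm_nonneg _) (norm_dp_le s a t) 2
  -- compare with the Gaussian weight
  have h1 : ∫ t in (-T)..T, ‖dp s a t‖ ^ 2 ≤
      Real.exp 1 * ∫ t : ℝ, Real.exp (-(T ^ 2)⁻¹ * t ^ 2) * ‖dp s a t‖ ^ 2 := by
    rw [← integral_const_mul, intervalIntegral.integral_of_le (by linarith)]
    refine le_trans (setIntegral_mono_on (hcs.integrableOn_Ioc) (hw.const_mul _).integrableOn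
      measurableSet_Ioc fun t ht => ?_) (setIntegral_le_integral (hw.const_mul _)
        (Eventually.of_forall fun t => by positivity))
    rw [← mul_assoc, ← Real.exp_add]
    have h2 : 1 ≤ Real.exp (1 + -(T ^ 2)⁻¹ * t ^ 2) := by
      apply Real.one_le_exp
      have h3 : t ^ 2 ≤ T ^ 2 := by
        rw [sq_le_sq, abs_of_pos hT0, abs_le]
        exact ⟨ht.1.le, ht.2⟩
      have h4 : (T ^ 2)⁻¹ * t ^ 2 ≤ 1 := by
        rw [inv_mul_le_iff₀ (by positivity)]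
        linarith
      linarith
    nlinarith [sq_nonneg (‖dp s a t‖)]
  -- expand
  have h2 : ∫ t : ℝ, Real.exp (-(T ^ 2)⁻¹ * t ^ 2) * ‖dp s a t‖ ^ 2 ≤
      ∑ m ∈ s, ∑ n ∈ s, ‖a m‖ * ‖a n‖ *
        (2 * T * Real.exp (-(T / (2 * N) * ((m : ℝ) - n)) ^ 2)) := by
    have e1 : ((∫ t : ℝ, Real.exp (-(T ^ 2)⁻¹ * t ^ 2) * ‖dp s a t‖ ^ 2 : ℝ) : ℂ) =
        ∑ m ∈ s, ∑ n ∈ s, a m * (starRingEnd ℂ) (a n) *
          ∫ t : ℝ, (Real.exp (-(T ^ 2)⁻¹ * t ^ 2) : ℂ) * (ep t m * (starRingEnd ℂ) (ep t n)) := by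
      rw [← integral_complex_ofReal]
      have e2 : ∀ t : ℝ, ((Real.exp (-(T ^ 2)⁻¹ * t ^ 2) * ‖dp s a t‖ ^ 2 : ℝ) : ℂ) =
          ∑ m ∈ s, ∑ n ∈ s, a m * (starRingEnd ℂ) (a n) *
            ((Real.exp (-(T ^ 2)⁻¹ * t ^ 2) : ℂ) * (ep t m * (starRingEnd ℂ) (ep t n))) := by
        intro t
        have e3 : ((‖dp s a t‖ ^ 2 : ℝ) : ℂ) = dp s a t * (starRingEnd ℂ) (dp s a t) := by
          rw [Complex.mul_conj, Complex.normSq_eq_norm_sq]
        rw [Complex.ofReal_mul, e3]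
        unfold dp
        rw [map_sum, Finset.sum_mul_sum, Finset.mul_sum]
        apply Finset.sum_congr rfl
        intro m _
        rw [Finset.mul_sum]
        apply Finset.sum_congr rfl
        intro n _
        rw [map_mul]
        ring
      simp only [e2]
      rw [integral_finsetSum _ fun m _ => integrable_finsetSum _ fun n _ =>
        (mvt_int T hT m n).const_mul _]
      apply Finset.sum_congr rfl
      intro m _
      rw [integral_finsetSum _ fun n _ => (mvt_int T hT m n).const_mul _]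
      apply Finset.sum_congr rfl
      intro n _
      rw [integral_const_mul]
    have h3 : ∫ t : ℝ, Real.exp (-(T ^ 2)⁻¹ * t ^ 2) * ‖dp s a t‖ ^ 2 =
        ‖((∫ t : ℝ, Real.exp (-(T ^ 2)⁻¹ * t ^ 2) * ‖dp s a t‖ ^ 2 : ℝ) : ℂ)‖ := by
      rw [Complex.norm_real, Real.norm_eq_abs, abs_of_nonneg]
      exact integral_nonneg fun t => by positivity
    rw [h3, e1]
    refine (norm_sum_le _ _).trans (Finset.sum_le_sum fun m hm => ?_)
    refine (norm_sum_le _ _).trans (Finset.sum_le_sum fun n hn => ?_)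
    rw [norm_mul, norm_mul, RCLike.norm_conj]
    exact mul_le_mul_of_nonneg_left (mvt_int_le T hT (hs hm) (hs hn)) (by positivity)
  rcases Nat.eq_zero_or_pos N with rfl | hN
  · have hs0 : s = ∅ := by
      rw [← Finset.subset_empty]; simpa using hs
    subst hs0
    simp [dp]
  have hN' : (0 : ℝ) < N := by exact_mod_cast hN
  -- symmetrise
  have h3 : ∑ m ∈ s, ∑ n ∈ s, ‖a m‖ * ‖a n‖ *
        (2 * T * Real.exp (-(T / (2 * N) * ((m : ℝ) - n)) ^ 2)) ≤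
      2 * T * ∑ m ∈ s, ‖a m‖ ^ 2 * (1 + 4 / (T / (2 * N))) := by
    have h4 : ∀ m ∈ s, ∀ n ∈ s, ‖a m‖ * ‖a n‖ *
        (2 * T * Real.exp (-(T / (2 * N) * ((m : ℝ) - n)) ^ 2)) ≤
        T * (‖a m‖ ^ 2 * Real.exp (-(T / (2 * N) * ((m : ℝ) - n)) ^ 2)) +
        T * (‖a n‖ ^ 2 * Real.exp (-(T / (2 * N) * ((n : ℝ) - m)) ^ 2)) := by
      intro m _ n _
      have e1 : (-(T / (2 * N) * ((n : ℝ) - m)) ^ 2) = (-(T / (2 * N) * ((m : ℝ) - n)) ^ 2) := by
        ring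
      rw [e1]
      have h5 : ‖a m‖ * ‖a n‖ * 2 ≤ ‖a m‖ ^ 2 + ‖a n‖ ^ 2 := by
        nlinarith [sq_nonneg (‖a m‖ - ‖a n‖)]
      have h6 : 0 ≤ T * Real.exp (-(T / (2 * N) * ((m : ℝ) - n)) ^ 2) := by positivity
      nlinarith [mul_le_mul_of_nonneg_right h5 h6]
    have h5 : ∑ m ∈ s, ∑ n ∈ s, ‖a m‖ ^ 2 * Real.exp (-(T / (2 * N) * ((m : ℝ) - n)) ^ 2) ≤
        ∑ m ∈ s, ‖a m‖ ^ 2 * (1 + 4 / (T / (2 * N))) := by
      apply Finset.sum_le_sum
      intro m _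
      rw [← Finset.mul_sum]
      apply mul_le_mul_of_nonneg_left _ (by positivity)
      refine le_trans (Finset.sum_le_sum_of_subset_of_nonneg hs fun _ _ _ =>
        (Real.exp_pos _).le) (mvt_row _ (by positivity) N m)
    calc ∑ m ∈ s, ∑ n ∈ s, ‖a m‖ * ‖a n‖ *
        (2 * T * Real.exp (-(T / (2 * N) * ((m : ℝ) - n)) ^ 2))
        ≤ ∑ m ∈ s, ∑ n ∈ s, (T * (‖a m‖ ^ 2 * Real.exp (-(T / (2 * N) * ((m : ℝ) - n)) ^ 2)) +
        T * (‖a n‖ ^ 2 * Real.exp (-(T / (2 * N) * ((n : ℝ) - m)) ^ 2))) :=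
          Finset.sum_le_sum fun m hm => Finset.sum_le_sum fun n hn => h4 m hm n hn
      _ = T * (∑ m ∈ s, ∑ n ∈ s, ‖a m‖ ^ 2 * Real.exp (-(T / (2 * N) * ((m : ℝ) - n)) ^ 2)) +
          T * (∑ m ∈ s, ∑ n ∈ s, ‖a n‖ ^ 2 * Real.exp (-(T / (2 * N) * ((n : ℝ) - m)) ^ 2)) := by
          simp only [Finset.sum_add_distrib, Finset.mul_sum]
      _ = T * (∑ m ∈ s, ∑ n ∈ s, ‖a m‖ ^ 2 * Real.exp (-(T / (2 * N) * ((m : ℝ) - n)) ^ 2)) +
          T * (∑ m ∈ s, ∑ n ∈ s, ‖a m‖ ^ 2 * Real.exp (-(T / (2 * N) * ((m : ℝ) - n)) ^ 2)) := by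
          congr 2
          rw [Finset.sum_comm]
      _ ≤ _ := by nlinarith
  have h4 : 2 * T * (1 + 4 / (T / (2 * N))) ≤ 16 * (T + N) := by
    have e : 2 * T * (1 + 4 / (T / (2 * N))) = 2 * T + 16 * N := by
      field_simp
      ring
    rw [e]
    linarith
  calc ∫ t in (-T)..T, ‖dp s a t‖ ^ 2
      ≤ Real.exp 1 * (2 * T * ∑ m ∈ s, ‖a m‖ ^ 2 * (1 + 4 / (T / (2 * N)))) :=
        h1.trans (mul_le_mul_of_nonneg_left (h2.trans h3) (Real.exp_pos _).le)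
    _ = Real.exp 1 * (2 * T * (1 + 4 / (T / (2 * N)))) * ∑ m ∈ s, ‖a m‖ ^ 2 := by
        rw [← Finset.sum_mul]; ring
    _ ≤ Real.exp 1 * (16 * (T + N)) * ∑ m ∈ s, ‖a m‖ ^ 2 := by
        apply mul_le_mul_of_nonneg_right _ (Finset.sum_nonneg fun _ _ => by positivity)
        exact mul_le_mul_of_nonneg_left h4 (Real.exp_pos _).le
    _ = 16 * Real.exp 1 * (T + N) * ∑ n ∈ s, ‖a n‖ ^ 2 := by ring

end Pool.MP_67663b_nt.MR
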