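import Pool.Agent.Lib.MP_67663b_nt.MR.MVT

set_option autoImplicit false
open Filter Topology MeasureTheory
namespace Pool.MP_67663b_nt.MR
open Pool.MP_67663b_nt.Odd

private lemma md_deriv_ep (n : ℕ) (t : ℝ) :
    HasDerivAt (fun t => ep t n) (-(Complex.I * ((Real.log n : ℝ) : ℂ)) * ep t n) t := by
  unfold ep
  have h1 : HasDerivAt (fun t : ℝ => -(((t * Real.log (n : ℝ) : ℝ) : ℂ) * Complex.I))
      (-(((Real.log (n : ℝ) : ℝ) : ℂ) * Complex.I)) t := by
    have h2 : HasDerivAt (fun t : ℝ => t * Real.log (n : ℝ)) (Real.log n) t := by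
      simpa using (hasDerivAt_id t).mul_const (Real.log (n : ℝ))
    exact ((h2.ofReal_comp).mul_const Complex.I).fun_neg
  convert h1.cexp using 1
  ring

private lemma md_deriv_dp (s : Finset ℕ) (a : ℕ → ℂ) (t : ℝ) :
    HasDerivAt (dp s a) (dp s (fun n => a n * (-(Complex.I * ((Real.log n : ℝ) : ℂ)))) t) t := by
  have h : HasDerivAt (fun t => ∑ n ∈ s, a n * ep t n)
      (∑ n ∈ s, a n * (-(Complex.I * ((Real.log n : ℝ) : ℂ)) * ep t n)) t :=
    HasDerivAt.fun_sum fun n _ => (md_deriv_ep n t).const_mul (a n)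
  have e : dp s (fun n => a n * (-(Complex.I * ((Real.log n : ℝ) : ℂ)))) t =
      ∑ n ∈ s, a n * (-(Complex.I * ((Real.log n : ℝ) : ℂ)) * ep t n) := by
    unfold dp
    exact Finset.sum_congr rfl fun n _ => by ring
  rw [e]
  exact h

private lemma md_local (f g : ℝ → ℂ) (hf : ∀ t, HasDerivAt f (g t) t) (hg : Continuous g)
    (x L : ℝ) (hL : 0 < L) :
    ‖f x‖ ^ 2 ≤ ∫ t in (x - 1/2)..(x + 1/2), ((1 + L) * ‖f t‖ ^ 2 + ‖g t‖ ^ 2 / L) := by
  have hfc : Continuous f := continuous_iff_continuousAt.2 fun t => (hf t).continuousAt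
  set H : ℝ → ℝ := fun t => L * ‖f t‖ ^ 2 + ‖g t‖ ^ 2 / L with hH
  have hHc : Continuous H := by
    rw [hH]; fun_prop
  have hH0 : ∀ t, 0 ≤ H t := fun t => by
    rw [hH]; positivity
  set M : ℝ := ∫ t in (x - 1/2)..(x + 1/2), H t with hM
  have hpt : ∀ u ∈ Set.Icc (x - 1/2) (x + 1/2), ‖f x‖ ^ 2 ≤ ‖f u‖ ^ 2 + M := by
    intro u hu
    have h1 : ∫ t in u..x, 2 * inner ℝ (f t) (g t) = ‖f x‖ ^ 2 - ‖f u‖ ^ 2 := by
      apply intervalIntegral.integral_eq_sub_of_hasDerivAt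
      · intro t _
        exact (hf t).norm_sq
      · apply Continuous.intervalIntegrable
        fun_prop
    have hb : ∀ t, ‖2 * inner ℝ (f t) (g t)‖ ≤ H t := by
      intro t
      have e1 : |inner ℝ (f t) (g t)| ≤ ‖f t‖ * ‖g t‖ := abs_real_inner_le_norm _ _
      rw [Real.norm_eq_abs, abs_mul, abs_two]
      have e2 : 2 * (‖f t‖ * ‖g t‖) ≤ L * ‖f t‖ ^ 2 + ‖g t‖ ^ 2 / L := by
        have : L * ‖f t‖ ^ 2 + ‖g t‖ ^ 2 / L - 2 * (‖f t‖ * ‖g t‖) =
            (L * ‖f t‖ - ‖g t‖) ^ 2 / L := by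
          field_simp; ring
        have h3 : 0 ≤ (L * ‖f t‖ - ‖g t‖) ^ 2 / L := by positivity
        linarith
      exact (mul_le_mul_of_nonneg_left e1 zero_le_two).trans e2
    have hsub : Set.uIoc u x ⊆ Set.Ioc (x - 1/2) (x + 1/2) := by
      intro t ht
      rw [Set.mem_uIoc] at ht
      obtain ⟨hu1, hu2⟩ := hu
      rcases ht with ⟨h3, h4⟩ | ⟨h3, h4⟩
      · exact ⟨by linarith, by linarith⟩
      · exact ⟨by linarith, by linarith⟩
    have h2 : ‖∫ t in u..x, 2 * inner ℝ (f t) (g t)‖ ≤ M := by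
      rw [intervalIntegral.norm_integral_eq_norm_integral_uIoc]
      refine (norm_integral_le_of_norm_le (hHc.integrableOn_uIoc)
        (Eventually.of_forall fun t => hb t)).trans ?_
      rw [hM, intervalIntegral.integral_of_le (by linarith)]
      refine setIntegral_mono_set ?_ (Eventually.of_forall fun t => hH0 t) hsub.eventuallyLE
      have := hHc.integrableOn_uIoc (a := x - 1/2) (b := x + 1/2) (μ := volume)
      rwa [Set.uIoc_of_le (by linarith)] at this
    rw [h1, Real.norm_eq_abs] at h2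
    linarith [le_abs_self (‖f x‖ ^ 2 - ‖f u‖ ^ 2)]
  have h3 : ∫ u in (x - 1/2)..(x + 1/2), ‖f x‖ ^ 2 ≤ ∫ u in (x - 1/2)..(x + 1/2), (‖f u‖ ^ 2 + M) := by
    apply intervalIntegral.integral_mono_on (by linarith)
    · exact intervalIntegrable_const
    · apply Continuous.intervalIntegrable
      fun_prop
    · exact hpt
  have e1 : ∫ u in (x - 1/2)..(x + 1/2), ‖f x‖ ^ 2 = ‖f x‖ ^ 2 := by
    rw [intervalIntegral.integral_const]
    have : x + 1 / 2 - (x - 1 / 2) = 1 := by ring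
    rw [this, one_smul]
  have e2 : ∫ u in (x - 1/2)..(x + 1/2), (‖f u‖ ^ 2 + M) =
      (∫ u in (x - 1/2)..(x + 1/2), ‖f u‖ ^ 2) + M := by
    rw [intervalIntegral.integral_add _ intervalIntegrable_const, intervalIntegral.integral_const]
    · have : x + 1 / 2 - (x - 1 / 2) = 1 := by ring
      rw [this, one_smul]
    · apply Continuous.intervalIntegrable
      fun_prop
  have e3 : ∫ t in (x - 1/2)..(x + 1/2), ((1 + L) * ‖f t‖ ^ 2 + ‖g t‖ ^ 2 / L) =
      (∫ u in (x - 1/2)..(x + 1/2), ‖f u‖ ^ 2) + M := by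
    rw [hM, ← intervalIntegral.integral_add]
    · apply intervalIntegral.integral_congr
      intro t _
      rw [hH]
      ring
    · apply Continuous.intervalIntegrable
      fun_prop
    · exact hHc.intervalIntegrable _ _
  rw [e3, ← e2, ← e1]
  exact h3

private lemma md_sum (S : Finset ℝ) (hS : Spaced S) (T : ℝ) (hT : ∀ t ∈ S, |t| ≤ T)
    (K : ℝ → ℝ) (hK : Continuous K) (hK0 : ∀ t, 0 ≤ K t) (hT0 : 0 ≤ T) :
    ∑ x ∈ S, ∫ t in (x - 1/2)..(x + 1/2), K t ≤ ∫ t in (-(T + 1))..(T + 1), K t := by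
  have e1 : ∑ x ∈ S, ∫ t in (x - 1/2)..(x + 1/2), K t =
      ∑ x ∈ S, ∫ t in Set.Ioc (x - 1/2) (x + 1/2), K t :=
    Finset.sum_congr rfl fun x _ => intervalIntegral.integral_of_le (by linarith)
  have hint : ∀ a b : ℝ, IntegrableOn K (Set.Ioc a b) := fun a b =>
    (hK.integrableOn_Icc).mono_set Set.Ioc_subset_Icc_self
  rw [e1, ← integral_biUnion_finset S (fun x _ => measurableSet_Ioc) _ (fun x _ => hint _ _),
    intervalIntegral.integral_of_le (by linarith)]
  · refine setIntegral_mono_set (hint _ _) (Eventually.of_forall fun t => hK0 t)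
      (HasSubset.Subset.eventuallyLE ?_)
    intro t ht
    simp only [Set.mem_iUnion, Set.mem_Ioc, exists_prop] at ht ⊢
    obtain ⟨x, hx, h1, h2⟩ := ht
    have := abs_le.1 (hT x hx)
    constructor
    · linarith [this.1]
    · linarith [this.2]
  · intro x hx y hy hxy
    have h1 := hS x hx y hy hxy
    rw [Function.onFun, Set.disjoint_left]
    rintro t ⟨h2, h3⟩ ⟨h4, h5⟩
    have : |x - y| < 1 := by
      rw [abs_lt]
      constructor
      · linarith
      · linarith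
    linarith

/-- Discrete mean value theorem (Gallagher): `|F(x)|² ≤ ∫_{x-1/2}^{x+1/2} (|F|² + 2|F||F'|)`, Cauchy-Schwarz,
`F' = -i ∑ a_n log n n^{-it}` and `mvt`. -/
theorem mvt_disc : ∃ C : ℝ, 0 < C ∧ ∀ (N : ℕ) (s : Finset ℕ) (a : ℕ → ℂ) (T : ℝ) (S : Finset ℝ),
    1 ≤ T → s ⊆ Finset.Icc 1 N → Spaced S → (∀ t ∈ S, |t| ≤ T) →
    ∑ t ∈ S, ‖dp s a t‖ ^ 2 ≤ C * (T + N) * (1 + Real.log N) * ∑ n ∈ s, ‖a n‖ ^ 2 := by
  obtain ⟨C, hC, hmvt⟩ := mvt
  refine ⟨6 * C, by positivity, fun N s a T S hT hs hS hST => ?_⟩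
  set L : ℝ := 1 + Real.log N with hLdef
  have hlogN : 0 ≤ Real.log N := Real.log_natCast_nonneg N
  have hL1 : 1 ≤ L := by rw [hLdef]; linarith
  have hL : 0 < L := by linarith
  set b : ℕ → ℂ := fun n => a n * (-(Complex.I * ((Real.log n : ℝ) : ℂ))) with hb
  set A : ℝ := ∑ n ∈ s, ‖a n‖ ^ 2 with hA
  have hA0 : 0 ≤ A := Finset.sum_nonneg fun n _ => by positivity
  have hBA : ∑ n ∈ s, ‖b n‖ ^ 2 ≤ L ^ 2 * A := by
    rw [hA, Finset.mul_sum]
    refine Finset.sum_le_sum fun n hn => ?_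
    have hn' := Finset.mem_Icc.1 (hs hn)
    have hn1 : (1 : ℝ) ≤ n := by exact_mod_cast hn'.1
    have hnN : (n : ℝ) ≤ N := by exact_mod_cast hn'.2
    have h1 : 0 ≤ Real.log n := Real.log_nonneg hn1
    have h2 : Real.log n ≤ L := by
      rw [hLdef]
      linarith [Real.log_le_log (by linarith) hnN]
    have h3 : ‖b n‖ = ‖a n‖ * Real.log n := by
      rw [hb]
      simp only [norm_mul, norm_neg, Complex.norm_I, one_mul, Complex.norm_real, Real.norm_eq_abs,
        abs_of_nonneg h1]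
    rw [h3, mul_pow, mul_comm]
    exact mul_le_mul_of_nonneg_right (pow_le_pow_left₀ h1 h2 2) (by positivity)
  have hF := continuous_dp s a
  have hG := continuous_dp s b
  have step1 : ∑ t ∈ S, ‖dp s a t‖ ^ 2 ≤
      ∫ t in (-(T + 1))..(T + 1), ((1 + L) * ‖dp s a t‖ ^ 2 + ‖dp s b t‖ ^ 2 / L) := by
    refine (Finset.sum_le_sum fun x _ => md_local (dp s a) (dp s b)
      (fun t => md_deriv_dp s a t) hG x L hL).trans ?_
    apply md_sum S hS T hST
    · fun_prop
    · intro t; positivity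
    · linarith
  have m1 := hmvt N s a (T + 1) (by linarith) hs
  have m2 := hmvt N s b (T + 1) (by linarith) hs
  have step2 : ∫ t in (-(T + 1))..(T + 1), ((1 + L) * ‖dp s a t‖ ^ 2 + ‖dp s b t‖ ^ 2 / L) =
      (1 + L) * (∫ t in (-(T + 1))..(T + 1), ‖dp s a t‖ ^ 2) +
        (∫ t in (-(T + 1))..(T + 1), ‖dp s b t‖ ^ 2) / L := by
    rw [intervalIntegral.integral_add, intervalIntegral.integral_const_mul,
      intervalIntegral.integral_div]
    · apply Continuous.intervalIntegrable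
      fun_prop
    · apply Continuous.intervalIntegrable
      fun_prop
  rw [step2] at step1
  have hN0 : (0 : ℝ) ≤ N := Nat.cast_nonneg N
  have hX : 0 ≤ C * (T + 1 + N) := by positivity
  have m3 : (∫ t in (-(T + 1))..(T + 1), ‖dp s b t‖ ^ 2) / L ≤ C * (T + 1 + N) * (L * A) := by
    rw [div_le_iff₀ hL]
    calc _ ≤ C * (T + 1 + N) * ∑ n ∈ s, ‖b n‖ ^ 2 := m2
      _ ≤ C * (T + 1 + N) * (L ^ 2 * A) := mul_le_mul_of_nonneg_left hBA hX
      _ = _ := by ring
  have m4 : (1 + L) * (∫ t in (-(T + 1))..(T + 1), ‖dp s a t‖ ^ 2) ≤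
      (2 * L) * (C * (T + 1 + N) * A) := by
    have h0 : 0 ≤ C * (T + 1 + N) * A := by positivity
    exact (mul_le_mul_of_nonneg_left m1 (by linarith)).trans
      (mul_le_mul_of_nonneg_right (by linarith) h0)
  have m5 : C * (T + 1 + N) ≤ C * (2 * (T + N)) :=
    mul_le_mul_of_nonneg_left (by linarith) hC.le
  have m6 : C * (T + 1 + N) * (L * A) ≤ C * (2 * (T + N)) * (L * A) :=
    mul_le_mul_of_nonneg_right m5 (by positivity)
  nlinarith [step1, m3, m4, m6]

end Pool.MP_67663b_nt.MR
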