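import Pool.Agent.Lib.MP_67663b_nt.MR.Lev
import Pool.Agent.Lib.MP_67663b_nt.MR.Mertens

set_option autoImplicit false
open Filter Topology MeasureTheory
namespace Pool.MP_67663b_nt.MR
open Pool.MP_67663b_nt.Odd

/-- lower ends of the levels -/
def Params_p (A E P : ℕ) : ℕ → ℕ
  | 0 => P
  | (j + 1) => A * (j + 2) ^ 2 * (E ^ ((j + 1) ^ 2) * Params_p A E P j)

/-- upper ends of the levels -/
def Params_q (A E P j : ℕ) : ℕ := E ^ ((j + 1) ^ 2) * Params_p A E P j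

theorem Params_p_succ (A E P j : ℕ) :
    Params_p A E P (j + 1) = A * (j + 2) ^ 2 * Params_q A E P j := rfl

theorem Params_q_le {A E P : ℕ} (hA : 16 ≤ A) (j : ℕ) :
    16 * Params_q A E P j ≤ Params_p A E P (j + 1) := by
  rw [Params_p_succ]
  have : 1 ≤ (j + 2) ^ 2 := Nat.one_le_pow _ _ (by omega)
  calc 16 * Params_q A E P j ≤ A * Params_q A E P j := Nat.mul_le_mul_right _ hA
    _ = A * 1 * Params_q A E P j := by ring
    _ ≤ _ := by gcongr

theorem Params_le_q {A E P : ℕ} (hE : 1 ≤ E) (j : ℕ) : Params_p A E P j ≤ Params_q A E P j := by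
  unfold Params_q
  exact Nat.le_mul_of_pos_left _ (pow_pos hE _)

theorem Params_p_lower {A E P : ℕ} (hA : 16 ≤ A) (hE : 1 ≤ E) {Q : ℝ} (hQ : 0 ≤ Q) (hP : 16 * Q ≤ P) (j : ℕ) :
    Q * ((j : ℝ) + 2) ^ 4 ≤ Params_p A E P j := by
  induction j with
  | zero =>
    simp only [Params_p]
    norm_num
    linarith
  | succ j ih =>
    have h1 : (16 : ℝ) * Params_p A E P j ≤ Params_p A E P (j + 1) := by
      have := (Nat.mul_le_mul_left 16 (Params_le_q (A := A) (P := P) hE j)).trans (Params_q_le (E := E) (P := P) hA j)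
      exact_mod_cast this
    have h2 : (((j + 1 : ℕ) : ℝ) + 2) ^ 4 ≤ 16 * ((j : ℝ) + 2) ^ 4 := by
      have : ((j + 1 : ℕ) : ℝ) + 2 ≤ 2 * ((j : ℝ) + 2) := by
        push_cast
        have : (0 : ℝ) ≤ j := Nat.cast_nonneg j
        linarith
      calc (((j + 1 : ℕ) : ℝ) + 2) ^ 4 ≤ (2 * ((j : ℝ) + 2)) ^ 4 := by gcongr
        _ = _ := by ring
    nlinarith

theorem Params_log_le_sqrt {x : ℝ} (hx : 0 < x) : Real.log x ≤ 2 * Real.sqrt x := by
  have h1 := Real.log_le_sub_one_of_pos (Real.sqrt_pos.mpr hx)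
  have h2 : Real.log (Real.sqrt x) = Real.log x / 2 := Real.log_sqrt hx.le
  linarith

theorem Params_key {A E P M : ℕ} (hA : 16 ≤ A) (hE : 2 ≤ E) (hM : 1 ≤ M)
    (hP1 : 16 * (16 * (M : ℝ) ^ 2) ≤ P)
    (hP2 : 16 * (2 * M * (2 * Real.log E + Real.log A + 4)) ≤ P) (j : ℕ) :
    (M : ℝ) * ((j : ℝ) + 2) ^ 2 * (Real.log (Params_q A E P (j + 1)) + 3) ≤ Params_p A E P j := by
  have hMr : (1 : ℝ) ≤ M := by exact_mod_cast hM
  have hlE : 0 ≤ Real.log E := Real.log_natCast_nonneg E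
  have hlA : 0 ≤ Real.log A := Real.log_natCast_nonneg A
  have h1 := Params_p_lower (A := A) (E := E) (P := P) hA (by omega) (Q := 16 * (M : ℝ) ^ 2) (by positivity) hP1 j
  have h2 := Params_p_lower (A := A) (E := E) (P := P) hA (by omega)
    (Q := 2 * M * (2 * Real.log E + Real.log A + 4)) (by positivity) hP2 j
  set p := Params_p A E P j with hp
  have hj : (0 : ℝ) ≤ j := Nat.cast_nonneg j
  have hp0 : (0 : ℝ) < p := lt_of_lt_of_le (by positivity) h1
  have hpn : p ≠ 0 := by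
    intro h
    rw [h] at hp0
    simp at hp0
  have hE0 : (E : ℝ) ≠ 0 := by
    have : E ≠ 0 := by omega
    exact_mod_cast this
  have hA0 : (A : ℝ) ≠ 0 := by
    have : A ≠ 0 := by omega
    exact_mod_cast this
  have hq : (Params_q A E P (j + 1) : ℝ) = (E : ℝ) ^ ((j + 2) ^ 2) * ((A : ℝ) * ((j : ℝ) + 2) ^ 2 * ((E : ℝ) ^ ((j + 1) ^ 2) * p)) := by
    unfold Params_q
    rw [Params_p_succ]
    unfold Params_q
    push_cast
    rw [← hp]
  have hlog : Real.log (Params_q A E P (j + 1)) = ((j : ℝ) + 2) ^ 2 * Real.log E + (Real.log A + 2 * Real.log ((j : ℝ) + 2) +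
      (((j : ℝ) + 1) ^ 2 * Real.log E + Real.log p)) := by
    rw [hq, Real.log_mul (by positivity) (by positivity), Real.log_mul (by positivity) (by positivity),
      Real.log_mul hA0 (by positivity), Real.log_mul (by positivity) hp0.ne', Real.log_pow, Real.log_pow, Real.log_pow]
    push_cast
    ring
  have hl2 : Real.log ((j : ℝ) + 2) ≤ (j : ℝ) + 1 := by
    have := Real.log_le_sub_one_of_pos (show (0 : ℝ) < (j : ℝ) + 2 by positivity)
    linarith
  have hlp := Params_log_le_sqrt hp0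
  have hb : Real.log (Params_q A E P (j + 1)) + 3 ≤
      ((j : ℝ) + 2) ^ 2 * (2 * Real.log E + Real.log A + 4) + Real.log p := by
    rw [hlog]
    nlinarith [mul_nonneg hj hj, mul_nonneg hj hlE, mul_nonneg hj hlA, mul_nonneg (mul_nonneg hj hj) hlA,
      mul_nonneg (mul_nonneg hj hj) hlE]
  have hs : (M : ℝ) * ((j : ℝ) + 2) ^ 2 * Real.log p ≤ p / 2 := by
    have hsq : 4 * (M : ℝ) * ((j : ℝ) + 2) ^ 2 ≤ Real.sqrt p := by
      apply Real.le_sqrt_of_sq_le
      calc (4 * (M : ℝ) * ((j : ℝ) + 2) ^ 2) ^ 2 = 16 * (M : ℝ) ^ 2 * ((j : ℝ) + 2) ^ 4 := by ring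
        _ ≤ (p : ℝ) := h1
    have hss : Real.sqrt p * Real.sqrt p = p := Real.mul_self_sqrt hp0.le
    calc (M : ℝ) * ((j : ℝ) + 2) ^ 2 * Real.log p ≤ (M : ℝ) * ((j : ℝ) + 2) ^ 2 * (2 * Real.sqrt p) := by
          gcongr
      _ = (4 * (M : ℝ) * ((j : ℝ) + 2) ^ 2) * Real.sqrt p / 2 := by ring
      _ ≤ Real.sqrt p * Real.sqrt p / 2 := by gcongr
      _ = p / 2 := by rw [hss]
  calc (M : ℝ) * ((j : ℝ) + 2) ^ 2 * (Real.log (Params_q A E P (j + 1)) + 3)
      ≤ (M : ℝ) * ((j : ℝ) + 2) ^ 2 * (((j : ℝ) + 2) ^ 2 * (2 * Real.log E + Real.log A + 4) + Real.log p) := by gcongr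
    _ = (2 * M * (2 * Real.log E + Real.log A + 4) * ((j : ℝ) + 2) ^ 4) / 2 +
        (M : ℝ) * ((j : ℝ) + 2) ^ 2 * Real.log p := by ring
    _ ≤ p / 2 + p / 2 := by linarith
    _ = p := by ring

/-- Existence of level parameters. -/
theorem exists_lev {κ a0 D0 : ℝ} (hκ : 0 < κ) (ha0 : 0 < a0) (ha1 : a0 ≤ 1 / 4) (hD : 1 ≤ D0) :
    Nonempty (Lev κ a0 D0) := by
  obtain ⟨c, hc, C, hml⟩ := mert_low
  obtain ⟨E, hE2, hE⟩ : ∃ E : ℕ, 2 ≤ E ∧ 2 / κ + |C| ≤ c * Real.log E := by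
    refine ⟨⌈Real.exp ((2 / κ + |C|) / c)⌉₊ + 2, by omega, ?_⟩
    rw [mul_comm, ← div_le_iff₀ hc]
    rw [Real.le_log_iff_exp_le (by positivity)]
    push_cast
    have := Nat.le_ceil (Real.exp ((2 / κ + |C|) / c))
    linarith
  obtain ⟨k0, hk0, hk1⟩ : ∃ k0 : ℕ, 1 ≤ k0 ∧ 2 / κ ≤ k0 := by
    refine ⟨⌈2 / κ⌉₊ + 1, by omega, ?_⟩
    push_cast
    have := Nat.le_ceil (2 / κ)
    linarith
  obtain ⟨M, hM1, hM2, hM3⟩ : ∃ M : ℕ, 1 ≤ M ∧ 16 / a0 ≤ M ∧ D0 ≤ M := by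
    refine ⟨⌈16 / a0⌉₊ + ⌈D0⌉₊ + 1, by omega, ?_, ?_⟩
    · push_cast
      have h1 := Nat.le_ceil (16 / a0)
      have h2 : (0 : ℝ) ≤ ⌈D0⌉₊ := Nat.cast_nonneg _
      linarith
    · push_cast
      have h1 := Nat.le_ceil D0
      have h2 : (0 : ℝ) ≤ ⌈16 / a0⌉₊ := Nat.cast_nonneg _
      linarith
  set A : ℕ := M + 16 with hA
  have hA16 : 16 ≤ A := by omega
  have hMr : (1 : ℝ) ≤ M := by exact_mod_cast hM1
  obtain ⟨P, hP1, hP2, hP3, hP4, hP5⟩ : ∃ P : ℕ, 16 * (16 * (M : ℝ) ^ 2) ≤ P ∧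
      16 * (2 * M * (2 * Real.log E + Real.log A + 4)) ≤ P ∧ k0 ≤ P ∧ 1 ≤ P ∧
      ((k0 : ℝ) * (E * P)) ^ 2 * Real.exp (-(a0 * P)) ≤ κ := by
    have ht : Tendsto (fun P : ℕ => ((k0 : ℝ) * (E * P)) ^ 2 * Real.exp (-(a0 * P))) atTop (𝓝 0) := by
      have h0 : Tendsto (fun P : ℕ => a0 * (P : ℝ)) atTop atTop :=
        tendsto_natCast_atTop_atTop.const_mul_atTop ha0
      have h2 := ((Real.tendsto_pow_mul_exp_neg_atTop_nhds_zero 2).const_mul (((k0 : ℝ) * E / a0) ^ 2)).comp h0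
      rw [mul_zero] at h2
      refine h2.congr fun P => ?_
      simp only [Function.comp]
      field_simp
    have e1 : ∀ᶠ P : ℕ in atTop, 16 * (16 * (M : ℝ) ^ 2) ≤ P := tendsto_natCast_atTop_atTop.eventually_ge_atTop _
    have e2 : ∀ᶠ P : ℕ in atTop, 16 * (2 * M * (2 * Real.log E + Real.log A + 4)) ≤ (P : ℝ) :=
      tendsto_natCast_atTop_atTop.eventually_ge_atTop _
    have e3 : ∀ᶠ P : ℕ in atTop, ((k0 : ℝ) * (E * P)) ^ 2 * Real.exp (-(a0 * P)) ≤ κ :=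
      (ht.eventually (gt_mem_nhds hκ)).mono fun _ h => h.le
    obtain ⟨P, h1, h2, h3, h4, h5⟩ := (e1.and (e2.and ((eventually_ge_atTop k0).and ((eventually_ge_atTop 1).and e3)))).exists
    exact ⟨P, h1, h2, h3, h4, h5⟩
  set p := Params_p A E P with hp
  set q := Params_q A E P with hq
  set K : ℕ → ℕ := fun j => k0 * (j + 1) ^ 2 with hK
  have hp0 : p 0 = P := rfl
  have hq_def : ∀ j : ℕ, q j = E ^ ((j + 1) ^ 2) * p j := fun j => rfl
  have hp_succ : ∀ j : ℕ, p (j + 1) = A * (j + 2) ^ 2 * q j := fun j => rfl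
  have hpq16 : ∀ j : ℕ, 16 * q j ≤ p (j + 1) := fun j => Params_q_le hA16 j
  have hpleq : ∀ j : ℕ, p j ≤ q j := fun j => Params_le_q (by omega) j
  have hkey : ∀ j : ℕ, (M : ℝ) * ((j : ℝ) + 2) ^ 2 * (Real.log (q (j + 1)) + 3) ≤ p j :=
    fun j => Params_key hA16 hE2 hM1 hP1 hP2 j
  have hp1 : ∀ j : ℕ, 1 ≤ p j := by
    intro j
    induction j with
    | zero => exact hP4
    | succ j ih =>
      have := hpq16 j
      have := hpleq j
      omega
  have hq1 : ∀ j : ℕ, 1 ≤ q j := fun j => (hp1 j).trans (hpleq j)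
  have hK1 : ∀ j : ℕ, 1 ≤ K j := by
    intro j
    have : 1 ≤ (j + 1) ^ 2 := Nat.one_le_pow _ _ (by omega)
    exact Nat.mul_le_mul hk0 this
  have hplt : ∀ j : ℕ, p j < q j := by
    intro j
    rw [hq_def]
    have h1 : 1 < E ^ ((j + 1) ^ 2) := Nat.one_lt_pow (by positivity) (by omega)
    exact lt_mul_of_one_lt_left (hp1 j) h1
  -- divisions
  have hKr : ∀ j : ℕ, (0 : ℝ) < K j := fun j => by exact_mod_cast hK1 j
  have hdiv : ∀ j n : ℕ, (((K j * n : ℕ) : ℝ)) / K j = n := by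
    intro j n
    push_cast
    rw [mul_comm, mul_div_assoc, div_self (hKr j).ne', mul_one]
  have hlow : ∀ (j v : ℕ), v ∈ Finset.Ico (K j * p j) (K j * q j) → (p j : ℝ) ≤ (v : ℝ) / K j ∧ (v : ℝ) / K j ≤ q j := by
    intro j v hv
    rw [Finset.mem_Ico] at hv
    rw [le_div_iff₀ (hKr j), div_le_iff₀ (hKr j)]
    constructor
    · rw [mul_comm]
      exact_mod_cast hv.1
    · rw [mul_comm]
      exact_mod_cast hv.2.le
  have hLlow : ∀ j : ℕ, 2 * ((j : ℝ) + 1) ^ 2 / κ ≤ Lm (K j) (K j * p j) (K j * q j) := by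
    intro j
    have h1 := hml (K j) (K j * p j) (K j * q j) (hK1 j) (Nat.le_mul_of_pos_right _ (hp1 j))
      (Nat.mul_lt_mul_of_pos_left (hplt j) (hK1 j))
    refine le_trans ?_ h1
    have h2 : (((K j * q j : ℕ) : ℝ)) / ((K j * p j : ℕ) : ℝ) = (E : ℝ) ^ ((j + 1) ^ 2) := by
      have hpr : (0 : ℝ) < p j := by exact_mod_cast hp1 j
      rw [hq_def]
      push_cast
      field_simp [(hKr j).ne']
    rw [h2, Real.log_pow]
    have h3 : 2 * ((j : ℝ) + 1) ^ 2 / κ = ((j : ℝ) + 1) ^ 2 * (2 / κ) := by ring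
    rw [h3]
    push_cast
    have h4 : (1 : ℝ) ≤ ((j : ℝ) + 1) ^ 2 := by
      have : (0 : ℝ) ≤ j := Nat.cast_nonneg j
      nlinarith
    have h5 := mul_le_mul_of_nonneg_left hE (by positivity : (0 : ℝ) ≤ ((j : ℝ) + 1) ^ 2)
    have h6 : C ≤ |C| := le_abs_self C
    have h7 : |C| ≤ ((j : ℝ) + 1) ^ 2 * |C| := le_mul_of_one_le_left (abs_nonneg _) h4
    nlinarith
  have hjpos : ∀ j : ℕ, (0 : ℝ) < (j : ℝ) + 1 := fun j => by positivity
  have hKlow : ∀ j : ℕ, 2 * ((j : ℝ) + 1) ^ 2 / κ ≤ K j := by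
    intro j
    have h3 : 2 * ((j : ℝ) + 1) ^ 2 / κ = (2 / κ) * ((j : ℝ) + 1) ^ 2 := by ring
    rw [h3, hK]
    push_cast
    gcongr
  have hqK : ∀ j : ℕ, (K j : ℝ) ≤ (q j : ℝ) ^ 3 := by
    intro j
    have h1 : k0 ≤ q j := by
      have : ∀ j : ℕ, k0 ≤ q j := by
        intro j
        induction j with
        | zero => exact hP3.trans (hpleq 0)
        | succ j ih =>
          have := hpq16 j
          have := hpleq (j + 1)
          omega
      exact this j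
    have h2 : j + 1 ≤ q j := by
      have : j + 1 < E ^ (j + 1) := Nat.lt_pow_self (by omega)
      have h3 : E ^ (j + 1) ≤ E ^ ((j + 1) ^ 2) := Nat.pow_le_pow_right (by omega) (by nlinarith)
      have h4 : E ^ ((j + 1) ^ 2) ≤ q j := by
        rw [hq_def]
        exact Nat.le_mul_of_pos_right _ (hp1 j)
      omega
    have h3 : K j ≤ q j ^ 3 := by
      calc K j = k0 * (j + 1) ^ 2 := rfl
        _ ≤ q j * q j ^ 2 := Nat.mul_le_mul h1 (Nat.pow_le_pow_left h2 2)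
        _ = q j ^ 3 := by ring
    exact_mod_cast h3
  set δ : ℕ → ℝ := fun j => a0 / (2 * (((j : ℝ) + 1) * ((j : ℝ) + 2))) with hδ
  have hδlow : ∀ j : ℕ, a0 / (2 * ((j : ℝ) + 2) ^ 2) ≤ δ j := by
    intro j
    simp only [hδ]
    have : (0 : ℝ) ≤ j := Nat.cast_nonneg j
    gcongr
    nlinarith
  set α : ℕ → ℝ := fun j => a0 * (1 - 1 / (2 * ((j : ℝ) + 1))) with hα
  have hαδ : ∀ j : ℕ, α (j + 1) - α j = δ j := by
    intro j
    simp only [hα, hδ]
    push_cast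
    have h1 := hjpos j
    have h2 : (0 : ℝ) < (j : ℝ) + 2 := by positivity
    have h3 : (0 : ℝ) < (j : ℝ) + 1 + 1 := by positivity
    field_simp
    ring
  -- consequences of the key inequality
  have hlogq : ∀ j : ℕ, 16 * (Real.log (q (j + 1)) + 3) ≤ a0 / ((j : ℝ) + 2) ^ 2 * p j := by
    intro j
    have h1 := hkey j
    have h2 : (0 : ℝ) < ((j : ℝ) + 2) ^ 2 := by positivity
    have h3 : 0 ≤ Real.log (q (j + 1)) := Real.log_natCast_nonneg _
    rw [div_mul_eq_mul_div, le_div_iff₀ h2]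
    have h4 : 16 ≤ a0 * M := by
      rw [div_le_iff₀ ha0] at hM2
      linarith
    calc 16 * (Real.log (q (j + 1)) + 3) * ((j : ℝ) + 2) ^ 2
        ≤ a0 * M * (Real.log (q (j + 1)) + 3) * ((j : ℝ) + 2) ^ 2 := by gcongr
      _ = a0 * (M * ((j : ℝ) + 2) ^ 2 * (Real.log (q (j + 1)) + 3)) := by ring
      _ ≤ a0 * p j := by gcongr
  have hqp : ∀ j : ℕ, 16 * (q j : ℝ) ≤ a0 / ((j : ℝ) + 2) ^ 2 * p (j + 1) := by
    intro j
    have h2 : (0 : ℝ) < ((j : ℝ) + 2) ^ 2 := by positivity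
    rw [div_mul_eq_mul_div, le_div_iff₀ h2, hp_succ]
    push_cast
    have h4 : 16 ≤ a0 * (A : ℝ) := by
      rw [div_le_iff₀ ha0] at hM2
      have : (M : ℝ) ≤ A := by
        rw [hA]
        push_cast
        linarith
      nlinarith
    calc 16 * (q j : ℝ) * ((j : ℝ) + 2) ^ 2 ≤ (a0 * (A : ℝ)) * (q j : ℝ) * ((j : ℝ) + 2) ^ 2 := by gcongr
      _ = _ := by ring
  have hdδ : ∀ j : ℕ, a0 / ((j : ℝ) + 2) ^ 2 ≤ 2 * δ j := by
    intro j
    have := hδlow j
    have e : a0 / (2 * ((j : ℝ) + 2) ^ 2) = (a0 / ((j : ℝ) + 2) ^ 2) / 2 := by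
      field_simp
    rw [e] at this
    linarith
  refine ⟨{
    K := K
    a := fun j => K j * p j
    b := fun j => K j * q j
    α := α
    hK := hK1
    hab := fun j => Nat.mul_lt_mul_of_pos_left (hplt j) (hK1 j)
    ha := fun j => Nat.le_mul_of_pos_right _ (hp1 j)
    h0 := ?_
    hL0 := fun j => lt_of_lt_of_le (by positivity) (hLlow j)
    hL := ?_
    hα0 := ?_
    hαa := ?_
    hαm := ?_
    hord := ?_
    hstep := ?_
    hsum := ?_
    hmono := ?_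
    hD := ?_
    hb := ?_
    hpoly := ?_ }⟩
  · rw [hdiv]
    refine le_trans (le_of_eq ?_) hP5
    have e1 : ((K 0 * q 0 : ℕ) : ℝ) = (k0 : ℝ) * (E * P) := by
      rw [hq_def, hp0]
      simp [hK]
    have e2 : 2 * α 0 * (p 0 : ℝ) = a0 * P := by
      rw [hp0]
      simp only [hα]
      push_cast
      ring
    rw [e1, e2]
  · intro j
    have h1 := hLlow j
    have h2 := hKlow j
    have hj := hjpos j
    have hz : 0 < 2 * ((j : ℝ) + 1) ^ 2 / κ := by positivity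
    have h3 : 1 / Lm (K j) (K j * p j) (K j * q j) ≤ 1 / (2 * ((j : ℝ) + 1) ^ 2 / κ) :=
      one_div_le_one_div_of_le hz h1
    have h4 : 1 / (K j : ℝ) ≤ 1 / (2 * ((j : ℝ) + 1) ^ 2 / κ) := one_div_le_one_div_of_le hz h2
    have h5 : 1 / (2 * ((j : ℝ) + 1) ^ 2 / κ) = κ / ((j : ℝ) + 1) ^ 2 / 2 := by
      field_simp
    rw [h5] at h3 h4
    linarith
  · intro j
    simp only [hα]
    have hj := hjpos j
    have : 1 / (2 * ((j : ℝ) + 1)) < 1 := by
      rw [div_lt_one (by positivity)]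
      have : (0 : ℝ) ≤ j := Nat.cast_nonneg j
      linarith
    apply mul_pos ha0
    linarith
  · intro j
    simp only [hα]
    have hj := hjpos j
    have : 0 < 1 / (2 * ((j : ℝ) + 1)) := by positivity
    nlinarith
  · intro j
    have := hαδ j
    have h2 : 0 < δ j := by
      simp only [hδ]
      positivity
    linarith
  · intro j v' hv' v hv
    have h1 := (hlow j v' hv').2
    have h2 := (hlow (j + 1) v hv).1
    have h3 : (q j : ℝ) ≤ p (j + 1) := by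
      have := hpq16 j
      exact_mod_cast (by omega : q j ≤ p (j + 1))
    linarith
  · intro j v' hv' v hv
    rw [hαδ]
    obtain ⟨h1, h2⟩ := hlow j v' hv'
    obtain ⟨h3, h4⟩ := hlow (j + 1) v hv
    set V' := (v' : ℝ) / K j with hV'
    set V := (v : ℝ) / K (j + 1) with hV
    have hp1r : (1 : ℝ) ≤ p j := by exact_mod_cast hp1 j
    have hV'1 : 1 ≤ V' := hp1r.trans h1
    have hqpr : (q j : ℝ) ≤ p (j + 1) := by
      have := hpq16 j
      exact_mod_cast (by omega : q j ≤ p (j + 1))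
    have hVV : V' ≤ V := by linarith
    have hV1 : 1 ≤ V := hV'1.trans hVV
    set l : ℝ := (⌈V / V'⌉₊ : ℝ) with hl
    have hr1 : 1 ≤ V / V' := by
      rw [le_div_iff₀ (by linarith)]
      linarith
    have hl1 : 1 ≤ l := hr1.trans (Nat.le_ceil _)
    have hl2 : l ≤ 2 * (V / V') := by
      have := Nat.ceil_lt_add_one (by positivity : 0 ≤ V / V')
      linarith
    have hVV' : V / V' ≤ V := div_le_self (by linarith) hV'1
    have hlog : Real.log (2 * l) + 1 ≤ Real.log (q (j + 1)) + 3 := by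
      have h5 : 2 * l ≤ 4 * (q (j + 1) : ℝ) := by linarith
      have h6 : Real.log (2 * l) ≤ Real.log (4 * (q (j + 1) : ℝ)) := Real.log_le_log (by linarith) h5
      have hq1r : (0 : ℝ) < q (j + 1) := by exact_mod_cast hq1 (j + 1)
      rw [Real.log_mul (by norm_num) hq1r.ne'] at h6
      have h7 : Real.log 4 ≤ 2 := by
        have : Real.log 4 = 2 * Real.log 2 := by
          rw [show (4 : ℝ) = 2 ^ 2 by norm_num, Real.log_pow]
          norm_num
        have := Real.log_two_lt_d9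
        linarith
      linarith
    have hlog0 : 0 ≤ Real.log (2 * l) + 1 := by
      have := Real.log_nonneg (show (1 : ℝ) ≤ 2 * l by linarith)
      linarith
    have hA1 : 2 * l * (Real.log (2 * l) + 1) ≤ V * (a0 / ((j : ℝ) + 2) ^ 2) / 4 := by
      have h8 := hlogq j
      have h9 : l ≤ 2 * (V / p j) := by
        refine hl2.trans ?_
        gcongr
      calc 2 * l * (Real.log (2 * l) + 1) ≤ 2 * (2 * (V / p j)) * (Real.log (q (j + 1)) + 3) := by
            gcongr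
        _ = (V / p j) * (16 * (Real.log (q (j + 1)) + 3)) / 4 := by ring
        _ ≤ (V / p j) * (a0 / ((j : ℝ) + 2) ^ 2 * p j) / 4 := by gcongr
        _ = V * (a0 / ((j : ℝ) + 2) ^ 2) / 4 := by
            have hpne : (p j : ℝ) ≠ 0 := by linarith
            field_simp
    have hA2 : 2 * V' ≤ V * (a0 / ((j : ℝ) + 2) ^ 2) / 8 := by
      have h8 := hqp j
      have h9 : a0 / ((j : ℝ) + 2) ^ 2 * p (j + 1) ≤ a0 / ((j : ℝ) + 2) ^ 2 * V := by gcongr
      linarith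
    have h10 := hdδ j
    have h11 : V * (a0 / ((j : ℝ) + 2) ^ 2) ≤ V * (2 * δ j) := by gcongr
    have h12 : 0 ≤ V * (a0 / ((j : ℝ) + 2) ^ 2) := by positivity
    linarith
  · intro j
    rw [hαδ, hdiv]
    have hq1r : (1 : ℝ) ≤ q (j + 1) := by exact_mod_cast hq1 (j + 1)
    have hq0r : (1 : ℝ) ≤ q j := by exact_mod_cast hq1 j
    have hqq : (q j : ℝ) ≤ q (j + 1) := by
      have h1 := hpq16 j
      have h2 := hpleq (j + 1)
      exact_mod_cast (by omega : q j ≤ q (j + 1))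
    have hj := hjpos j
    set Z : ℝ := (q (j + 1) : ℝ) with hZ
    have hZ0 : 0 < Z := by linarith
    have hb1 : ((K (j + 1) * q (j + 1) : ℕ) : ℝ) ≤ Z ^ 4 := by
      push_cast
      calc (K (j + 1) : ℝ) * (q (j + 1) : ℝ) ≤ Z ^ 3 * Z := mul_le_mul_of_nonneg_right (hqK (j + 1)) hZ0.le
        _ = Z ^ 4 := by ring
    have hb2 : ((K j * q j : ℕ) : ℝ) ≤ Z ^ 4 := by
      push_cast
      calc (K j : ℝ) * (q j : ℝ) ≤ (q j : ℝ) ^ 3 * (q j : ℝ) := mul_le_mul_of_nonneg_right (hqK j) (by linarith)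
        _ = (q j : ℝ) ^ 4 := by ring
        _ ≤ Z ^ 4 := by gcongr
    have hb3 : ((j : ℝ) + 1) ^ 2 / κ ≤ Z ^ 3 := by
      have h1 := hKlow j
      have h2 := hqK j
      have h3 : (q j : ℝ) ^ 3 ≤ Z ^ 3 := by gcongr
      have h4 : 2 * ((j : ℝ) + 1) ^ 2 / κ = 2 * (((j : ℝ) + 1) ^ 2 / κ) := by ring
      have h5 : 0 ≤ ((j : ℝ) + 1) ^ 2 / κ := by positivity
      linarith
    have hexp : Z ^ 15 ≤ Real.exp (δ j * p (j + 1)) := by
      rw [← Real.exp_log (pow_pos hZ0 15), Real.log_pow]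
      apply Real.exp_le_exp.mpr
      have h1 := hlogq j
      have h2 := hdδ j
      have h3 : (16 : ℝ) * p j ≤ p (j + 1) := by
        have h4 := hpq16 j
        have h5 := hpleq j
        exact_mod_cast (by omega : 16 * p j ≤ p (j + 1))
      have h6 : (0 : ℝ) ≤ p j := Nat.cast_nonneg _
      have h7 : 0 ≤ Real.log Z := Real.log_nonneg hq1r
      have h8 : 0 ≤ δ j := by
        simp only [hδ]
        positivity
      push_cast
      have h9 : a0 / ((j : ℝ) + 2) ^ 2 * p j ≤ 2 * δ j * p j := by gcongr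
      nlinarith
    rw [Real.exp_neg]
    have hE0 := Real.exp_pos (δ j * p (j + 1))
    rw [← div_eq_mul_inv, div_le_iff₀ hE0]
    have hfin : ((K (j + 1) * q (j + 1) : ℕ) : ℝ) ^ 2 * ((K j * q j : ℕ) : ℝ) * (((j : ℝ) + 1) ^ 2 / κ) ≤
        Real.exp (δ j * p (j + 1)) := by
      calc ((K (j + 1) * q (j + 1) : ℕ) : ℝ) ^ 2 * ((K j * q j : ℕ) : ℝ) * (((j : ℝ) + 1) ^ 2 / κ)
          ≤ (Z ^ 4) ^ 2 * Z ^ 4 * Z ^ 3 := by gcongr
        _ = Z ^ 15 := by ring
        _ ≤ _ := hexp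
    have e : ((K (j + 1) * q (j + 1) : ℕ) : ℝ) ^ 2 * ((K j * q j : ℕ) : ℝ) =
        κ / ((j : ℝ) + 1) ^ 2 * (((K (j + 1) * q (j + 1) : ℕ) : ℝ) ^ 2 * ((K j * q j : ℕ) : ℝ) * (((j : ℝ) + 1) ^ 2 / κ)) := by
      field_simp
    rw [e]
    exact mul_le_mul_of_nonneg_left hfin (by positivity)
  · intro j
    rw [hdiv, hdiv]
    have h1 := hpq16 j
    have h2 := hpleq (j + 1)
    exact_mod_cast (by omega : q j ≤ q (j + 1))
  · intro j
    rw [hdiv, hdiv]
    have h1 := hkey j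
    have h3 : 0 ≤ Real.log (q (j + 1)) := Real.log_natCast_nonneg _
    have h4 : (1 : ℝ) ≤ ((j : ℝ) + 2) ^ 2 := by
      have : (0 : ℝ) ≤ j := Nat.cast_nonneg j
      nlinarith
    calc D0 * Real.log (q (j + 1)) ≤ M * Real.log (q (j + 1)) := by gcongr
      _ = M * 1 * Real.log (q (j + 1)) := by ring
      _ ≤ M * ((j : ℝ) + 2) ^ 2 * (Real.log (q (j + 1)) + 3) := by
          gcongr
          linarith
      _ ≤ p j := h1
  · have hle : ∀ j : ℕ, (j : ℝ) ≤ ((K j * q j : ℕ) : ℝ) / K j := by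
      intro j
      rw [hdiv]
      have : j + 1 < E ^ (j + 1) := Nat.lt_pow_self (by omega)
      have h3 : E ^ (j + 1) ≤ E ^ ((j + 1) ^ 2) := Nat.pow_le_pow_right (by omega) (by nlinarith)
      have h4 : E ^ ((j + 1) ^ 2) ≤ q j := by
        rw [hq_def]
        exact Nat.le_mul_of_pos_right _ (hp1 j)
      exact_mod_cast (by omega : j ≤ q j)
    exact tendsto_atTop_mono hle tendsto_natCast_atTop_atTop
  · intro j
    rw [hdiv]
    exact hqK j

end Pool.MP_67663b_nt.MR
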