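import Pool.Agent.Lib.MP_67663b_nt.MR.Lev
import Pool.Agent.Lib.MP_67663b_nt.MR.LargeSet

set_option autoImplicit false
open Filter Topology MeasureTheory
namespace Pool.MP_67663b_nt.MR
open Pool.MP_67663b_nt.Odd

/-- The exceptional set is small. -/
theorem U_small {c1 : ℝ} (hc1 : 0 < c1) : ∃ a0 : ℝ, 0 < a0 ∧ a0 ≤ 1 / 4 ∧ ∃ D0 : ℝ, 1 ≤ D0 ∧
    ∀ (κ : ℝ) (L : Lev κ a0 D0), ∃ X0 : ℝ, ∀ X ≥ X0, ∃ J : ℕ,
      (∀ j ≤ J, Real.exp ((L.b j : ℝ) / L.K j) ≤ X ∧ (L.K j : ℝ) ≤ X) ∧
      ∀ S : Finset ℝ, Spaced S → (∀ t ∈ S, |t| ≤ X) →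
        (∀ t ∈ S, ∃ v ∈ Finset.Ico (L.a J) (L.b J),
          Real.exp ((1 - L.α J) * ((v : ℝ) / L.K J)) < ‖Qp (L.K J) v t‖) →
        (S.card : ℝ) ≤ X ^ c1 := by
  classical
  obtain ⟨C, hC, hls⟩ := large_set
  have ha0 : 0 < min (1 / 4 : ℝ) (c1 / 16) := lt_min (by norm_num) (by positivity)
  obtain ⟨D0, hD1, hD2⟩ : ∃ D0 : ℝ, 1 ≤ D0 ∧ 64 / c1 ≤ D0 :=
    ⟨max 1 (64 / c1), le_max_left _ _, le_max_right _ _⟩
  refine ⟨min (1 / 4) (c1 / 16), ha0, min_le_left _ _, D0, hD1, ?_⟩
  intro κ L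
  have hKpos : ∀ j, (0 : ℝ) < L.K j := fun j => by
    have := L.hK j
    exact_mod_cast this
  have hbpos : ∀ j, (0 : ℝ) < L.b j := fun j => by
    have h1 := L.hab j
    exact_mod_cast (by omega : 0 < L.b j)
  set β : ℕ → ℝ := fun j => (L.b j : ℝ) / L.K j with hβ
  have hβ0 : ∀ j, 0 < β j := fun j => div_pos (hbpos j) (hKpos j)
  have hβmono : Monotone β := monotone_nat_of_le_succ L.hmono
  -- threshold
  set A : ℝ := 64 / c1 + 4 with hA
  set l0 : ℝ := (β 0) ^ 2 + Real.exp A + (16 / c1) ^ 2 + 240 * C * (16 / c1) ^ 5 + 32 / c1 + 6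
    with hl0
  refine ⟨Real.exp l0, fun X hX => ?_⟩
  have hX0 : 0 < X := lt_of_lt_of_le (Real.exp_pos _) hX
  set l : ℝ := Real.log X with hl
  have hll0 : l0 ≤ l := (Real.le_log_iff_exp_le hX0).2 hX
  have p1 : (0 : ℝ) ≤ (β 0) ^ 2 := by positivity
  have p2 : (0 : ℝ) ≤ Real.exp A := (Real.exp_pos _).le
  have p3 : (0 : ℝ) ≤ (16 / c1) ^ 2 := by positivity
  have p4 : (0 : ℝ) ≤ 240 * C * (16 / c1) ^ 5 := by positivity
  have p5 : (0 : ℝ) ≤ 32 / c1 := by positivity
  have q1 : (β 0) ^ 2 ≤ l := by linarith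
  have q2 : Real.exp A ≤ l := by linarith
  have q3 : (16 / c1) ^ 2 ≤ l := by linarith
  have q4 : 240 * C * (16 / c1) ^ 5 ≤ l := by linarith
  have q5 : 32 / c1 ≤ l := by linarith
  have q6 : 6 ≤ l := by linarith
  have hlpos : 0 < l := by linarith
  have hexpl : Real.exp l = X := Real.exp_log hX0
  set m : ℝ := Real.log l with hm
  have hmA : A ≤ m := (Real.le_log_iff_exp_le hlpos).2 q2
  have hm4 : 4 ≤ m := by
    have : (0 : ℝ) ≤ 64 / c1 := by positivity
    linarith
  have hmc : 64 / c1 ≤ m := by linarith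
  -- the level
  have hex : ∃ j, l < β j ^ 2 := by
    have h1 : ∀ᶠ j in atTop, l + 1 ≤ β j := L.hb.eventually_ge_atTop (l + 1)
    obtain ⟨j, hj⟩ := h1.exists
    refine ⟨j, ?_⟩
    nlinarith
  have hfind := Nat.find_spec hex
  have hne : Nat.find hex ≠ 0 := by
    intro h0
    rw [h0] at hfind
    linarith
  obtain ⟨J, hJ⟩ := Nat.exists_eq_succ_of_ne_zero hne
  have hJ1 : l < β (J + 1) ^ 2 := by rw [← Nat.succ_eq_add_one, ← hJ]; exact hfind
  have hJ0 : β J ^ 2 ≤ l := by
    have : J < Nat.find hex := by omega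
    exact not_lt.1 (Nat.find_min hex this)
  have hβl : ∀ j ≤ J, β j ^ 2 ≤ l := fun j hj =>
    (pow_le_pow_left₀ (hβ0 j).le (hβmono hj) 2).trans hJ0
  have hβl1 : ∀ j ≤ J, β j ≤ l := fun j hj => by
    have h1 := hβl j hj
    have h2 := hβ0 j
    nlinarith
  refine ⟨J, ?_, ?_⟩
  · intro j hj
    constructor
    · rw [← hexpl]
      exact Real.exp_le_exp.2 (hβl1 j hj)
    · have h1 : (L.K j : ℝ) ≤ β j ^ 3 := L.hpoly j
      have h2 : β j ^ 3 ≤ l ^ 2 := by
        calc β j ^ 3 = β j ^ 2 * β j := by ring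
          _ ≤ l * l := mul_le_mul (hβl j hj) (hβl1 j hj) (hβ0 j).le hlpos.le
          _ = l ^ 2 := by ring
      have h3 : l ^ 2 ≤ Real.exp l := by
        have h4 := Real.pow_div_factorial_le_exp l hlpos.le 3
        have h5 : ((3 : ℕ).factorial : ℝ) = 6 := by norm_num [Nat.factorial]
        rw [h5] at h4
        refine le_trans ?_ h4
        rw [le_div_iff₀ (by norm_num)]
        calc l ^ 2 * 6 ≤ l ^ 2 * l := mul_le_mul_of_nonneg_left q6 (by positivity)
          _ = l ^ 3 := by ring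
      rw [← hexpl]
      exact h1.trans (h2.trans h3)
  · intro S hS hSX hSv
    -- cover
    set Sv : ℕ → Finset ℝ := fun v => S.filter
      (fun t => Real.exp ((1 - L.α J) * ((v : ℝ) / L.K J)) < ‖Qp (L.K J) v t‖) with hSvdef
    have hcover : S ⊆ (Finset.Ico (L.a J) (L.b J)).biUnion Sv := by
      intro t ht
      obtain ⟨v, hv, hv2⟩ := hSv t ht
      rw [Finset.mem_biUnion]
      exact ⟨v, hv, Finset.mem_filter.2 ⟨ht, hv2⟩⟩
    have hcard1 : (S.card : ℝ) ≤ ∑ v ∈ Finset.Ico (L.a J) (L.b J), ((Sv v).card : ℝ) := by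
      have h1 : S.card ≤ ∑ v ∈ Finset.Ico (L.a J) (L.b J), (Sv v).card :=
        (Finset.card_le_card hcover).trans Finset.card_biUnion_le
      exact_mod_cast h1
    have hαJ : L.α J ≤ 1 / 4 := (L.hαa J).trans (min_le_left _ _)
    have hαJ' : L.α J ≤ c1 / 16 := (L.hαa J).trans (min_le_right _ _)
    set B : ℝ := C * (1 + l) * Real.exp (c1 / 16 * l) * Real.exp (c1 / 8 * l) *
      (Real.exp (c1 / 32 * l) * l) * Real.exp (c1 / 8 * l) with hB
    have hbound : ∀ v ∈ Finset.Ico (L.a J) (L.b J), ((Sv v).card : ℝ) ≤ B := by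
      intro v hv
      rw [Finset.mem_Ico] at hv
      set V : ℝ := (v : ℝ) / L.K J with hV
      have hva : (L.a J : ℝ) / L.K J ≤ V := by
        rw [hV]
        exact div_le_div_of_nonneg_right (by exact_mod_cast hv.1) (hKpos J).le
      have hV1 : 1 ≤ V := by
        refine le_trans ?_ hva
        rw [one_le_div (hKpos J)]
        exact_mod_cast L.ha J
      have hVβ : V ≤ β J := by
        rw [hV]
        exact div_le_div_of_nonneg_right (by exact_mod_cast hv.2.le) (hKpos J).le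
      have hV0 : 0 < V := by linarith
      have hVX : Real.exp V ≤ X := by
        rw [← hexpl]
        exact Real.exp_le_exp.2 (hVβ.trans (hβl1 J le_rfl))
      have h1 := hls X (L.α J) (L.K J) v (Sv v) (L.hK J) hV1 hVX (L.hα0 J).le hαJ
        (hS.subset (Finset.filter_subset _ _))
        (fun t ht => hSX t (Finset.mem_filter.1 ht).1)
        (fun t ht => (Finset.mem_filter.1 ht).2.le)
      refine h1.trans ?_
      rw [← hl, ← hV]
      -- lower bound for V
      have hlogβ : m / 2 ≤ Real.log (β (J + 1)) := by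
        have h2 : m ≤ Real.log (β (J + 1) ^ 2) := Real.log_le_log hlpos hJ1.le
        rw [Real.log_pow] at h2
        push_cast at h2
        linarith
      have hVlow : D0 * (m / 2) ≤ V := by
        refine le_trans ?_ hva
        refine le_trans ?_ (L.hD J)
        exact mul_le_mul_of_nonneg_left hlogβ (by linarith)
      have hDm : 0 < D0 * (m / 2) := by
        have : 0 < D0 := by linarith
        have : 0 < m := by linarith
        positivity
      set k : ℕ := ⌈l / V⌉₊ with hk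
      have hkle : (k : ℝ) ≤ l / (D0 * (m / 2)) + 1 := by
        have h3 : (k : ℝ) ≤ l / V + 1 := (Nat.ceil_lt_add_one (by positivity)).le
        have h4 : l / V ≤ l / (D0 * (m / 2)) := div_le_div_of_nonneg_left hlpos.le hDm hVlow
        linarith
      have hm0 : 0 < m := by linarith
      have hD00 : 0 < D0 := by linarith
      have hklem : (k : ℝ) * m ≤ c1 / 32 * l + m := by
        have h5 : (l / (D0 * (m / 2)) + 1) * m = 2 / D0 * l + m := by
          field_simp
        have h6 : 2 / D0 ≤ c1 / 32 := by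
          rw [div_le_iff₀ hD00]
          rw [div_le_iff₀ hc1] at hD2
          linarith
        calc (k : ℝ) * m ≤ (l / (D0 * (m / 2)) + 1) * m := mul_le_mul_of_nonneg_right hkle hm0.le
          _ = 2 / D0 * l + m := h5
          _ ≤ c1 / 32 * l + m := by
              have := mul_le_mul_of_nonneg_right h6 hlpos.le
              linarith
      have hDm2 : 2 ≤ D0 * (m / 2) := by nlinarith
      have hkl : (k : ℝ) ≤ l := by
        have h7 : l / (D0 * (m / 2)) ≤ l / 2 := div_le_div_of_nonneg_left hlpos.le (by norm_num) hDm2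
        linarith
      have h2k : 2 * (k : ℝ) ≤ c1 / 8 * l := by
        have h8 : l / (D0 * (m / 2)) ≤ c1 / 32 * l := by
          rw [div_le_iff₀ hDm]
          have h9 : 1 ≤ c1 / 32 * (D0 * (m / 2)) := by
            have h10 : 64 ≤ m * c1 := by rwa [div_le_iff₀ hc1] at hmc
            nlinarith
          nlinarith
        have h11 : 2 ≤ c1 / 16 * l := by
          rw [div_le_iff₀ hc1] at q5
          linarith
        linarith
      have hfac : (k.factorial : ℝ) ≤ Real.exp (c1 / 32 * l) * l := by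
        have h12 : (k.factorial : ℝ) ≤ (k : ℝ) ^ k := by exact_mod_cast Nat.factorial_le_pow k
        have h13 : (k : ℝ) ^ k ≤ l ^ k := pow_le_pow_left₀ (Nat.cast_nonneg _) hkl k
        have h14 : l ^ k = Real.exp (k * m) := by
          rw [Real.exp_nat_mul, hm, Real.exp_log hlpos]
        refine h12.trans (h13.trans ?_)
        rw [h14]
        calc Real.exp (k * m) ≤ Real.exp (c1 / 32 * l + m) := Real.exp_le_exp.2 hklem
          _ = Real.exp (c1 / 32 * l) * l := by rw [Real.exp_add, hm, Real.exp_log hlpos]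
      have hVl : V ≤ c1 / 16 * l := by
        have h15 : V ^ 2 ≤ l := (pow_le_pow_left₀ hV0.le hVβ 2).trans hJ0
        have h16 : l ≤ (c1 / 16 * l) ^ 2 := by
          have h17 : 1 ≤ (c1 / 16) ^ 2 * l := by
            have h18 : (c1 / 16) ^ 2 * (16 / c1) ^ 2 = 1 := by field_simp
            calc (1 : ℝ) = (c1 / 16) ^ 2 * (16 / c1) ^ 2 := h18.symm
              _ ≤ (c1 / 16) ^ 2 * l := mul_le_mul_of_nonneg_left q3 (by positivity)
          calc l = 1 * l := (one_mul _).symm
            _ ≤ ((c1 / 16) ^ 2 * l) * l := mul_le_mul_of_nonneg_right h17 hlpos.le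
            _ = (c1 / 16 * l) ^ 2 := by ring
        exact (abs_le_of_sq_le_sq' (h15.trans h16) (by positivity)).2
      have hXα : X ^ (2 * L.α J) ≤ Real.exp (c1 / 8 * l) := by
        rw [Real.rpow_def_of_pos hX0, ← hl]
        refine Real.exp_le_exp.2 ?_
        nlinarith
      rw [hB]
      refine mul_le_mul ?_ hXα (by positivity) (by positivity)
      refine mul_le_mul ?_ hfac (by positivity) (by positivity)
      refine mul_le_mul ?_ (Real.exp_le_exp.2 h2k) (by positivity) (by positivity)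
      refine mul_le_mul_of_nonneg_left (Real.exp_le_exp.2 hVl) (by positivity)
    have hB0 : 0 ≤ B := by rw [hB]; positivity
    have hcard2 : (S.card : ℝ) ≤ l ^ 2 * B := by
      refine hcard1.trans ((Finset.sum_le_card_nsmul _ _ _ hbound).trans ?_)
      rw [nsmul_eq_mul, Nat.card_Ico]
      refine mul_le_mul_of_nonneg_right ?_ hB0
      have h1 : ((L.b J - L.a J : ℕ) : ℝ) ≤ L.b J := by exact_mod_cast Nat.sub_le _ _
      have h2 : (L.b J : ℝ) = β J * L.K J := by
        rw [hβ]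
        have := (hKpos J).ne'
        field_simp
      have h3 : (L.K J : ℝ) ≤ β J ^ 3 := L.hpoly J
      calc ((L.b J - L.a J : ℕ) : ℝ) ≤ β J * L.K J := h1.trans h2.le
        _ ≤ β J * β J ^ 3 := mul_le_mul_of_nonneg_left h3 (hβ0 J).le
        _ = (β J ^ 2) ^ 2 := by ring
        _ ≤ l ^ 2 := pow_le_pow_left₀ (by positivity) hJ0 2
    refine hcard2.trans ?_
    have hpoly : C * (1 + l) * l ^ 3 ≤ Real.exp (c1 / 16 * l) := by
      have h1 := Real.pow_div_factorial_le_exp (c1 / 16 * l) (by positivity) 5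
      have h2 : ((5 : ℕ).factorial : ℝ) = 120 := by norm_num [Nat.factorial]
      rw [h2] at h1
      refine le_trans ?_ h1
      rw [le_div_iff₀ (by norm_num)]
      have h3 : 240 * C ≤ (c1 / 16) ^ 5 * l := by
        have h4 : (c1 / 16) ^ 5 * (240 * C * (16 / c1) ^ 5) = 240 * C := by field_simp
        calc 240 * C = (c1 / 16) ^ 5 * (240 * C * (16 / c1) ^ 5) := h4.symm
          _ ≤ (c1 / 16) ^ 5 * l := mul_le_mul_of_nonneg_left q4 (by positivity)
      calc C * (1 + l) * l ^ 3 * 120 ≤ C * (l + l) * l ^ 3 * 120 := by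
            have : C * (1 + l) ≤ C * (l + l) := mul_le_mul_of_nonneg_left (by linarith) hC.le
            have h5 : (0 : ℝ) ≤ l ^ 3 * 120 := by positivity
            nlinarith
        _ = 240 * C * l ^ 4 := by ring
        _ ≤ ((c1 / 16) ^ 5 * l) * l ^ 4 := mul_le_mul_of_nonneg_right h3 (by positivity)
        _ = (c1 / 16 * l) ^ 5 := by ring
    have hfin : l ^ 2 * B = (C * (1 + l) * l ^ 3) * Real.exp (c1 / 16 * l + c1 / 8 * l +
        c1 / 32 * l + c1 / 8 * l) := by
      rw [hB, Real.exp_add, Real.exp_add, Real.exp_add]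
      ring
    rw [hfin, Real.rpow_def_of_pos hX0, ← hl]
    calc (C * (1 + l) * l ^ 3) * Real.exp (c1 / 16 * l + c1 / 8 * l + c1 / 32 * l + c1 / 8 * l)
        ≤ Real.exp (c1 / 16 * l) * Real.exp (c1 / 16 * l + c1 / 8 * l + c1 / 32 * l + c1 / 8 * l) :=
          mul_le_mul_of_nonneg_right hpoly (Real.exp_pos _).le
      _ = Real.exp (c1 / 16 * l + (c1 / 16 * l + c1 / 8 * l + c1 / 32 * l + c1 / 8 * l)) := by
          rw [← Real.exp_add]
      _ ≤ Real.exp (l * c1) := by
          refine Real.exp_le_exp.2 ?_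
          have : 0 ≤ c1 * l := by positivity
          nlinarith

end Pool.MP_67663b_nt.MR
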