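import Pool.Agent.Lib.MP_67663b_nt.MR.LevelsBound
import Pool.Agent.Lib.MP_67663b_nt.MR.USmall
import Pool.Agent.Lib.MP_67663b_nt.MR.Params
import Pool.Agent.Lib.MP_67663b_nt.MR.FinalU

set_option autoImplicit false
open Filter Topology MeasureTheory
namespace Pool.MP_67663b_nt.MR
open Pool.MP_67663b_nt.Odd

theorem MeanG_meas_U {κ a0 D0 : ℝ} (L : Lev κ a0 D0) (J : ℕ) (T : ℝ) : MeasurableSet (L.U J T) := by
  have : L.U J T = Set.Icc (-T) T ∩ ⋂ j ∈ Finset.range (J + 1), ⋃ v ∈ Finset.Ico (L.a j) (L.b j),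
      {t | Real.exp ((1 - L.α j) * ((v : ℝ) / L.K j)) < ‖Qp (L.K j) v t‖} := by
    ext t
    simp only [Lev.U, Set.mem_ofPred_eq, Set.mem_inter_iff, Set.mem_iInter, Finset.mem_range, Set.mem_iUnion,
      exists_prop, Nat.lt_succ_iff]
  rw [this]
  refine measurableSet_Icc.inter (Finset.measurableSet_biInter _ fun j _ =>
    Finset.measurableSet_biUnion _ fun v _ => ?_)
  exact (isOpen_lt continuous_const (continuous_Qp _ _).norm).measurableSet

/-- Mean square of the Liouville polynomial. -/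
theorem mean_G {ε : ℝ} (hε : 0 < ε) : ∃ H0 : ℝ, 1 ≤ H0 ∧ ∀ H ≥ H0, ∃ X0 : ℝ, ∀ X ≥ X0, ∀ T : ℝ, X / H ≤ T → T ≤ X →
    ∫ t in (-T)..T, ‖Gp X t‖ ^ 2 ≤ ε * (T * H * X) := by
  obtain ⟨C, hC, hlev⟩ := levels_bound
  obtain ⟨c1, hc1, hfin⟩ := final_U
  obtain ⟨a0, ha0, ha1, D0, hD0, hU⟩ := U_small hc1
  set κ : ℝ := min 1 (ε / (4 * C)) with hκ
  have hκ0 : 0 < κ := lt_min one_pos (by positivity)
  obtain ⟨L⟩ := exists_lev hκ0 ha0 ha1 hD0
  obtain ⟨X1, hX1⟩ := hU κ L
  obtain ⟨X2, hX2⟩ := hfin (ε / 2) (by positivity)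
  refine ⟨Real.exp ((L.b 0 : ℝ) / L.K 0), Real.one_le_exp (by positivity), fun H hH => ?_⟩
  have hH1 : 1 ≤ H := le_trans (Real.one_le_exp (by positivity)) hH
  have hH0 : 0 < H := by linarith
  refine ⟨max X1 (max X2 H), fun X hX T hT hTX => ?_⟩
  have hXX1 : X1 ≤ X := (le_max_left _ _).trans hX
  have hXX2 : X2 ≤ X := ((le_max_left _ _).trans (le_max_right _ _)).trans hX
  have hXH : H ≤ X := ((le_max_right _ _).trans (le_max_right _ _)).trans hX
  have hX0 : 0 < X := by linarith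
  obtain ⟨J, hJ, hJS⟩ := hX1 X hXX1
  have hT1 : 1 ≤ T := le_trans (by rw [le_div_iff₀ hH0]; linarith) hT
  have hUm := MeanG_meas_U L J T
  have hUI : L.U J T ⊆ Set.Icc (-T) T := fun t ht => ht.1
  have hIX : Set.Icc (-T) T ⊆ Set.Icc (-X) X := Set.Icc_subset_Icc (by linarith) hTX
  have h1 := hlev κ a0 D0 L (min_le_left _ _) (by linarith) J X T H hH hXH hJ hT hTX
  have h2 := hX2 X hXX2 (L.U J T) hUm (hUI.trans hIX) (fun S hS hSU => hJS S hS
    (fun t ht => abs_le.mpr (hIX (hUI (hSU t ht)))) (fun t ht => (hSU t ht).2 J le_rfl))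
  have hGc : Continuous (fun t => ‖Gp X t‖ ^ 2) := (continuous_Gp X).norm.pow 2
  have hIi : IntegrableOn (fun t => ‖Gp X t‖ ^ 2) (Set.Icc (-T) T) :=
    hGc.continuousOn.integrableOn_compact isCompact_Icc
  have h3 : ∫ t in (-T)..T, ‖Gp X t‖ ^ 2 = (∫ t in Set.Icc (-T) T \ L.U J T, ‖Gp X t‖ ^ 2) +
      ∫ t in L.U J T, ‖Gp X t‖ ^ 2 := by
    rw [intervalIntegral.integral_of_le (by linarith), ← integral_Icc_eq_integral_Ioc,
      ← setIntegral_union Set.disjoint_sdiff_left hUm (hIi.mono_set Set.sdiff_subset) (hIi.mono_set hUI),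
      Set.sdiff_union_of_subset hUI]
  rw [h3]
  have hXTH : X ≤ T * H := by
    rw [div_le_iff₀ hH0] at hT
    exact hT
  have hX2' : X ^ 2 ≤ T * H * X := by nlinarith
  have hκε : C * κ ≤ ε / 4 := by
    have : κ ≤ ε / (4 * C) := min_le_right _ _
    rw [le_div_iff₀ (by positivity)] at this
    linarith
  have hp : 0 ≤ T * H * X := by positivity
  nlinarith

theorem MeanG_card (X : ℝ) (hX : 1 ≤ X) : ∑ n ∈ seg X (4 * X), ‖((lam n : ℝ) : ℂ)‖ ^ 2 ≤ 4 * X := by
  simp only [norm_lam, one_pow, Finset.sum_const, nsmul_eq_mul, mul_one]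
  have := card_seg_le (x := X) (y := 4 * X) (by linarith) (by linarith)
  linarith

theorem MeanG_mvt : ∃ C : ℝ, 0 < C ∧ ∀ X T : ℝ, 1 ≤ X → X ≤ T →
    ∫ t in (-T)..T, ‖Gp X t‖ ^ 2 ≤ C * (T * X) := by
  obtain ⟨C, hC, h⟩ := mvt
  refine ⟨20 * C, by positivity, fun X T hX hT => ?_⟩
  have h1 := h ⌊4 * X⌋₊ (seg X (4 * X)) (fun m => (lam m : ℂ)) T (by linarith) seg_subset
  have h2 := MeanG_card X hX
  have h3 : (⌊4 * X⌋₊ : ℝ) ≤ 4 * X := Nat.floor_le (by linarith)
  unfold Gp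
  refine h1.trans ?_
  have h4 : 0 ≤ ∑ n ∈ seg X (4 * X), ‖((lam n : ℝ) : ℂ)‖ ^ 2 := Finset.sum_nonneg fun _ _ => by positivity
  have h5 : T + ⌊4 * X⌋₊ ≤ 5 * T := by linarith
  have h6 : 0 ≤ C * (5 * T) := by
    have : 0 < T := by linarith
    positivity
  calc C * (T + ⌊4 * X⌋₊) * ∑ n ∈ seg X (4 * X), ‖((lam n : ℝ) : ℂ)‖ ^ 2
      ≤ C * (5 * T) * ∑ n ∈ seg X (4 * X), ‖((lam n : ℝ) : ℂ)‖ ^ 2 := by gcongr
    _ ≤ C * (5 * T) * (4 * X) := mul_le_mul_of_nonneg_left h2 h6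
    _ = _ := by ring

/-- The weight is dominated by a sum over dyadic scales. -/
theorem MeanG_wt_le {T0 t : ℝ} (hT0 : 0 < T0) {n : ℕ} (ht : |t| ≤ 2 ^ n * T0) :
    wt T0 t ≤ ∑ k ∈ Finset.range (n + 1), if |t| ≤ 2 ^ k * T0 then 4 * (1 / 4 : ℝ) ^ k else 0 := by
  classical
  have hex : ∃ k, |t| ≤ 2 ^ k * T0 := ⟨n, ht⟩
  set k := Nat.find hex with hk
  have hks : |t| ≤ 2 ^ k * T0 := Nat.find_spec hex
  have hkn : k ≤ n := Nat.find_min' hex ht
  have h1 : (if |t| ≤ 2 ^ k * T0 then 4 * (1 / 4 : ℝ) ^ k else 0) ≤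
      ∑ k ∈ Finset.range (n + 1), if |t| ≤ 2 ^ k * T0 then 4 * (1 / 4 : ℝ) ^ k else 0 := by
    refine Finset.single_le_sum (f := fun k => if |t| ≤ 2 ^ k * T0 then 4 * (1 / 4 : ℝ) ^ k else 0) (fun j _ => ?_)
      (Finset.mem_range.mpr (by omega))
    positivity
  refine le_trans ?_ h1
  rw [if_pos hks]
  unfold wt
  split_ifs with h0
  · have : k = 0 := by
      rw [hk, Nat.find_eq_zero]
      simpa using h0
    rw [this]
    norm_num
  · have hk0 : k ≠ 0 := by
      intro hk0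
      rw [hk0] at hks
      simp at hks
      exact h0 hks
    obtain ⟨j, hj⟩ := Nat.exists_eq_succ_of_ne_zero hk0
    have hlt : ¬ |t| ≤ 2 ^ j * T0 := Nat.find_min hex (by omega)
    push Not at hlt
    have ht0 : 0 < |t| := lt_of_le_of_lt (by positivity) hlt
    have e : (T0 / t) ^ 2 = (T0 / |t|) ^ 2 := by
      rw [div_pow, div_pow, sq_abs]
    rw [e, hj]
    have h2 : T0 / |t| ≤ (1 / 2) ^ j := by
      rw [div_le_iff₀ ht0]
      calc T0 = (1 / 2 : ℝ) ^ j * (2 ^ j * T0) := by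
            rw [← mul_assoc, ← mul_pow]
            norm_num
        _ ≤ _ := by gcongr
    calc (T0 / |t|) ^ 2 ≤ ((1 / 2) ^ j) ^ 2 := by gcongr
      _ = (1 / 4 : ℝ) ^ j := by
          rw [← pow_mul, mul_comm, pow_mul]
          norm_num
      _ = 4 * (1 / 4 : ℝ) ^ (j + 1) := by
          rw [pow_succ]
          ring

/-- Weighted version. -/
theorem weighted_G {ε : ℝ} (hε : 0 < ε) : ∃ H0 : ℝ, 1 ≤ H0 ∧ ∀ H ≥ H0, ∃ X0 : ℝ, ∀ X ≥ X0,
    ∫ t : ℝ, ‖Gp X t‖ ^ 2 * wt (X / H) t ≤ ε * X ^ 2 := by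
  obtain ⟨H1, hH1, hm⟩ := mean_G (show 0 < ε / 16 by positivity)
  obtain ⟨C, hC, hmv⟩ := MeanG_mvt
  refine ⟨max H1 (16 * C / ε), hH1.trans (le_max_left _ _), fun H hH => ?_⟩
  have hHH1 : H1 ≤ H := (le_max_left _ _).trans hH
  have hH0 : 0 < H := by linarith
  have hCH : C / H ≤ ε / 16 := by
    have h1 : 16 * C / ε ≤ H := (le_max_right _ _).trans hH
    rw [div_le_iff₀ hε] at h1
    rw [div_le_iff₀ hH0]
    linarith
  obtain ⟨X1, hX1⟩ := hm H hHH1
  refine ⟨max X1 1, fun X hX => ?_⟩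
  have hXX1 : X1 ≤ X := (le_max_left _ _).trans hX
  have hX1' : 1 ≤ X := (le_max_right _ _).trans hX
  have hX0 : 0 < X := by linarith
  set T0 : ℝ := X / H with hT0
  have hT0p : 0 < T0 := by positivity
  have hTH : T0 * H = X := by
    rw [hT0]
    field_simp
  set f : ℝ → ℝ := fun t => ‖Gp X t‖ ^ 2 with hf
  have hfc : Continuous f := (continuous_Gp X).norm.pow 2
  have hf0 : ∀ t, 0 ≤ f t := fun t => by positivity
  have hIi : ∀ R : ℝ, IntegrableOn f (Set.Icc (-R) R) := fun R =>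
    hfc.continuousOn.integrableOn_compact isCompact_Icc
  have hscale : ∀ k : ℕ, ∫ t in Set.Icc (-(2 ^ k * T0)) (2 ^ k * T0), f t ≤ 2 ^ k * ((ε / 16 + C / H) * X ^ 2) := by
    intro k
    have hT : T0 ≤ 2 ^ k * T0 := le_mul_of_one_le_left hT0p.le (one_le_pow₀ (by norm_num))
    rw [integral_Icc_eq_integral_Ioc, ← intervalIntegral.integral_of_le (by linarith)]
    rcases le_or_gt (2 ^ k * T0) X with h | h
    · refine (hX1 X hXX1 (2 ^ k * T0) hT h).trans ?_
      have e : ε / 16 * (2 ^ k * T0 * H * X) = 2 ^ k * (ε / 16 * X ^ 2) := by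
        rw [mul_assoc ((2 : ℝ) ^ k) T0 H, hTH]
        ring
      rw [e]
      have : 0 ≤ C / H * X ^ 2 := by positivity
      have h2 : (0 : ℝ) < 2 ^ k := by positivity
      nlinarith
    · refine (hmv X (2 ^ k * T0) hX1' h.le).trans ?_
      have e : C * (2 ^ k * T0 * X) = 2 ^ k * (C / H * X ^ 2) := by
        rw [hT0]
        ring
      rw [e]
      have : 0 ≤ ε / 16 * X ^ 2 := by positivity
      have h2 : (0 : ℝ) < 2 ^ k := by positivity
      nlinarith
  have hbound : ∀ n : ℕ, ∫ t in Set.Icc (-(2 ^ n * T0)) (2 ^ n * T0), f t * wt T0 t ≤ ε * X ^ 2 := by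
    intro n
    set g : ℝ → ℝ := fun t => ∑ k ∈ Finset.range (n + 1),
      4 * (1 / 4 : ℝ) ^ k * (Set.Icc (-(2 ^ k * T0)) (2 ^ k * T0)).indicator f t with hg
    have hgi : ∀ k ∈ Finset.range (n + 1), Integrable (fun t =>
      4 * (1 / 4 : ℝ) ^ k * (Set.Icc (-(2 ^ k * T0)) (2 ^ k * T0)).indicator f t) := fun k _ =>
      ((integrable_indicator_iff measurableSet_Icc).mpr (hIi _)).const_mul _
    have hgI : Integrable g := integrable_finsetSum _ hgi
    have hg0 : ∀ t, 0 ≤ g t := fun t => Finset.sum_nonneg fun k _ =>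
      mul_nonneg (by positivity) (Set.indicator_nonneg (fun t _ => hf0 t) t)
    have hwt0 : ∀ t, 0 ≤ wt T0 t := by
      intro t
      unfold wt
      split_ifs
      · exact zero_le_one
      · positivity
    calc ∫ t in Set.Icc (-(2 ^ n * T0)) (2 ^ n * T0), f t * wt T0 t
        ≤ ∫ t in Set.Icc (-(2 ^ n * T0)) (2 ^ n * T0), g t := by
          refine integral_mono_of_nonneg (Eventually.of_forall fun t => mul_nonneg (hf0 t) (hwt0 t)) hgI.integrableOn ?_
          · filter_upwards [ae_restrict_mem measurableSet_Icc] with t ht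
            have ht' : |t| ≤ 2 ^ n * T0 := abs_le.mpr ht
            have h1 := MeanG_wt_le hT0p ht'
            calc f t * wt T0 t ≤ f t * ∑ k ∈ Finset.range (n + 1), (if |t| ≤ 2 ^ k * T0 then 4 * (1 / 4 : ℝ) ^ k else 0) :=
                  mul_le_mul_of_nonneg_left h1 (hf0 t)
              _ = g t := by
                  rw [Finset.mul_sum, hg]
                  refine Finset.sum_congr rfl fun k _ => ?_
                  by_cases hk : |t| ≤ 2 ^ k * T0
                  · have hm : t ∈ Set.Icc (-(2 ^ k * T0)) (2 ^ k * T0) := Set.mem_Icc.mpr (abs_le.mp hk)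
                    rw [if_pos hk, Set.indicator_of_mem hm]
                    ring
                  · have hm : t ∉ Set.Icc (-(2 ^ k * T0)) (2 ^ k * T0) :=
                      fun h => hk (abs_le.mpr (Set.mem_Icc.mp h))
                    rw [if_neg hk, Set.indicator_of_notMem hm]
                    ring
      _ ≤ ∫ t, g t := setIntegral_le_integral hgI (Eventually.of_forall hg0)
      _ = ∑ k ∈ Finset.range (n + 1), 4 * (1 / 4 : ℝ) ^ k * ∫ t in Set.Icc (-(2 ^ k * T0)) (2 ^ k * T0), f t := by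
          rw [hg, integral_finsetSum _ hgi]
          refine Finset.sum_congr rfl fun k _ => ?_
          rw [integral_const_mul, integral_indicator measurableSet_Icc]
      _ ≤ ∑ k ∈ Finset.range (n + 1), 4 * (1 / 4 : ℝ) ^ k * (2 ^ k * ((ε / 16 + C / H) * X ^ 2)) := by
          gcongr with k hk
          exact hscale k
      _ = (4 * ((ε / 16 + C / H) * X ^ 2)) * ∑ k ∈ Finset.range (n + 1), (1 / 2 : ℝ) ^ k := by
          rw [Finset.mul_sum]
          refine Finset.sum_congr rfl fun k _ => ?_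
          have : (1 / 2 : ℝ) ^ k = (1 / 4) ^ k * 2 ^ k := by
            rw [← mul_pow]
            norm_num
          rw [this]
          ring
      _ ≤ (4 * ((ε / 16 + C / H) * X ^ 2)) * 2 := by
          have hs : ∑ k ∈ Finset.range (n + 1), (1 / 2 : ℝ) ^ k ≤ 2 := by
            rw [geom_sum_eq (by norm_num)]
            have : (0 : ℝ) < (1 / 2) ^ (n + 1) := by positivity
            norm_num
            linarith
          gcongr
      _ ≤ ε * X ^ 2 := by nlinarith [sq_nonneg X]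
  by_cases hI : Integrable (fun t => f t * wt T0 t)
  · have hlim : Tendsto (fun n : ℕ => ∫ t in (-(2 ^ n * T0))..(2 ^ n * T0), f t * wt T0 t) atTop
        (𝓝 (∫ t, f t * wt T0 t)) := by
      have h2 : Tendsto (fun n : ℕ => (2 : ℝ) ^ n * T0) atTop atTop :=
        (tendsto_pow_atTop_atTop_of_one_lt (by norm_num)).atTop_mul_const hT0p
      exact intervalIntegral_tendsto_integral hI (tendsto_neg_atTop_atBot.comp h2) h2
    refine le_of_tendsto hlim (Eventually.of_forall fun n => ?_)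
    have hn : (0 : ℝ) ≤ 2 ^ n * T0 := by positivity
    rw [intervalIntegral.integral_of_le (by linarith), ← integral_Icc_eq_integral_Ioc]
    exact hbound n
  · rw [integral_undef hI]
    positivity

end Pool.MP_67663b_nt.MR
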