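import Pool.Agent.Lib.MP_67663b_nt.MR.MDefs

set_option autoImplicit false
open Filter Topology MeasureTheory
namespace Pool.MP_67663b_nt.MR
open Pool.MP_67663b_nt.Odd
open scoped FourierTransform

private noncomputable def ptri (L x : ℝ) : ℝ := max (L - |x|) 0

private lemma ptri_cont (L : ℝ) : Continuous (ptri L) := by unfold ptri; fun_prop

private lemma ptri_nonneg (L x : ℝ) : 0 ≤ ptri L x := le_max_right _ _

private lemma ptri_zero {L x : ℝ} (h : L ≤ |x|) : ptri L x = 0 :=
  max_eq_right (by linarith)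

private lemma ptri_le {L x : ℝ} (hL : 0 < L) : ptri L x ≤ L :=
  max_le (by linarith [abs_nonneg x]) hL.le

private lemma ptri_int (L : ℝ) : Integrable (ptri L) := by
  apply (ptri_cont L).integrable_of_hasCompactSupport
  apply HasCompactSupport.intro (isCompact_Icc (a := -L) (b := L))
  intro x hx
  apply ptri_zero
  by_contra h
  push Not at h
  exact hx ⟨(abs_lt.1 h).1.le, (abs_lt.1 h).2.le⟩

/-- complex valued version -/
private noncomputable def ctri (L x : ℝ) : ℂ := ((ptri L x : ℝ) : ℂ)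

private lemma ctri_cont (L : ℝ) : Continuous (ctri L) :=
  Complex.continuous_ofReal.comp (ptri_cont L)

private lemma ctri_int (L : ℝ) : Integrable (ctri L) := (ptri_int L).ofReal

private lemma ctri_support (L w : ℝ) :
    Function.support (fun v : ℝ => Complex.exp (↑(-2 * Real.pi * v * w) * Complex.I) • ctri L v) ⊆
      Set.Ioc (-L) L := by
  intro v hv
  rw [Function.mem_support] at hv
  have h : ctri L v ≠ 0 := fun h => hv (by rw [h, smul_zero])
  have h2 : |v| < L := by
    by_contra h3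
    push Not at h3
    exact h (by unfold ctri; rw [ptri_zero h3]; simp)
  exact ⟨(abs_lt.1 h2).1, (abs_lt.1 h2).2.le⟩

private lemma norm_e (x : ℝ) : ‖Complex.exp ((x : ℂ) * Complex.I)‖ = 1 :=
  Complex.norm_exp_ofReal_mul_I x

private lemma ctri_ft_le1 {L : ℝ} (hL : 0 < L) (w : ℝ) : ‖𝓕 (ctri L) w‖ ≤ 2 * L ^ 2 := by
  rw [Real.fourier_real_eq_integral_exp_smul,
    ← intervalIntegral.integral_eq_integral_of_support_subset (ctri_support L w)]
  have := intervalIntegral.norm_integral_le_of_norm_le_const (a := -L) (b := L) (C := L)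
    (f := fun v : ℝ => Complex.exp (↑(-2 * Real.pi * v * w) * Complex.I) • ctri L v) (by
      intro v _
      rw [norm_smul, norm_e, one_mul]
      unfold ctri
      rw [Complex.norm_real, Real.norm_eq_abs, abs_of_nonneg (ptri_nonneg L v)]
      exact ptri_le hL)
  refine this.trans (le_of_eq ?_)
  rw [abs_of_nonneg (by linarith)]
  ring

private lemma der_e (om v : ℝ) : HasDerivAt (fun v : ℝ => Complex.exp (↑(-om * v) * Complex.I))
    (-(om * Complex.I) * Complex.exp (↑(-om * v) * Complex.I)) v := by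
  have h2 : HasDerivAt (fun v : ℝ => -om * v) (-om) v := by
    simpa using (hasDerivAt_id v).const_mul (-om)
  have := ((h2.ofReal_comp).mul_const Complex.I).cexp
  convert this using 1
  push_cast
  ring

private lemma half1 (L om : ℝ) (hom : om ≠ 0) :
    ∫ v in (0:ℝ)..L, Complex.exp (↑(-om * v) * Complex.I) * ((L - v : ℝ) : ℂ) =
      -Complex.exp (↑(-om * L) * Complex.I) / om ^ 2 - L * (Complex.I / om) + 1 / om ^ 2 := by
  have hom' : (om : ℂ) ≠ 0 := by exact_mod_cast hom
  have hd : ∀ v ∈ Set.uIcc (0:ℝ) L, HasDerivAt (fun v : ℝ =>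
      ((L - v : ℝ) : ℂ) * (Complex.I / om * Complex.exp (↑(-om * v) * Complex.I)) -
        Complex.exp (↑(-om * v) * Complex.I) / om ^ 2)
      (Complex.exp (↑(-om * v) * Complex.I) * ((L - v : ℝ) : ℂ)) v := by
    intro v _
    have h1 : HasDerivAt (fun v : ℝ => L - v) (-1) v := by
      simpa using (hasDerivAt_id v).const_sub L
    have h2 := der_e om v
    have h3 := (h1.ofReal_comp.mul (h2.const_mul (Complex.I / om))).sub (h2.div_const ((om : ℂ) ^ 2))
    refine h3.congr_deriv ?_
    set E := Complex.exp (↑(-om * v) * Complex.I)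
    have hI : Complex.I * Complex.I = -1 := Complex.I_mul_I
    have h : (om : ℂ) * (om : ℂ)⁻¹ = 1 := mul_inv_cancel₀ hom'
    simp only [div_eq_mul_inv, Complex.ofReal_sub, Complex.ofReal_neg, Complex.ofReal_one, ← inv_pow]
    symm
    linear_combination (-(Complex.I * (om : ℂ)⁻¹ * E) + (L - v) * E * Complex.I ^ 2) * h +
      ((L - v) * E) * hI
  rw [intervalIntegral.integral_eq_sub_of_hasDerivAt hd]
  · simp
    ring
  · apply Continuous.intervalIntegrable
    fun_prop

private lemma half2 (L om : ℝ) (hom : om ≠ 0) :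
    ∫ v in (-L)..(0:ℝ), Complex.exp (↑(-om * v) * Complex.I) * ((L + v : ℝ) : ℂ) =
      -Complex.exp (↑(om * L) * Complex.I) / om ^ 2 + L * (Complex.I / om) + 1 / om ^ 2 := by
  have hom' : (om : ℂ) ≠ 0 := by exact_mod_cast hom
  have hd : ∀ v ∈ Set.uIcc (-L) (0:ℝ), HasDerivAt (fun v : ℝ =>
      ((L + v : ℝ) : ℂ) * (Complex.I / om * Complex.exp (↑(-om * v) * Complex.I)) +
        Complex.exp (↑(-om * v) * Complex.I) / om ^ 2)
      (Complex.exp (↑(-om * v) * Complex.I) * ((L + v : ℝ) : ℂ)) v := by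
    intro v _
    have h1 : HasDerivAt (fun v : ℝ => L + v) 1 v := by
      simpa using (hasDerivAt_id v).const_add L
    have h2 := der_e om v
    have h3 := (h1.ofReal_comp.mul (h2.const_mul (Complex.I / om))).add (h2.div_const ((om : ℂ) ^ 2))
    refine h3.congr_deriv ?_
    set E := Complex.exp (↑(-om * v) * Complex.I)
    have hI : Complex.I * Complex.I = -1 := Complex.I_mul_I
    have h : (om : ℂ) * (om : ℂ)⁻¹ = 1 := mul_inv_cancel₀ hom'
    simp only [div_eq_mul_inv, Complex.ofReal_add, Complex.ofReal_one, ← inv_pow]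
    symm
    linear_combination ((Complex.I * (om : ℂ)⁻¹ * E) + (L + v) * E * Complex.I ^ 2) * h +
      ((L + v) * E) * hI
  rw [intervalIntegral.integral_eq_sub_of_hasDerivAt hd]
  · simp
    ring
  · apply Continuous.intervalIntegrable
    fun_prop

private lemma ctri_ft_le2 {L : ℝ} (hL : 0 < L) {w : ℝ} (hw : w ≠ 0) :
    ‖𝓕 (ctri L) w‖ ≤ 4 / (2 * Real.pi * w) ^ 2 := by
  have hom : 2 * Real.pi * w ≠ 0 := by
    have := Real.pi_pos
    positivity
  set om : ℝ := 2 * Real.pi * w with homd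
  have hcont : Continuous (fun v : ℝ => Complex.exp (↑(-2 * Real.pi * v * w) * Complex.I) • ctri L v) := by
    have := ctri_cont L
    fun_prop
  rw [Real.fourier_real_eq_integral_exp_smul,
    ← intervalIntegral.integral_eq_integral_of_support_subset (ctri_support L w),
    ← intervalIntegral.integral_add_adjacent_intervals (b := 0)
      (hcont.intervalIntegrable _ _) (hcont.intervalIntegrable _ _)]
  have e1 : ∫ v in (-L)..(0:ℝ), Complex.exp (↑(-2 * Real.pi * v * w) * Complex.I) • ctri L v =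
      ∫ v in (-L)..(0:ℝ), Complex.exp (↑(-om * v) * Complex.I) * ((L + v : ℝ) : ℂ) := by
    apply intervalIntegral.integral_congr
    intro v hv
    rw [Set.uIcc_of_le (by linarith)] at hv
    have h1 : ptri L v = L + v := by
      unfold ptri
      rw [abs_of_nonpos hv.2, sub_neg_eq_add]
      exact max_eq_left (by linarith [hv.1])
    simp only [ctri, h1, smul_eq_mul]
    congr 4
    rw [homd]; ring
  have e2 : ∫ v in (0:ℝ)..L, Complex.exp (↑(-2 * Real.pi * v * w) * Complex.I) • ctri L v =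
      ∫ v in (0:ℝ)..L, Complex.exp (↑(-om * v) * Complex.I) * ((L - v : ℝ) : ℂ) := by
    apply intervalIntegral.integral_congr
    intro v hv
    rw [Set.uIcc_of_le hL.le] at hv
    have h1 : ptri L v = L - v := by
      unfold ptri
      rw [abs_of_nonneg hv.1]
      exact max_eq_left (by linarith [hv.2])
    simp only [ctri, h1, smul_eq_mul]
    congr 4
    rw [homd]; ring
  rw [e1, e2, half1 L om hom, half2 L om hom]
  have hom' : (om : ℂ) ≠ 0 := by exact_mod_cast hom
  have e3 : -Complex.exp (↑(om * L) * Complex.I) / (om : ℂ) ^ 2 + L * (Complex.I / om) + 1 / (om : ℂ) ^ 2 +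
      (-Complex.exp (↑(-om * L) * Complex.I) / (om : ℂ) ^ 2 - L * (Complex.I / om) + 1 / (om : ℂ) ^ 2) =
      (2 - Complex.exp (↑(om * L) * Complex.I) - Complex.exp (↑(-om * L) * Complex.I)) / (om : ℂ) ^ 2 := by
    field_simp
    ring
  rw [e3, norm_div]
  have e4 : ‖(om : ℂ) ^ 2‖ = om ^ 2 := by
    rw [norm_pow, Complex.norm_real, Real.norm_eq_abs, sq_abs]
  rw [e4]
  apply div_le_div_of_nonneg_right _ (sq_nonneg om)
  calc _ ≤ ‖(2:ℂ) - Complex.exp (↑(om * L) * Complex.I)‖ + ‖Complex.exp (↑(-om * L) * Complex.I)‖ :=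
        norm_sub_le _ _
    _ ≤ (‖(2:ℂ)‖ + ‖Complex.exp (↑(om * L) * Complex.I)‖) + ‖Complex.exp (↑(-om * L) * Complex.I)‖ :=
        add_le_add_left (norm_sub_le _ _) _
    _ = 4 := by rw [norm_e, norm_e]; norm_num

private lemma min_int (L : ℝ) : Integrable (fun t : ℝ => min (L ^ 2) (4 / t ^ 2)) := by
  have h1 : Integrable (fun t : ℝ => (2 * L ^ 2 + 8) * (1 + t ^ 2)⁻¹) :=
    integrable_inv_one_add_sq.const_mul _
  refine h1.mono' ?_ (Eventually.of_forall fun t => ?_)
  · exact (measurable_const.min (measurable_const.div (measurable_id.pow_const 2))).aestronglyMeasurable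
  · have h0 : 0 ≤ min (L ^ 2) (4 / t ^ 2) := le_min (by positivity) (by positivity)
    rw [Real.norm_eq_abs, abs_of_nonneg h0, ← div_eq_mul_inv, le_div_iff₀ (by positivity)]
    rcases le_or_gt (t ^ 2) 1 with ht | ht
    · have h2 : min (L ^ 2) (4 / t ^ 2) ≤ L ^ 2 := min_le_left _ _
      nlinarith [sq_nonneg t]
    · have h2 : min (L ^ 2) (4 / t ^ 2) ≤ 4 / t ^ 2 := min_le_right _ _
      have h3 : 4 / t ^ 2 * t ^ 2 = 4 := div_mul_cancel₀ _ (by linarith)
      nlinarith [sq_nonneg L]

/-- the right side above is integrable -/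
theorem planch_integrable (s : Finset ℕ) (a : ℕ → ℂ) (L : ℝ) :
    Integrable (fun t : ℝ => ‖dp s a t‖ ^ 2 * min (L ^ 2) (4 / t ^ 2)) := by
  apply (min_int L).bdd_mul (c := (∑ n ∈ s, ‖a n‖) ^ 2)
  · exact ((continuous_dp s a).norm.pow 2).aestronglyMeasurable
  · refine Eventually.of_forall fun t => ?_
    rw [norm_pow, norm_norm]
    exact pow_le_pow_left₀ (norm_nonneg _) (norm_dp_le s a t) 2

private lemma ft_cont (L : ℝ) : Continuous (𝓕 (ctri L)) :=
  VectorFourier.fourierIntegral_continuous Real.continuous_fourierChar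
    (by exact continuous_inner) (ctri_int L)

private lemma ft_le {L : ℝ} (hL : 0 < L) {w : ℝ} (hw : w ≠ 0) :
    ‖𝓕 (ctri L) w‖ ≤ 2 * min (L ^ 2) (4 / (2 * Real.pi * w) ^ 2) := by
  have h1 := ctri_ft_le1 hL w
  have h2 := ctri_ft_le2 hL hw
  have h3 : 0 ≤ 4 / (2 * Real.pi * w) ^ 2 := by positivity
  rcases le_total (L ^ 2) (4 / (2 * Real.pi * w) ^ 2) with h | h
  · rw [min_eq_left h]; exact h1
  · rw [min_eq_right h]; linarith

private lemma comp_int {f : ℝ → ℝ} (hf : Integrable f) :
    Integrable (fun w : ℝ => f (2 * Real.pi * w)) :=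
  hf.comp_mul_left' (by have := Real.pi_pos; positivity)

private lemma ft_int {L : ℝ} (hL : 0 < L) : Integrable (𝓕 (ctri L)) := by
  refine ((comp_int (min_int L)).const_mul 2).mono' (ft_cont L).aestronglyMeasurable ?_
  have h0 : ∀ᵐ w : ℝ, w ≠ 0 := by
    rw [ae_iff]
    simp
  filter_upwards [h0] with w hw
  exact ft_le hL hw

private lemma inv_tri {L : ℝ} (hL : 0 < L) (x : ℝ) :
    ∫ w : ℝ, Complex.exp (↑(2 * Real.pi * w * x) * Complex.I) * 𝓕 (ctri L) w = ctri L x := by
  have h := (ctri_int L).fourierInv_fourier_eq (ft_int hL) (v := x) (ctri_cont L).continuousAt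
  rw [← h, Real.fourierInv_eq']
  congr 1
  ext w
  rw [smul_eq_mul]
  congr 4
  simp
  ring

private noncomputable def pind (L : ℝ) (n : ℕ) (u : ℝ) : ℝ :=
  if (u < Real.log n ∧ Real.log n ≤ u + L) then 1 else 0

private lemma pind_mul (L : ℝ) (m n : ℕ) (u : ℝ) : pind L n u * pind L m u =
    (Set.Ico (max (Real.log n) (Real.log m) - L) (min (Real.log n) (Real.log m))).indicator
      (fun _ => (1 : ℝ)) u := by
  unfold pind
  by_cases h : u ∈ Set.Ico (max (Real.log n) (Real.log m) - L) (min (Real.log n) (Real.log m))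
  · rw [Set.indicator_of_mem h]
    obtain ⟨h1, h2⟩ := h
    have h3 := lt_min_iff.1 h2
    have h4 : max (Real.log n) (Real.log m) ≤ u + L := by linarith
    have h5 := max_le_iff.1 h4
    rw [if_pos ⟨h3.1, h5.1⟩, if_pos ⟨h3.2, h5.2⟩, one_mul]
  · rw [Set.indicator_of_notMem h]
    by_cases h1 : (u < Real.log n ∧ Real.log n ≤ u + L)
    · have h2 : ¬(u < Real.log m ∧ Real.log m ≤ u + L) := by
        intro h2
        apply h
        constructor
        · have := max_le h1.2 h2.2
          linarith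
        · exact lt_min h1.1 h2.1
      rw [if_neg h2, mul_zero]
    · rw [if_neg h1, zero_mul]

private lemma pind_int (L : ℝ) (m n : ℕ) : Integrable (fun u => pind L n u * pind L m u) := by
  have : (fun u => pind L n u * pind L m u) =
      (Set.Ico (max (Real.log n) (Real.log m) - L) (min (Real.log n) (Real.log m))).indicator
      (fun _ => (1 : ℝ)) := by
    ext u; exact pind_mul L m n u
  rw [this, integrable_indicator_iff measurableSet_Ico]
  exact integrableOn_const (by simp)

private lemma pind_integral (L : ℝ) (m n : ℕ) :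
    ∫ u, pind L n u * pind L m u = ptri L (Real.log m - Real.log n) := by
  simp_rw [pind_mul]
  rw [integral_indicator measurableSet_Ico, setIntegral_const, smul_eq_mul, mul_one]
  simp only [Measure.real, Real.volume_Ico]
  unfold ptri
  rw [ENNReal.toReal_ofReal']
  congr 1
  rcases le_total (Real.log n) (Real.log m) with h | h
  · rw [min_eq_left h, max_eq_right h, abs_of_nonneg (by linarith)]
    ring
  · rw [min_eq_right h, max_eq_left h, abs_of_nonpos (by linarith)]
    ring

private lemma sq_expand (s : Finset ℕ) (c : ℕ → ℂ) :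
    ((‖∑ n ∈ s, c n‖ ^ 2 : ℝ) : ℂ) = ∑ n ∈ s, ∑ m ∈ s, c n * (starRingEnd ℂ) (c m) := by
  push_cast
  rw [← Complex.mul_conj', map_sum, Finset.sum_mul_sum]

private lemma lhs_eq (s : Finset ℕ) (a : ℕ → ℂ) (L : ℝ) :
    ((∫ u : ℝ, ‖∑ n ∈ s.filter (fun n : ℕ => u < Real.log n ∧ Real.log n ≤ u + L), a n‖ ^ 2 : ℝ) : ℂ) =
      ∑ n ∈ s, ∑ m ∈ s, a n * (starRingEnd ℂ) (a m) * ctri L (Real.log m - Real.log n) := by
  rw [← integral_complex_ofReal]
  have e : ∀ u : ℝ, ((‖∑ n ∈ s.filter (fun n : ℕ => u < Real.log n ∧ Real.log n ≤ u + L), a n‖ ^ 2 : ℝ) : ℂ)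
      = ∑ n ∈ s, ∑ m ∈ s, a n * (starRingEnd ℂ) (a m) * ((pind L n u * pind L m u : ℝ) : ℂ) := by
    intro u
    have e1 : ∑ n ∈ s.filter (fun n : ℕ => u < Real.log n ∧ Real.log n ≤ u + L), a n =
        ∑ n ∈ s, a n * ((pind L n u : ℝ) : ℂ) := by
      rw [Finset.sum_filter]
      refine Finset.sum_congr rfl fun n _ => ?_
      unfold pind
      split_ifs <;> simp
    rw [e1, sq_expand]
    refine Finset.sum_congr rfl fun n _ => Finset.sum_congr rfl fun m _ => ?_
    rw [map_mul, Complex.conj_ofReal]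
    push_cast
    ring
  simp_rw [e]
  rw [integral_finsetSum]
  · refine Finset.sum_congr rfl fun n _ => ?_
    rw [integral_finsetSum]
    · refine Finset.sum_congr rfl fun m _ => ?_
      rw [integral_const_mul, integral_complex_ofReal, pind_integral]
      rfl
    · intro m _
      exact ((pind_int L m n).ofReal).const_mul _
  · intro n _
    refine integrable_finsetSum _ fun m _ => ?_
    exact ((pind_int L m n).ofReal).const_mul _

private lemma rhs_eq (s : Finset ℕ) (a : ℕ → ℂ) {L : ℝ} (hL : 0 < L) :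
    ∑ n ∈ s, ∑ m ∈ s, a n * (starRingEnd ℂ) (a m) * ctri L (Real.log m - Real.log n) =
      ∫ w : ℝ, ((‖dp s a (2 * Real.pi * w)‖ ^ 2 : ℝ) : ℂ) * 𝓕 (ctri L) w := by
  have hint : ∀ x : ℝ, Integrable (fun w : ℝ =>
      Complex.exp (↑(2 * Real.pi * w * x) * Complex.I) * 𝓕 (ctri L) w) := by
    intro x
    apply (ft_int hL).bdd_mul (c := 1)
    · apply Continuous.aestronglyMeasurable
      fun_prop
    · exact Eventually.of_forall fun w => (norm_e _).le
  have e : ∀ w : ℝ, ((‖dp s a (2 * Real.pi * w)‖ ^ 2 : ℝ) : ℂ) * 𝓕 (ctri L) w =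
      ∑ n ∈ s, ∑ m ∈ s, a n * (starRingEnd ℂ) (a m) *
        (Complex.exp (↑(2 * Real.pi * w * (Real.log m - Real.log n)) * Complex.I) * 𝓕 (ctri L) w) := by
    intro w
    unfold dp
    rw [sq_expand, Finset.sum_mul]
    refine Finset.sum_congr rfl fun n _ => ?_
    rw [Finset.sum_mul]
    refine Finset.sum_congr rfl fun m _ => ?_
    have e1 : ep (2 * Real.pi * w) n * (starRingEnd ℂ) (ep (2 * Real.pi * w) m) =
        Complex.exp (↑(2 * Real.pi * w * (Real.log m - Real.log n)) * Complex.I) := by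
      rw [← ep_neg]
      unfold ep
      rw [← Complex.exp_add]
      congr 1
      push_cast
      ring
    rw [map_mul, ← e1]
    ring
  simp_rw [e]
  rw [integral_finsetSum]
  · refine Finset.sum_congr rfl fun n _ => ?_
    rw [integral_finsetSum]
    · refine Finset.sum_congr rfl fun m _ => ?_
      rw [integral_const_mul, inv_tri hL]
    · intro m _
      exact (hint _).const_mul _
  · intro n _
    refine integrable_finsetSum _ fun m _ => ?_
    exact (hint _).const_mul _

/-- Plancherel for step functions (the true constant is `1/(2π)`). The Fourier transform of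
`u ↦ ∑ a_n 1[u < log n ≤ u + L]` is `dp s a t (e^{iLt}-1)/(it)` (up to sign conventions). Either use Plancherel from
Mathlib or expand both sides with the Fourier pair triangle / Fejer kernel. The right side is integrable. -/
theorem planch_step (s : Finset ℕ) (a : ℕ → ℂ) {L : ℝ} (hL : 0 < L) (hs : ∀ n ∈ s, 1 ≤ n) :
    ∫ u : ℝ, ‖∑ n ∈ s.filter (fun n : ℕ => u < Real.log n ∧ Real.log n ≤ u + L), a n‖ ^ 2 ≤
      ∫ t : ℝ, ‖dp s a t‖ ^ 2 * min (L ^ 2) (4 / t ^ 2) := by
  set A : ℝ := ∫ u : ℝ, ‖∑ n ∈ s.filter (fun n : ℕ => u < Real.log n ∧ Real.log n ≤ u + L), a n‖ ^ 2 with hA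
  set G : ℝ → ℝ := fun t => ‖dp s a t‖ ^ 2 * min (L ^ 2) (4 / t ^ 2) with hG
  have h1 : (A : ℂ) = ∫ w : ℝ, ((‖dp s a (2 * Real.pi * w)‖ ^ 2 : ℝ) : ℂ) * 𝓕 (ctri L) w := by
    rw [hA, lhs_eq, rhs_eq s a hL]
  have hA0 : 0 ≤ A := integral_nonneg fun u => by positivity
  have h2 : A = ‖(A : ℂ)‖ := by
    rw [Complex.norm_real, Real.norm_eq_abs, abs_of_nonneg hA0]
  have hGi : Integrable G := planch_integrable s a L
  have h3 : ‖(A : ℂ)‖ ≤ ∫ w : ℝ, 2 * G (2 * Real.pi * w) := by
    rw [h1]
    apply norm_integral_le_of_norm_le ((comp_int hGi).const_mul 2)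
    have h0 : ∀ᵐ w : ℝ, w ≠ 0 := by
      rw [ae_iff]
      simp
    filter_upwards [h0] with w hw
    rw [norm_mul, Complex.norm_real, Real.norm_eq_abs, abs_of_nonneg (by positivity)]
    have := mul_le_mul_of_nonneg_left (ft_le hL hw) (sq_nonneg ‖dp s a (2 * Real.pi * w)‖)
    calc _ ≤ _ := this
      _ = _ := by rw [hG]; ring
  have hG0 : 0 ≤ ∫ t, G t := integral_nonneg fun t => by
    rw [hG]; positivity
  have h4 : ∫ w : ℝ, 2 * G (2 * Real.pi * w) = 2 * ((2 * Real.pi)⁻¹ * ∫ t, G t) := by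
    rw [integral_const_mul, Measure.integral_comp_mul_left G (2 * Real.pi), smul_eq_mul,
      abs_of_nonneg (by have := Real.pi_pos; positivity)]
  rw [h2]
  refine h3.trans ?_
  rw [h4]
  have hpi := Real.pi_gt_three
  have h5 : 2 * (2 * Real.pi)⁻¹ ≤ 1 := by
    rw [← div_eq_mul_inv, div_le_one (by positivity)]
    linarith
  rw [← mul_assoc]
  exact mul_le_of_le_one_left hG0 h5

end Pool.MP_67663b_nt.MR
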