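import Pool.Agent.Lib.MP_67663b_nt.MR.ExpSum

set_option autoImplicit false
open Filter Topology MeasureTheory
namespace Pool.MP_67663b_nt.MR
open Pool.MP_67663b_nt.Odd

/-- trapezoid: `0` outside `[M/2, 8M]`, `1` on `[M, 4M]`, linear in between -/
noncomputable def trap (M x : ℝ) : ℝ := max 0 (min 1 (min ((x - M / 2) / (M / 2)) ((8 * M - x) / (4 * M))))

theorem trap_nonneg (M x : ℝ) : 0 ≤ trap M x := le_max_left _ _

theorem trap_le_one (M x : ℝ) : trap M x ≤ 1 := max_le zero_le_one (min_le_left _ _)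

/-- `W_M(τ) = ∫ trap_M(x) x^{-iτ} dx` -/
noncomputable def Wi (M τ : ℝ) : ℂ :=
  ∫ x in (M / 2)..(8 * M), (trap M x : ℂ) * Complex.exp (-(((τ * Real.log x : ℝ) : ℂ) * Complex.I))

/-! ### elementary facts about the trapezoid -/

noncomputable def SmT1 (M x : ℝ) : ℝ := max 0 (min 1 ((x - M / 2) / (M / 2)))

noncomputable def SmT2 (M x : ℝ) : ℝ := max 0 (min 1 ((x - 4 * M) / (4 * M)))

theorem SmT1_mono {M : ℝ} (hM : 0 < M) : Monotone (SmT1 M) := by
  intro x y h
  unfold SmT1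
  gcongr

theorem SmT2_mono {M : ℝ} (hM : 0 < M) : Monotone (SmT2 M) := by
  intro x y h
  unfold SmT2
  gcongr

theorem SmT1_nonneg (M x : ℝ) : 0 ≤ SmT1 M x := le_max_left _ _

theorem SmT1_le_one (M x : ℝ) : SmT1 M x ≤ 1 := max_le zero_le_one (min_le_left _ _)

theorem SmT2_nonneg (M x : ℝ) : 0 ≤ SmT2 M x := le_max_left _ _

theorem SmT2_le_one (M x : ℝ) : SmT2 M x ≤ 1 := max_le zero_le_one (min_le_left _ _)

theorem trap_eq_sub {M : ℝ} (hM : 0 < M) (x : ℝ) : trap M x = SmT1 M x - SmT2 M x := by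
  unfold trap SmT1 SmT2
  rcases le_total x (4 * M) with h | h
  · have hb : 1 ≤ (8 * M - x) / (4 * M) := by
      rw [le_div_iff₀ (by linarith)]
      linarith
    have hc : (x - 4 * M) / (4 * M) ≤ 0 :=
      div_nonpos_of_nonpos_of_nonneg (by linarith) (by linarith)
    rw [min_left_comm, min_eq_left hb, min_comm, min_eq_right (hc.trans zero_le_one),
      max_eq_left hc, sub_zero]
  · have ha : 1 ≤ (x - M / 2) / (M / 2) := by
      rw [le_div_iff₀ (by linarith)]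
      linarith
    have hb : (8 * M - x) / (4 * M) = 1 - (x - 4 * M) / (4 * M) := by
      field_simp
      ring
    have hc : 0 ≤ (x - 4 * M) / (4 * M) := div_nonneg (by linarith) (by linarith)
    rw [hb, min_eq_left ha]
    set c := (x - 4 * M) / (4 * M)
    have h1 : 1 - c ≤ 1 := by linarith
    rw [min_eq_right (h1.trans ha), min_eq_right h1, max_eq_right zero_le_one]
    rcases le_total c 1 with h2 | h2
    · rw [min_eq_right h2, max_eq_right hc, max_eq_right (by linarith)]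
    · rw [min_eq_left h2, max_eq_right zero_le_one, max_eq_left (by linarith)]
      ring

theorem trap_eq_zero_left {M x : ℝ} (hM : 0 < M) (h : x ≤ M / 2) : trap M x = 0 := by
  unfold trap
  apply max_eq_left
  apply (min_le_right _ _).trans ((min_le_left _ _).trans _)
  exact div_nonpos_of_nonpos_of_nonneg (by linarith) (by linarith)

theorem trap_eq_zero_right {M x : ℝ} (hM : 0 < M) (h : 8 * M ≤ x) : trap M x = 0 := by
  unfold trap
  apply max_eq_left
  apply (min_le_right _ _).trans ((min_le_right _ _).trans _)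
  exact div_nonpos_of_nonpos_of_nonneg (by linarith) (by linarith)

theorem trap_piece1 {M x : ℝ} (hM : 0 < M) (h : M / 2 ≤ x) (h' : x ≤ M) :
    trap M x = (x - M / 2) / (M / 2) := by
  have h1 : (x - M / 2) / (M / 2) ≤ 1 := by
    rw [div_le_iff₀ (by linarith)]
    linarith
  have h2 : 0 ≤ (x - M / 2) / (M / 2) := div_nonneg (by linarith) (by linarith)
  have h3 : 1 ≤ (8 * M - x) / (4 * M) := by
    rw [le_div_iff₀ (by linarith)]
    linarith
  unfold trap
  rw [min_eq_left (h1.trans h3), min_eq_right h1, max_eq_right h2]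

theorem trap_piece2 {M x : ℝ} (hM : 0 < M) (h : M ≤ x) (h' : x ≤ 4 * M) :
    trap M x = 1 := by
  have h1 : 1 ≤ (x - M / 2) / (M / 2) := by
    rw [le_div_iff₀ (by linarith)]
    linarith
  have h3 : 1 ≤ (8 * M - x) / (4 * M) := by
    rw [le_div_iff₀ (by linarith)]
    linarith
  unfold trap
  rw [min_eq_left (le_min h1 h3), max_eq_right zero_le_one]

theorem trap_piece3 {M x : ℝ} (hM : 0 < M) (h : 4 * M ≤ x) (h' : x ≤ 8 * M) :
    trap M x = (8 * M - x) / (4 * M) := by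
  have h1 : 1 ≤ (x - M / 2) / (M / 2) := by
    rw [le_div_iff₀ (by linarith)]
    linarith
  have h2 : 0 ≤ (8 * M - x) / (4 * M) := div_nonneg (by linarith) (by linarith)
  have h3 : (8 * M - x) / (4 * M) ≤ 1 := by
    rw [div_le_iff₀ (by linarith)]
    linarith
  unfold trap
  rw [min_eq_right (h3.trans h1), min_eq_right h3, max_eq_right h2]

theorem continuous_trap (M : ℝ) : Continuous (trap M) := by
  unfold trap
  fun_prop

theorem trap_mul {M e : ℝ} (hM : M ≠ 0) (he : 0 < e) (x : ℝ) :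
    trap M (e * x) = trap (M / e) x := by
  unfold trap
  have h1 : (e * x - M / 2) / (M / 2) = (x - M / e / 2) / (M / e / 2) := by
    field_simp
  have h2 : (8 * M - e * x) / (4 * M) = (8 * (M / e) - x) / (4 * (M / e)) := by
    field_simp
  rw [h1, h2]

/-! ### the smooth integral -/

noncomputable def SmE (τ x : ℝ) : ℂ := Complex.exp (-(((τ * Real.log x : ℝ) : ℂ) * Complex.I))

noncomputable def SmS (τ : ℝ) : ℂ := 1 - (τ : ℂ) * Complex.I

/-- `x^s / s` -/
noncomputable def SmP (τ x : ℝ) : ℂ := (x : ℂ) * SmE τ x / SmS τ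

/-- `x^(s+1) / (s (s+1))` -/
noncomputable def SmR (τ x : ℝ) : ℂ := (x : ℂ) ^ 2 * SmE τ x / (SmS τ * (SmS τ + 1))

theorem SmS_ne (τ : ℝ) : SmS τ ≠ 0 := by
  intro h
  have := congrArg Complex.re h
  simp [SmS] at this

theorem SmS1_ne (τ : ℝ) : SmS τ + 1 ≠ 0 := by
  intro h
  have := congrArg Complex.re h
  simp [SmS] at this
  try norm_num at this

theorem norm_SmE (τ x : ℝ) : ‖SmE τ x‖ = 1 := by
  unfold SmE
  rw [← neg_mul, ← Complex.ofReal_neg]
  exact Complex.norm_exp_ofReal_mul_I _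

theorem hasDerivAt_SmE (τ : ℝ) {x : ℝ} (hx : 0 < x) :
    HasDerivAt (SmE τ) (SmE τ x * (-((τ : ℂ) / x * Complex.I))) x := by
  unfold SmE
  have h1 : HasDerivAt (fun x : ℝ => τ * Real.log x) (τ * x⁻¹) x :=
    (Real.hasDerivAt_log hx.ne').const_mul τ
  have h2 : HasDerivAt (fun x : ℝ => -(((τ * Real.log x : ℝ) : ℂ) * Complex.I))
      (-(((τ * x⁻¹ : ℝ) : ℂ) * Complex.I)) x := (h1.ofReal_comp.mul_const Complex.I).neg
  refine h2.cexp.congr_deriv ?_
  push_cast
  rw [div_eq_mul_inv]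

theorem hasDerivAt_SmP (τ : ℝ) {x : ℝ} (hx : 0 < x) :
    HasDerivAt (SmP τ) (SmE τ x) x := by
  unfold SmP
  have h1 := ((hasDerivAt_id x).ofReal_comp.mul (hasDerivAt_SmE τ hx)).div_const (SmS τ)
  have hx' : (x : ℂ) ≠ 0 := by exact_mod_cast hx.ne'
  refine h1.congr_deriv ?_
  have hs := SmS_ne τ
  rw [div_eq_iff hs]
  simp only [id, SmS]
  field_simp
  push_cast
  ring

theorem hasDerivAt_SmR (τ : ℝ) {x : ℝ} (hx : 0 < x) :
    HasDerivAt (SmR τ) (SmP τ x) x := by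
  unfold SmR SmP
  have h0 : HasDerivAt (fun x : ℝ => ((x : ℂ)) ^ 2) (2 * (x : ℂ)) x := by
    have h3 : HasDerivAt (fun x : ℝ => (x : ℂ)) 1 x := (hasDerivAt_id x).ofReal_comp
    have := h3.mul h3
    refine (this.congr_deriv (by ring)).congr_of_eventuallyEq ?_
    exact Filter.Eventually.of_forall fun y => by simp [sq]
  have h1 := (h0.mul (hasDerivAt_SmE τ hx)).div_const (SmS τ * (SmS τ + 1))
  have hx' : (x : ℂ) ≠ 0 := by exact_mod_cast hx.ne'
  refine h1.congr_deriv ?_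
  have hs := SmS_ne τ
  have hs1 := SmS1_ne τ
  rw [div_eq_div_iff (mul_ne_zero hs hs1) hs]
  simp only [SmS]
  field_simp
  ring

theorem continuousOn_SmE (τ : ℝ) {a b : ℝ} (ha : 0 < a) (hab : a ≤ b) :
    ContinuousOn (SmE τ) (Set.uIcc a b) := by
  intro x hx
  rw [Set.uIcc_of_le hab] at hx
  exact (hasDerivAt_SmE τ (ha.trans_le hx.1)).continuousAt.continuousWithinAt

theorem Sm_intervalIntegrable (M τ : ℝ) {a b : ℝ} (ha : 0 < a) (hab : a ≤ b) :
    IntervalIntegrable (fun x => (trap M x : ℂ) * SmE τ x) volume a b := by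
  apply ContinuousOn.intervalIntegrable
  apply ContinuousOn.mul _ (continuousOn_SmE τ ha hab)
  exact (Complex.continuous_ofReal.comp (continuous_trap M)).continuousOn

theorem Sm_piece {M τ α β a b : ℝ} (ha : 0 < a) (hab : a ≤ b)
    (h : ∀ x, a ≤ x → x ≤ b → trap M x = α * x + β) :
    ∫ x in a..b, (trap M x : ℂ) * SmE τ x =
      (((α * b + β : ℝ) : ℂ) * SmP τ b - (α : ℂ) * SmR τ b) -
        (((α * a + β : ℝ) : ℂ) * SmP τ a - (α : ℂ) * SmR τ a) := by
  have key := intervalIntegral.integral_eq_sub_of_hasDerivAt (a := a) (b := b)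
    (f := fun x : ℝ => ((α * x + β : ℝ) : ℂ) * SmP τ x - (α : ℂ) * SmR τ x)
    (f' := fun x : ℝ => (trap M x : ℂ) * SmE τ x) ?_ (Sm_intervalIntegrable M τ ha hab)
  · exact key
  · intro x hx
    rw [Set.uIcc_of_le hab] at hx
    have hx0 : 0 < x := ha.trans_le hx.1
    have e1 : HasDerivAt (fun x : ℝ => ((α * x + β : ℝ) : ℂ)) (α : ℂ) x := by
      have h3 : HasDerivAt (fun x : ℝ => α * x + β) (α * 1) x :=
        ((hasDerivAt_id x).const_mul α).add_const β
      rw [mul_one] at h3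
      exact h3.ofReal_comp
    refine ((e1.mul (hasDerivAt_SmP τ hx0)).sub
      ((hasDerivAt_SmR τ hx0).const_mul (α : ℂ))).congr_deriv ?_
    rw [h x hx.1 hx.2]
    ring

theorem Wi_eq {M : ℝ} (hM : 0 < M) (τ : ℝ) :
    Wi M τ = -(2 / (M : ℂ)) * (SmR τ M - SmR τ (M / 2)) +
      (SmR τ (8 * M) - SmR τ (4 * M)) / (4 * M) := by
  have hMc : (M : ℂ) ≠ 0 := by exact_mod_cast hM.ne'
  have h0 : Wi M τ = ∫ x in (M / 2)..(8 * M), (trap M x : ℂ) * SmE τ x := rfl
  rw [h0, ← intervalIntegral.integral_add_adjacent_intervals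
    (Sm_intervalIntegrable M τ (a := M / 2) (b := M) (by linarith) (by linarith))
    (Sm_intervalIntegrable M τ (a := M) (b := 8 * M) hM (by linarith)),
    ← intervalIntegral.integral_add_adjacent_intervals (a := M)
    (Sm_intervalIntegrable M τ (a := M) (b := 4 * M) hM (by linarith))
    (Sm_intervalIntegrable M τ (a := 4 * M) (b := 8 * M) (by linarith) (by linarith)),
    Sm_piece (M := M) (τ := τ) (α := 2 / M) (β := -1) (a := M / 2) (b := M) (by linarith)
      (by linarith) (by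
        intro x h1 h2
        rw [trap_piece1 hM h1 h2]
        field_simp
        ring),
    Sm_piece (M := M) (τ := τ) (α := 0) (β := 1) (a := M) (b := 4 * M) (by linarith)
      (by linarith) (by
        intro x h1 h2
        rw [trap_piece2 hM h1 h2]
        ring),
    Sm_piece (M := M) (τ := τ) (α := -(1 / (4 * M))) (β := 2) (a := 4 * M) (b := 8 * M)
      (by linarith) (by linarith) (by
        intro x h1 h2
        rw [trap_piece3 hM h1 h2]
        field_simp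
        ring)]
  push_cast
  field_simp
  ring

theorem norm_SmS_ge (τ : ℝ) : 1 + τ ^ 2 ≤ ‖SmS τ * (SmS τ + 1)‖ := by
  have h1 : 1 + τ ^ 2 = Complex.normSq (SmS τ) := by
    simp [SmS, Complex.normSq_apply]
    ring
  have h2 : Complex.normSq (SmS τ) ≤ Complex.normSq (SmS τ + 1) := by
    simp [SmS, Complex.normSq_apply]
    norm_num
  rw [norm_mul, h1]
  rw [← Complex.sq_norm] at h2 ⊢
  rw [← Complex.sq_norm] at h2
  have h3 : ‖SmS τ‖ ≤ ‖SmS τ + 1‖ := (pow_le_pow_iff_left₀ (norm_nonneg _) (norm_nonneg _)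
    two_ne_zero).1 h2
  rw [sq]
  exact mul_le_mul_of_nonneg_left h3 (norm_nonneg _)

theorem norm_SmR_le (τ : ℝ) {x : ℝ} (hx : 0 ≤ x) : ‖SmR τ x‖ ≤ x ^ 2 / (1 + τ ^ 2) := by
  unfold SmR
  rw [norm_div, norm_mul, norm_SmE, mul_one, norm_pow, Complex.norm_real, Real.norm_eq_abs,
    abs_of_nonneg hx]
  exact div_le_div_of_nonneg_left (by positivity) (by positivity) (norm_SmS_ge τ)

/-- two integrations by parts -/
theorem Wi_bound : ∃ C : ℝ, 0 < C ∧ ∀ M τ : ℝ, 0 < M → ‖Wi M τ‖ ≤ C * M / (1 + τ ^ 2) := by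
  refine ⟨23, by norm_num, ?_⟩
  intro M τ hM
  rw [Wi_eq hM]
  have hτ : 0 < 1 + τ ^ 2 := by positivity
  refine (norm_add_le _ _).trans ?_
  rw [norm_mul, norm_neg, norm_div, norm_div]
  have e1 : ‖(2 : ℂ)‖ = 2 := by simp
  have e2 : ‖(M : ℂ)‖ = M := by rw [Complex.norm_real, Real.norm_eq_abs, abs_of_pos hM]
  have e3 : ‖(4 * M : ℂ)‖ = 4 * M := by rw [norm_mul, e2]; simp
  rw [e1, e2, e3]
  have h1 : ‖SmR τ M - SmR τ (M / 2)‖ ≤ M ^ 2 / (1 + τ ^ 2) + (M / 2) ^ 2 / (1 + τ ^ 2) :=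
    (norm_sub_le _ _).trans (add_le_add (norm_SmR_le τ hM.le) (norm_SmR_le τ (by linarith)))
  have h2 : ‖SmR τ (8 * M) - SmR τ (4 * M)‖ ≤
      (8 * M) ^ 2 / (1 + τ ^ 2) + (4 * M) ^ 2 / (1 + τ ^ 2) :=
    (norm_sub_le _ _).trans (add_le_add (norm_SmR_le τ (by linarith))
      (norm_SmR_le τ (by linarith)))
  calc 2 / M * ‖SmR τ M - SmR τ (M / 2)‖ + ‖SmR τ (8 * M) - SmR τ (4 * M)‖ / (4 * M)
      ≤ 2 / M * (M ^ 2 / (1 + τ ^ 2) + (M / 2) ^ 2 / (1 + τ ^ 2)) +
        ((8 * M) ^ 2 / (1 + τ ^ 2) + (4 * M) ^ 2 / (1 + τ ^ 2)) / (4 * M) := by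
        gcongr
    _ = (45 / 2) * M / (1 + τ ^ 2) := by
        field_simp
        ring
    _ ≤ 23 * M / (1 + τ ^ 2) := by
        gcongr
        norm_num

/-! ### comparison of sum and integral -/

noncomputable def SmCl (M x : ℝ) : ℝ := min (max x (M / 2)) (8 * M)

theorem SmCl_mono (M : ℝ) : Monotone (SmCl M) := by
  intro x y h
  unfold SmCl
  gcongr

theorem SmCl_ge {M : ℝ} (hM : 0 < M) (x : ℝ) : M / 2 ≤ SmCl M x :=
  le_min (le_max_right _ _) (by linarith)

theorem SmCl_le (M x : ℝ) : SmCl M x ≤ 8 * M := min_le_right _ _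

theorem SmCl_eq {M x : ℝ} (h : M / 2 ≤ x) (h' : x ≤ 8 * M) : SmCl M x = x := by
  unfold SmCl
  rw [max_eq_left h, min_eq_left h']

noncomputable def SmF (M τ x : ℝ) : ℂ := (trap M x : ℂ) * SmE τ (SmCl M x)

theorem SmF_eq {M : ℝ} (hM : 0 < M) (τ x : ℝ) : (trap M x : ℂ) * SmE τ x = SmF M τ x := by
  unfold SmF
  rcases le_total x (M / 2) with h | h
  · rw [trap_eq_zero_left hM h]
    simp
  rcases le_total x (8 * M) with h' | h'
  · rw [SmCl_eq h h']
  · rw [trap_eq_zero_right hM h']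
    simp

theorem continuous_SmF {M : ℝ} (hM : 0 < M) (τ : ℝ) : Continuous (SmF M τ) := by
  unfold SmF SmE
  have h1 : Continuous (SmCl M) := by
    unfold SmCl
    fun_prop
  have h2 : Continuous fun x => Real.log (SmCl M x) :=
    h1.log fun x => ne_of_gt (lt_of_lt_of_le (by linarith) (SmCl_ge hM x))
  have h3 := continuous_trap M
  fun_prop

noncomputable def SmV (M τ x : ℝ) : ℝ := SmT1 M x + SmT2 M x + |τ| * Real.log (SmCl M x)

theorem norm_exp_sub_le (a b : ℝ) :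
    ‖Complex.exp (-((a : ℂ) * Complex.I)) - Complex.exp (-((b : ℂ) * Complex.I))‖ ≤ |a - b| := by
  have h1 : Complex.exp (-((a : ℂ) * Complex.I)) =
      Complex.exp (-((b : ℂ) * Complex.I)) * Complex.exp (Complex.I * ((b - a : ℝ) : ℂ)) := by
    rw [← Complex.exp_add]
    congr 1
    push_cast
    ring
  rw [h1, ← mul_sub_one, norm_mul]
  have h2 : ‖Complex.exp (-((b : ℂ) * Complex.I))‖ = 1 := by
    rw [← neg_mul, ← Complex.ofReal_neg]
    exact Complex.norm_exp_ofReal_mul_I _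
  rw [h2, one_mul, abs_sub_comm]
  exact Real.norm_exp_I_mul_ofReal_sub_one_le

theorem SmF_var {M : ℝ} (hM : 0 < M) (τ : ℝ) {x y : ℝ} (h : x ≤ y) :
    ‖SmF M τ y - SmF M τ x‖ ≤ SmV M τ y - SmV M τ x := by
  have h1 : SmF M τ y - SmF M τ x = ((trap M y - trap M x : ℝ) : ℂ) * SmE τ (SmCl M y) +
      (trap M x : ℂ) * (SmE τ (SmCl M y) - SmE τ (SmCl M x)) := by
    unfold SmF
    push_cast
    ring
  rw [h1]
  refine (norm_add_le _ _).trans ?_
  rw [norm_mul, norm_mul, norm_SmE, mul_one, Complex.norm_real, Complex.norm_real,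
    Real.norm_eq_abs, Real.norm_eq_abs, abs_of_nonneg (trap_nonneg M x)]
  have hlog : Real.log (SmCl M x) ≤ Real.log (SmCl M y) :=
    Real.log_le_log (lt_of_lt_of_le (by linarith) (SmCl_ge hM x)) (SmCl_mono M h)
  have h2 : ‖SmE τ (SmCl M y) - SmE τ (SmCl M x)‖ ≤
      |τ| * (Real.log (SmCl M y) - Real.log (SmCl M x)) := by
    unfold SmE
    refine (norm_exp_sub_le _ _).trans ?_
    rw [← mul_sub, abs_mul, abs_of_nonneg (sub_nonneg.2 hlog)]
  have h3 : trap M x * ‖SmE τ (SmCl M y) - SmE τ (SmCl M x)‖ ≤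
      |τ| * (Real.log (SmCl M y) - Real.log (SmCl M x)) := by
    calc trap M x * ‖SmE τ (SmCl M y) - SmE τ (SmCl M x)‖
        ≤ 1 * ‖SmE τ (SmCl M y) - SmE τ (SmCl M x)‖ :=
          mul_le_mul_of_nonneg_right (trap_le_one M x) (norm_nonneg _)
      _ ≤ _ := by rw [one_mul]; exact h2
  have h4 : |trap M y - trap M x| ≤ (SmT1 M y - SmT1 M x) + (SmT2 M y - SmT2 M x) := by
    rw [trap_eq_sub hM, trap_eq_sub hM]
    have a1 := SmT1_mono hM h
    have a2 := SmT2_mono hM h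
    rw [abs_le]
    constructor <;> linarith
  unfold SmV
  linarith

theorem SmV_diff {M : ℝ} (hM : 0 < M) (τ : ℝ) {x y : ℝ} :
    SmV M τ y - SmV M τ x ≤ 2 + |τ| * Real.log 16 := by
  have h1 : Real.log (SmCl M y) - Real.log (SmCl M x) ≤ Real.log 16 := by
    rw [← Real.log_div (ne_of_gt (lt_of_lt_of_le (by linarith) (SmCl_ge hM y)))
      (ne_of_gt (lt_of_lt_of_le (by linarith) (SmCl_ge hM x)))]
    apply Real.log_le_log
    · exact div_pos (lt_of_lt_of_le (by linarith) (SmCl_ge hM y))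
        (lt_of_lt_of_le (by linarith) (SmCl_ge hM x))
    · rw [div_le_iff₀ (lt_of_lt_of_le (by linarith) (SmCl_ge hM x))]
      linarith [SmCl_le M y, SmCl_ge hM x]
  have h2 := mul_le_mul_of_nonneg_left h1 (abs_nonneg τ)
  unfold SmV
  linarith [SmT1_nonneg M x, SmT2_nonneg M x, SmT1_le_one M y, SmT2_le_one M y]

theorem SmF_sum_int {M : ℝ} (hM : 0 < M) (τ : ℝ) {e : ℕ} (he : 1 ≤ e) (N : ℕ) :
    ‖∑ m ∈ Finset.range N, SmF M τ ((e : ℝ) * ((m + 1 : ℕ) : ℝ)) -
      (1 / (e : ℂ)) * ∫ x in (0 : ℝ)..((e : ℝ) * (N : ℝ)), SmF M τ x‖ ≤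
      2 + |τ| * Real.log 16 := by
  have he0 : (0 : ℝ) < e := by exact_mod_cast he
  have hc := continuous_SmF hM τ
  have h1 : ∫ x in (0 : ℝ)..((e : ℝ) * (N : ℝ)), SmF M τ x =
      ∑ m ∈ Finset.range N, ∫ x in ((e : ℝ) * (m : ℝ))..((e : ℝ) * ((m + 1 : ℕ) : ℝ)),
        SmF M τ x := by
    have := intervalIntegral.sum_integral_adjacent_intervals (f := SmF M τ) (μ := volume)
      (a := fun m : ℕ => (e : ℝ) * (m : ℝ)) (n := N)
      (fun k _ => hc.intervalIntegrable _ _)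
    rw [this]
    simp
  rw [h1, Finset.mul_sum, ← Finset.sum_sub_distrib]
  refine (norm_sum_le _ _).trans ?_
  calc ∑ m ∈ Finset.range N, ‖SmF M τ ((e : ℝ) * ((m + 1 : ℕ) : ℝ)) - (1 / (e : ℂ)) *
        ∫ x in ((e : ℝ) * (m : ℝ))..((e : ℝ) * ((m + 1 : ℕ) : ℝ)), SmF M τ x‖
      ≤ ∑ m ∈ Finset.range N, (SmV M τ ((e : ℝ) * ((m + 1 : ℕ) : ℝ)) -
          SmV M τ ((e : ℝ) * (m : ℝ))) := by
        apply Finset.sum_le_sum
        intro m _
        set b : ℝ := (e : ℝ) * ((m + 1 : ℕ) : ℝ) with hb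
        set a : ℝ := (e : ℝ) * (m : ℝ) with ha
        have hba : b - a = e := by
          rw [hb, ha]
          push_cast
          ring
        have hab : a ≤ b := by linarith
        have hec : (e : ℂ) ≠ 0 := by exact_mod_cast he0.ne'
        have h2 : SmF M τ b - (1 / (e : ℂ)) * ∫ x in a..b, SmF M τ x =
            (1 / (e : ℂ)) * ∫ x in a..b, (SmF M τ b - SmF M τ x) := by
          rw [intervalIntegral.integral_sub (by simp) (hc.intervalIntegrable _ _),
            intervalIntegral.integral_const, hba, mul_sub]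
          congr 1
          rw [Complex.real_smul]
          push_cast
          field_simp
        rw [h2, norm_mul]
        have h3 : ‖∫ x in a..b, (SmF M τ b - SmF M τ x)‖ ≤ (SmV M τ b - SmV M τ a) * |b - a| := by
          apply intervalIntegral.norm_integral_le_of_norm_le_const
          intro x hx
          rw [Set.uIoc_of_le hab] at hx
          have h4 := SmF_var hM τ hx.2
          have h5 := SmF_var hM τ hx.1.le
          have h6 := (norm_nonneg _).trans h5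
          linarith
        rw [hba, abs_of_pos he0] at h3
        have h7 : ‖(1 / (e : ℂ))‖ = 1 / (e : ℝ) := by
          rw [norm_div, norm_one, Complex.norm_natCast]
        rw [h7]
        calc 1 / (e : ℝ) * ‖∫ x in a..b, (SmF M τ b - SmF M τ x)‖
            ≤ 1 / (e : ℝ) * ((SmV M τ b - SmV M τ a) * e) := by gcongr
          _ = SmV M τ b - SmV M τ a := by field_simp
    _ = SmV M τ ((e : ℝ) * (N : ℝ)) - SmV M τ ((e : ℝ) * ((0 : ℕ) : ℝ)) :=
        Finset.sum_range_sub (fun m : ℕ => SmV M τ ((e : ℝ) * (m : ℝ))) N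
    _ ≤ _ := SmV_diff hM τ

theorem Wi_eq_SmF {M : ℝ} (hM : 0 < M) (τ : ℝ) {b : ℝ} (hb : 8 * M ≤ b) :
    Wi M τ = ∫ x in (0 : ℝ)..b, SmF M τ x := by
  have hc := continuous_SmF hM τ
  rw [← intervalIntegral.integral_add_adjacent_intervals (a := 0) (b := M / 2) (c := b)
    (hc.intervalIntegrable _ _) (hc.intervalIntegrable _ _),
    ← intervalIntegral.integral_add_adjacent_intervals (a := M / 2) (b := 8 * M) (c := b)
    (hc.intervalIntegrable _ _) (hc.intervalIntegrable _ _)]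
  have h1 : ∫ x in (0 : ℝ)..(M / 2), SmF M τ x = 0 := by
    rw [intervalIntegral.integral_congr (g := fun _ => (0 : ℂ))]
    · simp
    · intro x hx
      rw [Set.uIcc_of_le (by linarith)] at hx
      simp [SmF, trap_eq_zero_left hM hx.2]
  have h2 : ∫ x in (8 * M)..b, SmF M τ x = 0 := by
    rw [intervalIntegral.integral_congr (g := fun _ => (0 : ℂ))]
    · simp
    · intro x hx
      rw [Set.uIcc_of_le hb] at hx
      simp [SmF, trap_eq_zero_right hM hx.1]
  rw [h1, h2, zero_add, add_zero]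
  unfold Wi
  apply intervalIntegral.integral_congr
  intro x _
  exact SmF_eq hM τ x

theorem Sm_sum_eq {M : ℝ} (hM : 0 < M) (τ : ℝ) {e : ℕ} (he : 1 ≤ e) :
    ∑ n ∈ (Finset.Icc 1 ⌊8 * M⌋₊).filter (fun n => e ∣ n), (trap M n : ℂ) * ep τ n =
      ∑ m ∈ Finset.range (⌊8 * M⌋₊ + 1), SmF M τ ((e : ℝ) * ((m + 1 : ℕ) : ℝ)) := by
  have h1 : ∑ n ∈ (Finset.Icc 1 ⌊8 * M⌋₊).filter (fun n => e ∣ n), (trap M n : ℂ) * ep τ n =
      ∑ n ∈ (Finset.Icc 1 ⌊8 * M⌋₊).filter (fun n => e ∣ n), SmF M τ n := by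
    apply Finset.sum_congr rfl
    intro n _
    exact SmF_eq hM τ n
  rw [h1]
  have h2 : ∑ m ∈ Finset.range (⌊8 * M⌋₊ + 1), SmF M τ ((e : ℝ) * ((m + 1 : ℕ) : ℝ)) =
      ∑ m ∈ (Finset.range (⌊8 * M⌋₊ + 1)).filter (fun m => e * (m + 1) ≤ ⌊8 * M⌋₊),
        SmF M τ ((e : ℝ) * ((m + 1 : ℕ) : ℝ)) := by
    symm
    apply Finset.sum_subset (Finset.filter_subset _ _)
    intro m hm hm'
    rw [Finset.mem_filter, not_and] at hm'
    have h3 := hm' hm
    have h4 : 8 * M ≤ (e : ℝ) * ((m + 1 : ℕ) : ℝ) := by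
      have h5 : ⌊8 * M⌋₊ + 1 ≤ e * (m + 1) := by omega
      have h6 : (8 * M) < (⌊8 * M⌋₊ : ℝ) + 1 := Nat.lt_floor_add_one _
      have h7 : ((⌊8 * M⌋₊ + 1 : ℕ) : ℝ) ≤ ((e * (m + 1) : ℕ) : ℝ) := by exact_mod_cast h5
      push_cast at h7 ⊢
      linarith
    rw [SmF, trap_eq_zero_right hM h4]
    simp
  rw [h2]
  symm
  apply Finset.sum_bij (fun m _ => e * (m + 1))
  · intro m hm
    rw [Finset.mem_filter] at hm
    rw [Finset.mem_filter, Finset.mem_Icc]
    exact ⟨⟨Nat.one_le_iff_ne_zero.2 (Nat.mul_ne_zero (by omega) (by omega)), hm.2⟩,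
      Dvd.intro _ rfl⟩
  · intro m _ m' _ h
    have := Nat.eq_of_mul_eq_mul_left (by omega) h
    omega
  · intro n hn
    rw [Finset.mem_filter, Finset.mem_Icc] at hn
    obtain ⟨⟨hn1, hn2⟩, k, rfl⟩ := hn
    have hk : 1 ≤ k := by
      rcases Nat.eq_zero_or_pos k with rfl | h
      · simp at hn1
      · exact h
    have hk2 : k ≤ ⌊8 * M⌋₊ := (Nat.le_mul_of_pos_left k (by omega)).trans hn2
    refine ⟨k - 1, ?_, ?_⟩
    · rw [Finset.mem_filter, Finset.mem_range]
      refine ⟨by omega, ?_⟩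
      rwa [Nat.sub_add_cancel hk]
    · rw [Nat.sub_add_cancel hk]
  · intro m _
    push_cast
    rfl

/-- sums over multiples of `e`, small `τ`: `|∑_{e | n} trap_M(n) n^{-iτ} - W_M(τ)/e| ≤ C (1 + |τ|)` (comparison with the integral,
total variation). -/
theorem trap_small : ∃ C : ℝ, 0 < C ∧ ∀ (M τ : ℝ) (e : ℕ), 1 ≤ M → 1 ≤ e →
    ‖∑ n ∈ (Finset.Icc 1 ⌊8 * M⌋₊).filter (fun n => e ∣ n), (trap M n : ℂ) * ep τ n - (1 / (e : ℂ)) * Wi M τ‖ ≤
      C * (1 + |τ|) := by
  refine ⟨2 + Real.log 16, ?_, ?_⟩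
  · have : 0 ≤ Real.log 16 := Real.log_nonneg (by norm_num)
    linarith
  intro M τ e hM he
  have hM0 : 0 < M := by linarith
  have he0 : (1 : ℝ) ≤ e := by exact_mod_cast he
  have h0 : (8 * M) < (⌊8 * M⌋₊ : ℝ) + 1 := Nat.lt_floor_add_one _
  have h1 : 8 * M ≤ (e : ℝ) * ((⌊8 * M⌋₊ + 1 : ℕ) : ℝ) := by
    push_cast
    nlinarith
  rw [Sm_sum_eq hM0 τ he, Wi_eq_SmF hM0 τ h1]
  refine (SmF_sum_int hM0 τ he _).trans ?_
  have h2 : 0 ≤ Real.log 16 := Real.log_nonneg (by norm_num)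
  nlinarith [abs_nonneg τ]

/-! ### Abel summation -/

theorem Sm_abel (w : ℕ → ℝ) (z : ℕ → ℂ) (a N : ℕ) (h : a ≤ N) :
    ∑ m ∈ Finset.Ioc a N, (w m : ℂ) * z m = (w N : ℂ) * (∑ m ∈ Finset.Ioc a N, z m) -
      ∑ m ∈ Finset.Ico a N, ((w (m + 1) - w m : ℝ) : ℂ) * ∑ i ∈ Finset.Ioc a m, z i := by
  induction N, h using Nat.le_induction with
  | base => simp
  | succ N hN ih =>
    rw [Finset.sum_Ioc_succ_top hN, ih, Finset.sum_Ioc_succ_top hN, Finset.sum_Ico_succ_top hN]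
    push_cast
    ring

theorem Sm_abel_le (w V : ℕ → ℝ) (z : ℕ → ℂ) (a N : ℕ) (h : a ≤ N) (B : ℝ) (hw : |w N| ≤ 1)
    (hV : ∀ m, |w (m + 1) - w m| ≤ V (m + 1) - V m) (hV2 : V N - V a ≤ 2)
    (hB : ∀ u, a ≤ u → u ≤ N → ‖∑ m ∈ Finset.Ioc a u, z m‖ ≤ B) :
    ‖∑ m ∈ Finset.Ioc a N, (w m : ℂ) * z m‖ ≤ 3 * B := by
  have hB0 : 0 ≤ B := (norm_nonneg _).trans (hB a le_rfl h)
  rw [Sm_abel w z a N h]
  refine (norm_sub_le _ _).trans ?_
  have h1 : ‖(w N : ℂ) * (∑ m ∈ Finset.Ioc a N, z m)‖ ≤ B := by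
    rw [norm_mul, Complex.norm_real, Real.norm_eq_abs]
    calc |w N| * ‖∑ m ∈ Finset.Ioc a N, z m‖ ≤ 1 * B :=
          mul_le_mul hw (hB N h le_rfl) (norm_nonneg _) zero_le_one
      _ = B := one_mul B
  have h2 : ‖∑ m ∈ Finset.Ico a N, ((w (m + 1) - w m : ℝ) : ℂ) * ∑ i ∈ Finset.Ioc a m, z i‖ ≤
      2 * B := by
    refine (norm_sum_le _ _).trans ?_
    calc ∑ m ∈ Finset.Ico a N, ‖((w (m + 1) - w m : ℝ) : ℂ) * ∑ i ∈ Finset.Ioc a m, z i‖
        ≤ ∑ m ∈ Finset.Ico a N, (V (m + 1) - V m) * B := by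
          apply Finset.sum_le_sum
          intro m hm
          rw [Finset.mem_Ico] at hm
          rw [norm_mul, Complex.norm_real, Real.norm_eq_abs]
          exact mul_le_mul (hV m) (hB m hm.1 hm.2.le) (norm_nonneg _)
            ((abs_nonneg _).trans (hV m))
      _ = (V N - V a) * B := by
          rw [← Finset.sum_mul, Finset.sum_Ico_eq_sub _ h, Finset.sum_range_sub,
            Finset.sum_range_sub]
          ring
      _ ≤ 2 * B := mul_le_mul_of_nonneg_right hV2 hB0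
  linarith

/-- sums over multiples of `e`, large `τ` (`n = e m`, partial summation from `exp_sum`). -/
theorem trap_large (k : ℕ) : ∃ c : ℝ, 0 < c ∧ c ≤ 1 / 4 ∧ ∃ C : ℝ, 0 < C ∧ ∀ (M τ : ℝ) (e : ℕ), 1 ≤ e →
    (16 * e : ℝ) ≤ M → (8 * M) ^ (1 / 4 : ℝ) ≤ |τ| → |τ| ≤ (M / (4 * e)) ^ k →
    ‖∑ n ∈ (Finset.Icc 1 ⌊8 * M⌋₊).filter (fun n => e ∣ n), (trap M n : ℂ) * ep τ n‖ ≤ C * (8 * M) ^ (1 - c) := by
  obtain ⟨c, hc0, hc1, C0, hC0, hexp⟩ := exp_sum k
  refine ⟨c, hc0, hc1, 15 * C0, by positivity, ?_⟩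
  intro M τ e he hM hτ1 hτ2
  have he1 : (1 : ℝ) ≤ e := by exact_mod_cast he
  have he0 : (0 : ℝ) < e := by linarith
  have hM0 : 0 < M := by linarith
  set x : ℝ := M / e with hx
  have hx16 : 16 ≤ x := by
    rw [hx, le_div_iff₀ he0]
    exact hM
  have hxM : x ≤ M := div_le_self hM0.le he1
  have hτ2' : |τ| ≤ (x / 4) ^ k := by
    have : M / (4 * e) = x / 4 := by
      rw [hx]
      field_simp
    rwa [this] at hτ2
  -- reduction to the sum over `m`
  have hsum : ∑ n ∈ (Finset.Icc 1 ⌊8 * M⌋₊).filter (fun n => e ∣ n), (trap M n : ℂ) * ep τ n =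
      ep τ e * ∑ m ∈ Finset.Icc 1 ⌊8 * x⌋₊, (trap x m : ℂ) * ep τ m := by
    rw [Finset.mul_sum]
    symm
    apply Finset.sum_bij (fun m _ => e * m)
    · intro m hm
      rw [Finset.mem_Icc] at hm
      rw [Finset.mem_filter, Finset.mem_Icc]
      refine ⟨⟨Nat.one_le_iff_ne_zero.2 (Nat.mul_ne_zero (by omega) (by omega)), ?_⟩,
        Dvd.intro _ rfl⟩
      apply Nat.le_floor
      have h1 : (m : ℝ) ≤ 8 * x := (Nat.le_floor_iff (by linarith)).1 hm.2
      push_cast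
      calc (e : ℝ) * m ≤ e * (8 * x) := by gcongr
        _ = 8 * M := by
          rw [hx]
          field_simp
    · intro m _ m' _ h
      exact Nat.eq_of_mul_eq_mul_left (by omega) h
    · intro n hn
      rw [Finset.mem_filter, Finset.mem_Icc] at hn
      obtain ⟨⟨hn1, hn2⟩, m, rfl⟩ := hn
      have hk : 1 ≤ m := by
        rcases Nat.eq_zero_or_pos m with rfl | h
        · simp at hn1
        · exact h
      refine ⟨m, ?_, rfl⟩
      rw [Finset.mem_Icc]
      refine ⟨hk, Nat.le_floor ?_⟩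
      have h1 : ((e * m : ℕ) : ℝ) ≤ 8 * M := (Nat.le_floor_iff (by linarith)).1 hn2
      push_cast at h1
      rw [hx, mul_div_assoc', le_div_iff₀ he0]
      linarith
    · intro m hm
      rw [Finset.mem_Icc] at hm
      rw [ep_mul τ (by omega) (by omega)]
      push_cast
      rw [trap_mul hM0.ne' he0, ← hx]
      ring
  rw [hsum, norm_mul, norm_ep, one_mul]
  set N := ⌊8 * x⌋₊ with hN
  set M0 := ⌊x / 2⌋₊ with hM0def
  have hM0le : (M0 : ℝ) ≤ x / 2 := Nat.floor_le (by linarith)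
  have hM0ge : x / 2 < (M0 : ℝ) + 1 := Nat.lt_floor_add_one _
  have hNle : (N : ℝ) ≤ 8 * x := Nat.floor_le (by linarith)
  have hM0N : M0 ≤ N := Nat.floor_le_floor (by linarith)
  have hdrop : ∑ m ∈ Finset.Icc 1 N, (trap x m : ℂ) * ep τ m =
      ∑ m ∈ Finset.Ioc M0 N, (trap x m : ℂ) * ep τ m := by
    symm
    apply Finset.sum_subset
    · intro m hm
      rw [Finset.mem_Ioc] at hm
      rw [Finset.mem_Icc]
      omega
    · intro m hm hm'
      rw [Finset.mem_Icc] at hm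
      rw [Finset.mem_Ioc, not_and_or] at hm'
      have h1 : m ≤ M0 := by omega
      have h2 : (m : ℝ) ≤ x / 2 := (Nat.cast_le.2 h1).trans hM0le
      rw [trap_eq_zero_left (by linarith) h2]
      simp
  rw [hdrop]
  have hB : ∀ j : ℕ, j ≤ 5 → ∀ u, M0 ≤ u → u ≤ 2 ^ j * M0 →
      ‖∑ m ∈ Finset.Ioc M0 u, ep τ m‖ ≤ j * (C0 * (8 * M) ^ (1 - c)) := by
    intro j
    induction j with
    | zero =>
      intro _ u hu hu'
      have : u = M0 := by omega
      subst this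
      simp
    | succ j ih =>
      intro hj u hu hu'
      have hpos : 0 ≤ C0 * (8 * M) ^ (1 - c) := by positivity
      rcases le_total u (2 ^ j * M0) with h | h
      · have h1 := ih (by omega) u hu h
        push_cast
        linarith
      · have hle : M0 ≤ 2 ^ j * M0 := Nat.le_mul_of_pos_left _ (by positivity)
        have h1 := ih (by omega) (2 ^ j * M0) hle le_rfl
        have h2 : ∑ m ∈ Finset.Ioc M0 u, ep τ m = ∑ m ∈ Finset.Ioc M0 (2 ^ j * M0), ep τ m +
            ∑ m ∈ Finset.Ioc (2 ^ j * M0) u, ep τ m :=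
          (Finset.sum_Ioc_consecutive _ hle h).symm
        have hj4 : (2 : ℝ) ^ j ≤ 16 := by
          calc (2 : ℝ) ^ j ≤ 2 ^ 4 := pow_le_pow_right₀ (by norm_num) (by omega)
            _ = 16 := by norm_num
        have hj1 : (1 : ℝ) ≤ 2 ^ j := one_le_pow₀ (by norm_num)
        have hM1 : (1 : ℝ) ≤ (M0 : ℝ) := by linarith
        have h3 : (((2 ^ j * M0 : ℕ)) : ℝ) ≤ 8 * M := by
          push_cast
          calc (2 : ℝ) ^ j * M0 ≤ 16 * (x / 2) := by gcongr
            _ ≤ 8 * M := by linarith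
        have h4 : (M0 : ℝ) ≤ ((2 ^ j * M0 : ℕ) : ℝ) := by exact_mod_cast hle
        have h5 := hexp (2 ^ j * M0) u τ (by
            have : 1 ≤ M0 := by exact_mod_cast hM1
            omega) h (by
            rw [pow_succ] at hu'
            linarith) ((Real.rpow_le_rpow (by positivity) h3 (by norm_num)).trans hτ1)
            (hτ2'.trans (pow_le_pow_left₀ (by linarith) (by linarith) k))
        have h6 : (((2 ^ j * M0 : ℕ)) : ℝ) ^ (1 - c) ≤ (8 * M) ^ (1 - c) :=
          Real.rpow_le_rpow (by positivity) h3 (by linarith)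
        have h7 := mul_le_mul_of_nonneg_left h6 hC0.le
        rw [h2]
        refine (norm_add_le _ _).trans ?_
        push_cast at h1 h5 h7 ⊢
        linarith
  have hN5 : N ≤ 2 ^ 5 * M0 := by
    have h1 : (N : ℝ) ≤ 32 * (M0 : ℝ) := by linarith
    have h2 : N ≤ 32 * M0 := by exact_mod_cast h1
    omega
  have hx0 : 0 < x := by linarith
  have hfin := Sm_abel_le (fun m => trap x m) (fun m => SmT1 x m + SmT2 x m) (fun m => ep τ m) M0 N
    hM0N (5 * (C0 * (8 * M) ^ (1 - c)))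
    (by
      rw [abs_of_nonneg (trap_nonneg _ _)]
      exact trap_le_one _ _)
    (by
      intro m
      have a1 := SmT1_mono hx0 (show ((m : ℕ) : ℝ) ≤ ((m + 1 : ℕ) : ℝ) by push_cast; linarith)
      have a2 := SmT2_mono hx0 (show ((m : ℕ) : ℝ) ≤ ((m + 1 : ℕ) : ℝ) by push_cast; linarith)
      simp only [trap_eq_sub hx0]
      rw [abs_le]
      constructor <;> linarith)
    (by
      have b1 := SmT1_nonneg x M0
      have b2 := SmT2_nonneg x M0
      have b3 := SmT1_le_one x N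
      have b4 := SmT2_le_one x N
      linarith)
    (by
      intro u hu hu'
      have := hB 5 le_rfl u hu (hu'.trans hN5)
      push_cast at this
      exact this)
  refine hfin.trans (le_of_eq ?_)
  ring

end Pool.MP_67663b_nt.MR
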