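import Pool.Agent.Lib.MP_67663b_nt.MR.ZetaUp

set_option autoImplicit false
open Filter Topology MeasureTheory
namespace Pool.MP_67663b_nt.MR
open Pool.MP_67663b_nt.Odd

private theorem ZetaLow_341 {α : ℝ} (hα : 0 < α) (τ : ℝ) :
    1 ≤ ‖riemannZeta (1 + (α : ℂ))‖ ^ 3 *
      ‖riemannZeta (1 + (α : ℂ) + (τ : ℂ) * Complex.I)‖ ^ 4 *
      ‖riemannZeta (1 + (α : ℂ) + ((2 * τ : ℝ) : ℂ) * Complex.I)‖ := by
  have h := DirichletCharacter.norm_LFunction_product_ge_one (N := 1) (1 : DirichletCharacter ℂ 1)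
    hα τ
  rw [DirichletCharacter.LFunctionTrivChar, DirichletCharacter.LFunction_modOne_eq,
    DirichletCharacter.LFunction_modOne_eq, norm_mul, norm_mul, norm_pow, norm_pow] at h
  have e1 : (1 : ℂ) + (α : ℂ) + Complex.I * (τ : ℂ) = 1 + (α : ℂ) + (τ : ℂ) * Complex.I := by ring
  have e2 : (1 : ℂ) + (α : ℂ) + 2 * Complex.I * (τ : ℂ) =
      1 + (α : ℂ) + ((2 * τ : ℝ) : ℂ) * Complex.I := by
    push_cast
    ring
  rw [e1, e2] at h
  exact h

private noncomputable def ZetaLowF : ℂ → ℂ := Function.update (fun s => (s - 1) * riemannZeta s) 1 1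

private theorem ZetaLowF_cont : Continuous ZetaLowF := by
  rw [continuous_iff_continuousAt]
  intro s
  by_cases hs : s = 1
  · subst hs
    unfold ZetaLowF
    rw [continuousAt_update_same]
    exact riemannZeta_residue_one
  · unfold ZetaLowF
    rw [continuousAt_update_of_ne hs]
    exact (continuousAt_id.sub continuousAt_const).mul (differentiableAt_riemannZeta hs).continuousAt

private theorem ZetaLow_compact : ∃ m : ℝ, 0 < m ∧ ∀ s : ℂ, 1 ≤ s.re → s.re ≤ 2 → |s.im| ≤ 1 →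
    s ≠ 1 → m ≤ ‖(s - 1) * riemannZeta s‖ := by
  have hK : IsCompact (Set.Icc (1 : ℝ) 2 ×ℂ Set.Icc (-1 : ℝ) 1) :=
    isCompact_Icc.reProdIm isCompact_Icc
  have hne : (Set.Icc (1 : ℝ) 2 ×ℂ Set.Icc (-1 : ℝ) 1).Nonempty :=
    ⟨1, by simp [Complex.mem_reProdIm]⟩
  obtain ⟨s0, hs0, hmin⟩ := hK.exists_isMinOn hne (ZetaLowF_cont.norm.continuousOn)
  have hpos : 0 < ‖ZetaLowF s0‖ := by
    rw [norm_pos_iff]
    unfold ZetaLowF
    by_cases h1 : s0 = 1
    · rw [h1, Function.update_self]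
      exact one_ne_zero
    · rw [Function.update_of_ne h1]
      rw [Complex.mem_reProdIm] at hs0
      exact mul_ne_zero (sub_ne_zero.mpr h1) (riemannZeta_ne_zero_of_one_le_re hs0.1.1)
  refine ⟨‖ZetaLowF s0‖, hpos, fun s h1 h2 h3 h4 => ?_⟩
  have hs : s ∈ Set.Icc (1 : ℝ) 2 ×ℂ Set.Icc (-1 : ℝ) 1 := by
    rw [Complex.mem_reProdIm]
    exact ⟨⟨h1, h2⟩, abs_le.mp h3⟩
  have h5 := hmin hs
  have h6 : ZetaLowF s = (s - 1) * riemannZeta s := by
    unfold ZetaLowF
    rw [Function.update_of_ne h4]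
  rw [← h6]
  exact h5

private theorem ZetaLow_real : ∀ᶠ L : ℝ in atTop, ‖riemannZeta (1 + ((1 / L : ℝ) : ℂ))‖ ≤ 2 * L := by
  have h := riemannZeta_residue_one
  have h1 : Tendsto (fun L : ℝ => (1 : ℂ) + ((1 / L : ℝ) : ℂ)) atTop (𝓝[≠] 1) := by
    rw [tendsto_nhdsWithin_iff]
    refine ⟨?_, ?_⟩
    · have h2 : Tendsto (fun L : ℝ => ((1 / L : ℝ) : ℂ)) atTop (𝓝 0) := by
        have h3 : Tendsto (fun L : ℝ => 1 / L) atTop (𝓝 0) :=
          tendsto_const_nhds.div_atTop tendsto_id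
        have h4 := (Complex.continuous_ofReal.tendsto 0).comp h3
        rw [Complex.ofReal_zero] at h4
        exact h4
      simpa using h2.const_add 1
    · filter_upwards [eventually_gt_atTop 0] with L hL
      rw [Set.mem_compl_iff, Set.mem_singleton_iff]
      intro h5
      have h6 : ((1 / L : ℝ) : ℂ) = 0 := by
        have := add_left_cancel (a := (1 : ℂ)) (b := ((1 / L : ℝ) : ℂ)) (c := 0) (by rw [h5, add_zero])
        exact this
      rw [Complex.ofReal_eq_zero] at h6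
      have : 0 < 1 / L := by positivity
      linarith
  have h2 := (h.comp h1).norm
  rw [norm_one] at h2
  filter_upwards [h2.eventually (gt_mem_nhds (show (1 : ℝ) < 2 by norm_num)), eventually_gt_atTop 0]
    with L hL hL0
  simp only [Function.comp_apply, add_sub_cancel_left, norm_mul] at hL
  rw [Complex.norm_real, Real.norm_eq_abs, abs_of_pos (by positivity)] at hL
  have h3 : 1 / L * ‖riemannZeta (1 + ((1 / L : ℝ) : ℂ))‖ =
    ‖riemannZeta (1 + ((1 / L : ℝ) : ℂ))‖ / L := by ring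
  rw [h3, div_lt_iff₀ hL0] at hL
  exact hL.le

/-- `1/|ζ(1+1/log X+iτ)| = o(log X)` for `|τ| ≤ 2X` (3-4-1 inequality). -/
theorem zeta_low {δ : ℝ} (hδ : 0 < δ) : ∃ X0 : ℝ, ∀ X ≥ X0, ∀ τ : ℝ, |τ| ≤ 2 * X →
    1 / ‖riemannZeta (1 + ((1 / Real.log X : ℝ) : ℂ) + (τ : ℂ) * Complex.I)‖ ≤ δ * Real.log X := by
  obtain ⟨X1, hX1⟩ := zeta_up (show 0 < δ ^ 4 / 8 by positivity)
  obtain ⟨m, hm, hmin⟩ := ZetaLow_compact
  have hev := Real.tendsto_log_atTop.eventually
    (ZetaLow_real.and (eventually_ge_atTop (max 1 (2 / (m * δ)))))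
  obtain ⟨X2, hX2⟩ := eventually_atTop.mp hev
  refine ⟨max X1 X2, fun X hX τ hτ => ?_⟩
  obtain ⟨hreal, hL⟩ := hX2 X (le_trans (le_max_right _ _) hX)
  have hup := hX1 X (le_trans (le_max_left _ _) hX)
  set L := Real.log X with hLdef
  have hL1 : 1 ≤ L := le_trans (le_max_left _ _) hL
  have hL2 : 2 / (m * δ) ≤ L := le_trans (le_max_right _ _) hL
  have hL0 : 0 < L := by linarith
  have hα : 0 < 1 / L := by positivity
  have hα1 : 1 / L ≤ 1 := by
    rw [div_le_one hL0]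
    exact hL1
  set s : ℂ := 1 + ((1 / L : ℝ) : ℂ) + (τ : ℂ) * Complex.I with hs
  have hre : s.re = 1 + 1 / L := by simp [hs]
  have him : s.im = τ := by simp [hs]
  have hz0 : 0 < ‖riemannZeta s‖ := by
    rw [norm_pos_iff]
    exact riemannZeta_ne_zero_of_one_le_re (by rw [hre]; linarith)
  rw [div_le_iff₀ hz0]
  by_cases h1 : |τ| ≤ 1
  · have hs1 : s ≠ 1 := by
      intro h
      rw [h, Complex.one_re] at hre
      linarith
    have h2 := hmin s (by rw [hre]; linarith) (by rw [hre]; linarith) (by rw [him]; exact h1) hs1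
    rw [norm_mul] at h2
    have h3 : ‖s - 1‖ ≤ 2 := by
      have h4 : s - 1 = ((1 / L : ℝ) : ℂ) + (τ : ℂ) * Complex.I := by
        rw [hs]
        ring
      rw [h4]
      refine (norm_add_le _ _).trans ?_
      rw [norm_mul, Complex.norm_real, Complex.norm_real, Complex.norm_I, mul_one, Real.norm_eq_abs,
        Real.norm_eq_abs, abs_of_pos hα]
      linarith
    have h5 : m ≤ 2 * ‖riemannZeta s‖ := h2.trans (mul_le_mul_of_nonneg_right h3 hz0.le)
    rw [div_le_iff₀ (by positivity)] at hL2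
    nlinarith
  · push Not at h1
    have h2 := ZetaLow_341 hα τ
    rw [← hs] at h2
    have h3 : |2 * τ| ≤ 4 * X := by
      rw [abs_mul, abs_of_pos (by norm_num : (0 : ℝ) < 2)]
      linarith
    have h4 : 1 ≤ |2 * τ| := by
      rw [abs_mul, abs_of_pos (by norm_num : (0 : ℝ) < 2)]
      linarith
    have h5 := hup (1 / L) (2 * τ) hα hα1 h4 h3
    have h6 : ‖riemannZeta (1 + ((1 / L : ℝ) : ℂ))‖ ^ 3 ≤ (2 * L) ^ 3 :=
      pow_le_pow_left₀ (norm_nonneg _) hreal 3
    have h7 : 1 ≤ (2 * L) ^ 3 * ‖riemannZeta s‖ ^ 4 * (δ ^ 4 / 8 * L) := by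
      refine h2.trans ?_
      refine mul_le_mul ?_ h5 (norm_nonneg _) (by positivity)
      exact mul_le_mul_of_nonneg_right h6 (by positivity)
    have h8 : (2 * L) ^ 3 * ‖riemannZeta s‖ ^ 4 * (δ ^ 4 / 8 * L) = (δ * L * ‖riemannZeta s‖) ^ 4 := by
      ring
    rw [h8] at h7
    by_contra hcon
    push Not at hcon
    have h9 : (δ * L * ‖riemannZeta s‖) ^ 4 < 1 :=
      pow_lt_one₀ (by positivity) hcon (by norm_num)
    linarith

end Pool.MP_67663b_nt.MR
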