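import Pool.Agent.Lib.MP_67663b_nt.MR.ExpSum

set_option autoImplicit false
open Filter Topology MeasureTheory
namespace Pool.MP_67663b_nt.MR
open Pool.MP_67663b_nt.Odd

/-- Lipschitz bound for `x ^ (-s)`. -/
private theorem zetaUp_lip (s : ℂ) (hs : 1 < s.re) (a : ℝ) (ha : 1 ≤ a) (x y : ℝ) (hx : a ≤ x) (hxy : x ≤ y) :
    ‖(y : ℂ) ^ (-s) - (x : ℂ) ^ (-s)‖ ≤ ‖s‖ / a ^ 2 * (y - x) := by
  have h := norm_image_sub_le_of_norm_deriv_le_segment' (f := fun t : ℝ => (t : ℂ) ^ (-s))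
    (f' := fun t : ℝ => (-s) * (t : ℂ) ^ (-s - 1)) (a := x) (b := y) (C := ‖s‖ / a ^ 2) ?_ ?_ y
    (Set.right_mem_Icc.mpr hxy)
  · exact h
  · intro t ht
    refine HasDerivAt.hasDerivWithinAt ?_
    refine hasDerivAt_ofReal_cpow_const ?_ ?_
    · have := ht.1
      linarith
    · intro h0
      have : s = 0 := by simpa using h0
      rw [this] at hs
      simp at hs
      linarith
  · intro t ht
    have ht0 : 0 < t := by linarith [ht.1]
    have hta : a ≤ t := hx.trans ht.1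
    rw [norm_mul, norm_neg, Complex.norm_cpow_eq_rpow_re_of_pos ht0, div_eq_mul_inv]
    refine mul_le_mul_of_nonneg_left ?_ (norm_nonneg _)
    calc t ^ ((-s - 1).re) ≤ t ^ (-2 : ℝ) := by
          refine Real.rpow_le_rpow_of_exponent_le (by linarith) ?_
          simp
          linarith
      _ = (t ^ 2)⁻¹ := by rw [Real.rpow_neg ht0.le]; norm_cast
      _ ≤ (a ^ 2)⁻¹ := by gcongr

/-- one step comparison -/
private theorem zetaUp_step (s : ℂ) (hs : 1 < s.re) (n : ℕ) (hn : 1 ≤ n) :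
    ‖1 / ((n : ℂ) + 1) ^ s - ((n : ℂ) ^ (1 - s) - ((n : ℂ) + 1) ^ (1 - s)) / (s - 1)‖ ≤ ‖s‖ / (n : ℝ) ^ 2 := by
  have hn1 : (1 : ℝ) ≤ n := by exact_mod_cast hn
  have hs1 : s - 1 ≠ 0 := by
    intro h
    have : s = 1 := sub_eq_zero.mp h
    rw [this] at hs
    simp at hs
  have h := norm_image_sub_le_of_norm_deriv_le_segment'
    (f := fun t : ℝ => (t : ℂ) * (((n : ℝ) + 1 : ℝ) : ℂ) ^ (-s) - (t : ℂ) ^ (-s + 1) / (-s + 1))
    (f' := fun t : ℝ => 1 * (((n : ℝ) + 1 : ℝ) : ℂ) ^ (-s) - (t : ℂ) ^ (-s)) (a := n) (b := (n : ℝ) + 1)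
    (C := ‖s‖ / (n : ℝ) ^ 2) ?_ ?_ ((n : ℝ) + 1) (Set.right_mem_Icc.mpr (by linarith))
  · have e1 : (-s + 1 : ℂ) = 1 - s := by ring
    have e2 : (((n : ℝ) + 1 : ℝ) : ℂ) = (n : ℂ) + 1 := by push_cast; ring
    have e3 : 1 / ((n : ℂ) + 1) ^ s = ((n : ℂ) + 1) ^ (-s) := by
      rw [Complex.cpow_neg, one_div]
    have e4 : (((n : ℝ) : ℝ) : ℂ) = (n : ℂ) := by push_cast; ring
    simp only [e1, e2, e4] at h
    have hs1' : (1 - s) ≠ 0 := by
      intro h'
      apply hs1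
      linear_combination -h'
    have e5 : 1 / ((n : ℂ) + 1) ^ s - ((n : ℂ) ^ (1 - s) - ((n : ℂ) + 1) ^ (1 - s)) / (s - 1) =
        ((n : ℂ) + 1) * ((n : ℂ) + 1) ^ (-s) - ((n : ℂ) + 1) ^ (1 - s) / (1 - s) -
          ((n : ℂ) * ((n : ℂ) + 1) ^ (-s) - (n : ℂ) ^ (1 - s) / (1 - s)) := by
      rw [e3]
      have e6 : (s - 1) = -(1 - s) := by ring
      rw [e6]
      field_simp
      ring
    rw [e5]
    refine h.trans ?_
    rw [add_sub_cancel_left, mul_one]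
  · intro t ht
    refine HasDerivAt.hasDerivWithinAt (HasDerivAt.sub ?_ ?_)
    · exact (Complex.ofRealCLM.hasDerivAt (x := t)).mul_const _
    · refine hasDerivAt_ofReal_cpow_const' ?_ ?_
      · have := ht.1
        linarith
      · intro h0
        have : s = 1 := neg_injective h0
        rw [this] at hs
        simp at hs
  · intro t ht
    rw [one_mul]
    have h2 := zetaUp_lip s hs n hn1 t ((n : ℝ) + 1) ht.1 (by linarith [ht.2])
    refine h2.trans ?_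
    have h3 : ((n : ℝ) + 1 - t) ≤ 1 := by linarith [ht.1]
    have h4 : 0 ≤ ‖s‖ / (n : ℝ) ^ 2 := by positivity
    nlinarith

/-- comparison of partial sums -/
private theorem zetaUp_tail (s : ℂ) (hs : 1 < s.re) (N : ℕ) (hN : 1 ≤ N) (N' : ℕ) (hN' : N ≤ N') :
    ‖∑ n ∈ Finset.Ico N N', 1 / ((n : ℂ) + 1) ^ s - ((N : ℂ) ^ (1 - s) - (N' : ℂ) ^ (1 - s)) / (s - 1)‖ ≤
      ‖s‖ * (2 / (N : ℝ) - 2 / (N' : ℝ)) := by
  induction N', hN' using Nat.le_induction with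
  | base => simp
  | succ m hm ih =>
    rw [Finset.sum_Ico_succ_top hm]
    have hm0 : (1 : ℝ) ≤ m := by exact_mod_cast hN.trans hm
    have h1 := zetaUp_step s hs m (hN.trans hm)
    have e : ∑ n ∈ Finset.Ico N m, 1 / ((n : ℂ) + 1) ^ s + 1 / ((m : ℂ) + 1) ^ s -
        ((N : ℂ) ^ (1 - s) - ((m + 1 : ℕ) : ℂ) ^ (1 - s)) / (s - 1) =
        (∑ n ∈ Finset.Ico N m, 1 / ((n : ℂ) + 1) ^ s - ((N : ℂ) ^ (1 - s) - (m : ℂ) ^ (1 - s)) / (s - 1)) +
        (1 / ((m : ℂ) + 1) ^ s - ((m : ℂ) ^ (1 - s) - ((m : ℂ) + 1) ^ (1 - s)) / (s - 1)) := by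
      push_cast
      ring
    rw [e]
    refine (norm_add_le _ _).trans ((add_le_add ih h1).trans ?_)
    have h2 : 1 / (m : ℝ) ^ 2 ≤ 2 / (m : ℝ) - 2 / ((m + 1 : ℕ) : ℝ) := by
      push_cast
      rw [div_sub_div _ _ (by positivity) (by positivity), div_le_div_iff₀ (by positivity) (by positivity)]
      nlinarith [sq_nonneg (m : ℝ)]
    have h3 : ‖s‖ / (m : ℝ) ^ 2 = ‖s‖ * (1 / (m : ℝ) ^ 2) := by ring
    rw [h3, ← mul_add]
    refine mul_le_mul_of_nonneg_left ?_ (norm_nonneg _)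
    linarith

/-- approximation of zeta by a short sum -/
private theorem zetaUp_short (s : ℂ) (hs : 1 < s.re) (hs2 : s.re ≤ 2) (hi : 1 ≤ |s.im|) (N : ℕ) (hN : |s.im| ≤ N) :
    ‖riemannZeta s‖ ≤ ‖∑ n ∈ Finset.range N, 1 / ((n : ℂ) + 1) ^ s‖ + 8 := by
  have hN1 : (1 : ℝ) ≤ N := hi.trans hN
  have hN1' : 1 ≤ N := by exact_mod_cast hN1
  have hsn : ‖s‖ ≤ 3 * N := by
    have := Complex.norm_le_abs_re_add_abs_im s
    have h2 : |s.re| ≤ 2 := by rw [abs_of_pos (by linarith)]; exact hs2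
    linarith
  have hs1 : 1 ≤ ‖s - 1‖ := by
    have := Complex.abs_im_le_norm (s - 1)
    simp only [Complex.sub_im, Complex.one_im, sub_zero] at this
    linarith
  have hsum : Summable (fun n : ℕ => 1 / ((n : ℂ) + 1) ^ s) := by
    have := (Complex.summable_one_div_nat_cpow (p := s)).mpr hs
    have h2 := (summable_nat_add_iff 1).mpr this
    simpa using h2
  have ht := hsum.hasSum.tendsto_sum_nat
  rw [← zeta_eq_tsum_one_div_nat_add_one_cpow hs] at ht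
  refine le_of_tendsto ht.norm ?_
  filter_upwards [Filter.eventually_ge_atTop N] with N' hN'
  have h1 := zetaUp_tail s hs N hN1' N' hN'
  rw [← Finset.sum_range_add_sum_Ico _ hN']
  refine (norm_add_le _ _).trans ?_
  have hnc : ∀ m : ℕ, 1 ≤ m → ‖(m : ℂ) ^ (1 - s)‖ ≤ 1 := by
    intro m hm
    have hm1 : (1 : ℝ) ≤ m := by exact_mod_cast hm
    rw [Complex.norm_natCast_cpow_of_pos (by omega)]
    refine Real.rpow_le_one_of_one_le_of_nonpos hm1 ?_
    simp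
    linarith
  have h2 : ‖((N : ℂ) ^ (1 - s) - (N' : ℂ) ^ (1 - s)) / (s - 1)‖ ≤ 2 := by
    rw [norm_div, div_le_iff₀ (by linarith)]
    have := norm_sub_le ((N : ℂ) ^ (1 - s)) ((N' : ℂ) ^ (1 - s))
    have h3 := hnc N hN1'
    have h4 := hnc N' (hN1'.trans hN')
    linarith
  have h3 : ‖∑ n ∈ Finset.Ico N N', 1 / ((n : ℂ) + 1) ^ s‖ ≤ 8 := by
    have e : ∑ n ∈ Finset.Ico N N', 1 / ((n : ℂ) + 1) ^ s =
        (∑ n ∈ Finset.Ico N N', 1 / ((n : ℂ) + 1) ^ s - ((N : ℂ) ^ (1 - s) - (N' : ℂ) ^ (1 - s)) / (s - 1)) +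
        ((N : ℂ) ^ (1 - s) - (N' : ℂ) ^ (1 - s)) / (s - 1) := by ring
    rw [e]
    refine (norm_add_le _ _).trans ?_
    have h4 : ‖s‖ * (2 / (N : ℝ) - 2 / (N' : ℝ)) ≤ 6 := by
      have h5 : (2 / (N : ℝ) - 2 / (N' : ℝ)) ≤ 2 / N := by
        have : 0 ≤ 2 / (N' : ℝ) := by positivity
        linarith
      calc ‖s‖ * (2 / (N : ℝ) - 2 / (N' : ℝ)) ≤ ‖s‖ * (2 / N) := mul_le_mul_of_nonneg_left h5 (norm_nonneg _)
        _ ≤ (3 * N) * (2 / N) := mul_le_mul_of_nonneg_right hsn (by positivity)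
        _ = 6 := by field_simp; norm_num
    linarith
  linarith

/-- Abel summation bound -/
private theorem zetaUp_abel (w : ℕ → ℝ) (a : ℕ → ℂ) (M : ℕ) (B : ℝ) (hw0 : ∀ n, M ≤ n → 0 ≤ w n)
    (hw : ∀ n, M ≤ n → w (n + 1) ≤ w n) (M' : ℕ) (hMM : M ≤ M')
    (hB : ∀ m, M ≤ m → m ≤ M' → ‖∑ n ∈ Finset.Ioc M m, a n‖ ≤ B) :
    ‖∑ n ∈ Finset.Ioc M M', (w n : ℂ) * a n‖ ≤ w M * B := by
  have key : ∀ m, M ≤ m → m ≤ M' → ‖∑ n ∈ Finset.Ioc M m, (w n : ℂ) * a n - (w m : ℂ) * ∑ n ∈ Finset.Ioc M m, a n‖ ≤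
      (w M - w m) * B := by
    intro m hm
    induction m, hm using Nat.le_induction with
    | base => intro _; simp
    | succ m hm ih =>
      intro hm'
      have ih' := ih (by omega)
      rw [Finset.sum_Ioc_succ_top hm, Finset.sum_Ioc_succ_top hm]
      have e : ∑ n ∈ Finset.Ioc M m, (w n : ℂ) * a n + (w (m + 1) : ℂ) * a (m + 1) -
          (w (m + 1) : ℂ) * (∑ n ∈ Finset.Ioc M m, a n + a (m + 1)) =
          (∑ n ∈ Finset.Ioc M m, (w n : ℂ) * a n - (w m : ℂ) * ∑ n ∈ Finset.Ioc M m, a n) +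
          ((w m - w (m + 1) : ℝ) : ℂ) * ∑ n ∈ Finset.Ioc M m, a n := by
        push_cast
        ring
      rw [e]
      refine (norm_add_le _ _).trans ?_
      rw [norm_mul, Complex.norm_real, Real.norm_eq_abs, abs_of_nonneg (by linarith [hw m hm])]
      have h1 := mul_le_mul_of_nonneg_left (hB m hm (by omega)) (sub_nonneg.mpr (hw m hm))
      nlinarith
  have h1 := key M' hMM le_rfl
  have h2 := hB M' hMM le_rfl
  have e : ∑ n ∈ Finset.Ioc M M', (w n : ℂ) * a n =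
      (∑ n ∈ Finset.Ioc M M', (w n : ℂ) * a n - (w M' : ℂ) * ∑ n ∈ Finset.Ioc M M', a n) +
      (w M' : ℂ) * ∑ n ∈ Finset.Ioc M M', a n := by ring
  rw [e]
  refine (norm_add_le _ _).trans ?_
  rw [norm_mul, Complex.norm_real, Real.norm_eq_abs, abs_of_nonneg (hw0 M' hMM)]
  have h3 := mul_le_mul_of_nonneg_left h2 (hw0 M' hMM)
  nlinarith

/-- dyadic summation -/
private theorem zetaUp_dyadic (g : ℕ → ℂ) (N M0 : ℕ) (hM0 : 1 ≤ M0) (c C : ℝ) (hc : 0 < c) (hC : 0 < C)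
    (hg : ∀ M M' : ℕ, M0 ≤ M → M ≤ M' → M' ≤ 2 * M → M' ≤ N → ‖∑ n ∈ Finset.Ioc M M', g n‖ ≤ C * (M : ℝ) ^ (-c)) :
    ∀ d M : ℕ, N - M ≤ d → M0 ≤ M → M ≤ N →
      ‖∑ n ∈ Finset.Ioc M N, g n‖ ≤ C / (1 - (2 : ℝ) ^ (-c)) * (M : ℝ) ^ (-c) := by
  have h2c : (2 : ℝ) ^ (-c) < 1 := Real.rpow_lt_one_of_one_lt_of_neg (by norm_num) (by linarith)
  have h2c0 : 0 < (2 : ℝ) ^ (-c) := by positivity
  set C3 : ℝ := C / (1 - (2 : ℝ) ^ (-c)) with hC3
  have hC3' : C3 * (1 - (2 : ℝ) ^ (-c)) = C := by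
    rw [hC3]
    field_simp
    rw [div_self (by linarith)]
  have hC3C : C ≤ C3 := by
    rw [hC3, le_div_iff₀ (by linarith)]
    nlinarith
  intro d
  induction d with
  | zero =>
    intro M hd hM hMN
    have : M = N := by omega
    subst this
    simp
    have : 0 ≤ C3 := hC.le.trans hC3C
    positivity
  | succ d ih =>
    intro M hd hM hMN
    have hM1 : (1 : ℝ) ≤ M := by exact_mod_cast hM0.trans hM
    by_cases h : N ≤ 2 * M
    · refine (hg M N hM hMN h le_rfl).trans ?_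
      exact mul_le_mul_of_nonneg_right hC3C (by positivity)
    · push Not at h
      have h1 := hg M (2 * M) hM (by omega) le_rfl h.le
      have h2 := ih (2 * M) (by omega) (by omega) h.le
      rw [← Finset.sum_Ioc_consecutive _ (by omega : M ≤ 2 * M) h.le]
      refine (norm_add_le _ _).trans ?_
      have e : ((2 * M : ℕ) : ℝ) ^ (-c) = (2 : ℝ) ^ (-c) * (M : ℝ) ^ (-c) := by
        push_cast
        rw [Real.mul_rpow (by norm_num) (by positivity)]
      rw [e] at h2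
      have h3 : C * (M : ℝ) ^ (-c) = C3 * (1 - (2 : ℝ) ^ (-c)) * (M : ℝ) ^ (-c) := by rw [hC3']
      rw [h3] at h1
      linarith

/-- `|ζ(1+α+iτ)| = o(log X)` for `1 ≤ |τ| ≤ 4X`. -/
theorem zeta_up {ε : ℝ} (hε : 0 < ε) : ∃ X0 : ℝ, ∀ X ≥ X0, ∀ α τ : ℝ, 0 < α → α ≤ 1 → 1 ≤ |τ| → |τ| ≤ 4 * X →
    ‖riemannZeta (1 + (α : ℂ) + (τ : ℂ) * Complex.I)‖ ≤ ε * Real.log X := by
  obtain ⟨c, hc, hc4, C, hC, hexp⟩ := exp_sum ⌈8 / ε⌉₊
  set k : ℕ := ⌈8 / ε⌉₊ with hk
  have hkε : 8 / ε ≤ k := Nat.le_ceil _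
  set C3 : ℝ := C / (1 - (2 : ℝ) ^ (-c)) with hC3
  have h2c : (2 : ℝ) ^ (-c) < 1 := Real.rpow_lt_one_of_one_lt_of_neg (by norm_num) (by linarith)
  have hC30 : 0 < C3 := div_pos hC (by linarith)
  refine ⟨max 4 (Real.exp ((10 + C3) * 2 / ε)), fun X hX α τ hα hα1 hτ hτX => ?_⟩
  have hX4 : 4 ≤ X := (le_max_left _ _).trans hX
  have hX0 : 0 < X := by linarith
  have hXe : (10 + C3) * 2 / ε ≤ Real.log X :=
    (Real.le_log_iff_exp_le hX0).mpr ((le_max_right _ _).trans hX)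
  set s : ℂ := 1 + (α : ℂ) + (τ : ℂ) * Complex.I with hs
  have hsre : s.re = 1 + α := by simp [hs]
  have hsim : s.im = τ := by simp [hs]
  set N : ℕ := ⌈|τ|⌉₊ with hN
  have hNτ : |τ| ≤ N := Nat.le_ceil _
  have hshort := zetaUp_short s (by rw [hsre]; linarith) (by rw [hsre]; linarith) (by rw [hsim]; exact hτ) N
    (by rw [hsim]; exact hNτ)
  set w : ℕ → ℝ := fun n => (n : ℝ) ^ (-(1 + α)) with hw
  have hterm : ∀ n : ℕ, 1 ≤ n → 1 / ((n : ℕ) : ℂ) ^ s = (w n : ℂ) * ep τ n := by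
    intro n hn
    have hn0 : (n : ℂ) ≠ 0 := by
      have : n ≠ 0 := by omega
      exact_mod_cast this
    have hn0' : (0 : ℝ) < n := by exact_mod_cast hn
    rw [one_div, ← Complex.cpow_neg, Complex.cpow_def_of_ne_zero hn0, ep, hw]
    simp only
    rw [Real.rpow_def_of_pos hn0', Complex.ofReal_exp, ← Complex.exp_add]
    congr 1
    rw [← Complex.natCast_log, hs]
    push_cast
    ring
  have hsumeq : ∀ m : ℕ, ∑ n ∈ Finset.range m, 1 / ((n : ℂ) + 1) ^ s = ∑ n ∈ Finset.Ioc 0 m, (w n : ℂ) * ep τ n := by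
    intro m
    induction m with
    | zero => simp
    | succ m ih =>
      rw [Finset.sum_range_succ, Finset.sum_Ioc_succ_top (Nat.zero_le _), ih, ← hterm (m + 1) (by omega)]
      push_cast
      rfl
  rw [hsumeq N] at hshort
  -- trivial bound
  have hw1 : ∀ n : ℕ, 1 ≤ n → w n ≤ ((n : ℝ))⁻¹ := by
    intro n hn
    have hn1 : (1 : ℝ) ≤ n := by exact_mod_cast hn
    rw [← Real.rpow_neg_one]
    exact Real.rpow_le_rpow_of_exponent_le hn1 (by linarith)
  have hw0 : ∀ n : ℕ, 0 ≤ w n := fun n => Real.rpow_nonneg (Nat.cast_nonneg _) _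
  have hwm : ∀ n : ℕ, 1 ≤ n → w (n + 1) ≤ w n := by
    intro n hn
    have hn1 : (0 : ℝ) < n := by exact_mod_cast hn
    refine Real.rpow_le_rpow_of_nonpos hn1 ?_ (by linarith)
    push_cast
    linarith
  have htriv : ∀ m : ℕ, ‖∑ n ∈ Finset.Ioc 0 m, (w n : ℂ) * ep τ n‖ ≤ 1 + Real.log m := by
    intro m
    refine le_trans ?_ (harmonic_le_one_add_log m)
    refine (norm_sum_le _ _).trans ?_
    rw [harmonic_eq_sum_Icc]
    push_cast
    have e : Finset.Ioc 0 m = Finset.Icc 1 m := by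
      ext x
      simp only [Finset.mem_Ioc, Finset.mem_Icc]
      omega
    rw [e]
    refine Finset.sum_le_sum fun n hn => ?_
    rw [norm_mul, norm_ep, mul_one, Complex.norm_real, Real.norm_eq_abs, abs_of_nonneg (hw0 n)]
    exact hw1 n (Finset.mem_Icc.mp hn).1
  set M0 : ℕ := ⌈X ^ (ε / 4)⌉₊ with hM0
  have hXp : 1 ≤ X ^ (ε / 4) := Real.one_le_rpow (by linarith) (by positivity)
  have hM0a : X ^ (ε / 4) ≤ M0 := Nat.le_ceil _
  have hM0b : (M0 : ℝ) ≤ 2 * X ^ (ε / 4) := by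
    have := Nat.ceil_lt_add_one (by positivity : 0 ≤ X ^ (ε / 4))
    linarith
  have hM01r : (1 : ℝ) ≤ M0 := hXp.trans hM0a
  have hM01 : 1 ≤ M0 := by exact_mod_cast hM01r
  have hlogM0 : Real.log M0 ≤ 1 + ε / 4 * Real.log X := by
    have h1 : Real.log M0 ≤ Real.log (2 * X ^ (ε / 4)) := Real.log_le_log (by linarith) hM0b
    rw [Real.log_mul (by norm_num) (by positivity), Real.log_rpow hX0] at h1
    have := Real.log_two_lt_d9
    linarith
  have hmain : ‖∑ n ∈ Finset.Ioc 0 N, (w n : ℂ) * ep τ n‖ ≤ 2 + ε / 4 * Real.log X + C3 := by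
    by_cases hNM : N ≤ M0
    · refine (htriv N).trans ?_
      have hNp : (1 : ℝ) ≤ N := hτ.trans hNτ
      have h1 : Real.log N ≤ Real.log M0 := Real.log_le_log (by linarith) (by exact_mod_cast hNM)
      linarith
    · push Not at hNM
      rw [← Finset.sum_Ioc_consecutive _ (Nat.zero_le M0) hNM.le]
      refine (norm_add_le _ _).trans ?_
      have h1 := htriv M0
      have h2 := zetaUp_dyadic (fun n => (w n : ℂ) * ep τ n) N M0 hM01 c C hc hC ?_ (N - M0) M0 le_rfl le_rfl hNM.le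
      · have h3 : (M0 : ℝ) ^ (-c) ≤ 1 := Real.rpow_le_one_of_one_le_of_nonpos hM01r (by linarith)
        have h4 : C3 * (M0 : ℝ) ^ (-c) ≤ C3 := by nlinarith
        have h5 := h2.trans h4
        linarith
      · intro M M' hM hMM hM2 hMN
        have hM1 : (1 : ℝ) ≤ M := by exact_mod_cast hM01.trans hM
        rcases hMM.eq_or_lt with rfl | hlt
        · simp
          positivity
        have hMτ : (M : ℝ) < |τ| := Nat.lt_ceil.mp (lt_of_lt_of_le hlt hMN)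
        have hM14 : (M : ℝ) ^ (1 / 4 : ℝ) ≤ |τ| := by
          refine le_trans ?_ hMτ.le
          calc (M : ℝ) ^ (1 / 4 : ℝ) ≤ (M : ℝ) ^ (1 : ℝ) := Real.rpow_le_rpow_of_exponent_le hM1 (by norm_num)
            _ = M := Real.rpow_one _
        have hMk : |τ| ≤ (M : ℝ) ^ k := by
          have hMX : X ^ (ε / 4) ≤ M := hM0a.trans (by exact_mod_cast hM)
          have h1 : (X ^ (ε / 4)) ^ k ≤ (M : ℝ) ^ k := pow_le_pow_left₀ (by linarith) hMX k
          refine le_trans ?_ h1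
          rw [← Real.rpow_natCast, ← Real.rpow_mul hX0.le]
          have h2 : (2 : ℝ) ≤ ε / 4 * k := by
            rw [div_le_iff₀ hε] at hkε
            linarith
          calc |τ| ≤ 4 * X := hτX
            _ ≤ X ^ (2 : ℝ) := by
              have : X ^ (2 : ℝ) = X * X := by
                rw [show (2 : ℝ) = ((2 : ℕ) : ℝ) by norm_num, Real.rpow_natCast]
                ring
              rw [this]
              nlinarith
            _ ≤ X ^ (ε / 4 * k) := Real.rpow_le_rpow_of_exponent_le (by linarith) h2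
        refine (zetaUp_abel w (ep τ) M (C * (M : ℝ) ^ (1 - c)) (fun n _ => hw0 n)
          (fun n hn => hwm n (by omega)) M' hMM ?_).trans ?_
        · intro m hm1 hm2
          exact hexp M m τ (hM01.trans hM) hm1 (hm2.trans hM2) hM14 hMk
        · have h1 : w M ≤ (M : ℝ)⁻¹ := hw1 M (hM01.trans hM)
          have h2 : (M : ℝ) ^ (1 - c) = M * (M : ℝ) ^ (-c) := by
            rw [sub_eq_add_neg, Real.rpow_add (by linarith), Real.rpow_one]
          rw [h2]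
          calc w M * (C * (M * (M : ℝ) ^ (-c))) ≤ (M : ℝ)⁻¹ * (C * (M * (M : ℝ) ^ (-c))) :=
                mul_le_mul_of_nonneg_right h1 (by positivity)
            _ = C * (M : ℝ) ^ (-c) := by
                have : (M : ℝ) ≠ 0 := by linarith
                field_simp
  have hlog : (10 + C3) * 2 ≤ ε * Real.log X := by
    rw [div_le_iff₀ hε] at hXe
    linarith
  linarith

end Pool.MP_67663b_nt.MR
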